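import Pool.Agent.Work.Monodromy.Interface5
import Pool.Agent.Work.Monodromy4.TMain
import Pool.Agent.Work.Monodromy.YM
import Pool.Agent.Work.Monodromy.YC

/-!
# Block TM5: the monodromy conjecture for the class
-/

namespace Pool.Agent.Mono.RO

open MvPolynomial TS

namespace TM5Aux

variable {E ι : Type}

/-- value `0` and leading coefficient `q(p)` -/
def QB (B : Set (E → ℂ)) (q : MvPolynomial E ℂ) : Set (E ⊕ Bool → ℂ) :=
  {z | (fun p => z (Sum.inl p)) ∈ B ∧ z (Sum.inr true) = 0 ∧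
    z (Sum.inr false) = eval (fun p => z (Sum.inl p)) q}

theorem QB_ok [Finite E] {B : Set (E → ℂ)} (hB : Constructible B) {q : MvPolynomial E ℂ}
    (hq : ∀ p ∈ B, eval p q ≠ 0) : QOk Set.univ true (QB B q) := by
  refine ⟨?_, ?_⟩
  · have h1 : Constructible {z : E ⊕ Bool → ℂ | (fun p => z (Sum.inl p)) ∈ B} :=
      Constructible.comap (Sum.inl : E → E ⊕ Bool) hB
    have h2 := Constructible.zero (X (Sum.inr true) : MvPolynomial (E ⊕ Bool) ℂ)
    have h3 := Constructible.zero (X (Sum.inr false) - rename Sum.inl q : MvPolynomial (E ⊕ Bool) ℂ)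
    have h4 := (h1.inter h2).inter h3
    convert h4 using 1
    ext z
    simp only [QB, Set.mem_setOf_eq, Set.mem_inter_iff, eval_X, map_sub, eval_rename, sub_eq_zero]
    constructor
    · rintro ⟨a, b, c⟩
      exact ⟨⟨a, b⟩, c⟩
    · rintro ⟨⟨a, b⟩, c⟩
      exact ⟨a, b, c⟩
  · intro z hz
    refine ⟨Set.mem_univ _, fun _ => ?_⟩
    rw [hz.2.2]
    exact hq _ hz.1

theorem ctc_eq (f : MvPolynomial ι ℂ) (B : Set (E → ℂ)) (q : MvPolynomial E ℂ) {m : ℕ}
    (hm : 1 ≤ m) : ctc f B q m = SD f true (QB B q) m := by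
  ext z
  constructor
  · rintro ⟨h1, h2, h3⟩
    refine ⟨?_, ?_⟩
    · intro l _ hl
      exact h2 l (by simpa using hl)
    · refine ⟨h1, ?_, ?_⟩
      · show PowerSeries.coeff 0 (aeval z.2 f) = 0
        exact h2 0 hm
      · show PowerSeries.coeff m (aeval z.2 f) = eval z.1 q
        exact h3
  · rintro ⟨h1, h2, h3, h4⟩
    refine ⟨h2, ?_, h4⟩
    intro l hl
    rcases Nat.eq_zero_or_pos l with rfl | hl0
    · exact h3
    · exact h1 l hl0 (by simpa using hl)

theorem cl_atv_zero (P : HodgeMeasure) [Finite E] (B : Set (E → ℂ)) (q : MvPolynomial E ℂ)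
    (t : Fam) {c : ℂ} (hc : c ≠ 0) : (atv t c).cl P (QB B q) = 0 := by
  haveI := t.fin
  have h : {z : E ⊕ t.σ → ℂ | (fun s => z (Sum.inr s)) ∈ t.S ∧
      Sum.elim (fun p => z (Sum.inl p)) ((atv t c).pt fun s => z (Sum.inr s)) ∈ QB B q} = ∅ := by
    ext z
    simp only [Set.mem_setOf_eq, Set.mem_empty_iff_false, iff_false, not_and]
    intro _ h2
    apply hc
    have h3 : eval (fun s => z (Sum.inr s)) (C c : MvPolynomial t.σ ℂ) = 0 := h2.2.1
    rwa [eval_C] at h3
  show P.rat.val {z : E ⊕ t.σ → ℂ | (fun s => z (Sum.inr s)) ∈ t.S ∧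
      Sum.elim (fun p => z (Sum.inl p)) ((atv t c).pt fun s => z (Sum.inr s)) ∈ QB B q} = 0
  rw [h]
  exact P.rat.val_empty

end TM5Aux

open TM5Aux TMainAux in
theorem stmt_TM5 (hVA : Stmt_VA) (hQ1 : Stmt_Q1) (hQ5 : Stmt_Q5) (hW5 : Stmt_W5) :
    Stmt_TM5 := by
  intro ι _ _ f hf P e R _ hR s hs
  obtain ⟨hnc, hA⟩ := hf
  obtain ⟨Λ, hΛ, hW, hs', crit, ts, b, hE0, hex, -, -⟩ := hA P
  set B : Set (Bool → ℂ) := {z | z false ≠ 0 ∧ z true ^ e = z false} with hB
  have hBc : Constructible B := constructible_base e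
  have hBq : ∀ p ∈ B, eval p (X false : MvPolynomial Bool ℂ) ≠ 0 := by
    intro p hp
    rw [eval_X]
    exact hp.1
  have hQ := QB_ok hBc hBq
  have hval : ∀ m : ℕ, 1 ≤ m → AA P f B (X false) m =
      ((exF hs' crit ts).map fun G => G.κ m * G.cl P (QB B (X false))).sum := by
    intro m hm
    rw [AA, ctc_eq f B (X false) hm]
    exact hex.2 Bool _ hQ m fun _ => hm
  have hE1 : ESeq (Λ 0 ∪ {1}) fun m =>
      ((exF hs' crit ts).map fun G => G.κ m * G.cl P (QB B (X false))).sum := by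
    apply eseq_list hQ1
    intro G hG
    rcases List.mem_append.1 hG with hG | hG
    · obtain ⟨h, _, rfl⟩ := List.mem_map.1 hG
      have h2 := hQ1.1 {1} (Λ 0 ∪ {1}) _ (Set.subset_union_right) (eseq_haar hQ1 h.lam)
      have h3 := hQ1.2.2.1 _ _ (h.ex.cl P (QB B (X false))) h2
      convert h3 using 1
      funext m
      exact mul_comm _ _
    · obtain ⟨c, hc, hG⟩ := List.mem_flatMap.1 hG
      obtain ⟨t, ht, rfl⟩ := List.mem_map.1 hG
      by_cases hc0 : c = 0
      · subst hc0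
        have h2 := hQ1.1 (Λ 0) (Λ 0 ∪ {1}) _ (Set.subset_union_left)
          ((hE0 0 (by simpa using hc)).1 t ht)
        have h3 := hQ1.2.2.1 _ _ ((atv t 0).cl P (QB B (X false))) h2
        convert h3 using 1
        funext m
        exact mul_comm _ _
      · have h3 : (fun m => (atv t c).κ m * (atv t c).cl P (QB B (X false))) = fun _ => 0 := by
          funext m
          rw [cl_atv_zero P B (X false) t hc0, mul_zero]
        rw [h3]
        exact hQ1.2.2.2.1 _ _ 0 fun _ _ => rfl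
  have hE : ESeq (Λ 0 ∪ {1}) fun m => (P.rat.L ^ Fintype.card ι) * AA P f B (X false) m := by
    apply hQ1.2.2.1
    have h2 : ESeq (Λ 0 ∪ {1}) fun m => AA P f B (X false) m -
        ((exF hs' crit ts).map fun G => G.κ m * G.cl P (QB B (X false))).sum := by
      apply hQ1.2.2.2.1 _ _ 1
      intro m hm
      rw [hval m hm, sub_self]
    have h3 := hQ1.2.1 _ _ _ hE1 h2
    convert h3 using 1
    funext m
    ring
  have hR' : IsLim (zetaSer P.rat xq f e) R := hR
  rw [(hVA P ι f).2.2 e] at hR'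
  obtain ⟨r, hr, hsr⟩ := hQ5 _ _ R hE hR' s hs
  rcases hr with hr | hr
  · obtain ⟨β, k, hβ, hk, hw⟩ := hW 0 r hr
    rw [C_0, sub_zero] at hw
    have hne : ∀ n : ℕ, (β : ℂ) ≠ n := by
      intro n h
      have h1 : β = (n : ℚ) := by exact_mod_cast h
      rw [h1] at hβ
      have : (0 : ℚ) ≤ (n : ℚ) := Nat.cast_nonneg _
      linarith
    refine ⟨(β : ℂ), fun b hb => hW5 ι f β hne hw b (isEvBernstein_of hb), ?_⟩
    have h1 : (β : ℂ) = s + k := by
      rw [hsr, hk]
      push_cast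
      ring
    rw [h1, mul_add, Complex.exp_add]
    have h2 : Complex.exp (2 * Real.pi * Complex.I * (k : ℂ)) = 1 := by
      rw [Complex.exp_eq_one_iff]
      exact ⟨k, by ring⟩
    rw [h2, mul_one]
  · rw [Set.mem_singleton_iff] at hr
    refine ⟨-1, fun b hb => stmt_SM ι f b hnc hb, ?_⟩
    rw [hsr, hr]
    congr 1
    push_cast
    ring

end Pool.Agent.Mono.RO
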