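import Pool.Agent.Work.Monodromy.Interface5
import Pool.Agent.Work.Monodromy.Statement5
import Pool.Agent.Work.Monodromy4.Final4

/-!
# Read-once formulas
-/

set_option linter.unusedSectionVars false
set_option linter.style.haveILetI false

namespace Pool.Agent.Mono.RO

open MvPolynomial TS TS.FAux

/-- good up to an automorphism -/
def GoodA (ι : Type) [Fintype ι] [DecidableEq ι] (f : MvPolynomial ι ℂ) : Prop :=
  ∃ β : MvPolynomial ι ℂ ≃ₐ[ℂ] MvPolynomial ι ℂ, Good5 ι (β f)

theorem GoodA.of {ι : Type} [Fintype ι] [DecidableEq ι] {f : MvPolynomial ι ℂ} (h : Good5 ι f) :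
    GoodA ι f := ⟨AlgEquiv.refl, h⟩

theorem good_inst {ι : Type} (i1 i2 : Fintype ι) (d1 d2 : DecidableEq ι) (f : MvPolynomial ι ℂ)
    (h : @GoodA ι i1 d1 f) : @GoodA ι i2 d2 f := by
  have h1 : i1 = i2 := Subsingleton.elim _ _
  have h2 : d1 = d2 := Subsingleton.elim _ _
  subst h1 h2
  exact h

theorem readOnce_good (hAdm : TS.Stmt_Adm) (hA : Stmt_Adm5) {ι : Type} {f : MvPolynomial ι ℂ}
    (h : ReadOnce ι f) : ∀ [Fintype ι] [DecidableEq ι], GoodA ι f := by
  classical
  induction h with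
  | @arrangement ι κ i1 i2 a b c m f ha hf h =>
      intro i3 d3
      have h1 : i1 = i3 := Subsingleton.elim _ _
      subst h1
      obtain ⟨β, hβ⟩ := composite_adm hAdm (Composite.arrangement a b c m f ha hf h)
      exact ⟨β, hA.1 ι _ hβ⟩
  | @smooth ι i1 f h =>
      intro i3 d3
      have h1 : i1 = i3 := Subsingleton.elim _ _
      subst h1
      exact GoodA.of (hA.2.1 ι f h)
  | @add ι κ f g hf hg ihf ihg =>
      intro i3 d3
      have : Finite ι := Finite.of_injective (Sum.inl : ι → ι ⊕ κ) Sum.inl_injective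
      have : Finite κ := Finite.of_injective (Sum.inr : κ → ι ⊕ κ) Sum.inr_injective
      let _ := Fintype.ofFinite ι
      let _ := Fintype.ofFinite κ
      obtain ⟨β, hβ⟩ := ihf
      obtain ⟨γ, hγ⟩ := ihg
      refine good_inst (instFintypeSum ι κ) i3 (fun a b => instDecidableEqSum a b) d3 _
        ⟨sumAut β γ, ?_⟩
      rw [map_add, sumAut_inl, sumAut_inr]
      exact (hA.2.2.1 ι κ _ _ hβ hγ).1
  | @mul ι κ f g hf hg ihf ihg =>
      intro i3 d3
      have : Finite ι := Finite.of_injective (Sum.inl : ι → ι ⊕ κ) Sum.inl_injective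
      have : Finite κ := Finite.of_injective (Sum.inr : κ → ι ⊕ κ) Sum.inr_injective
      let _ := Fintype.ofFinite ι
      let _ := Fintype.ofFinite κ
      obtain ⟨β, hβ⟩ := ihf
      obtain ⟨γ, hγ⟩ := ihg
      refine good_inst (instFintypeSum ι κ) i3 (fun a b => instDecidableEqSum a b) d3 _
        ⟨sumAut β γ, ?_⟩
      rw [map_mul, sumAut_inl, sumAut_inr]
      exact (hA.2.2.1 ι κ _ _ hβ hγ).2
  | @comp ι f p hp hf ih =>
      intro i3 d3
      obtain ⟨β, hβ⟩ := ih
      refine ⟨β, ?_⟩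
      have h1 : β (Polynomial.aeval f p) = Polynomial.aeval (β f) p :=
        (Polynomial.aeval_algHom_apply β.toAlgHom f p).symm
      rw [h1]
      exact hA.2.2.2.1 _ _ p hp hβ
  | @rename ι κ f φ hφ hf ih =>
      intro i3 d3
      have : Finite ι := Finite.of_injective φ hφ
      let _ := Fintype.ofFinite ι
      obtain ⟨β, hβ⟩ := ih
      let e : ι ⊕ ((Set.range φ)ᶜ : Set κ) ≃ κ :=
        (Equiv.sumCongr (Equiv.ofInjective φ hφ) (Equiv.refl _)).trans
          (Equiv.Set.sumCompl (Set.range φ))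
      have h3 : (e ∘ Sum.inl : ι → κ) = φ := by
        funext i
        simp [e]
      let δ : MvPolynomial κ ℂ ≃ₐ[ℂ] MvPolynomial κ ℂ :=
        ((renameEquiv ℂ e).symm.trans (sumAut β AlgEquiv.refl)).trans (renameEquiv ℂ e)
      refine ⟨δ, ?_⟩
      have h4 : δ (MvPolynomial.rename φ f) = MvPolynomial.rename φ (β f) := by
        have h5 : (MvPolynomial.rename φ f : MvPolynomial κ ℂ) =
            renameEquiv ℂ e (MvPolynomial.rename Sum.inl f) := by
          rw [renameEquiv_apply, rename_rename, h3]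
        show renameEquiv ℂ e (sumAut β AlgEquiv.refl ((renameEquiv ℂ e).symm
          (MvPolynomial.rename φ f))) = _
        rw [h5, AlgEquiv.symm_apply_apply, sumAut_inl, renameEquiv_apply, rename_rename, h3]
      rw [h4]
      exact hA.2.2.2.2 ι κ _ φ hφ hβ
  | automorphism α hf ih =>
      intro i3 d3
      obtain ⟨β, hβ⟩ := ih
      refine ⟨α.symm.trans β, ?_⟩
      rw [AlgEquiv.trans_apply, AlgEquiv.symm_apply_apply]
      exact hβ

/-- invariance under automorphisms -/
theorem good_goodA (hM : Stmt_TM5) {ι : Type} [Fintype ι] [DecidableEq ι]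
    {f : MvPolynomial ι ℂ} (h : GoodA ι f) (P : HodgeMeasure) (e : ℕ) (he : 1 ≤ e)
    (R : RatFunc ℚ) (hR : IsTopZeta P f e R) : GoodPoles f R := by
  obtain ⟨β, hβ⟩ := h
  have hS := stmt_SI ι ι β f rfl
  intro s hs
  have hR' : IsTopZeta P (β f) e R := by
    rw [IsTopZeta, hS.1]
    exact hR
  obtain ⟨t, ht, he'⟩ := hM ι (β f) hβ P e R he hR' s hs
  exact ⟨t, fun b hb => ht b ((hS.2 b).1 hb), he'⟩

/-- the monodromy conjecture for read-once formulas -/
theorem readOnce_top (hAdm : TS.Stmt_Adm) (hA : Stmt_Adm5) (hM : Stmt_TM5) {ι : Type} [Fintype ι]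
    {f : MvPolynomial ι ℂ} (h : ReadOnce ι f) (P : HodgeMeasure) (R : RatFunc ℚ)
    (hR : IsTopologicalZeta P f R) : GoodPoles f R := by
  classical
  exact good_goodA hM (readOnce_good hAdm hA h) P 1 le_rfl R ((isTopologicalZeta_iff P f R).1 hR)

/-- the monodromy conjecture for read-once formulas, twisted -/
theorem readOnce_tw (hAdm : TS.Stmt_Adm) (hA : Stmt_Adm5) (hM : Stmt_TM5) {ι : Type} [Fintype ι]
    {f : MvPolynomial ι ℂ} (h : ReadOnce ι f) (P : HodgeMeasure) (e : ℕ) (he : 1 ≤ e)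
    (R : RatFunc ℚ) (hR : IsTwTopZeta P f e R) : GoodPoles f R := by
  classical
  exact good_twisted f P (fun d hd R hR => good_goodA hM (readOnce_good hAdm hA h) P d hd R hR)
    e he R hR

end Pool.Agent.Mono.RO
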