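import Pool.Agent.Work.Monodromy.Interface5
import Pool.Agent.Work.Monodromy4.VA
import Pool.Agent.Work.Monodromy.X0

/-!
# Block M5: mass identity
-/

set_option autoImplicit false

namespace Pool.Agent.Mono.RO

open MvPolynomial TS TS.VAAux

namespace M5Aux

section

variable {E ι : Type} [Fintype ι]

/-- the sets `PD` are cylinders -/
theorem cyl_PD (f : MvPolynomial ι ℂ) {Q : Set (E ⊕ Bool → ℂ)} (hQ : Constructible Q) (i e : ℕ)
    (A : ℕ → MvPolynomial (E ⊕ Bool) ℂ) : IsCyl (fun _ => i + 1 + e) (PD f Q i e A) := by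
  set n := i + 1 + e with hn
  have h0 : 0 < n := by omega
  have hi : i < n := by omega
  -- coordinates: parameters, value, leading coefficient
  set d : E ⊕ Bool → E ⊕ Fin n := Sum.elim Sum.inl (fun b => if b then Sum.inr ⟨0, h0⟩ else
    Sum.inr ⟨i, hi⟩) with hd
  have hQ' : Constructible {v : E ⊕ Fin n → ℂ |
      (∀ l : Fin n, (1 ≤ (l : ℕ) ∧ (l : ℕ) < i) → eval v (X (Sum.inr l)) = 0) ∧
      (fun j => v (d j)) ∈ Q ∧
      ∀ l : Fin e, eval v (X (Sum.inr ⟨i + 1 + l, by omega⟩)) = eval v (rename d (A l))} := by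
    refine Constructible.and ?_ (Constructible.and (Constructible.comap _ hQ) ?_)
    · exact Constructible.all fun l => Constructible.imp (Constructible.const _)
        (Constructible.zero _)
    · exact Constructible.all fun l => Constructible.eq _ _
  have h := cyl_one f n hQ'
  have h2 : PD f Q i e A = {z : (E → ℂ) × (ι → PowerSeries ℂ) |
      (Sum.elim z.1 fun s : Fin n => PowerSeries.coeff (s : ℕ) (aeval z.2 f)) ∈
        {v : E ⊕ Fin n → ℂ |
      (∀ l : Fin n, (1 ≤ (l : ℕ) ∧ (l : ℕ) < i) → eval v (X (Sum.inr l)) = 0) ∧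
      (fun j => v (d j)) ∈ Q ∧
      ∀ l : Fin e, eval v (X (Sum.inr ⟨i + 1 + l, by omega⟩)) = eval v (rename d (A l))}} := by
    ext z
    have h3 : (fun j => (Sum.elim z.1 fun s : Fin n =>
        PowerSeries.coeff (s : ℕ) (aeval z.2 f)) (d j)) =
        Sum.elim z.1 (dat true i (aeval z.2 f)) := by
      funext j
      rcases j with j | j
      · rfl
      · cases j <;> simp [hd, dat, ldc]
    simp only [PD, SD, cut, Set.mem_ofPred_eq, eval_X, Sum.elim_inr, eval_rename, if_true]
    rw [h3]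
    have h4 : ((Sum.elim z.1 fun s : Fin n => PowerSeries.coeff (s : ℕ) (aeval z.2 f)) ∘ d) =
        Sum.elim z.1 (dat true i (aeval z.2 f)) := h3
    rw [h4]
    constructor
    · rintro ⟨⟨h1, h2⟩, h3⟩
      exact ⟨fun l hl => h1 l hl.1 hl.2, h2, fun l => h3 l l.2⟩
    · rintro ⟨h1, h2, h3⟩
      exact ⟨⟨fun l hl1 hl2 => h1 ⟨l, by omega⟩ ⟨hl1, hl2⟩, h2⟩, fun l hl => h3 ⟨l, hl⟩⟩
  rw [h2]
  exact h

/-- the sets `SD` are cylinders -/
theorem cyl_SD (f : MvPolynomial ι ℂ) (w : Bool) {Q : Set (E ⊕ Bool → ℂ)} (hQ : Constructible Q)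
    (i : ℕ) : IsCyl (fun _ => i + 1) (SD f w Q i) := by
  cases w
  · have hQ' : Constructible {v : E ⊕ Fin (i + 1) → ℂ |
        (∀ l : Fin (i + 1), 1 ≤ (l : ℕ) → eval v (X (Sum.inr l)) = 0) ∧
        (fun j => eval v (Sum.elim (fun a => X (Sum.inl a)) (fun b : Bool => if b then
          X (Sum.inr ⟨0, by omega⟩) else 0) j : MvPolynomial (E ⊕ Fin (i + 1)) ℂ)) ∈ Q} := by
      refine Constructible.and ?_ (Constructible.preimage _ hQ)
      exact Constructible.all fun l => Constructible.imp (Constructible.const _)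
        (Constructible.zero _)
    have h := cyl_one f (i + 1) hQ'
    have h2 : SD f false Q i = {z : (E → ℂ) × (ι → PowerSeries ℂ) |
        (Sum.elim z.1 fun s : Fin (i + 1) => PowerSeries.coeff (s : ℕ) (aeval z.2 f)) ∈
          {v : E ⊕ Fin (i + 1) → ℂ |
        (∀ l : Fin (i + 1), 1 ≤ (l : ℕ) → eval v (X (Sum.inr l)) = 0) ∧
        (fun j => eval v (Sum.elim (fun a => X (Sum.inl a)) (fun b : Bool => if b then
          X (Sum.inr ⟨0, by omega⟩) else 0) j : MvPolynomial (E ⊕ Fin (i + 1)) ℂ)) ∈ Q}} := by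
      ext z
      have h3 : (fun j => eval (Sum.elim z.1 fun s : Fin (i + 1) =>
          PowerSeries.coeff (s : ℕ) (aeval z.2 f)) (Sum.elim (fun a => X (Sum.inl a))
            (fun b : Bool => if b then X (Sum.inr ⟨0, by omega⟩) else 0) j :
              MvPolynomial (E ⊕ Fin (i + 1)) ℂ)) =
          Sum.elim z.1 (dat false i (aeval z.2 f)) := by
        funext j
        rcases j with j | j
        · simp
        · cases j <;> simp [dat, ldc]
      simp only [SD, cut, Set.mem_ofPred_eq]
      rw [h3]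
      simp only [eval_X, Sum.elim_inr]
      constructor
      · rintro ⟨h1, h2⟩
        exact ⟨fun l hl => h1 l hl l.2, h2⟩
      · rintro ⟨h1, h2⟩
        exact ⟨fun l hl1 hl2 => h1 ⟨l, hl2⟩ hl1, h2⟩
    rw [h2]
    exact h
  · have h := cyl_PD f hQ i 0 (fun _ => 0)
    have h2 : PD f Q i 0 (fun _ => 0) = SD f true Q i := by
      ext z
      simp [PD]
    rwa [h2] at h

end

/-- classes of sets which are equal up to a bijection of the coordinates -/
theorem val_reindex' (P : HodgeMeasure) {ι κ : Type} [Finite ι] [Finite κ] (e : ι ≃ κ)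
    {s : Set (ι → ℂ)} {t : Set (κ → ℂ)} (hs : Constructible s) (ht : Constructible t)
    (h : ∀ x : ι → ℂ, x ∈ s ↔ (fun j => x (e.symm j)) ∈ t) : P.rat.val s = P.rat.val t :=
  X0.val_reindex P.rat e hs ht h

theorem val_ne_zero (P : HodgeMeasure) : P.rat.val {z : Unit → ℂ | z () ≠ 0} = P.rat.L - 1 := by
  have h1 : Constructible {z : Unit → ℂ | z () ≠ 0} := by
    have := Constructible.ne (X () : MvPolynomial Unit ℂ)
    simpa only [eval_X] using this
  have h2 : Constructible {z : Unit → ℂ | z () = 0} := by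
    have := Constructible.zero (X () : MvPolynomial Unit ℂ)
    simpa only [eval_X] using this
  have h3 := P.rat.union _ _ h1 h2 (by
    rw [Set.disjoint_left]
    intro z hz hz'
    exact hz hz')
  have h4 : {z : Unit → ℂ | z () ≠ 0} ∪ {z : Unit → ℂ | z () = 0} = Set.univ := by
    ext z
    simp only [Set.mem_union, Set.mem_ofPred_eq, Set.mem_univ, iff_true]
    tauto
  have h5 : P.rat.val {z : Unit → ℂ | z () = 0} = 1 := by
    rw [← P.rat.point]
    symm
    refine P.rat.map _ _ (fun _ => 0) Constructible.univ h2 ⟨?_, ?_, ?_⟩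
    · intro z _
      simp
    · intro z _ z' _ _
      exact Subsingleton.elim _ _
    · intro z hz
      refine ⟨fun a => a.elim, Set.mem_univ _, ?_⟩
      funext j
      simp only [map_zero]
      exact hz.symm
  rw [h4, h5] at h3
  rw [show P.rat.L = P.rat.val (Set.univ : Set (Unit → ℂ)) from rfl, h3]
  ring

theorem sum_flatMap {α β : Type*} (l : List α) (g : α → List β) (F : β → K) :
    ((l.flatMap g).map F).sum = (l.map fun a => ((g a).map F).sum).sum := by
  induction l with
  | nil => rfl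
  | cons a l ih => simp [List.flatMap_cons, ih]

theorem sum_toList {α : Type*} (s : Finset α) (F : α → K) : (s.toList.map F).sum = ∑ a ∈ s, F a :=
  Finset.sum_map_toList s F

theorem sum_tlF (hs : List HT) (crit : Finset ℂ) (b : ℂ → ℕ → K) (F : Fam2 → K) :
    ((tlF hs crit b).map F).sum = (hs.map fun h => F h.tl).sum + ∑ d ∈ crit, F (ptv d (b d)) := by
  unfold tlF
  rw [List.map_append, List.sum_append, List.map_map, List.map_map, ← sum_toList]
  rfl

theorem sum_exF (hs : List HT) (crit : Finset ℂ) (ts : ℂ → List Fam) (F : Fam2 → K) :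
    ((exF hs crit ts).map F).sum = (hs.map fun h => F h.ex).sum +
      ∑ d ∈ crit, ((ts d).map fun t => F (atv t d)).sum := by
  unfold exF
  rw [List.map_append, List.sum_append, List.map_map, sum_flatMap, ← sum_toList]
  simp only [List.map_map]
  rfl

theorem mem_tlF_h {hs : List HT} {crit : Finset ℂ} {b : ℂ → ℕ → K} {h : HT} (hh : h ∈ hs) :
    h.tl ∈ tlF hs crit b :=
  List.mem_append_left _ (List.mem_map_of_mem hh)

theorem mem_tlF_c {hs : List HT} {crit : Finset ℂ} {b : ℂ → ℕ → K} {c : ℂ} (hc : c ∈ crit) :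
    ptv c (b c) ∈ tlF hs crit b :=
  List.mem_append_right _ (List.mem_map.2 ⟨c, Finset.mem_toList.2 hc, rfl⟩)

theorem mem_exF_h {hs : List HT} {crit : Finset ℂ} {ts : ℂ → List Fam} {h : HT} (hh : h ∈ hs) :
    h.ex ∈ exF hs crit ts :=
  List.mem_append_left _ (List.mem_map_of_mem hh)

theorem mem_exF_c {hs : List HT} {crit : Finset ℂ} {ts : ℂ → List Fam} {c : ℂ} (hc : c ∈ crit)
    {t : Fam} (ht : t ∈ ts c) : atv t c ∈ exF hs crit ts :=
  List.mem_append_right _ (List.mem_flatMap.2 ⟨c, Finset.mem_toList.2 hc,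
    List.mem_map_of_mem ht⟩)

/-- the values of the critical points lie in `X` -/
theorem crit_mem {P : HodgeMeasure} {ι : Type} [Fintype ι] {f : MvPolynomial ι ℂ} {X : Set ℂ}
    {hs : List HT} {crit : Finset ℂ} {b : ℂ → ℕ → K} (h : HasD P f X false (tlF hs crit b))
    {c : ℂ} (hc : c ∈ crit) : c ∈ X := by
  have h1 := ((h.1 _ (mem_tlF_c hc)).2 (fun a => a.elim) (Set.mem_univ _)).1
  have h2 : eval (fun a => a.elim) (ptv c (b c)).v = c := eval_C c
  rwa [h2] at h1

section

variable (P : HodgeMeasure) (c : ℂ)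

/-- `f = c` -/
def Qa (c : ℂ) : Set (Empty ⊕ Bool → ℂ) := {z | z (Sum.inr true) = c}

/-- `f = c` with nonzero leading coefficient -/
def Qb (c : ℂ) : Set (Empty ⊕ Bool → ℂ) := {z | z (Sum.inr true) = c ∧ z (Sum.inr false) ≠ 0}

theorem con_Qa : Constructible (Qa c) := by
  have h := Constructible.eq (X (Sum.inr true) : MvPolynomial (Empty ⊕ Bool) ℂ) (C c)
  simp only [eval_X, eval_C] at h
  exact h

theorem con_Qb : Constructible (Qb c) := by
  have h := Constructible.ne (X (Sum.inr false) : MvPolynomial (Empty ⊕ Bool) ℂ)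
  simp only [eval_X] at h
  exact (con_Qa c).and h

theorem empty_univ : P.rat.val (Set.univ : Set (Empty ⊕ Empty → ℂ)) = 1 := by
  rw [← P.rat.point]
  exact P.rat.val_univ_equiv (Equiv.sumEmpty Empty Empty).symm

theorem cl_ptv (d : ℂ) (κ : ℕ → K) : (ptv d κ).cl P (Qa c) = if d = c then 1 else 0 := by
  have h1 : (ptv d κ).cl P (Qa c) = P.rat.val {z : Empty ⊕ Empty → ℂ | d = c} := by
    unfold Fam2.cl
    have h2 : {z : Empty ⊕ (ptv d κ).σ → ℂ | (fun s => z (Sum.inr s)) ∈ (ptv d κ).S ∧
        Sum.elim (fun p => z (Sum.inl p)) ((ptv d κ).pt fun s => z (Sum.inr s)) ∈ Qa c} =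
        {z : Empty ⊕ Empty → ℂ | d = c} := by
      ext z
      simp only [ptv, Qa, Fam2.pt, Set.mem_ofPred_eq, Sum.elim_inr, if_true, eval_C]
      exact ⟨fun h => h.2, fun h => ⟨Set.mem_univ _, h⟩⟩
    rw [h2]
    rfl
  rw [h1]
  split_ifs with h
  · simp only [h, Set.ofPred_true]
    exact empty_univ P
  · simp only [h, Set.ofPred_false]
    exact P.rat.val_empty

theorem cl_atv (d : ℂ) (t : Fam) (ht : Constructible t.S) (hu : ∀ τ ∈ t.S, eval τ t.u ≠ 0) :
    (atv t d).cl P (Qb c) = if d = c then famV P t else 0 := by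
  have := t.fin
  have h1 : (atv t d).cl P (Qb c) = P.rat.val {z : Empty ⊕ t.σ → ℂ |
      (fun s => z (Sum.inr s)) ∈ t.S ∧ d = c} := by
    unfold Fam2.cl
    have h2 : {z : Empty ⊕ (atv t d).σ → ℂ | (fun s => z (Sum.inr s)) ∈ (atv t d).S ∧
        Sum.elim (fun p => z (Sum.inl p)) ((atv t d).pt fun s => z (Sum.inr s)) ∈ Qb c} =
        {z : Empty ⊕ t.σ → ℂ | (fun s => z (Sum.inr s)) ∈ t.S ∧ d = c} := by
      ext z
      constructor
      · rintro ⟨h1, h2⟩
        refine ⟨h1, ?_⟩
        simpa [atv, Fam2.pt] using h2.1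
      · rintro ⟨h1, h2⟩
        refine ⟨h1, ?_, ?_⟩
        · simpa [atv, Fam2.pt] using h2
        · have := hu _ h1
          simpa [atv, Fam2.pt] using this
    rw [h2]
    rfl
  rw [h1]
  split_ifs with h
  · simp only [h, and_true]
    unfold famV
    exact val_reindex' P (Equiv.emptySum Empty t.σ) (Constructible.comap _ ht) ht
      (fun x => Iff.rfl)
  · simp only [h, and_false, Set.ofPred_false]
    exact P.rat.val_empty

theorem cl_ex (h : HT) (hH : Constructible h.H) :
    h.ex.cl P (Qb c) = (P.rat.L - 1) * h.tl.cl P (Qa c) := by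
  have := h.fin
  have hc1 : Constructible {z : Empty ⊕ h.σ → ℂ | (fun s => z (Sum.inr s)) ∈ h.H ∧
      eval (fun s => z (Sum.inr s)) h.v = c} := by
    refine Constructible.and (Constructible.comap _ hH) ?_
    have h2 := Constructible.eq (rename Sum.inr h.v : MvPolynomial (Empty ⊕ h.σ) ℂ) (C c)
    simp only [eval_rename, eval_C] at h2
    exact h2
  have h1 : h.tl.cl P (Qa c) = P.rat.val {z : Empty ⊕ h.σ → ℂ | (fun s => z (Sum.inr s)) ∈ h.H ∧
      eval (fun s => z (Sum.inr s)) h.v = c} := rfl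
  have hc2 : Constructible {z : Unit → ℂ | z () ≠ 0} := by
    have := Constructible.ne (X () : MvPolynomial Unit ℂ)
    simpa only [eval_X] using this
  rw [h1, ← val_ne_zero P, mul_comm, ← P.rat.prod _ _ hc1 hc2]
  have h3 : h.ex.cl P (Qb c) = P.rat.val {z : Empty ⊕ (h.σ ⊕ Unit) → ℂ |
      ((fun s => z (Sum.inr (Sum.inl s))) ∈ h.H ∧ z (Sum.inr (Sum.inr ())) ≠ 0) ∧
      eval (fun s => z (Sum.inr (Sum.inl s))) h.v = c} := by
    unfold Fam2.cl
    have h4 : {z : Empty ⊕ h.ex.σ → ℂ | (fun s => z (Sum.inr s)) ∈ h.ex.S ∧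
        Sum.elim (fun p => z (Sum.inl p)) (h.ex.pt fun s => z (Sum.inr s)) ∈ Qb c} =
        {z : Empty ⊕ (h.σ ⊕ Unit) → ℂ |
      ((fun s => z (Sum.inr (Sum.inl s))) ∈ h.H ∧ z (Sum.inr (Sum.inr ())) ≠ 0) ∧
      eval (fun s => z (Sum.inr (Sum.inl s))) h.v = c} := by
      ext z
      simp only [HT.ex, Qb, Fam2.pt, Set.mem_ofPred_eq, Sum.elim_inr, if_true, eval_rename,
        Bool.false_eq_true, if_false, eval_X]
      constructor
      · rintro ⟨h1, h2, _⟩
        exact ⟨h1, h2⟩
      · rintro ⟨h1, h2⟩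
        exact ⟨h1, h2, h1.2⟩
    rw [h4]
    rfl
  rw [h3]
  refine val_reindex' P (Equiv.sumAssoc Empty h.σ Unit).symm ?_ ?_ ?_
  · refine Constructible.and (Constructible.and (Constructible.comap _ hH) ?_) ?_
    · have h2 := Constructible.ne (X (Sum.inr (Sum.inr ())) :
        MvPolynomial (Empty ⊕ (h.σ ⊕ Unit)) ℂ)
      simpa only [eval_X] using h2
    · have h2 := Constructible.eq (rename (fun s => Sum.inr (Sum.inl s)) h.v :
        MvPolynomial (Empty ⊕ (h.σ ⊕ Unit)) ℂ) (C c)
      simp only [eval_rename, eval_C] at h2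
      exact h2
  · exact Constructible.and (Constructible.comap _ hc1) (Constructible.comap _ hc2)
  · intro x
    constructor
    · rintro ⟨⟨h1, h2⟩, h3⟩
      exact ⟨⟨h1, h3⟩, h2⟩
    · rintro ⟨⟨h1, h3⟩, h2⟩
      exact ⟨⟨h1, h2⟩, h3⟩

end

end M5Aux

open M5Aux

theorem stmt_M5 : Stmt_M5 := by
  classical
  intro P ι _ f X hs crit ts b hE hT c hc m
  have hL := L_mul P
  have hcX : c ∈ X := crit_mem hT hc
  have hQa : QOk X false (Qa c) := ⟨con_Qa c, fun z hz => ⟨by
    rw [show z (Sum.inr true) = c from hz]; exact hcX, by simp⟩⟩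
  have hQb : QOk X true (Qb c) := ⟨con_Qb c, fun z hz => ⟨by
    rw [show z (Sum.inr true) = c from hz.1]; exact hcX, fun _ => hz.2⟩⟩
  set S : K := (hs.map fun h => h.lam * h.tl.cl P (Qa c)).sum with hS
  -- the tails
  have h1 : ∀ m, vol P.rat xq (SD f false (Qa c) m) = xq ^ m * S + b c m := by
    intro m
    rw [hT.2 Empty (Qa c) hQa m (by simp), sum_tlF]
    congr 1
    · rw [hS, ← List.sum_map_mul_left]
      congr 1
      apply List.map_congr_left
      intro h _
      simp only [HT.tl]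
      ring
    · rw [Finset.sum_eq_single c]
      · rw [cl_ptv, if_pos rfl, mul_one]
        rfl
      · intro d _ hd
        rw [cl_ptv, if_neg hd, mul_zero]
      · intro h
        exact absurd hc h
  -- exact
  have h2 : ∀ m, 1 ≤ m → vol P.rat xq (SD f true (Qb c) m) =
      xq ^ m * ((P.rat.L - 1) * S) + ((ts c).map fun t => t.κ m * famV P t).sum := by
    intro m hm
    rw [hE.2 Empty (Qb c) hQb m (fun _ => hm), sum_exF]
    congr 1
    · rw [hS, ← List.sum_map_mul_left, ← List.sum_map_mul_left]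
      congr 1
      apply List.map_congr_left
      intro h hh
      have h3 : Constructible h.H := (hT.1 _ (mem_tlF_h hh)).1
      rw [cl_ex P c h h3]
      simp only [HT.ex]
      ring
    · rw [Finset.sum_eq_single c]
      · congr 1
        apply List.map_congr_left
        intro t ht
        have h3 := hE.1 _ (mem_exF_c hc ht)
        rw [cl_atv P c c t h3.1 (fun τ hτ => (h3.2 τ hτ).2 rfl), if_pos rfl]
        rfl
      · intro d hd hdc
        apply List.sum_eq_zero
        intro x hx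
        obtain ⟨t, ht, rfl⟩ := List.mem_map.1 hx
        have h3 := hE.1 _ (mem_exF_c hd ht)
        rw [cl_atv P c d t h3.1 (fun τ hτ => (h3.2 τ hτ).2 rfl), if_neg hdc, mul_zero]
      · intro h
        exact absurd hc h
  -- the step
  have h3 : ∀ m, vol P.rat xq (SD f false (Qa c) m) = vol P.rat xq (SD f false (Qa c) (m + 1)) +
      vol P.rat xq (SD f true (Qb c) (m + 1)) := by
    intro m
    rw [← vol_union P.rat hL (cyl_SD f false (con_Qa c) (m + 1)) (cyl_SD f true (con_Qb c) (m + 1))]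
    · congr 1
      ext z
      simp only [SD, cut, Qa, Qb, dat, ldc, Set.mem_ofPred_eq, Set.mem_union, Sum.elim_inr, if_true,
        Bool.false_eq_true, if_false]
      constructor
      · rintro ⟨h1, h2⟩
        by_cases h3 : PowerSeries.coeff (m + 1) (aeval z.2 f) = 0
        · left
          refine ⟨fun l hl1 hl2 => ?_, h2⟩
          by_cases hl : l = m + 1
          · rw [hl]; exact h3
          · exact h1 l hl1 (by omega)
        · right
          exact ⟨h1, h2, h3⟩
      · rintro (⟨h1, h2⟩ | ⟨h1, h2, h3⟩)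
        · exact ⟨fun l hl1 hl2 => h1 l hl1 (by omega), h2⟩
        · exact ⟨h1, h2⟩
    · rw [Set.disjoint_left]
      intro z hz hz'
      apply hz'.2.2
      exact hz.1 (m + 1) (by omega) (by simp)
  induction m with
  | zero => simp
  | succ m ih =>
    rw [Finset.sum_Icc_succ_top (by omega)]
    have h4 := h3 m
    rw [h1, h1, h2 (m + 1) (by omega)] at h4
    have h5 : (xq ^ (m + 1) * P.rat.L : K) = xq ^ m := by
      rw [pow_succ, mul_assoc, mul_comm xq, hL, mul_one]
    linear_combination ih - h4 - S * h5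

end Pool.Agent.Mono.RO
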