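import Pool.Agent.Work.Monodromy5.TG5A
import Pool.Agent.Work.Monodromy5.M5

/-!
# Block TG5, part D: product formulas and pairs of critical values
-/

set_option autoImplicit false
set_option linter.unusedSectionVars false

namespace Pool.Agent.Mono.RO

open MvPolynomial TS TS.VAAux M5Aux

namespace TG5Aux

/-! ## Polynomial functions -/

/-- polynomial functions -/
def IP {ι : Type} (g : (ι → ℂ) → ℂ) : Prop := ∃ φ : MvPolynomial ι ℂ, ∀ x, g x = eval x φ

section

variable {ι κ σ : Type} {g g' : (ι → ℂ) → ℂ}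

theorem IP.coord (i : ι) : IP fun x : ι → ℂ => x i := ⟨X i, fun _ => (eval_X i).symm⟩

theorem IP.const (c : ℂ) : IP fun _ : ι → ℂ => c := ⟨C c, fun _ => (eval_C c).symm⟩

theorem IP.add (h : IP g) (h' : IP g') : IP fun x => g x + g' x := by
  obtain ⟨φ, hφ⟩ := h
  obtain ⟨φ', hφ'⟩ := h'
  exact ⟨φ + φ', fun x => by simp only [map_add, hφ, hφ']⟩

theorem IP.mul (h : IP g) (h' : IP g') : IP fun x => g x * g' x := by
  obtain ⟨φ, hφ⟩ := h
  obtain ⟨φ', hφ'⟩ := h'
  exact ⟨φ * φ', fun x => by simp only [map_mul, hφ, hφ']⟩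

theorem IP.ev (u : MvPolynomial σ ℂ) {τ : σ → (ι → ℂ) → ℂ} (h : ∀ a, IP (τ a)) :
    IP fun x => eval (fun a => τ a x) u := by
  choose φ hφ using h
  refine ⟨bind₁ φ u, fun x => ?_⟩
  have h1 : eval x (bind₁ φ u) = eval (fun j => eval x (φ j)) u :=
    eval₂Hom_bind₁ (RingHom.id ℂ) x φ u
  have h2 : (fun a => τ a x) = fun j => eval x (φ j) := funext fun a => hφ a x
  change eval (fun a => τ a x) u = _
  rw [h1, h2]

theorem IP.gv (s : Bool) (h : IP g) (h' : IP g') : IP fun x => RO.gv s (g x) (g' x) := by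
  cases s
  · exact h.mul h'
  · exact h.add h'

theorem IP.al (s : Bool) (_ : IP g) (h' : IP g') : IP fun x => RO.al s (g x) (g' x) := by
  cases s
  · exact h'
  · exact IP.const 1

theorem IP.be (s : Bool) (h : IP g) (_ : IP g') : IP fun x => RO.be s (g x) (g' x) := by
  cases s
  · exact h
  · exact IP.const 1

theorem con_pre {F : (ι → ℂ) → κ → ℂ} (hF : ∀ j, IP fun x => F x j) {S : Set (κ → ℂ)}
    (hS : Constructible S) : Constructible {x | F x ∈ S} := by
  choose φ hφ using hF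
  have h := Constructible.preimage φ hS
  have h2 : {x | F x ∈ S} = {x : ι → ℂ | (fun j => eval x (φ j)) ∈ S} := by
    ext x
    have h3 : F x = fun j => eval x (φ j) := funext fun j => hφ j x
    rw [Set.mem_ofPred_eq, h3]
    rfl
  rw [h2]
  exact h

theorem con_zero (h : IP g) : Constructible {x | g x = 0} := by
  obtain ⟨φ, hφ⟩ := h
  have h2 : {x | g x = 0} = {x | eval x φ = 0} := by
    ext x
    rw [Set.mem_ofPred_eq, hφ]
    rfl
  rw [h2]
  exact Constructible.zero φ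

theorem con_ne (h : IP g) : Constructible {x | g x ≠ 0} := (con_zero h).not

end

/-! ## Product formulas -/

section

variable {E : Type} [Finite E] {B : Set (E ⊕ Unit → ℂ)}

theorem con_BC (s : Bool) {α : Type} {S : Set (α → ℂ)} (hS : Constructible S)
    (hB : Constructible B) {v v' : (α → ℂ) → ℂ} (hv : IP v) (hv' : IP v') :
    Constructible {z : E ⊕ α → ℂ | (fun x => z (Sum.inr x)) ∈ S ∧
      Sum.elim (fun p => z (Sum.inl p)) (fun _ : Unit => gv s (v fun x => z (Sum.inr x))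
        (v' fun x => z (Sum.inr x))) ∈ B} := by
  obtain ⟨φ, hφ⟩ := hv
  obtain ⟨φ', hφ'⟩ := hv'
  refine Constructible.and (Constructible.comap _ hS) (con_pre ?_ hB)
  rintro (e | u)
  · exact IP.coord _
  · simp only [Sum.elim_inr]
    simp only [hφ, hφ']
    exact IP.gv s (IP.ev φ fun a => IP.coord _) (IP.ev φ' fun a => IP.coord _)

theorem con_BC' (s : Bool) {α β : Type} {S : Set (α → ℂ)} {S' : Set (β → ℂ)}
    (hS : Constructible S) (hS' : Constructible S') (hB : Constructible B)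
    {v : (α → ℂ) → ℂ} {v' : (β → ℂ) → ℂ} (hv : IP v) (hv' : IP v') :
    Constructible {z : E ⊕ (α ⊕ β) → ℂ | (fun x => z (Sum.inr (Sum.inl x))) ∈ S ∧
      (fun x => z (Sum.inr (Sum.inr x))) ∈ S' ∧
      Sum.elim (fun p => z (Sum.inl p)) (fun _ : Unit => gv s
        (v fun x => z (Sum.inr (Sum.inl x))) (v' fun x => z (Sum.inr (Sum.inr x)))) ∈ B} := by
  obtain ⟨φ, hφ⟩ := hv
  obtain ⟨φ', hφ'⟩ := hv'
  refine Constructible.and (Constructible.comap _ hS) (Constructible.and
    (Constructible.comap _ hS') (con_pre ?_ hB))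
  rintro (e | u)
  · exact IP.coord _
  · simp only [Sum.elim_inr]
    simp only [hφ, hφ']
    exact IP.gv s (IP.ev φ fun a => IP.coord _) (IP.ev φ' fun a => IP.coord _)

theorem IP.eval' {α : Type} (u : MvPolynomial α ℂ) : IP fun x : α → ℂ => eval x u :=
  ⟨u, fun _ => rfl⟩

/-- the product with an independent factor on the right -/
theorem prod_right (s : Bool) (P : HodgeMeasure) {α β β' γ : Type} [Finite α] [Finite β]
    [Finite β'] [Finite γ] {S : Set (α → ℂ)} {S' : Set (β → ℂ)} {S'' : Set (β' → ℂ)}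
    {T : Set (γ → ℂ)} (hS : Constructible S) (hS' : Constructible S')
    (hS'' : Constructible S'') (hT : Constructible T) (hB : Constructible B)
    {v : (α → ℂ) → ℂ} {v' : (β → ℂ) → ℂ} {v'' : (β' → ℂ) → ℂ} (hv : IP v) (hv' : IP v')
    (hv'' : IP v'') (e : β' ≃ β ⊕ γ)
    (h : ∀ x : β' → ℂ, x ∈ S'' ↔ (fun j => x (e.symm (Sum.inl j))) ∈ S' ∧
      (fun j => x (e.symm (Sum.inr j))) ∈ T)
    (h2 : ∀ x : β' → ℂ, v'' x = v' fun j => x (e.symm (Sum.inl j))) :
    P.rat.val {z : E ⊕ (α ⊕ β') → ℂ | (fun x => z (Sum.inr (Sum.inl x))) ∈ S ∧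
      (fun x => z (Sum.inr (Sum.inr x))) ∈ S'' ∧
      Sum.elim (fun p => z (Sum.inl p)) (fun _ : Unit => gv s
        (v fun x => z (Sum.inr (Sum.inl x))) (v'' fun x => z (Sum.inr (Sum.inr x)))) ∈ B} =
    P.rat.val T * P.rat.val {z : E ⊕ (α ⊕ β) → ℂ | (fun x => z (Sum.inr (Sum.inl x))) ∈ S ∧
      (fun x => z (Sum.inr (Sum.inr x))) ∈ S' ∧
      Sum.elim (fun p => z (Sum.inl p)) (fun _ : Unit => gv s
        (v fun x => z (Sum.inr (Sum.inl x))) (v' fun x => z (Sum.inr (Sum.inr x)))) ∈ B} := by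
  have c1 := con_BC' (E := E) s hS hS' hB hv hv'
  have c2 := con_BC' (E := E) s hS hS'' hB hv hv''
  rw [mul_comm, ← P.rat.prod _ _ c1 hT]
  set e' : E ⊕ (α ⊕ β') ≃ (E ⊕ (α ⊕ β)) ⊕ γ :=
    (Equiv.sumCongr (Equiv.refl E) ((Equiv.sumCongr (Equiv.refl α) e).trans
      (Equiv.sumAssoc α β γ).symm)).trans (Equiv.sumAssoc E (α ⊕ β) γ).symm with he'
  refine val_reindex' P e' c2 ((Constructible.comap _ c1).and (Constructible.comap _ hT)) ?_
  intro x
  simp only [Set.mem_ofPred_eq]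
  have i1 : ∀ a, e'.symm (Sum.inl (Sum.inl a)) = Sum.inl a := fun a => rfl
  have i2 : ∀ a, e'.symm (Sum.inl (Sum.inr (Sum.inl a))) = Sum.inr (Sum.inl a) := fun a => rfl
  have i3 : ∀ a, e'.symm (Sum.inl (Sum.inr (Sum.inr a))) = Sum.inr (Sum.inr (e.symm (Sum.inl a))) :=
    fun a => rfl
  have i4 : ∀ a, e'.symm (Sum.inr a) = Sum.inr (Sum.inr (e.symm (Sum.inr a))) := fun a => rfl
  simp only [i1, i2, i3, i4]
  rw [h, h2]
  tauto

theorem gv_comm (s : Bool) (c c' : ℂ) : gv s c c' = gv s c' c := by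
  cases s
  · exact mul_comm c c'
  · exact add_comm c c'

theorem BC_comm (s : Bool) (P : HodgeMeasure) {G G' : Fam2} (hG : Constructible G.S)
    (hG' : Constructible G'.S) (hB : Constructible B) : BC s P G G' B = BC s P G' G B := by
  have := G.fin
  have := G'.fin
  set e' : E ⊕ (G.σ ⊕ G'.σ) ≃ E ⊕ (G'.σ ⊕ G.σ) :=
    Equiv.sumCongr (Equiv.refl E) (Equiv.sumComm _ _) with he'
  refine val_reindex' P e' (con_BC' (E := E) s hG hG' hB (IP.eval' G.v) (IP.eval' G'.v))
    (con_BC' (E := E) s hG' hG hB (IP.eval' G'.v) (IP.eval' G.v)) ?_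
  intro x
  simp only [Set.mem_ofPred_eq]
  have i1 : ∀ a, e'.symm (Sum.inl a) = Sum.inl a := fun a => rfl
  have i2 : ∀ a, e'.symm (Sum.inr (Sum.inl a)) = Sum.inr (Sum.inr a) := fun a => rfl
  have i3 : ∀ a, e'.symm (Sum.inr (Sum.inr a)) = Sum.inr (Sum.inl a) := fun a => rfl
  simp only [i1, i2, i3]
  rw [gv_comm]
  tauto

theorem con_ne0 : Constructible {z : Unit → ℂ | z () ≠ 0} := by
  have := Constructible.ne (X () : MvPolynomial Unit ℂ)
  simpa only [eval_X] using this

theorem BC_ex_right (s : Bool) (P : HodgeMeasure) (G : Fam2) (h : HT) (hG : Constructible G.S)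
    (hh : Constructible h.H) (hB : Constructible B) :
    BC s P G h.ex B = (P.rat.L - 1) * BC s P G h.tl B := by
  have := G.fin
  have := h.fin
  rw [← val_ne_zero P]
  have hex : Constructible h.ex.S :=
    (Constructible.comap _ hh).and (Constructible.comap _ con_ne0)
  refine prod_right (E := E) s P (α := G.σ) (β := h.σ) (β' := h.σ ⊕ Unit) (γ := Unit) hG hh
    hex con_ne0 hB (v := fun x => eval x G.v) (v' := fun x => eval x h.v)
    (v'' := fun x => eval x (rename Sum.inl h.v)) (IP.eval' G.v) (IP.eval' h.v) (IP.eval' _)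
    (Equiv.refl _) ?_ ?_
  · intro x
    exact Iff.rfl
  · intro x
    rw [eval_rename]
    rfl

theorem BC_atv_right (s : Bool) (P : HodgeMeasure) (G : Fam2) (t : Fam) (c : ℂ) (b : ℕ → K)
    (hG : Constructible G.S) (ht : Constructible t.S) (hB : Constructible B) :
    BC s P G (atv t c) B = famV P t * BC s P G (ptv c b) B := by
  have := G.fin
  have := t.fin
  refine prod_right (E := E) s P (α := G.σ) (β := Empty) (β' := t.σ) (γ := t.σ) hG
    (S' := Set.univ) (S'' := t.S) (T := t.S) Constructible.univ ht ht hB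
    (v := fun x => eval x G.v) (v' := fun x => eval x (C c))
    (v'' := fun x => eval x (C c)) (IP.eval' G.v) (IP.eval' _) (IP.eval' _)
    (Equiv.emptySum Empty t.σ).symm ?_ ?_
  · intro x
    exact ⟨fun h => ⟨Set.mem_univ _, h⟩, fun h => h.2⟩
  · intro x
    rw [eval_C, eval_C]

theorem al_ne {s : Bool} {c c' : ℂ} (h : gv s c c' ∈ Xs s) : al s c c' ≠ 0 := by
  cases s
  · rcases h with h | h
    · exact absurd h (by decide)
    · intro h0
      apply h
      have h1 : c' = 0 := h0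
      change c * c' = 0
      rw [h1, mul_zero]
  · exact one_ne_zero

theorem be_ne {s : Bool} {c c' : ℂ} (h : gv s c c' ∈ Xs s) : be s c c' ≠ 0 := by
  cases s
  · rcases h with h | h
    · exact absurd h (by decide)
    · intro h0
      apply h
      have h1 : c = 0 := h0
      change c * c' = 0
      rw [h1, zero_mul]
  · exact one_ne_zero

end

/-- the set in the definition of `NN` is constructible -/
theorem con_NN (s : Bool) (c c' : ℂ) {t t' : Fam} (ht : Constructible t.S)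
    (ht' : Constructible t'.S) :
    Constructible {z : t.σ ⊕ t'.σ → ℂ | (fun x => z (Sum.inl x)) ∈ t.S ∧
    (fun x => z (Sum.inr x)) ∈ t'.S ∧ al s c c' * eval (fun x => z (Sum.inl x)) t.u +
      be s c c' * eval (fun x => z (Sum.inr x)) t'.u = 0} := by
  refine (Constructible.comap _ ht).and ((Constructible.comap _ ht').and (con_zero ?_))
  exact ((IP.const _).mul (IP.ev _ fun a => IP.coord _)).add
    ((IP.const _).mul (IP.ev _ fun a => IP.coord _))

theorem cl2_cancel {E : Type} [Finite E] {B : Set (E ⊕ Unit → ℂ)} (s : Bool) (P : HodgeMeasure)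
    (hB : Constructible B) (t t' : Fam) (c c' : ℂ)
    (b b' : ℕ → K) (ht : Constructible t.S) (ht' : Constructible t'.S)
    (hu : ∀ τ ∈ t.S, eval τ t.u ≠ 0) (hu' : ∀ τ ∈ t'.S, eval τ t'.u ≠ 0) :
    (atv t c).cl2 (atv t' c') P (QC s B) =
      NN s P c c' t t' * BC s P (ptv c b) (ptv c' b') B := by
  have := t.fin
  have := t'.fin
  have c1 : Constructible {z : E ⊕ (Empty ⊕ Empty) → ℂ |
      (fun x => z (Sum.inr (Sum.inl x))) ∈ (Set.univ : Set (Empty → ℂ)) ∧
      (fun x => z (Sum.inr (Sum.inr x))) ∈ (Set.univ : Set (Empty → ℂ)) ∧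
      Sum.elim (fun p => z (Sum.inl p)) (fun _ : Unit => gv s
        (eval (fun x => z (Sum.inr (Sum.inl x))) (C c : MvPolynomial Empty ℂ))
        (eval (fun x => z (Sum.inr (Sum.inr x))) (C c' : MvPolynomial Empty ℂ))) ∈ B} :=
    con_BC' (E := E) s Constructible.univ Constructible.univ hB (IP.eval' _) (IP.eval' _)
  have c2 := con_NN s c c' ht ht'
  have hBC : BC s P (ptv c b) (ptv c' b') B = P.rat.val {z : E ⊕ (Empty ⊕ Empty) → ℂ |
      (fun x => z (Sum.inr (Sum.inl x))) ∈ (Set.univ : Set (Empty → ℂ)) ∧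
      (fun x => z (Sum.inr (Sum.inr x))) ∈ (Set.univ : Set (Empty → ℂ)) ∧
      Sum.elim (fun p => z (Sum.inl p)) (fun _ : Unit => gv s
        (eval (fun x => z (Sum.inr (Sum.inl x))) (C c : MvPolynomial Empty ℂ))
        (eval (fun x => z (Sum.inr (Sum.inr x))) (C c' : MvPolynomial Empty ℂ))) ∈ B} := rfl
  have hNN : NN s P c c' t t' = P.rat.val {z : t.σ ⊕ t'.σ → ℂ | (fun x => z (Sum.inl x)) ∈ t.S ∧
    (fun x => z (Sum.inr x)) ∈ t'.S ∧ al s c c' * eval (fun x => z (Sum.inl x)) t.u +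
      be s c c' * eval (fun x => z (Sum.inr x)) t'.u = 0} := rfl
  rw [hBC, hNN, mul_comm, ← P.rat.prod _ _ c1 c2]
  set e' : E ⊕ (t.σ ⊕ t'.σ) ≃ (E ⊕ (Empty ⊕ Empty)) ⊕ (t.σ ⊕ t'.σ) :=
    Equiv.sumCongr (Equiv.sumEmpty E (Empty ⊕ Empty)).symm (Equiv.refl _) with he'
  have hset : ∀ z : E ⊕ (t.σ ⊕ t'.σ) → ℂ,
      ((fun x => z (Sum.inr (Sum.inl x))) ∈ t.S ∧ (fun x => z (Sum.inr (Sum.inr x))) ∈ t'.S ∧
        Sum.elim (fun p => z (Sum.inl p))
          ![eval (fun x => z (Sum.inr (Sum.inl x))) (C c),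
            eval (fun x => z (Sum.inr (Sum.inl x))) t.u,
            eval (fun x => z (Sum.inr (Sum.inr x))) (C c'),
            eval (fun x => z (Sum.inr (Sum.inr x))) t'.u] ∈ QC s B) ↔
      (((fun x => z (Sum.inr (Sum.inl x))) ∈ t.S ∧ (fun x => z (Sum.inr (Sum.inr x))) ∈ t'.S) ∧
        al s c c' * eval (fun x => z (Sum.inr (Sum.inl x))) t.u +
          be s c c' * eval (fun x => z (Sum.inr (Sum.inr x))) t'.u = 0 ∧
        Sum.elim (fun p => z (Sum.inl p)) (fun _ : Unit => gv s c c') ∈ B) := by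
    intro z
    simp only [QC, Set.mem_ofPred_eq, Sum.elim_inr, Sum.elim_inl, eval_C, Matrix.cons_val]
    constructor
    · rintro ⟨a1, a2, -, -, a3, a4⟩
      exact ⟨⟨a1, a2⟩, a3, a4⟩
    · rintro ⟨⟨a1, a2⟩, a3, a4⟩
      exact ⟨a1, a2, hu _ a1, hu' _ a2, a3, a4⟩
  have c3 : Constructible {z : E ⊕ (t.σ ⊕ t'.σ) → ℂ |
      ((fun x => z (Sum.inr (Sum.inl x))) ∈ t.S ∧ (fun x => z (Sum.inr (Sum.inr x))) ∈ t'.S) ∧
        al s c c' * eval (fun x => z (Sum.inr (Sum.inl x))) t.u +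
          be s c c' * eval (fun x => z (Sum.inr (Sum.inr x))) t'.u = 0 ∧
        Sum.elim (fun p => z (Sum.inl p)) (fun _ : Unit => gv s c c') ∈ B} := by
    refine ((Constructible.comap _ ht).and (Constructible.comap _ ht')).and
      (Constructible.and (con_zero ?_) (con_pre ?_ hB))
    · exact ((IP.const _).mul (IP.ev _ fun a => IP.coord _)).add
        ((IP.const _).mul (IP.ev _ fun a => IP.coord _))
    · rintro (e | u)
      · exact IP.coord _
      · exact IP.const _
  have h2 : (atv t c).cl2 (atv t' c') P (QC s B) = P.rat.val {z : E ⊕ (t.σ ⊕ t'.σ) → ℂ |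
      ((fun x => z (Sum.inr (Sum.inl x))) ∈ t.S ∧ (fun x => z (Sum.inr (Sum.inr x))) ∈ t'.S) ∧
        al s c c' * eval (fun x => z (Sum.inr (Sum.inl x))) t.u +
          be s c c' * eval (fun x => z (Sum.inr (Sum.inr x))) t'.u = 0 ∧
        Sum.elim (fun p => z (Sum.inl p)) (fun _ : Unit => gv s c c') ∈ B} := by
    unfold Fam2.cl2
    congr 1
    ext z
    exact hset z
  rw [h2]
  refine val_reindex' P e' c3 ((Constructible.comap _ c1).and (Constructible.comap _ c2)) ?_
  intro x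
  simp only [Set.mem_ofPred_eq]
  have i1 : ∀ a, e'.symm (Sum.inl (Sum.inl a)) = Sum.inl a := fun a => rfl
  have i2 : ∀ a, e'.symm (Sum.inr a) = Sum.inr a := fun a => rfl
  simp only [i1, i2, eval_C]
  constructor
  · rintro ⟨⟨a1, a2⟩, a3, a4⟩
    exact ⟨⟨Set.mem_univ _, Set.mem_univ _, a4⟩, a1, a2, a3⟩
  · rintro ⟨⟨_, _, a4⟩, a1, a2, a3⟩
    exact ⟨⟨a1, a2⟩, a3, a4⟩

theorem stmt_TG5D : Stmt_TG5D := by
  intro s P E _ B hB
  refine ⟨?_, ?_, ?_, ?_, ?_⟩
  · intro G h hG hh
    exact BC_ex_right s P G h hG hh hB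
  · intro h G hG hh
    have hex : Constructible h.ex.S :=
      (Constructible.comap _ hh).and (Constructible.comap _ con_ne0)
    rw [BC_comm s P hex hG hB, BC_ex_right s P G h hG hh hB, BC_comm s P hG hh hB]
  · intro G t c b hG ht
    exact BC_atv_right s P G t c b hG ht hB
  · intro t G c b hG ht
    have h1 : Constructible (ptv c b).S := Constructible.univ
    have h2 : Constructible (atv t c).S := ht
    rw [BC_comm s P h2 hG hB, BC_atv_right s P G t c b hG ht hB, BC_comm s P hG h1 hB]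
  · intro t t' c c' b b' ht ht' hu hu'
    exact cl2_cancel s P hB t t' c c' b b' ht ht' hu hu'

end TG5Aux

end Pool.Agent.Mono.RO
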