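import Pool.Agent.Work.Monodromy5.VGA

/-!
# Block O5 (helper35): smooth points
-/

set_option autoImplicit false
set_option linter.unusedSectionVars false

namespace Pool.Agent.Mono.RO

open MvPolynomial TS

namespace O5Aux

open VGAux

section

variable {E ι : Type} [Fintype ι]

/-- the sections of a cylinder of some level are constructible at all levels -/
theorem con_sec {C : Set ((E → ℂ) × (ι → PowerSeries ℂ))} (hC : Cy C) (K : ι → ℕ) :
    Constructible (sec K C) := by
  classical
  obtain ⟨N0, hN⟩ := hC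
  set M := max N0 (Finset.univ.sup K) with hMd
  have hM := (hN M (le_max_left _ _)).2
  have hK : ∀ i, K i ≤ M := fun i =>
    le_trans (Finset.le_sup (f := K) (Finset.mem_univ i)) (le_max_right _ _)
  have h : sec K C = {v : E ⊕ (Σ i, Fin (K i)) → ℂ | (fun j => eval v
      (Sum.elim (fun p => X (Sum.inl p)) (fun s : Σ _ : ι, Fin M =>
        if h : (s.2 : ℕ) < K s.1 then
          (X (Sum.inr ⟨s.1, ⟨s.2, h⟩⟩) : MvPolynomial (E ⊕ (Σ i, Fin (K i))) ℂ) else 0) j)) ∈
      sec (fun _ => M) C} := by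
    ext v
    have e : toArc K (fun s => v (Sum.inr s)) = toArc (fun _ : ι => M) fun s => eval v
        (if h : (s.2 : ℕ) < K s.1 then
          (X (Sum.inr ⟨s.1, ⟨s.2, h⟩⟩) : MvPolynomial (E ⊕ (Σ i, Fin (K i))) ℂ) else 0) := by
      funext i
      ext l
      rw [coeff_toArc, coeff_toArc]
      by_cases hl : l < K i
      · rw [dif_pos hl, dif_pos (lt_of_lt_of_le hl (hK i))]
        simp only [dif_pos hl, eval_X]
      · rw [dif_neg hl]
        by_cases hl' : l < M
        · rw [dif_pos hl']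
          simp only [dif_neg hl, map_zero]
        · rw [dif_neg hl']
    simp only [sec, Set.mem_ofPred_eq, Sum.elim_inl, Sum.elim_inr, eval_X]
    rw [e]
  rw [h]
  exact Constructible.preimage _ hM

theorem taylor2 [DecidableEq ι] (f : MvPolynomial ι ℂ) (x : ι → PowerSeries ℂ) (i : ι)
    (h : PowerSeries ℂ) :
    ∃ g : PowerSeries ℂ, aeval (Function.update x i (x i + h)) f =
      aeval x f + h * aeval x (pderiv i f) + h ^ 2 * g := by
  induction f using MvPolynomial.induction_on with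
  | C a => exact ⟨0, by simp⟩
  | add p q hp hq =>
    obtain ⟨g, hg⟩ := hp
    obtain ⟨g', hg'⟩ := hq
    exact ⟨g + g', by simp only [map_add, hg, hg']; ring⟩
  | mul_X p j hp =>
    obtain ⟨g, hg⟩ := hp
    by_cases hj : j = i
    · subst hj
      refine ⟨g * x j + aeval x (pderiv j p) + h * g, ?_⟩
      rw [map_mul, hg, aeval_X, Function.update_self, map_mul, aeval_X, Derivation.leibniz,
        pderiv_X_self]
      simp only [smul_eq_mul, mul_one, map_add, map_mul, aeval_X]
      ring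
    · refine ⟨g * x j, ?_⟩
      rw [map_mul, hg, aeval_X, Function.update_of_ne hj, map_mul, aeval_X, Derivation.leibniz,
        pderiv_X_of_ne hj]
      simp only [smul_eq_mul, mul_zero, zero_add, map_mul, aeval_X]
      ring

theorem coeff_upd [DecidableEq ι] (f : MvPolynomial ι ℂ) (x : ι → PowerSeries ℂ) (i : ι)
    {M : ℕ} (hM : 1 ≤ M) (t : ℂ) :
    PowerSeries.coeff M (aeval (Function.update x i
      (x i + PowerSeries.C t * PowerSeries.X ^ M)) f) =
      PowerSeries.coeff M (aeval x f) +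
        t * eval (fun j => PowerSeries.coeff 0 (x j)) (pderiv i f) := by
  obtain ⟨g, hg⟩ := taylor2 f x i (PowerSeries.C t * PowerSeries.X ^ M)
  rw [hg, map_add, map_add]
  have h1 : PowerSeries.coeff M (PowerSeries.C t * PowerSeries.X ^ M *
      aeval x (pderiv i f)) = t * eval (fun j => PowerSeries.coeff 0 (x j)) (pderiv i f) := by
    have e : PowerSeries.C t * PowerSeries.X ^ M * aeval x (pderiv i f) =
        PowerSeries.C t * (aeval x (pderiv i f) * PowerSeries.X ^ M) := by ring
    rw [e, PowerSeries.coeff_C_mul, PowerSeries.coeff_mul_X_pow', if_pos le_rfl, Nat.sub_self,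
      PowerSeries.coeff_zero_eq_constantCoeff_apply, GJetAux.constantCoeff_aeval]
    simp only [PowerSeries.coeff_zero_eq_constantCoeff_apply]
  have h2 : PowerSeries.coeff M ((PowerSeries.C t * PowerSeries.X ^ M) ^ 2 * g) = 0 := by
    have e : (PowerSeries.C t * PowerSeries.X ^ M) ^ 2 * g =
        (PowerSeries.C t ^ 2 * g) * PowerSeries.X ^ (M * 2) := by ring
    rw [e, PowerSeries.coeff_mul_X_pow', if_neg (by omega)]
  rw [h1, h2, add_zero]

theorem coeff_upd_arc [DecidableEq ι] (x : ι → PowerSeries ℂ) (i : ι) (M : ℕ) (t : ℂ) (j : ι)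
    (l : ℕ) (hl : j = i → l ≠ M) :
    PowerSeries.coeff l (Function.update x i (x i + PowerSeries.C t * PowerSeries.X ^ M) j) =
      PowerSeries.coeff l (x j) := by
  by_cases hj : j = i
  · subst hj
    rw [Function.update_self, map_add, PowerSeries.coeff_C_mul, PowerSeries.coeff_X_pow,
      if_neg (hl rfl), mul_zero, add_zero]
  · rw [Function.update_of_ne hj]

/-- one more coefficient is determined by the others -/
theorem vol_step [Finite E] [DecidableEq ι] (P : HodgeMeasure) {K K' : ι → ℕ} (i : ι)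
    (hi : K' i = K i + 1) (hne : ∀ j, j ≠ i → K' j = K j)
    {D1 D0 : Set ((E → ℂ) × (ι → PowerSeries ℂ))} (h1 : IsCyl K' D1) (h0 : IsCyl K D0)
    (hsub : D1 ⊆ D0)
    (hex : ∀ z ∈ D0, ∃ t : ℂ, (z.1, Function.update z.2 i
      (z.2 i + PowerSeries.C t * PowerSeries.X ^ K i)) ∈ D1)
    (hun : ∀ z ∈ D0, ∀ t t' : ℂ, (z.1, Function.update z.2 i
      (z.2 i + PowerSeries.C t * PowerSeries.X ^ K i)) ∈ D1 → (z.1, Function.update z.2 i
      (z.2 i + PowerSeries.C t' * PowerSeries.X ^ K i)) ∈ D1 → t = t') :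
    vol P.rat xq D1 = xq * vol P.rat xq D0 := by
  have hL := VAAux.L_mul P
  have hle : ∀ j, K j ≤ K' j := by
    intro j
    by_cases hj : j = i
    · rw [hj]; omega
    · rw [hne j hj]
  have hsum : ∑ j, K' j = ∑ j, K j + 1 := by
    have e : ∀ j, K' j = K j + if j = i then 1 else 0 := by
      intro j
      by_cases hj : j = i
      · rw [if_pos hj, hj]; exact hi
      · rw [if_neg hj, hne j hj, add_zero]
    simp only [e, Finset.sum_add_distrib, Finset.sum_ite_eq', Finset.mem_univ, if_true]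
  rw [vol_eq P.rat hL h1, vol_eq P.rat hL h0, hsum, pow_succ]
  obtain ⟨φ, hφ⟩ : ∃ φ : E ⊕ (Σ j, Fin (K j)) → MvPolynomial (E ⊕ (Σ j, Fin (K' j))) ℂ,
      φ = Sum.elim (fun p => X (Sum.inl p)) (fun s =>
        X (Sum.inr ⟨s.1, ⟨s.2, lt_of_lt_of_le s.2.2 (hle s.1)⟩⟩)) := ⟨_, rfl⟩
  have hlt : K i < K' i := by omega
  have key : ∀ v : E ⊕ (Σ j, Fin (K' j)) → ℂ, toArc K' (fun s => v (Sum.inr s)) =
      Function.update (toArc K fun s => eval v (φ (Sum.inr s))) i
        (toArc K (fun s => eval v (φ (Sum.inr s))) i +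
          PowerSeries.C (v (Sum.inr ⟨i, ⟨K i, hlt⟩⟩)) * PowerSeries.X ^ K i) := by
    intro v
    funext j
    ext l
    by_cases hj : j = i
    · subst hj
      rw [Function.update_self, map_add, PowerSeries.coeff_C_mul, PowerSeries.coeff_X_pow,
        coeff_toArc, coeff_toArc]
      by_cases hl : l < K j
      · rw [dif_pos (by omega), dif_pos hl, if_neg (by omega), mul_zero, add_zero]
        simp only [hφ, Sum.elim_inr, eval_X]
      · by_cases hl' : l = K j
        · subst hl'
          rw [dif_pos hlt, dif_neg hl, if_pos rfl, mul_one, zero_add]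
        · rw [dif_neg (by omega), dif_neg hl, if_neg hl', mul_zero, add_zero]
    · rw [Function.update_of_ne hj, coeff_toArc, coeff_toArc]
      by_cases hl : l < K j
      · rw [dif_pos (by rw [hne j hj]; exact hl), dif_pos hl]
        simp only [hφ, Sum.elim_inr, eval_X]
      · rw [dif_neg (by rw [hne j hj]; exact hl), dif_neg hl]
  have hin : ∀ v ∈ sec K' D1, (fun j => eval v (φ j)) ∈ sec K D0 := by
    intro v hv
    have h2 := hsub hv
    have h3 : ((fun p => v (Sum.inl p)), toArc K fun s => eval v (φ (Sum.inr s))) ∈ D0 := by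
      refine (h0.1 _ _ _ fun j l hl => ?_).1 h2
      rw [key v]
      exact coeff_upd_arc _ _ _ _ _ _ fun hj => by rw [hj] at hl; omega
    change ((fun p => eval v (φ (Sum.inl p))), toArc K fun s => eval v (φ (Sum.inr s))) ∈ D0
    simpa only [hφ, Sum.elim_inl, eval_X] using h3
  have hval : P.rat.val (sec K' D1) = P.rat.val (sec K D0) := by
    refine P.rat.map _ _ φ h1.2 h0.2 ⟨hin, ?_, ?_⟩
    · intro v hv v' hv' hvv
      have hz := hin v hv
      have e0 : ∀ j, eval v (φ j) = eval v' (φ j) := fun j => congrFun hvv j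
      have e1 : (fun p => v (Sum.inl p)) = fun p => v' (Sum.inl p) := by
        funext p
        simpa only [hφ, Sum.elim_inl, eval_X] using e0 (Sum.inl p)
      have hv1 : ((fun p => v (Sum.inl p)), toArc K' fun s => v (Sum.inr s)) ∈ D1 := hv
      have hv2 : ((fun p => v' (Sum.inl p)), toArc K' fun s => v' (Sum.inr s)) ∈ D1 := hv'
      rw [key v] at hv1
      rw [key v'] at hv2
      have e2 : (fun s => eval v' (φ (Sum.inr s))) = fun s => eval v (φ (Sum.inr s)) :=
        funext fun s => (e0 (Sum.inr s)).symm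
      rw [e2, ← e1] at hv2
      have hz' : ((fun p => v (Sum.inl p)), toArc K fun s => eval v (φ (Sum.inr s))) ∈ D0 := by
        have hz2 : ((fun p => eval v (φ (Sum.inl p))),
          toArc K fun s => eval v (φ (Sum.inr s))) ∈ D0 := hz
        simpa only [hφ, Sum.elim_inl, eval_X] using hz2
      have ht := hun _ hz' _ _ hv1 hv2
      funext s
      rcases s with p | ⟨j, l, hl⟩
      · exact congrFun e1 p
      · by_cases hlK : l < K j
        · have := e0 (Sum.inr ⟨j, ⟨l, hlK⟩⟩)
          simpa only [hφ, Sum.elim_inr, eval_X] using this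
        · have hj : j = i := by
            by_contra hj
            rw [hne j hj] at hl
            exact hlK hl
          subst hj
          have hl' : l = K j := by omega
          subst hl'
          exact ht
    · intro w hw
      obtain ⟨t, ht⟩ := hex _ hw
      set v : E ⊕ (Σ j, Fin (K' j)) → ℂ := Sum.elim (fun p => w (Sum.inl p))
        (fun s => if h : (s.2 : ℕ) < K s.1 then w (Sum.inr ⟨s.1, ⟨s.2, h⟩⟩) else t) with hv
      have e0 : (fun j => eval v (φ j)) = w := by
        funext j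
        rcases j with p | ⟨j, l⟩
        · simp only [hφ, hv, Sum.elim_inl, eval_X]
        · simp only [hφ, hv, Sum.elim_inr, eval_X]
          rw [dif_pos l.2]
      refine ⟨v, ?_, e0⟩
      change ((fun p => v (Sum.inl p)), toArc K' fun s => v (Sum.inr s)) ∈ D1
      rw [key v]
      have e1 : (fun s => eval v (φ (Sum.inr s))) = fun s => w (Sum.inr s) :=
        funext fun s => congrFun e0 (Sum.inr s)
      rw [e1]
      have e2 : v (Sum.inr ⟨i, ⟨K i, hlt⟩⟩) = t := by
        simp only [hv, Sum.elim_inr]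
        rw [dif_neg (lt_irrefl _)]
      rw [e2]
      exact ht
  rw [hval]
  ring

/-- parameters and the origin of the arc -/
noncomputable def bs (z : (E → ℂ) × (ι → PowerSeries ℂ)) : E ⊕ ι → ℂ :=
  Sum.elim z.1 fun i => PowerSeries.coeff 0 (z.2 i)

/-- arcs with prescribed coefficients `1, …, N` of `f(x)` -/
def DN (f : MvPolynomial ι ℂ) (R : Set (E ⊕ ι → ℂ)) (B : ℕ → MvPolynomial (E ⊕ ι) ℂ) (N : ℕ) :
    Set ((E → ℂ) × (ι → PowerSeries ℂ)) :=
  {z | bs z ∈ R ∧ ∀ l < N, PowerSeries.coeff (l + 1) (aeval z.2 f) = eval (bs z) (B l)}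

theorem RF_bs (s : E ⊕ ι) : RF fun z : (E → ℂ) × (ι → PowerSeries ℂ) => bs z s := by
  rcases s with p | i
  · exact RF.par p
  · exact RF.arc i 0

theorem Cy_DN [Finite E] (f : MvPolynomial ι ℂ) {R : Set (E ⊕ ι → ℂ)} (hR : Constructible R)
    (B : ℕ → MvPolynomial (E ⊕ ι) ℂ) (N : ℕ) : Cy (DN f R B N) := by
  refine Cy.and ?_ (Cy.all_lt N fun l _ => Cy.eq (RF.coef f (l + 1)) ?_)
  · exact Cy.mem hR RF_bs
  · exact RF.eval RF_bs (B l)

theorem bs_congr {p : E → ℂ} {x y : ι → PowerSeries ℂ}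
    (h : ∀ i, PowerSeries.coeff 0 (x i) = PowerSeries.coeff 0 (y i)) :
    bs (p, x) = bs (p, y) := by
  funext s
  rcases s with s | s
  · rfl
  · exact h s

theorem cyl_DN [Finite E] (f : MvPolynomial ι ℂ) {R : Set (E ⊕ ι → ℂ)} (hR : Constructible R)
    (B : ℕ → MvPolynomial (E ⊕ ι) ℂ) (N : ℕ) (K : ι → ℕ) (hK : ∀ i, N + 1 ≤ K i) :
    IsCyl K (DN f R B N) := by
  classical
  refine ⟨fun p x y hxy => ?_, con_sec (Cy_DN f hR B N) K⟩
  have h0 : bs (p, x) = bs (p, y) :=
    bs_congr fun i => hxy i 0 (lt_of_lt_of_le (Nat.succ_pos N) (hK i))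
  have h1 := GJetAux.aeval_congr f (N + 1) x y fun i l hl => hxy i l (lt_of_lt_of_le hl (hK i))
  change (_ ∧ _) ↔ (_ ∧ _)
  rw [h0]
  refine and_congr Iff.rfl (forall_congr' fun l => forall_congr' fun hl => ?_)
  dsimp only
  rw [h1 (l + 1) (by omega)]

/-- one step -/
theorem DN_step [Finite E] [DecidableEq ι] (P : HodgeMeasure) (f : MvPolynomial ι ℂ)
    {R : Set (E ⊕ ι → ℂ)}
    (hR : Constructible R) (B : ℕ → MvPolynomial (E ⊕ ι) ℂ) (N : ℕ) (i : ι)
    (hi : ∀ u ∈ R, eval (fun j => u (Sum.inr j)) (pderiv i f) ≠ 0) :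
    vol P.rat xq (DN f R B (N + 1)) = xq * vol P.rat xq (DN f R B N) := by
  refine vol_step P (K := fun j => if j = i then N + 1 else N + 2) (K' := fun _ => N + 2) i
    (by simp) (fun j hj => by simp [hj]) (cyl_DN f hR B (N + 1) _ fun _ => le_rfl)
    (cyl_DN f hR B N _ fun j => ?_) ?_ ?_ ?_
  · by_cases hj : j = i
    · simp [hj]
    · simp [hj]
  · rintro z ⟨h1, h2⟩
    exact ⟨h1, fun l hl => h2 l (by omega)⟩
  · simp only [if_true]
    rintro ⟨p, x⟩ ⟨h1, h2⟩
    set c := eval (fun j => bs (p, x) (Sum.inr j)) (pderiv i f) with hc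
    have hc0 : c ≠ 0 := hi _ h1
    refine ⟨(eval (bs (p, x)) (B N) - PowerSeries.coeff (N + 1) (aeval x f)) / c, ?_⟩
    set t := (eval (bs (p, x)) (B N) - PowerSeries.coeff (N + 1) (aeval x f)) / c with ht
    have e0 : bs (p, Function.update x i (x i + PowerSeries.C t * PowerSeries.X ^ (N + 1))) =
        bs (p, x) := bs_congr fun j => coeff_upd_arc _ _ _ _ _ _ fun _ => by omega
    refine ⟨?_, fun l hl => ?_⟩
    · rw [e0]
      exact h1
    · rw [e0]
      dsimp only
      by_cases hlN : l = N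
      · subst hlN
        rw [coeff_upd f x i (by omega) t]
        change _ + t * c = _
        rw [ht, div_mul_cancel₀ _ hc0]
        ring
      · rw [← h2 l (by omega)]
        refine GJetAux.aeval_congr f (N + 1) _ _ (fun j l' hl' => ?_) (l + 1) (by omega)
        exact coeff_upd_arc _ _ _ _ _ _ fun _ => by omega
  · simp only [if_true]
    rintro ⟨p, x⟩ ⟨h1, h2⟩ t t' ⟨-, h3⟩ ⟨-, h4⟩
    set c := eval (fun j => bs (p, x) (Sum.inr j)) (pderiv i f) with hc
    have hc0 : c ≠ 0 := hi _ h1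
    have e0 : ∀ t, bs (p, Function.update x i (x i + PowerSeries.C t * PowerSeries.X ^ (N + 1))) =
        bs (p, x) := fun t => bs_congr fun j => coeff_upd_arc _ _ _ _ _ _ fun _ => by omega
    have h5 := h3 N (by omega)
    have h6 := h4 N (by omega)
    rw [e0] at h5 h6
    dsimp only at h5 h6
    rw [coeff_upd f x i (by omega)] at h5 h6
    have h7 : t * c = t' * c := by
      change _ + t * c = _ at h5
      change _ + t' * c = _ at h6
      linear_combination h5 - h6
    exact mul_right_cancel₀ hc0 h7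

theorem DN_zero [Finite E] (P : HodgeMeasure) (f : MvPolynomial ι ℂ) {R : Set (E ⊕ ι → ℂ)}
    (hR : Constructible R) (B : ℕ → MvPolynomial (E ⊕ ι) ℂ) :
    vol P.rat xq (DN f R B 0) = xq ^ Fintype.card ι * P.rat.val R := by
  have hL := VAAux.L_mul P
  have hc := cyl_DN f hR B 0 (fun _ => 1) fun _ => le_rfl
  rw [vol_eq P.rat hL hc, mul_comm]
  congr 1
  · simp
  · refine P.rat.val_of_inv hc.2 hR (Sum.elim (fun p => X (Sum.inl p))
      fun i => X (Sum.inr ⟨i, 0⟩)) (fun y => Sum.elim (fun p => y (Sum.inl p))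
        fun s => y (Sum.inr s.1)) ?_ ?_ ?_ ?_
    · rintro v ⟨h1, -⟩
      convert h1 using 1
      funext s
      rcases s with p | i
      · simp [bs]
      · simp only [Sum.elim_inr, eval_X, bs]
        rw [coeff_toArc, dif_pos Nat.one_pos]
        rfl
    · intro y hy
      refine ⟨?_, fun l hl => absurd hl (Nat.not_lt_zero l)⟩
      convert hy using 1
      funext s
      rcases s with p | i
      · rfl
      · simp only [bs, Sum.elim_inr]
        rw [coeff_toArc, dif_pos Nat.one_pos]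
    · intro v _
      funext s
      rcases s with p | ⟨i, l⟩
      · simp
      · have hl : l = 0 := Subsingleton.elim _ _
        subst hl
        simp
    · intro y _
      funext s
      rcases s with p | i
      · simp
      · simp

theorem DN_pivot [Finite E] [DecidableEq ι] (P : HodgeMeasure) (f : MvPolynomial ι ℂ)
    {R : Set (E ⊕ ι → ℂ)}
    (hR : Constructible R) (B : ℕ → MvPolynomial (E ⊕ ι) ℂ) (i : ι)
    (hi : ∀ u ∈ R, eval (fun j => u (Sum.inr j)) (pderiv i f) ≠ 0) (N : ℕ) :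
    vol P.rat xq (DN f R B N) = xq ^ (Fintype.card ι + N) * P.rat.val R := by
  induction N with
  | zero => exact DN_zero P f hR B
  | succ N ih =>
    rw [DN_step P f hR B N i hi, ih]
    ring

/-- all coefficients `1, …, N` of `f(x)` prescribed, over smooth points -/
theorem vol_DN [Finite E] (P : HodgeMeasure) (f : MvPolynomial ι ℂ) (N : ℕ)
    (B : ℕ → MvPolynomial (E ⊕ ι) ℂ) (S : Finset ι) :
    ∀ R : Set (E ⊕ ι → ℂ), Constructible R →
    (∀ u ∈ R, ∃ i ∈ S, eval (fun j => u (Sum.inr j)) (pderiv i f) ≠ 0) →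
    vol P.rat xq (DN f R B N) = xq ^ (Fintype.card ι + N) * P.rat.val R := by
  classical
  induction S using Finset.induction_on with
  | empty =>
    intro R hR h
    have hR0 : R = ∅ := by
      ext u
      simp only [Set.mem_empty_iff_false, iff_false]
      intro hu
      obtain ⟨i, hi, -⟩ := h u hu
      exact absurd hi (Finset.notMem_empty i)
    subst hR0
    have e : DN f (∅ : Set (E ⊕ ι → ℂ)) B N = ∅ := by
      ext z
      simp [DN]
    rw [e, vol_empty P.rat (VAAux.L_mul P), P.rat.val_empty, mul_zero]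
  | insert a S _ ih =>
    intro R hR h
    have hc : Constructible {u : E ⊕ ι → ℂ |
        eval u (rename Sum.inr (pderiv a f) : MvPolynomial (E ⊕ ι) ℂ) = 0} :=
      Constructible.zero _
    have ev : ∀ u : E ⊕ ι → ℂ, eval u (rename Sum.inr (pderiv a f) : MvPolynomial (E ⊕ ι) ℂ) =
        eval (fun j => u (Sum.inr j)) (pderiv a f) := fun u => by
      rw [eval_rename]
      rfl
    set R1 : Set (E ⊕ ι → ℂ) := R ∩ {u | ¬ eval u (rename Sum.inr (pderiv a f)) = 0} with hR1
    set R2 : Set (E ⊕ ι → ℂ) := R ∩ {u | eval u (rename Sum.inr (pderiv a f)) = 0} with hR2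
    have c1 : Constructible R1 := hR.inter hc.not
    have c2 : Constructible R2 := hR.inter hc
    have hRu : R = R1 ∪ R2 := by
      ext u
      simp only [hR1, hR2, Set.mem_union, Set.mem_inter_iff, Set.mem_ofPred_eq]
      tauto
    have hd : Disjoint R1 R2 := by
      rw [Set.disjoint_left]
      rintro u ⟨-, h1⟩ ⟨-, h2⟩
      exact h1 h2
    have hDu : DN f R B N = DN f R1 B N ∪ DN f R2 B N := by
      ext z
      simp only [DN, Set.mem_union, Set.mem_ofPred_eq]
      rw [hRu, Set.mem_union, or_and_right]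
    have hDd : Disjoint (DN f R1 B N) (DN f R2 B N) := by
      rw [Set.disjoint_left]
      rintro z ⟨h1, -⟩ ⟨h2, -⟩
      exact Set.disjoint_left.1 hd h1 h2
    rw [hDu, vol_uni P (Cy_DN f c1 B N) (Cy_DN f c2 B N) hDd]
    rw [DN_pivot P f c1 B a (fun u hu => by
      have := hu.2
      rw [Set.mem_ofPred_eq, ev] at this
      exact this) N, ih R2 c2 ?_, ← mul_add, ← P.rat.union _ _ c1 c2 hd, ← hRu]
    rintro u ⟨h1, h2⟩
    obtain ⟨i, hi, h3⟩ := h u h1
    rcases Finset.mem_insert.1 hi with rfl | hi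
    · rw [Set.mem_ofPred_eq, ev] at h2
      exact absurd h2 h3
    · exact ⟨i, hi, h3⟩

/-! ## The leading coefficient as a parameter -/

/-- points and leading coefficients -/
def RP (f : MvPolynomial ι ℂ) (Q : Set (E ⊕ Bool → ℂ)) : Set ((E ⊕ Unit) ⊕ ι → ℂ) :=
  {u | Sum.elim (fun p => u (Sum.inl (Sum.inl p))) (fun b : Bool =>
    if b then eval (fun j => u (Sum.inr j)) f else u (Sum.inl (Sum.inr ()))) ∈ Q}

/-- the substitution -/
noncomputable def sb (f : MvPolynomial ι ℂ) : E ⊕ Bool → MvPolynomial ((E ⊕ Unit) ⊕ ι) ℂ :=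
  Sum.elim (fun p => X (Sum.inl (Sum.inl p))) (fun b : Bool =>
    if b then rename Sum.inr f else X (Sum.inl (Sum.inr ())))

theorem eval_sb (f : MvPolynomial ι ℂ) (u : (E ⊕ Unit) ⊕ ι → ℂ) :
    (fun s => eval u (sb (E := E) f s)) = Sum.elim (fun p => u (Sum.inl (Sum.inl p)))
      (fun b : Bool => if b then eval (fun j => u (Sum.inr j)) f
        else u (Sum.inl (Sum.inr ()))) := by
  funext s
  rcases s with p | b
  · simp [sb]
  · rcases b with _ | _
    · simp [sb]
    · simp only [sb, Sum.elim_inr, if_true, eval_rename]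
      rfl

theorem eval_bind (f : MvPolynomial ι ℂ) (u : (E ⊕ Unit) ⊕ ι → ℂ)
    (A : MvPolynomial (E ⊕ Bool) ℂ) : eval u (bind₁ (sb f) A) =
      eval (Sum.elim (fun p => u (Sum.inl (Sum.inl p)))
      (fun b : Bool => if b then eval (fun j => u (Sum.inr j)) f
        else u (Sum.inl (Sum.inr ())))) A := by
  rw [← eval_sb, ← coe_aeval_eq_eval, ← coe_aeval_eq_eval, RingHom.coe_coe, RingHom.coe_coe,
    aeval_bind₁]

theorem con_RP (f : MvPolynomial ι ℂ) {Q : Set (E ⊕ Bool → ℂ)} (hQ : Constructible Q) :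
    Constructible (RP f Q) := by
  have h : RP f Q = {u : (E ⊕ Unit) ⊕ ι → ℂ | (fun s => eval u (sb (E := E) f s)) ∈ Q} := by
    ext u
    rw [Set.mem_ofPred_eq, eval_sb]
    exact Iff.rfl
  rw [h]
  exact Constructible.preimage _ hQ

/-- the prescribed coefficients -/
noncomputable def BP (f : MvPolynomial ι ℂ) (i : ℕ) (A : ℕ → MvPolynomial (E ⊕ Bool) ℂ) (l : ℕ) :
    MvPolynomial ((E ⊕ Unit) ⊕ ι) ℂ :=
  if l + 1 < i then 0 else if l + 1 = i then X (Sum.inl (Sum.inr ())) else
    bind₁ (sb f) (A (l - i))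

theorem coeff_zero (f : MvPolynomial ι ℂ) (z : (E → ℂ) × (ι → PowerSeries ℂ)) :
    PowerSeries.coeff 0 (aeval z.2 f) = eval (fun j => bs z (Sum.inr j)) f := by
  classical
  rw [PowerSeries.coeff_zero_eq_constantCoeff_apply, GJetAux.constantCoeff_aeval]
  simp only [bs, Sum.elim_inr, PowerSeries.coeff_zero_eq_constantCoeff_apply]

theorem mem_DN_iff (f : MvPolynomial ι ℂ) (Q : Set (E ⊕ Bool → ℂ)) {i : ℕ} (hi : 1 ≤ i) (e : ℕ)
    (A : ℕ → MvPolynomial (E ⊕ Bool) ℂ) (z : (E ⊕ Unit → ℂ) × (ι → PowerSeries ℂ)) :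
    z ∈ DN f (RP f Q) (BP f i A) (i + e) ↔ ((fun p => z.1 (Sum.inl p)), z.2) ∈ PD f Q i e A ∧
      z.1 (Sum.inr ()) = PowerSeries.coeff i (aeval z.2 f) := by
  have hu : z.1 (Sum.inr ()) = PowerSeries.coeff i (aeval z.2 f) →
      (Sum.elim (fun p => bs z (Sum.inl (Sum.inl p))) (fun b : Bool =>
        if b then eval (fun j => bs z (Sum.inr j)) f else bs z (Sum.inl (Sum.inr ())))) =
      Sum.elim (fun p => z.1 (Sum.inl p)) (dat true i (aeval z.2 f)) := by
    intro ha
    funext s
    rcases s with p | b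
    · rfl
    · rcases b with _ | _
      · simpa [dat, ldc, bs] using ha
      · simp only [Sum.elim_inr, if_true, dat]
        exact (coeff_zero f z).symm
  constructor
  · rintro ⟨h1, h2⟩
    have ha : z.1 (Sum.inr ()) = PowerSeries.coeff i (aeval z.2 f) := by
      have h3 := h2 (i - 1) (by omega)
      rw [show i - 1 + 1 = i by omega, BP, if_neg (by omega), if_pos (by omega), eval_X] at h3
      exact h3.symm
    refine ⟨⟨⟨fun l hl hl' => ?_, ?_⟩, fun l hl => ?_⟩, ha⟩
    · have hl'' : l < i := hl'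
      have h3 := h2 (l - 1) (by omega)
      rw [show l - 1 + 1 = l by omega, BP, if_pos (by omega), map_zero] at h3
      exact h3
    · have h3 : Sum.elim (fun p => bs z (Sum.inl (Sum.inl p))) (fun b : Bool =>
        if b then eval (fun j => bs z (Sum.inr j)) f else bs z (Sum.inl (Sum.inr ()))) ∈ Q := h1
      rw [hu ha] at h3
      exact h3
    · have h3 := h2 (i + l) (by omega)
      rw [BP, if_neg (by omega), if_neg (by omega), eval_bind, hu ha, Nat.add_sub_cancel_left] at h3
      rw [show i + 1 + l = i + l + 1 by omega]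
      exact h3
  · rintro ⟨⟨⟨h1, h2⟩, h3⟩, ha⟩
    refine ⟨?_, fun l hl => ?_⟩
    · change Sum.elim (fun p => bs z (Sum.inl (Sum.inl p))) (fun b : Bool =>
        if b then eval (fun j => bs z (Sum.inr j)) f else bs z (Sum.inl (Sum.inr ()))) ∈ Q
      rw [hu ha]
      exact h2
    · rcases lt_trichotomy (l + 1) i with h | h | h
      · rw [BP, if_pos h, map_zero]
        exact h1 (l + 1) (by omega) h
      · rw [BP, if_neg (by omega), if_pos h, eval_X, h]
        exact ha.symm
      · rw [BP, if_neg (by omega), if_neg (by omega), eval_bind, hu ha]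
        have h4 := h3 (l - i) (by omega)
        rw [show i + 1 + (l - i) = l + 1 by omega] at h4
        exact h4

theorem RF_dat (f : MvPolynomial ι ℂ) (w : Bool) (i : ℕ) (s : E ⊕ Bool) :
    RF fun z : (E → ℂ) × (ι → PowerSeries ℂ) => Sum.elim z.1 (dat w i (aeval z.2 f)) s := by
  rcases s with p | b
  · exact RF.par p
  · rcases b with _ | _
    · rcases w with _ | _
      · exact RF.const 0
      · exact RF.coef f i
    · exact RF.coef f 0

theorem Cy_PD [Finite E] (f : MvPolynomial ι ℂ) {Q : Set (E ⊕ Bool → ℂ)} (hQ : Constructible Q)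
    (i e : ℕ) (A : ℕ → MvPolynomial (E ⊕ Bool) ℂ) : Cy (PD f Q i e A) := by
  refine Cy.and (Cy.and ?_ (Cy.mem hQ (RF_dat f true i)))
    (Cy.all_lt e fun l _ => Cy.eq (RF.coef f (i + 1 + l)) (RF.eval (RF_dat f true i) (A l)))
  have h : {z : (E → ℂ) × (ι → PowerSeries ℂ) | cut true i (aeval z.2 f)} =
      {z | ∀ l < i, 1 ≤ l → PowerSeries.coeff l (aeval z.2 f) = 0} := by
    ext z
    exact ⟨fun h l hl hl' => h l hl' hl, fun h l hl hl' => h l hl' hl⟩
  rw [h]
  exact Cy.all_lt i fun l _ => Cy.imp fun _ => Cy.zero (RF.coef f l)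

theorem vol_PD [Finite E] (P : HodgeMeasure) (f : MvPolynomial ι ℂ) {X : Set ℂ}
    (hf : ∀ x : ι → ℂ, eval x f ∈ X → ∃ i, eval x (pderiv i f) ≠ 0) {Q : Set (E ⊕ Bool → ℂ)}
    (hQ : QOk X true Q) {i : ℕ} (hi : 1 ≤ i) (e : ℕ) (A : ℕ → MvPolynomial (E ⊕ Bool) ℂ) :
    vol P.rat xq (PD f Q i e A) = xq ^ (Fintype.card ι + (i + e)) * P.rat.val (RP f Q) := by
  have hR := con_RP f hQ.1
  rw [← vol_DN P f (i + e) (BP f i A) Finset.univ _ hR ?_]
  · refine (vol_base P (Cy_DN f hR _ _) (Cy_PD f hQ.1 i e A) Sum.inl ?_ ?_ ?_).symm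
    · intro z hz
      exact ((mem_DN_iff f Q hi e A z).1 hz).1
    · intro z hz z' hz' h1 h2
      have h3 := ((mem_DN_iff f Q hi e A z).1 hz).2
      have h4 := ((mem_DN_iff f Q hi e A z').1 hz').2
      funext s
      rcases s with p | ⟨⟩
      · exact congrFun h1 p
      · rw [h3, h4, h2]
    · intro z hz
      refine ⟨Sum.elim z.1 fun _ => PowerSeries.coeff i (aeval z.2 f), rfl, ?_⟩
      exact (mem_DN_iff f Q hi e A _).2 ⟨hz, rfl⟩
  · intro u hu
    obtain ⟨j, hj⟩ := hf (fun j => u (Sum.inr j)) (hQ.2 _ hu).1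
    exact ⟨j, Finset.mem_univ j, hj⟩

theorem PD_zero (f : MvPolynomial ι ℂ) (Q : Set (E ⊕ Bool → ℂ)) (i : ℕ)
    (A : ℕ → MvPolynomial (E ⊕ Bool) ℂ) : PD f Q i 0 A = SD f true Q i := by
  ext z
  exact ⟨fun h => h.1, fun h => ⟨h, fun l hl => absurd hl (Nat.not_lt_zero l)⟩⟩

theorem vol_SD [Finite E] (P : HodgeMeasure) (f : MvPolynomial ι ℂ) {X : Set ℂ}
    (hf : ∀ x : ι → ℂ, eval x f ∈ X → ∃ i, eval x (pderiv i f) ≠ 0) {Q : Set (E ⊕ Bool → ℂ)}
    (hQ : QOk X true Q) {i : ℕ} (hi : 1 ≤ i) :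
    vol P.rat xq (SD f true Q i) = xq ^ (Fintype.card ι + i) * P.rat.val (RP f Q) := by
  rw [← PD_zero f Q i fun _ => 0, vol_PD P f hf hQ hi 0]
  rfl

/-- points, for the tail -/
def RT (f : MvPolynomial ι ℂ) (Q : Set (E ⊕ Bool → ℂ)) : Set (E ⊕ ι → ℂ) :=
  {u | Sum.elim (fun p => u (Sum.inl p)) (fun b : Bool =>
    if b then eval (fun j => u (Sum.inr j)) f else 0) ∈ Q}

theorem con_RT (f : MvPolynomial ι ℂ) {Q : Set (E ⊕ Bool → ℂ)} (hQ : Constructible Q) :
    Constructible (RT f Q) := by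
  have h : RT f Q = {u : E ⊕ ι → ℂ | (fun s => eval u (Sum.elim (fun p => X (Sum.inl p))
      (fun b : Bool => if b then (rename Sum.inr f : MvPolynomial (E ⊕ ι) ℂ) else 0) s)) ∈ Q} := by
    ext u
    have e : (fun s => eval u (Sum.elim (fun p => X (Sum.inl p))
      (fun b : Bool => if b then (rename Sum.inr f : MvPolynomial (E ⊕ ι) ℂ) else 0) s)) =
        Sum.elim (fun p => u (Sum.inl p)) (fun b : Bool =>
          if b then eval (fun j => u (Sum.inr j)) f else 0) := by
      funext s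
      rcases s with p | b
      · simp
      · rcases b with _ | _
        · simp
        · simp only [Sum.elim_inr, if_true, eval_rename]
          rfl
    rw [Set.mem_ofPred_eq, e]
    exact Iff.rfl
  rw [h]
  exact Constructible.preimage _ hQ

theorem SD_false (f : MvPolynomial ι ℂ) (Q : Set (E ⊕ Bool → ℂ)) (i : ℕ) :
    SD f false Q i = DN f (RT f Q) (fun _ => 0) i := by
  ext z
  have e : (Sum.elim (fun p => bs z (Sum.inl p)) (fun b : Bool =>
          if b then eval (fun j => bs z (Sum.inr j)) f else 0)) =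
      Sum.elim z.1 (dat false i (aeval z.2 f)) := by
    funext s
    rcases s with p | b
    · rfl
    · rcases b with _ | _
      · simp [dat, ldc]
      · simp only [Sum.elim_inr, if_true, dat]
        exact (coeff_zero f z).symm
  constructor
  · rintro ⟨h1, h2⟩
    refine ⟨?_, fun l hl => ?_⟩
    · change Sum.elim (fun p => bs z (Sum.inl p)) (fun b : Bool =>
          if b then eval (fun j => bs z (Sum.inr j)) f else 0) ∈ Q
      rw [e]
      exact h2
    · rw [map_zero]
      refine h1 (l + 1) (by omega) ?_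
      simp only [Bool.false_eq_true, if_false]
      omega
  · rintro ⟨h1, h2⟩
    refine ⟨fun l hl hl' => ?_, ?_⟩
    · simp only [Bool.false_eq_true, if_false] at hl'
      have h3 := h2 (l - 1) (by omega)
      rw [map_zero, show l - 1 + 1 = l by omega] at h3
      exact h3
    · rw [← e]
      exact h1

end

theorem con_ex {ι : Type} {H : Set (ι → ℂ)} (hH : Constructible H) :
    Constructible {z : ι ⊕ Unit → ℂ | (fun s => z (Sum.inl s)) ∈ H ∧ z (Sum.inr ()) ≠ 0} := by
  refine Constructible.and (Constructible.comap Sum.inl hH) ?_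
  have h := Constructible.ne (X (Sum.inr ()) : MvPolynomial (ι ⊕ Unit) ℂ)
  simpa only [eval_X] using h

theorem ev_ex {E ι : Type} (f : MvPolynomial ι ℂ) (z : E ⊕ (ι ⊕ Unit) → ℂ) :
    (Sum.elim (fun p => z (Sum.inl p)) (fun b : Bool =>
      if b then eval (fun s => z (Sum.inr s)) (rename Sum.inl f : MvPolynomial (ι ⊕ Unit) ℂ) else
        eval (fun s => z (Sum.inr s)) (X (Sum.inr ()) : MvPolynomial (ι ⊕ Unit) ℂ))) =
      Sum.elim (fun p => z (Sum.inl p)) (fun b : Bool =>
        if b then eval (fun j => z (Sum.inr (Sum.inl j))) f else z (Sum.inr (Sum.inr ()))) := by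
  funext s
  rcases s with p | b
  · rfl
  · rcases b with _ | _
    · simp only [Sum.elim_inr, Bool.false_eq_true, if_false, eval_X]
    · simp only [Sum.elim_inr, if_true, eval_rename]
      rfl

theorem ev_tl {E ι : Type} (f : MvPolynomial ι ℂ) (z : E ⊕ ι → ℂ) :
    (Sum.elim (fun p => z (Sum.inl p)) (fun b : Bool =>
      if b then eval (fun s => z (Sum.inr s)) f else
        eval (fun s => z (Sum.inr s)) (0 : MvPolynomial ι ℂ))) =
      Sum.elim (fun p => z (Sum.inl p)) (fun b : Bool =>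
        if b then eval (fun j => z (Sum.inr j)) f else 0) := by
  funext s
  rcases s with p | b
  · rfl
  · rcases b with _ | _
    · simp only [Sum.elim_inr, Bool.false_eq_true, if_false, map_zero]
    · simp only [Sum.elim_inr, if_true]

end O5Aux

open O5Aux

/-- smooth points -/
theorem stmt_O5 : Stmt_O5 := by
  classical
  intro P ι _ f X0 hX hf
  refine ⟨⟨⟨ι, inferInstance, {x | eval x f ∈ X0}, f, xq ^ Fintype.card ι⟩, ⟨?_, ?_⟩,
    ⟨?_, ?_⟩⟩, ?_⟩
  · intro G hG
    rw [List.mem_singleton] at hG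
    subst hG
    refine ⟨con_ex hX, ?_⟩
    rintro (τ : ι ⊕ Unit → ℂ) ⟨h1, h2⟩
    refine ⟨?_, fun _ => ?_⟩
    · have h3 : eval τ (rename Sum.inl f : MvPolynomial (ι ⊕ Unit) ℂ) ∈ X0 := by
        rw [eval_rename]
        exact h1
      exact h3
    · have h3 : eval τ (MvPolynomial.X (Sum.inr ()) : MvPolynomial (ι ⊕ Unit) ℂ) ≠ 0 := by
        rw [eval_X]
        exact h2
      exact h3
  · intro E _ Q hQ i hi
    rw [vol_SD P f hf hQ (hi rfl)]
    simp only [List.map_cons, List.map_nil, List.sum_cons, List.sum_nil, add_zero]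
    rw [pow_add]
    change _ = (xq ^ Fintype.card ι * xq ^ i) * _
    congr 1
    rw [← P.rat.reindex ((Equiv.sumAssoc E Unit ι).trans
      (Equiv.sumCongr (Equiv.refl E) (Equiv.sumComm Unit ι))) (con_RP f hQ.1)]
    unfold Fam2.cl
    congr 1
    ext (z : E ⊕ (ι ⊕ Unit) → ℂ)
    constructor
    · intro hz
      have hz' : Sum.elim (fun p => z (Sum.inl p)) (fun b : Bool =>
          if b then eval (fun j => z (Sum.inr (Sum.inl j))) f else z (Sum.inr (Sum.inr ()))) ∈
            Q := hz
      refine ⟨⟨(hQ.2 _ hz').1, (hQ.2 _ hz').2 rfl⟩, ?_⟩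
      rw [← ev_ex] at hz'
      exact hz'
    · rintro ⟨-, hz⟩
      have hz' : (Sum.elim (fun p => z (Sum.inl p)) (fun b : Bool =>
        if b then eval (fun s => z (Sum.inr s)) (rename Sum.inl f : MvPolynomial (ι ⊕ Unit) ℂ) else
          eval (fun s => z (Sum.inr s)) (MvPolynomial.X (Sum.inr ()) :
            MvPolynomial (ι ⊕ Unit) ℂ))) ∈ Q := hz
      rw [ev_ex] at hz'
      exact hz'
  · intro G hG
    rw [List.mem_singleton] at hG
    subst hG
    exact ⟨hX, fun τ h => ⟨h, fun h' => absurd h' (by decide)⟩⟩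
  · intro E _ Q hQ i _
    rw [SD_false, vol_DN P f i _ Finset.univ _ (con_RT f hQ.1) ?_]
    · simp only [List.map_cons, List.map_nil, List.sum_cons, List.sum_nil, add_zero]
      rw [pow_add]
      change _ = (xq ^ Fintype.card ι * xq ^ i) * _
      congr 1
      unfold Fam2.cl
      congr 1
      ext (z : E ⊕ ι → ℂ)
      constructor
      · intro hz
        have hz' : Sum.elim (fun p => z (Sum.inl p)) (fun b : Bool =>
            if b then eval (fun j => z (Sum.inr j)) f else 0) ∈ Q := hz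
        refine ⟨(hQ.2 _ hz').1, ?_⟩
        rw [← ev_tl] at hz'
        exact hz'
      · rintro ⟨-, hz⟩
        have hz' : (Sum.elim (fun p => z (Sum.inl p)) (fun b : Bool =>
          if b then eval (fun s => z (Sum.inr s)) f else
            eval (fun s => z (Sum.inr s)) (0 : MvPolynomial ι ℂ))) ∈ Q := hz
        rw [ev_tl] at hz'
        exact hz'
    · intro u hu
      obtain ⟨j, hj⟩ := hf (fun j => u (Sum.inr j)) (hQ.2 _ hu).1
      exact ⟨j, Finset.mem_univ j, hj⟩
  · intro E _ Q hQ i e hi A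
    rw [vol_PD P f hf hQ hi e A, vol_SD P f hf hQ hi]
    ring

end Pool.Agent.Mono.RO
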