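import Pool.Agent.Work.Monodromy5.VGA

/-!
# Solving for the coefficients of `f(x)`
-/

set_option autoImplicit false
set_option linter.unusedSectionVars false

namespace Pool.Agent.Mono.RO

open MvPolynomial TS

namespace VGAux

/-- the mixed term is present for products only -/
def ep (s : Bool) : ℂ := if s then 0 else 1

theorem coeff_prod (F G : PowerSeries ℂ) (n : ℕ) (hn : 1 ≤ n) :
    PowerSeries.coeff n (F * G) = PowerSeries.coeff 0 G * PowerSeries.coeff n F +
      PowerSeries.coeff 0 F * PowerSeries.coeff n G +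
        ∑ a ∈ Finset.Ico 1 n, PowerSeries.coeff a F * PowerSeries.coeff (n - a) G := by
  rw [PowerSeries.coeff_mul, Finset.Nat.sum_antidiagonal_eq_sum_range_succ
    (fun a b => PowerSeries.coeff a F * PowerSeries.coeff b G), Finset.sum_range_succ,
    Finset.range_eq_Ico, Finset.sum_eq_sum_Ico_succ_bot (by omega)]
  simp only [Nat.sub_self, Nat.sub_zero, zero_add]
  ring

section

variable {E ι κ : Type} [Fintype ι] [Fintype κ]

theorem aeval_gp (s : Bool) (f : MvPolynomial ι ℂ) (g : MvPolynomial κ ℂ)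
    (z : ι ⊕ κ → PowerSeries ℂ) : aeval z (gp s f g) =
      if s then aeval (fun a => z (Sum.inl a)) f + aeval (fun a => z (Sum.inr a)) g
      else aeval (fun a => z (Sum.inl a)) f * aeval (fun a => z (Sum.inr a)) g := by
  rcases s with _ | _
  · simp only [gp, otimes, Bool.false_eq_true, if_false, map_mul, aeval_rename]
    rfl
  · simp only [gp, oplus, if_true, map_add, aeval_rename]
    rfl

theorem coeff_gp_zero (s : Bool) (f : MvPolynomial ι ℂ) (g : MvPolynomial κ ℂ)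
    (z : ι ⊕ κ → PowerSeries ℂ) : PowerSeries.coeff 0 (aeval z (gp s f g)) =
      gv s (PowerSeries.coeff 0 (aeval (fun a => z (Sum.inl a)) f))
        (PowerSeries.coeff 0 (aeval (fun a => z (Sum.inr a)) g)) := by
  rw [aeval_gp]
  rcases s with _ | _
  · simp [gv]
  · simp [gv]

theorem coeff_gp (s : Bool) (f : MvPolynomial ι ℂ) (g : MvPolynomial κ ℂ)
    (z : ι ⊕ κ → PowerSeries ℂ) (n : ℕ) (hn : 1 ≤ n) :
    PowerSeries.coeff n (aeval z (gp s f g)) =
      al s (PowerSeries.coeff 0 (aeval (fun a => z (Sum.inl a)) f))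
        (PowerSeries.coeff 0 (aeval (fun a => z (Sum.inr a)) g)) *
          PowerSeries.coeff n (aeval (fun a => z (Sum.inl a)) f) +
      be s (PowerSeries.coeff 0 (aeval (fun a => z (Sum.inl a)) f))
        (PowerSeries.coeff 0 (aeval (fun a => z (Sum.inr a)) g)) *
          PowerSeries.coeff n (aeval (fun a => z (Sum.inr a)) g) +
      ep s * ∑ a ∈ Finset.Ico 1 n, PowerSeries.coeff a (aeval (fun a => z (Sum.inl a)) f) *
        PowerSeries.coeff (n - a) (aeval (fun a => z (Sum.inr a)) g) := by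
  rw [aeval_gp]
  rcases s with _ | _
  · simp only [Bool.false_eq_true, if_false, al, be, ep, one_mul]
    exact coeff_prod _ _ n hn
  · simp only [if_true, al, be, ep, one_mul, zero_mul, add_zero, map_add]

/-- the coefficients of `g(y)` as polynomials in the coefficients of `y` -/
theorem exists_gc (g : MvPolynomial κ ℂ) : ∀ b : ℕ, ∃ A : MvPolynomial (κ × ℕ) ℂ,
    ∀ y : κ → PowerSeries ℂ, PowerSeries.coeff b (aeval y g) =
      eval (fun s => PowerSeries.coeff s.2 (y s.1)) A := by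
  induction g using MvPolynomial.induction_on with
  | C a =>
    intro b
    refine ⟨C (if b = 0 then a else 0), fun y => ?_⟩
    rw [aeval_C, PowerSeries.algebraMap_apply, PowerSeries.coeff_C, eval_C]
    rfl
  | add p q hp hq =>
    intro b
    obtain ⟨A, hA⟩ := hp b
    obtain ⟨B, hB⟩ := hq b
    exact ⟨A + B, fun y => by rw [map_add, map_add, map_add, hA, hB]⟩
  | mul_X p i hp =>
    intro b
    choose A hA using hp
    refine ⟨∑ x ∈ Finset.HasAntidiagonal.antidiagonal b, A x.1 * X (i, x.2), fun y => ?_⟩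
    rw [map_mul, aeval_X, PowerSeries.coeff_mul, map_sum]
    refine Finset.sum_congr rfl fun x _ => ?_
    rw [map_mul, eval_X, hA]

/-- the data `(p, f(x)_0, f(x)_i)` and `y` -/
noncomputable def prm (f : MvPolynomial ι ℂ) (i : ℕ) (z : (E → ℂ) × (ι ⊕ κ → PowerSeries ℂ)) :
    (E ⊕ Bool → ℂ) × (κ → PowerSeries ℂ) :=
  (Sum.elim z.1 (dat true i (aeval (fun a => z.2 (Sum.inl a)) f)), fun a => z.2 (Sum.inr a))

theorem RF.coefL (f : MvPolynomial ι ℂ) (l : ℕ) :
    RF fun z : (E → ℂ) × (ι ⊕ κ → PowerSeries ℂ) =>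
      PowerSeries.coeff l (aeval (fun a => z.2 (Sum.inl a)) f) := by
  have h := RF.coef (E := E) (rename Sum.inl f : MvPolynomial (ι ⊕ κ) ℂ) l
  simp only [aeval_rename] at h
  exact h

theorem RF.coefR (g : MvPolynomial κ ℂ) (l : ℕ) :
    RF fun z : (E → ℂ) × (ι ⊕ κ → PowerSeries ℂ) =>
      PowerSeries.coeff l (aeval (fun a => z.2 (Sum.inr a)) g) := by
  have h := RF.coef (E := E) (rename Sum.inr g : MvPolynomial (ι ⊕ κ) ℂ) l
  simp only [aeval_rename] at h
  exact h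

theorem RF.prm (f : MvPolynomial ι ℂ) (i : ℕ) (e : E ⊕ Bool) :
    RF fun z : (E → ℂ) × (ι ⊕ κ → PowerSeries ℂ) => (prm f i z).1 e := by
  rcases e with e | b
  · exact RF.par e
  · rcases b with _ | _
    · simpa only [VGAux.prm, Sum.elim_inr, dat, ldc, Bool.false_eq_true, if_false, if_true] using
        RF.coefL f i
    · simpa only [VGAux.prm, Sum.elim_inr, dat, ldc, if_true] using RF.coefL f 0

/-- exact order of `f(x)`, parameters in `C` -/
def Sx (f : MvPolynomial ι ℂ) (C : Set ((E ⊕ Bool → ℂ) × (κ → PowerSeries ℂ))) (i : ℕ) :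
    Set ((E → ℂ) × (ι ⊕ κ → PowerSeries ℂ)) :=
  {z | cut true i (aeval (fun a => z.2 (Sum.inl a)) f) ∧ prm f i z ∈ C}

theorem Cy.cutL (f : MvPolynomial ι ℂ) (w : Bool) (i : ℕ) :
    Cy {z : (E → ℂ) × (ι ⊕ κ → PowerSeries ℂ) |
      cut w i (aeval (fun a => z.2 (Sum.inl a)) f)} := by
  have h : {z : (E → ℂ) × (ι ⊕ κ → PowerSeries ℂ) |
      cut w i (aeval (fun a => z.2 (Sum.inl a)) f)} =
      {z | ∀ l < (if w then i else i + 1), 1 ≤ l →
        PowerSeries.coeff l (aeval (fun a => z.2 (Sum.inl a)) f) = 0} := by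
    ext z
    exact ⟨fun h l h1 h2 => h l h2 h1, fun h l h1 h2 => h l h2 h1⟩
  rw [h]
  exact Cy.all_lt _ fun l _ => Cy.imp fun _ => Cy.zero (RF.coefL f l)

theorem Cy.cutR (g : MvPolynomial κ ℂ) (w : Bool) (i : ℕ) :
    Cy {z : (E → ℂ) × (ι ⊕ κ → PowerSeries ℂ) |
      cut w i (aeval (fun a => z.2 (Sum.inr a)) g)} := by
  have h : {z : (E → ℂ) × (ι ⊕ κ → PowerSeries ℂ) |
      cut w i (aeval (fun a => z.2 (Sum.inr a)) g)} =
      {z | ∀ l < (if w then i else i + 1), 1 ≤ l →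
        PowerSeries.coeff l (aeval (fun a => z.2 (Sum.inr a)) g) = 0} := by
    ext z
    exact ⟨fun h l h1 h2 => h l h2 h1, fun h l h1 h2 => h l h2 h1⟩
  rw [h]
  exact Cy.all_lt _ fun l _ => Cy.imp fun _ => Cy.zero (RF.coefR g l)

theorem Cy.cutH (H : MvPolynomial ι ℂ) (w : Bool) (i : ℕ) :
    Cy {z : (E → ℂ) × (ι → PowerSeries ℂ) | cut w i (aeval z.2 H)} := by
  have h : {z : (E → ℂ) × (ι → PowerSeries ℂ) | cut w i (aeval z.2 H)} =
      {z | ∀ l < (if w then i else i + 1), 1 ≤ l → PowerSeries.coeff l (aeval z.2 H) = 0} := by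
    ext z
    exact ⟨fun h l h1 h2 => h l h2 h1, fun h l h1 h2 => h l h2 h1⟩
  rw [h]
  exact Cy.all_lt _ fun l _ => Cy.imp fun _ => Cy.zero (RF.coef H l)

theorem Cy.Sx [Finite E] (f : MvPolynomial ι ℂ) {C : Set ((E ⊕ Bool → ℂ) × (κ → PowerSeries ℂ))}
    (hC : Cy C) (i : ℕ) : Cy (Sx f C i) :=
  Cy.and (Cy.cutL f true i) (hC.pull (RF.prm f i) Sum.inr)

/-- further conditions -/
def Sy (s : Bool) (f : MvPolynomial ι ℂ) (g : MvPolynomial κ ℂ)
    (C : Set ((E ⊕ Bool → ℂ) × (κ → PowerSeries ℂ))) (i e : ℕ)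
    (B : ℕ → MvPolynomial ((E ⊕ Bool) ⊕ (κ × ℕ)) ℂ) :
    Set ((E → ℂ) × (ι ⊕ κ → PowerSeries ℂ)) :=
  {z | z ∈ VGAux.Sx f C i ∧ ∀ l < e, PowerSeries.coeff (i + 1 + l) (aeval z.2 (gp s f g)) =
    eval (Sum.elim (prm f i z).1 fun s => PowerSeries.coeff s.2 (z.2 (Sum.inr s.1))) (B l)}

theorem Cy.Sy [Finite E] (s : Bool) (f : MvPolynomial ι ℂ) (g : MvPolynomial κ ℂ)
    {C : Set ((E ⊕ Bool → ℂ) × (κ → PowerSeries ℂ))} (hC : Cy C) (i e : ℕ)
    (B : ℕ → MvPolynomial ((E ⊕ Bool) ⊕ (κ × ℕ)) ℂ) : Cy (Sy s f g C i e B) := by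
  refine Cy.and (Cy.Sx f hC i) (Cy.all_lt e fun l _ => Cy.eq (RF.coef _ _) ?_)
  have h : ∀ s : (E ⊕ Bool) ⊕ (κ × ℕ), RF fun z : (E → ℂ) × (ι ⊕ κ → PowerSeries ℂ) =>
      Sum.elim (VGAux.prm f i z).1 (fun s => PowerSeries.coeff s.2 (z.2 (Sum.inr s.1))) s := by
    rintro (e | s)
    · exact RF.prm f i e
    · exact RF.arc (Sum.inr s.1) s.2
  exact RF.eval h (B l)

/-- the parameter set with an inverse of `al` -/
def Cw (s : Bool) (g : MvPolynomial κ ℂ) (C : Set ((E ⊕ Bool → ℂ) × (κ → PowerSeries ℂ))) :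
    Set (((E ⊕ Unit) ⊕ Bool → ℂ) × (κ → PowerSeries ℂ)) :=
  {z | ((fun p => z.1 (Sum.map Sum.inl id p)), z.2) ∈ C ∧
    z.1 (Sum.inl (Sum.inr ())) * al s (z.1 (Sum.inr true)) (PowerSeries.coeff 0 (aeval z.2 g)) = 1}

theorem Cy.Cw [Finite E] (s : Bool) (g : MvPolynomial κ ℂ)
    {C : Set ((E ⊕ Bool → ℂ) × (κ → PowerSeries ℂ))} (hC : Cy C) : Cy (Cw s g C) := by
  refine Cy.and ?_ (Cy.eq (RF.mul (RF.par _) ?_) (RF.const 1))
  · exact hC.pull (φ := fun (p : E ⊕ Bool)
      (z : ((E ⊕ Unit) ⊕ Bool → ℂ) × (κ → PowerSeries ℂ)) => z.1 (Sum.map Sum.inl id p))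
      (fun p => RF.par _) id
  · exact RF.ite (s = true) (RF.const 1) (RF.coef g 0)

/-- the polynomials which express the coefficients of `f(x)` -/
noncomputable def Aw (s : Bool) (gc : ℕ → MvPolynomial (κ × ℕ) ℂ) (i : ℕ)
    (B : ℕ → MvPolynomial ((E ⊕ Bool) ⊕ (κ × ℕ)) ℂ) (l : ℕ) :
    MvPolynomial (((E ⊕ Unit) ⊕ Bool) ⊕ ((κ × ℕ) ⊕ ℕ)) ℂ :=
  X (Sum.inl (Sum.inl (Sum.inr ()))) *
    (rename (Sum.map (Sum.map Sum.inl id) Sum.inl) (B l) -
      (if s then 1 else X (Sum.inl (Sum.inr true))) *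
        rename (fun s => Sum.inr (Sum.inl s)) (gc (i + 1 + l)) -
      C (ep s) * ∑ a ∈ Finset.Ico 1 (i + 1 + l),
        (if a < i then 0 else if a = i then X (Sum.inl (Sum.inr false)) else
          X (Sum.inr (Sum.inr (a - i - 1)))) *
          rename (fun s => Sum.inr (Sum.inl s)) (gc (i + 1 + l - a)))

theorem cond_iff (s : Bool) (f : MvPolynomial ι ℂ) (g : MvPolynomial κ ℂ)
    (gc : ℕ → MvPolynomial (κ × ℕ) ℂ)
    (hgc : ∀ (b : ℕ) (y : κ → PowerSeries ℂ), PowerSeries.coeff b (aeval y g) =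
      eval (fun s => PowerSeries.coeff s.2 (y s.1)) (gc b))
    (i : ℕ) (hi : 1 ≤ i) (B : ℕ → MvPolynomial ((E ⊕ Bool) ⊕ (κ × ℕ)) ℂ) (l : ℕ)
    (z : (E ⊕ Unit → ℂ) × (ι ⊕ κ → PowerSeries ℂ))
    (hz : cut true i (aeval (fun a => z.2 (Sum.inl a)) f))
    (hw : z.1 (Sum.inr ()) * al s (PowerSeries.coeff 0 (aeval (fun a => z.2 (Sum.inl a)) f))
      (PowerSeries.coeff 0 (aeval (fun a => z.2 (Sum.inr a)) g)) = 1) :
    PowerSeries.coeff (i + 1 + l) (aeval (fun a => z.2 (Sum.inl a)) f) =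
      eval (Sum.elim (Sum.elim z.1 (dat true i (aeval (fun a => z.2 (Sum.inl a)) f)))
        (Sum.elim (fun s => PowerSeries.coeff s.2 (z.2 (Sum.inr s.1)))
          fun s => if s < l then
            PowerSeries.coeff (i + 1 + s) (aeval (fun a => z.2 (Sum.inl a)) f) else 0))
        (Aw s gc i B l) ↔
    PowerSeries.coeff (i + 1 + l) (aeval z.2 (gp s f g)) =
      eval (Sum.elim (prm f i ((fun e => z.1 (Sum.inl e)), z.2)).1
        fun s => PowerSeries.coeff s.2 (z.2 (Sum.inr s.1))) (B l) := by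
  set F := aeval (fun a => z.2 (Sum.inl a)) f with hF
  set G := aeval (fun a => z.2 (Sum.inr a)) g with hG
  set par := (Sum.elim (Sum.elim z.1 (dat true i F))
        (Sum.elim (fun s : κ × ℕ => PowerSeries.coeff s.2 (z.2 (Sum.inr s.1)))
          fun s => if s < l then PowerSeries.coeff (i + 1 + s) F else 0)) with hpar
  have e1 : eval par (rename (Sum.map (Sum.map Sum.inl id) Sum.inl) (B l)) =
      eval (Sum.elim (prm f i ((fun e => z.1 (Sum.inl e)), z.2)).1
        fun s => PowerSeries.coeff s.2 (z.2 (Sum.inr s.1))) (B l) := by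
    rw [eval_rename]
    congr 2
    funext s
    rcases s with (e | b) | s
    · rfl
    · rfl
    · rfl
  have e2 : ∀ b, eval par (rename (fun s => Sum.inr (Sum.inl s)) (gc b)) =
      PowerSeries.coeff b G := by
    intro b
    rw [eval_rename, hG, hgc]
    rfl
  have e3 : ∀ a ∈ Finset.Ico 1 (i + 1 + l), eval par (if a < i then 0 else if a = i then
      X (Sum.inl (Sum.inr false)) else X (Sum.inr (Sum.inr (a - i - 1)))) =
      PowerSeries.coeff a F := by
    intro a ha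
    obtain ⟨ha1, ha2⟩ := Finset.mem_Ico.1 ha
    by_cases h1 : a < i
    · rw [if_pos h1, map_zero]
      exact (hz a ha1 h1).symm
    · rw [if_neg h1]
      by_cases h2 : a = i
      · subst h2
        rw [if_pos rfl, eval_X]
        rfl
      · rw [if_neg h2, eval_X]
        have h3 : i + 1 + (a - i - 1) = a := by omega
        change (if a - i - 1 < l then PowerSeries.coeff (i + 1 + (a - i - 1)) F else 0) = _
        rw [if_pos (by omega), h3]
  have e4 : eval par (if s = true then 1 else X (Sum.inl (Sum.inr true))) =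
      be s (PowerSeries.coeff 0 F) (PowerSeries.coeff 0 G) := by
    rcases s with _ | _
    · simp only [Bool.false_eq_true, if_false, eval_X, be]
      rfl
    · simp [be]
  have e5 : eval par (Aw s gc i B l) = z.1 (Sum.inr ()) *
      (eval (Sum.elim (prm f i ((fun e => z.1 (Sum.inl e)), z.2)).1
        fun s => PowerSeries.coeff s.2 (z.2 (Sum.inr s.1))) (B l) -
        be s (PowerSeries.coeff 0 F) (PowerSeries.coeff 0 G) * PowerSeries.coeff (i + 1 + l) G -
        ep s * ∑ a ∈ Finset.Ico 1 (i + 1 + l),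
          PowerSeries.coeff a F * PowerSeries.coeff (i + 1 + l - a) G) := by
    have e6 : eval par (∑ a ∈ Finset.Ico 1 (i + 1 + l),
        (if a < i then 0 else if a = i then X (Sum.inl (Sum.inr false)) else
          X (Sum.inr (Sum.inr (a - i - 1)))) *
          rename (fun s => Sum.inr (Sum.inl s)) (gc (i + 1 + l - a))) =
        ∑ a ∈ Finset.Ico 1 (i + 1 + l),
          PowerSeries.coeff a F * PowerSeries.coeff (i + 1 + l - a) G := by
      rw [map_sum]
      refine Finset.sum_congr rfl fun a ha => ?_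
      rw [map_mul, e2, e3 a ha]
    rw [Aw, map_mul, map_sub, map_sub, map_mul, map_mul, e1, e2, e4, eval_C, e6, eval_X]
    rfl
  rw [e5, coeff_gp s f g z.2 (i + 1 + l) (by omega)]
  rw [← hF, ← hG]
  generalize eval (Sum.elim (prm f i ((fun e => z.1 (Sum.inl e)), z.2)).1
        fun s => PowerSeries.coeff s.2 (z.2 (Sum.inr s.1))) (B l) = b
  generalize (∑ a ∈ Finset.Ico 1 (i + 1 + l),
          PowerSeries.coeff a F * PowerSeries.coeff (i + 1 + l - a) G) = S
  generalize be s (PowerSeries.coeff 0 F) (PowerSeries.coeff 0 G) = β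
  generalize al s (PowerSeries.coeff 0 F) (PowerSeries.coeff 0 G) = α at *
  constructor
  · intro h
    rw [h]
    linear_combination (b - β * PowerSeries.coeff (i + 1 + l) G - ep s * S) * hw
  · intro h
    rw [← h]
    linear_combination (-(PowerSeries.coeff (i + 1 + l) F)) * hw

/-- the volume does not change -/
theorem ext_vol [Finite E] (P : HodgeMeasure) (s : Bool) (f : MvPolynomial ι ℂ)
    (g : MvPolynomial κ ℂ) (gc : ℕ → MvPolynomial (κ × ℕ) ℂ)
    (hgc : ∀ (b : ℕ) (y : κ → PowerSeries ℂ), PowerSeries.coeff b (aeval y g) =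
      eval (fun s => PowerSeries.coeff s.2 (y s.1)) (gc b))
    {C : Set ((E ⊕ Bool → ℂ) × (κ → PowerSeries ℂ))} (hC : Cy C)
    (hC1 : ∀ z ∈ C, al s (z.1 (Sum.inr true)) (PowerSeries.coeff 0 (aeval z.2 g)) ≠ 0)
    (i e : ℕ) (hi : 1 ≤ i) (B : ℕ → MvPolynomial ((E ⊕ Bool) ⊕ (κ × ℕ)) ℂ) :
    vol P.rat xq {z : (E ⊕ Unit → ℂ) × (ι ⊕ κ → PowerSeries ℂ) |
      cut true i (aeval (fun a => z.2 (Sum.inl a)) f) ∧
      ((Sum.elim z.1 (dat true i (aeval (fun a => z.2 (Sum.inl a)) f))),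
        fun a => z.2 (Sum.inr a)) ∈ VGAux.Cw s g C ∧
      ∀ l < e, PowerSeries.coeff (i + 1 + l) (aeval (fun a => z.2 (Sum.inl a)) f) =
        eval (Sum.elim (Sum.elim z.1 (dat true i (aeval (fun a => z.2 (Sum.inl a)) f)))
          (Sum.elim (fun s => PowerSeries.coeff s.2 (z.2 (Sum.inr s.1)))
            fun s => if s < l then
              PowerSeries.coeff (i + 1 + s) (aeval (fun a => z.2 (Sum.inl a)) f) else 0))
          (Aw s gc i B l)} = vol P.rat xq (VGAux.Sy s f g C i e B) := by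
  set D : Set ((E ⊕ Unit → ℂ) × (ι ⊕ κ → PowerSeries ℂ)) :=
    {z | ((fun e => z.1 (Sum.inl e)), z.2) ∈ VGAux.Sy s f g C i e B ∧
      z.1 (Sum.inr ()) * al s (PowerSeries.coeff 0 (aeval (fun a => z.2 (Sum.inl a)) f))
      (PowerSeries.coeff 0 (aeval (fun a => z.2 (Sum.inr a)) g)) = 1} with hD
  have hset : {z : (E ⊕ Unit → ℂ) × (ι ⊕ κ → PowerSeries ℂ) |
      cut true i (aeval (fun a => z.2 (Sum.inl a)) f) ∧
      ((Sum.elim z.1 (dat true i (aeval (fun a => z.2 (Sum.inl a)) f))),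
        fun a => z.2 (Sum.inr a)) ∈ VGAux.Cw s g C ∧
      ∀ l < e, PowerSeries.coeff (i + 1 + l) (aeval (fun a => z.2 (Sum.inl a)) f) =
        eval (Sum.elim (Sum.elim z.1 (dat true i (aeval (fun a => z.2 (Sum.inl a)) f)))
          (Sum.elim (fun s => PowerSeries.coeff s.2 (z.2 (Sum.inr s.1)))
            fun s => if s < l then
              PowerSeries.coeff (i + 1 + s) (aeval (fun a => z.2 (Sum.inl a)) f) else 0))
          (Aw s gc i B l)} = D := by
    ext z
    have e0 : (fun p : E ⊕ Bool => (Sum.elim z.1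
        (dat true i (aeval (fun a => z.2 (Sum.inl a)) f))) (Sum.map Sum.inl id p)) =
        (prm f i ((fun e => z.1 (Sum.inl e)), z.2)).1 := by
      funext p
      rcases p with p | p <;> rfl
    constructor
    · rintro ⟨h1, ⟨h2, h3⟩, h4⟩
      have h2' : prm f i ((fun e => z.1 (Sum.inl e)), z.2) ∈ C := by
        change ((fun p : E ⊕ Bool => (Sum.elim z.1
          (dat true i (aeval (fun a => z.2 (Sum.inl a)) f))) (Sum.map Sum.inl id p)), _) ∈ C at h2
        rw [e0] at h2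
        exact h2
      exact ⟨⟨⟨h1, h2'⟩, fun l hl => (cond_iff s f g gc hgc i hi B l z h1 h3).1 (h4 l hl)⟩, h3⟩
    · rintro ⟨⟨⟨h1, h2⟩, h4⟩, h3⟩
      refine ⟨h1, ⟨?_, h3⟩, fun l hl => (cond_iff s f g gc hgc i hi B l z h1 h3).2 (h4 l hl)⟩
      change ((fun p : E ⊕ Bool => (Sum.elim z.1
        (dat true i (aeval (fun a => z.2 (Sum.inl a)) f))) (Sum.map Sum.inl id p)), _) ∈ C
      rw [e0]
      exact h2
  rw [hset]
  have hcS := Cy.Sy s f g hC i e B
  have hcD : Cy D := by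
    refine Cy.and ?_ (Cy.eq (RF.mul (RF.par _) ?_) (RF.const 1))
    · exact hcS.pull (φ := fun (p : E)
        (z : (E ⊕ Unit → ℂ) × (ι ⊕ κ → PowerSeries ℂ)) => z.1 (Sum.inl p))
        (fun p => RF.par _) id
    · exact RF.ite (s = true) (RF.const 1) (RF.coefR g 0)
  refine vol_base P hcD hcS Sum.inl (fun z hz => hz.1) ?_ ?_
  · intro z hz z' hz' h1 h2
    funext p
    rcases p with p | ⟨⟩
    · exact congrFun h1 p
    · have h3 := hz.2
      have h4 := hz'.2
      rw [← h2] at h4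
      have h5 : al s (PowerSeries.coeff 0 (aeval (fun a => z.2 (Sum.inl a)) f))
        (PowerSeries.coeff 0 (aeval (fun a => z.2 (Sum.inr a)) g)) ≠ 0 := by
        intro h6
        rw [h6, mul_zero] at h3
        exact zero_ne_one h3
      exact mul_right_cancel₀ h5 (h3.trans h4.symm)
  · intro z hz
    have h5 := hC1 _ hz.1.2
    refine ⟨Sum.elim z.1 fun _ => (al s (PowerSeries.coeff 0 (aeval (fun a => z.2 (Sum.inl a)) f))
        (PowerSeries.coeff 0 (aeval (fun a => z.2 (Sum.inr a)) g)))⁻¹, rfl, hz, ?_⟩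
    exact inv_mul_cancel₀ h5

/-- prescribing `e` further coefficients of the sum or product -/
theorem solve (hU : Stmt_U5) [Finite E] (P : HodgeMeasure) (s : Bool) (f : MvPolynomial ι ℂ)
    (g : MvPolynomial κ ℂ) (hf : Unif P f Set.univ)
    {C : Set ((E ⊕ Bool → ℂ) × (κ → PowerSeries ℂ))} (hC : Cy C)
    (hC0 : ∀ z ∈ C, z.1 (Sum.inr false) ≠ 0)
    (hC1 : ∀ z ∈ C, al s (z.1 (Sum.inr true)) (PowerSeries.coeff 0 (aeval z.2 g)) ≠ 0)
    (i e : ℕ) (hi : 1 ≤ i) (B : ℕ → MvPolynomial ((E ⊕ Bool) ⊕ (κ × ℕ)) ℂ) :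
    vol P.rat xq (VGAux.Sy s f g C i e B) = xq ^ e * vol P.rat xq (VGAux.Sx f C i) := by
  choose gc hgc using exists_gc g
  obtain ⟨n, hn⟩ := Cy.Cw s g hC
  have h1 := hU P ι f Set.univ hf (E ⊕ Unit) κ (VGAux.Cw s g C) n (hn n le_rfl)
    (fun z hz => ⟨Set.mem_univ _, hC0 _ hz.1⟩) i e hi (Aw s gc i B)
  rw [ext_vol P s f g gc hgc hC hC1 i e hi B] at h1
  rw [h1]
  congr 1
  have h2 := ext_vol P s f g gc hgc hC hC1 i 0 hi B
  have h3 : VGAux.Sy s f g C i 0 B = VGAux.Sx f C i := by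
    ext z
    exact ⟨fun h => h.1, fun h => ⟨h, fun l hl => absurd hl (Nat.not_lt_zero l)⟩⟩
  rw [← h3, ← h2]
  congr 1
  ext z
  exact ⟨fun h => ⟨h.1, h.2, fun l hl => absurd hl (Nat.not_lt_zero l)⟩, fun h => ⟨h.1, h.2.1⟩⟩

end

end VGAux

end Pool.Agent.Mono.RO
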