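import Pool.Agent.Work.Monodromy.Interface5
import Pool.Agent.Work.Monodromy4.Adm

/-!
# Block Adm5: closure properties of the class
-/

set_option autoImplicit false
set_option linter.unusedSectionVars false

namespace Pool.Agent.Mono.RO

open MvPolynomial TS TS.AdmAux

namespace Adm5Aux

section

variable {ι κ : Type}

theorem nonconst_sub {f : MvPolynomial ι ℂ} (c : ℂ) (hf : f.totalDegree ≠ 0) :
    (f - C c).totalDegree ≠ 0 := by
  rw [nonconst_iff] at hf ⊢
  intro a ha
  apply hf (a + c)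
  rw [C_add, ← ha]
  ring

/-- nonconstant polynomials have zeros -/
theorem exists_zero {f : MvPolynomial ι ℂ} (hf : f.totalDegree ≠ 0) : ∃ x, eval x f = 0 := by
  rw [nonconst_iff] at hf
  set x : ι → ℂ := fun _ => 0 with hx
  obtain ⟨y, hy⟩ : ∃ y, eval y f ≠ eval x f := by
    by_contra h
    push Not at h
    exact hf (eval x f) (MvPolynomial.funext fun y => by rw [h y, eval_C])
  set L : MvPolynomial ι ℂ →ₐ[ℂ] Polynomial ℂ := aeval fun i => Polynomial.C (x i) +
    Polynomial.X * Polynomial.C (y i - x i) with hL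
  have hev : ∀ t : ℂ, (L f).eval t = eval (fun i => x i + t * (y i - x i)) f := by
    intro t
    have h1 : ((Polynomial.evalRingHom t).comp L.toRingHom) =
        (eval fun i => x i + t * (y i - x i)) := by
      apply MvPolynomial.ringHom_ext
      · intro r
        simp [hL]
      · intro i
        simp [hL]
    exact RingHom.congr_fun h1 f
  have h0 : (L f).eval 0 = eval x f := by
    rw [hev]
    congr 2
    funext i
    simp
  have h1 : (L f).eval 1 = eval y f := by
    rw [hev]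
    congr 2
    funext i
    simp
  have hdeg : (L f).degree ≠ 0 := by
    intro h
    rw [Polynomial.eq_C_of_degree_eq_zero h, Polynomial.eval_C] at h0 h1
    exact hy (h1.symm.trans h0)
  obtain ⟨t, ht⟩ := IsAlgClosed.exists_root (L f) hdeg
  refine ⟨fun i => x i + t * (y i - x i), ?_⟩
  rw [← hev]
  exact ht

theorem exists_value {f : MvPolynomial ι ℂ} (hf : f.totalDegree ≠ 0) (c : ℂ) :
    ∃ x, eval x f = c := by
  obtain ⟨x, hx⟩ := exists_zero (nonconst_sub c hf)
  refine ⟨x, ?_⟩
  rw [map_sub, eval_C] at hx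
  exact sub_eq_zero.1 hx

theorem eval_aeval (f : MvPolynomial ι ℂ) (p : Polynomial ℂ) (x : ι → ℂ) :
    eval x (Polynomial.aeval f p) = p.eval (eval x f) := by
  induction p using Polynomial.induction_on' with
  | add p q hp hq => simp [hp, hq]
  | monomial n a => simp [Polynomial.aeval_monomial, MvPolynomial.algebraMap_eq]

theorem nonconst_comp {f : MvPolynomial ι ℂ} (hf : f.totalDegree ≠ 0) {p : Polynomial ℂ}
    (hp : p.natDegree ≠ 0) : (Polynomial.aeval f p).totalDegree ≠ 0 := by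
  rw [nonconst_iff]
  intro a ha
  apply hp
  have h : p = Polynomial.C a := by
    apply Polynomial.funext
    intro c
    obtain ⟨x, hx⟩ := exists_value hf c
    have h1 := congrArg (eval x) ha
    rw [eval_aeval, hx, eval_C] at h1
    rw [h1, Polynomial.eval_C]
  rw [h, Polynomial.natDegree_C]

theorem oplus_sub (f : MvPolynomial ι ℂ) (g : MvPolynomial κ ℂ) (c c' : ℂ) :
    oplus (f - C c) (g - C c') = oplus f g - C (c + c') := by
  unfold oplus
  rw [map_sub, map_sub, rename_C, rename_C, C_add]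
  ring

theorem rename_sub' (f : MvPolynomial ι ℂ) (φ : ι → κ) (c : ℂ) :
    rename φ (f - C c) = rename φ f - C c := by
  rw [map_sub, rename_C]

theorem sub_C_zero (f : MvPolynomial ι ℂ) : f - C (0 : ℂ) = f := by
  rw [C_0, sub_zero]

/-- multiplicities are positive -/
theorem mul_pos' {p : Polynomial ℂ} (hp : p.natDegree ≠ 0) (c : ℂ) : 1 ≤ mul p c := by
  unfold mul
  rw [Nat.one_le_iff_ne_zero, ← Nat.pos_iff_ne_zero, Polynomial.rootMultiplicity_pos']
  refine ⟨?_, ?_⟩
  · intro h
    apply hp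
    have h1 := sub_eq_zero.1 h
    rw [h1, Polynomial.natDegree_C]
  · simp [Polynomial.IsRoot]

/-- `p(f) - p(c) = (f - c)^k h(f)`, `h(c) ≠ 0` -/
theorem factor {p : Polynomial ℂ} (hp : p.natDegree ≠ 0) (c : ℂ) : ∃ h : Polynomial ℂ,
    h.eval c ≠ 0 ∧ ∀ f : MvPolynomial ι ℂ, Polynomial.aeval f p - C (p.eval c) =
      (f - C c) ^ mul p c * Polynomial.aeval f h := by
  have h0 : p - Polynomial.C (p.eval c) ≠ 0 := by
    intro h
    apply hp
    have h1 := sub_eq_zero.1 h
    rw [h1, Polynomial.natDegree_C]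
  obtain ⟨h, hh1, hh2⟩ := Polynomial.exists_eq_pow_rootMultiplicity_mul_and_not_dvd _ h0 c
  refine ⟨h, ?_, ?_⟩
  · intro h3
    apply hh2
    exact Polynomial.dvd_iff_isRoot.2 h3
  · intro f
    have h4 := congrArg (Polynomial.aeval f) hh1
    rw [map_sub, map_mul, map_pow, map_sub, Polynomial.aeval_C, Polynomial.aeval_C,
      Polynomial.aeval_X] at h4
    exact h4

/-- `(f - c)^k` divides `(h(f) - h(c))^k` -/
theorem dvd_unit (h : Polynomial ℂ) (c : ℂ) (f : MvPolynomial ι ℂ) (k : ℕ) :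
    (f - C c) ^ k ∣ (Polynomial.aeval f h - C (h.eval c)) ^ k := by
  apply pow_dvd_pow_of_dvd
  have h1 : (Polynomial.X - Polynomial.C c) ∣ h - Polynomial.C (h.eval c) :=
    Polynomial.X_sub_C_dvd_sub_C_eval
  obtain ⟨q, hq⟩ := h1
  have h4 := congrArg (Polynomial.aeval f) hq
  rw [map_sub, map_mul, map_sub, Polynomial.aeval_C, Polynomial.aeval_C,
    Polynomial.aeval_X] at h4
  exact ⟨_, h4⟩

/-- multiplication by a unit for classes -/
theorem witClass_unit (hWU5 : Stmt_WU5) [Fintype ι] [DecidableEq ι] {F U : MvPolynomial ι ℂ}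
    {c : ℂ} {N : ℕ} (hc : c ≠ 0) (hd : F ∣ (U - C c) ^ N) {r : ℚ} (h : WitClass F r) :
    WitClass (F * U) r := by
  obtain ⟨β, k, hβ, hk, hw⟩ := h
  exact ⟨β, k, hβ, hk, hWU5 ι F U c β N hc hd hw⟩

theorem Xs_true : Xs true = Set.univ := by
  ext c
  simp [Xs]

theorem Xs_false : Xs false = {0}ᶜ := by
  ext c
  simp [Xs]

end

end Adm5Aux

open Adm5Aux

theorem stmt_Adm5 (hTB5 : Stmt_TB5) (hO5 : Stmt_O5) (hTG5 : Stmt_TG5) (hTZ5 : Stmt_TZ5)
    (hTC5 : Stmt_TC5) (hG5 : Stmt_G5) (hRN5 : Stmt_RN5) (hWU5 : Stmt_WU5) (hWP5 : Stmt_WP5)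
    (hW3 : Stmt_W3) (hW4 : Stmt_W4) (hW6 : Stmt_W6) (hW7 : Stmt_W7) : Stmt_Adm5 := by
  classical
  refine ⟨?_, ?_, ?_, ?_, ?_⟩
  · intro ι _ _ f hf
    obtain ⟨h1, h2, h3⟩ := hf
    refine ⟨h1, fun P => ?_⟩
    obtain ⟨hM, Λ, hΛ, hW, hE⟩ := h3 P
    refine ⟨fun c => {r | c = 0 ∧ r ∈ Λ}, fun c r hr => hΛ hr.2, ?_,
      hTB5 P ι f Λ h1 h2 hM hΛ hE⟩
    rintro c r ⟨rfl, hr⟩
    rw [sub_C_zero]
    exact hW r hr
  · intro ι _ _ f hf
    refine ⟨?_, fun P => ?_⟩
    · rw [nonconst_iff]
      rintro c rfl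
      obtain ⟨i, hi⟩ := hf fun _ => 0
      rw [pderiv_C, map_zero] at hi
      exact hi rfl
    · obtain ⟨⟨h, hh1, hh2⟩, hU⟩ := hO5 P ι f Set.univ
        (by
          have h1 := Constructible.zero (0 : MvPolynomial ι ℂ)
          refine cast ?_ h1
          congr 1
          ext x
          simp)
        (fun x _ => hf x)
      refine ⟨fun _ => ∅, fun c => Set.empty_subset _, fun c r hr => hr.elim, ?_⟩
      refine ⟨[h], ∅, fun _ => [], fun _ _ => 0, ?_, ?_, ?_, hU⟩
      · intro c hc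
        simp at hc
      · have : exF [h] ∅ (fun _ => []) = [h.ex] := by simp [exF]
        rw [this]
        exact hh1
      · have : tlF [h] ∅ (fun _ _ => 0) = [h.tl] := by simp [tlF]
        rw [this]
        exact hh2
  · intro ι κ _ _ _ _ f g hf hg
    obtain ⟨hf1, hf3⟩ := hf
    obtain ⟨hg1, hg3⟩ := hg
    have hf0 := ne_zero_of_nonconst hf1
    have hg0 := ne_zero_of_nonconst hg1
    refine ⟨⟨nonconst_oplus g hf1, fun P => ?_⟩, ⟨nonconst_otimes hf1 hg0, fun P => ?_⟩⟩
    · obtain ⟨Λ, hΛ, hW, hE⟩ := hf3 P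
      obtain ⟨Λ', hΛ', hW', hE'⟩ := hg3 P
      have hR := hTG5 true P ι κ f g Λ Λ' hΛ hΛ' hE hE'
      rw [Xs_true] at hR
      refine ⟨_, ?_, ?_, hR⟩
      · rintro d r ⟨c, c', -, a, ha, b, hb, rfl⟩
        have h1 : 0 < a := hΛ c ha
        have h2 : 0 < b := hΛ' c' hb
        exact Set.mem_Ioi.2 (add_pos h1 h2)
      · rintro d r ⟨c, c', hd, a, ha, b, hb, rfl⟩
        obtain ⟨β, n, hβ, hn, hw⟩ := hW c a ha
        obtain ⟨β', n', hβ', hn', hw'⟩ := hW' c' b hb
        refine ⟨β + β', n + n', add_neg hβ hβ', ?_, ?_⟩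
        · rw [hn, hn']; push_cast; ring
        · have h1 := hW4 ι κ _ _ β β' hw hw'
          rw [oplus_sub] at h1
          have h2 : c + c' = d := hd
          rw [Rat.cast_add, ← h2]
          exact h1
    · obtain ⟨Λ, hΛ, hW, hE⟩ := hf3 P
      obtain ⟨Λ', hΛ', hW', hE'⟩ := hg3 P
      have hR := hTG5 false P ι κ f g Λ Λ' hΛ hΛ' hE hE'
      have hR0 := hTZ5 P ι κ f g Λ Λ' hE hE'
      have hG : gp false f g = otimes f g := rfl
      rw [Xs_false, hG] at hR
      set Λ'' : ℂ → Set ℚ := fun d => if d = 0 then Λ 0 ∪ Λ' 0 ∪ {1} else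
        {r | ∃ c c', gv false c c' = d ∧ r ∈ sumE (Λ c) (Λ' c')} with hΛ''
      refine ⟨Λ'', ?_, ?_, hG5 P _ (otimes f g) 0 _ _ Λ'' hR hR0 ?_ ?_⟩
      · intro d r hr
        by_cases hd : d = 0
        · simp only [hΛ'', hd, if_true] at hr
          rcases hr with (hr | hr) | hr
          · exact hΛ 0 hr
          · exact hΛ' 0 hr
          · rw [Set.mem_singleton_iff] at hr
            rw [hr, Set.mem_Ioi]
            exact one_pos
        · simp only [hΛ'', hd, if_false] at hr
          obtain ⟨c, c', -, a, ha, b, hb, rfl⟩ := hr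
          have h1 : 0 < a := hΛ c ha
          have h2 : 0 < b := hΛ' c' hb
          exact Set.mem_Ioi.2 (add_pos h1 h2)
      · intro d r hr
        by_cases hd : d = 0
        · simp only [hΛ'', hd, if_true] at hr
          rw [hd, sub_C_zero]
          rcases hr with (hr | hr) | hr
          · obtain ⟨β, n, hβ, hn, hw⟩ := hW 0 r hr
            rw [sub_C_zero] at hw
            exact ⟨β, n, hβ, hn, (hW6 ι κ f g β hg0 hw).1⟩
          · obtain ⟨β, n, hβ, hn, hw⟩ := hW' 0 r hr
            rw [sub_C_zero] at hw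
            exact ⟨β, n, hβ, hn, (hW6 κ ι g f β hf0 hw).2⟩
          · rw [Set.mem_singleton_iff] at hr
            rw [hr]
            refine ⟨-1, 0, by norm_num, by norm_num, ?_⟩
            have hf' : (rename Sum.inl f : MvPolynomial (ι ⊕ κ) ℂ) ≠ 0 := fun h =>
              hf0 (rename_injective _ Sum.inl_injective (by rw [h, map_zero]))
            have hg' : (rename Sum.inr g : MvPolynomial (ι ⊕ κ) ℂ) ≠ 0 := fun h =>
              hg0 (rename_injective _ Sum.inr_injective (by rw [h, map_zero]))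
            obtain ⟨x, hx⟩ := exists_zero hf1
            obtain ⟨y, hy⟩ := exists_zero hg1
            have h1 := hW3 (ι ⊕ κ) (rename Sum.inl f) (rename Sum.inr g) (Sum.elim x y) hf' hg'
              (isRelPrime_sep hf0 hg0)
              (by
                rw [eval_rename]
                exact hx)
              (by
                rw [eval_rename]
                exact hy)
            have h2 : ((-1 : ℚ) : ℂ) = -1 := by push_cast; ring
            rw [h2]
            exact h1
        · simp only [hΛ'', hd, if_false] at hr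
          obtain ⟨c, c', hcc, a, ha, b, hb, rfl⟩ := hr
          have hcc' : c * c' = d := hcc
          have hc : c ≠ 0 := by
            rintro rfl
            apply hd
            rw [← hcc', zero_mul]
          have hc' : c' ≠ 0 := by
            rintro rfl
            apply hd
            rw [← hcc', mul_zero]
          obtain ⟨β, n, hβ, hn, hw⟩ := hW c a ha
          obtain ⟨β', n', hβ', hn', hw'⟩ := hW' c' b hb
          refine ⟨β + β', n + n', add_neg hβ hβ', ?_, ?_⟩
          · rw [hn, hn']; push_cast; ring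
          · have h1 := hWP5 ι κ f g c c' β β' hc hc' hw hw'
            rw [Rat.cast_add, ← hcc']
            exact h1
      · intro d hd r hr
        simp only [hΛ'', hd, if_false]
        exact hr
      · intro r hr
        simp only [hΛ'', if_true]
        exact hr
  · intro ι _ _ f p hp hf
    obtain ⟨hf1, hf3⟩ := hf
    refine ⟨nonconst_comp hf1 hp, fun P => ?_⟩
    obtain ⟨Λ, hΛ, hW, hE⟩ := hf3 P
    refine ⟨_, ?_, ?_, hTC5 P ι f p Λ hp hE⟩
    · rintro d r ⟨c, hd, hr⟩
      have hk : 1 ≤ mul p c := mul_pos' hp c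
      have hkq : (0 : ℚ) < (mul p c : ℚ) := by exact_mod_cast hk
      rcases hr with hr | ⟨_, hr⟩
      · have := hΛ c hr
        rw [Set.mem_Ioi] at this ⊢
        exact pos_of_mul_pos_right this hkq.le
      · rw [hr, Set.mem_Ioi]
        exact one_div_pos.2 hkq
    · rintro d r ⟨c, hd, hr⟩
      have hk : 1 ≤ mul p c := mul_pos' hp c
      obtain ⟨h, hh1, hh2⟩ := factor (ι := ι) hp c
      rw [← hd, hh2 f]
      refine witClass_unit hWU5 hh1 (dvd_unit h c f (mul p c)) ?_
      rcases hr with hr | ⟨hr1, hr2⟩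
      · exact witClass_div hW7 (f - C c) (mul p c) hk r (hW c _ hr)
      · rw [hr2]
        exact witClass_inv hW7 (f - C c) (mul p c) hr1 (nonconst_sub c hf1)
  · intro ι κ _ _ _ _ f φ hφ hf
    obtain ⟨hf1, hf3⟩ := hf
    refine ⟨nonconst_rename φ hφ hf1, fun P => ?_⟩
    obtain ⟨Λ, hΛ, hW, hE⟩ := hf3 P
    refine ⟨Λ, hΛ, ?_, hRN5 P ι κ f Set.univ Λ φ hφ hE⟩
    intro c r hr
    obtain ⟨β, k, hβ, hk, hw⟩ := hW c r hr
    refine ⟨β, k, hβ, hk, ?_⟩
    rw [← rename_sub']
    exact wit_rename hW6 hW7 (f - C c) φ hφ _ hw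

end Pool.Agent.Mono.RO
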