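import Pool.Agent.Work.Monodromy5.M5
import Pool.Agent.Work.Monodromy4.Q1

/-!
# Block G5: the values different from `c` and the value `c` together
-/

set_option autoImplicit false

namespace Pool.Agent.Mono.RO

open MvPolynomial TS TS.VAAux M5Aux

namespace G5Aux

section

variable {P : HodgeMeasure} {ι E : Type} [Fintype ι] {f : MvPolynomial ι ℂ}

/-- the part of the parameter set over `X` -/
def res (X : Set ℂ) (Q : Set (E ⊕ Bool → ℂ)) : Set (E ⊕ Bool → ℂ) :=
  {z | z ∈ Q ∧ z (Sum.inr true) ∈ X}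

theorem con_res (c : ℂ) {Q : Set (E ⊕ Bool → ℂ)} (hQ : Constructible Q) :
    Constructible (res {c} Q) ∧ Constructible (res {c}ᶜ Q) := by
  have h := Constructible.eq (X (Sum.inr true) : MvPolynomial (E ⊕ Bool) ℂ) (C c)
  simp only [eval_X, eval_C] at h
  exact ⟨hQ.and h, hQ.and h.not⟩

theorem ok_res {w : Bool} (c : ℂ) {Q : Set (E ⊕ Bool → ℂ)} (hQ : QOk Set.univ w Q) :
    QOk {c} w (res {c} Q) ∧ QOk {c}ᶜ w (res {c}ᶜ Q) :=
  ⟨⟨(con_res c hQ.1).1, fun z hz => ⟨hz.2, (hQ.2 z hz.1).2⟩⟩,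
    ⟨(con_res c hQ.1).2, fun z hz => ⟨hz.2, (hQ.2 z hz.1).2⟩⟩⟩

/-- families with values in `X` only see the part of `Q` over `X` -/
theorem cl_res [Finite E] {X : Set ℂ} {w : Bool} (G : Fam2) (hG : G.Ok X w)
    (Q : Set (E ⊕ Bool → ℂ)) : G.cl P Q = G.cl P (res X Q) := by
  unfold Fam2.cl
  congr 1
  ext z
  constructor
  · rintro ⟨h1, h2⟩
    refine ⟨h1, h2, ?_⟩
    have := (hG.2 _ h1).1
    simpa [Fam2.pt] using this
  · rintro ⟨h1, h2, _⟩
    exact ⟨h1, h2⟩

theorem vol_split [Finite E] (w : Bool) (c : ℂ) {Q : Set (E ⊕ Bool → ℂ)} (hQ : Constructible Q)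
    (i : ℕ) : vol P.rat xq (SD f w Q i) = vol P.rat xq (SD f w (res {c}ᶜ Q) i) +
      vol P.rat xq (SD f w (res {c} Q) i) := by
  rw [← vol_union P.rat (L_mul P) (cyl_SD f w (con_res c hQ).2 i)
    (cyl_SD f w (con_res c hQ).1 i)]
  · congr 1
    ext z
    simp only [SD, res, Set.mem_ofPred_eq, Set.mem_union]
    constructor
    · rintro ⟨h1, h2⟩
      by_cases h3 : Sum.elim z.1 (dat w i (aeval z.2 f)) (Sum.inr true) = c
      · exact Or.inr ⟨h1, h2, h3⟩
      · exact Or.inl ⟨h1, h2, h3⟩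
    · rintro (⟨h1, h2, _⟩ | ⟨h1, h2, _⟩)
      · exact ⟨h1, h2⟩
      · exact ⟨h1, h2⟩
  · rw [Set.disjoint_left]
    intro z hz hz'
    exact hz.2.2 hz'.2.2

theorem vol_split_PD [Finite E] (c : ℂ) {Q : Set (E ⊕ Bool → ℂ)} (hQ : Constructible Q)
    (i e : ℕ) (A : ℕ → MvPolynomial (E ⊕ Bool) ℂ) :
    vol P.rat xq (PD f Q i e A) = vol P.rat xq (PD f (res {c}ᶜ Q) i e A) +
      vol P.rat xq (PD f (res {c} Q) i e A) := by
  rw [← vol_union P.rat (L_mul P) (cyl_PD f (con_res c hQ).2 i e A)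
    (cyl_PD f (con_res c hQ).1 i e A)]
  · congr 1
    ext z
    simp only [PD, SD, res, Set.mem_ofPred_eq, Set.mem_union]
    constructor
    · rintro ⟨⟨h1, h2⟩, h4⟩
      by_cases h3 : Sum.elim z.1 (dat true i (aeval z.2 f)) (Sum.inr true) = c
      · exact Or.inr ⟨⟨h1, h2, h3⟩, h4⟩
      · exact Or.inl ⟨⟨h1, h2, h3⟩, h4⟩
    · rintro (⟨⟨h1, h2, _⟩, h4⟩ | ⟨⟨h1, h2, _⟩, h4⟩)
      · exact ⟨⟨h1, h2⟩, h4⟩
      · exact ⟨⟨h1, h2⟩, h4⟩
  · rw [Set.disjoint_left]
    intro z hz hz'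
    exact hz.1.2.2 hz'.1.2.2

theorem ok_mono {X Y : Set ℂ} (hXY : X ⊆ Y) {w : Bool} {G : Fam2} (hG : G.Ok X w) : G.Ok Y w :=
  ⟨hG.1, fun τ hτ => ⟨hXY (hG.2 τ hτ).1, (hG.2 τ hτ).2⟩⟩

/-- gluing of distributions -/
theorem hasD_glue {w : Bool} {c : ℂ} {Gs Gs' Gs'' : List Fam2} (h : HasD P f {c}ᶜ w Gs)
    (h' : HasD P f {c} w Gs') (hok : ∀ G ∈ Gs'', G ∈ Gs ∨ G ∈ Gs')
    (hsum : ∀ F : Fam2 → K, (Gs''.map F).sum = (Gs.map F).sum + (Gs'.map F).sum) :
    HasD P f Set.univ w Gs'' := by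
  refine ⟨?_, ?_⟩
  · intro G hG
    rcases hok G hG with h1 | h1
    · exact ok_mono (Set.subset_univ _) (h.1 G h1)
    · exact ok_mono (Set.subset_univ _) (h'.1 G h1)
  · intro E _ Q hQ i hi
    rw [vol_split w c hQ.1 i, h.2 E _ (ok_res c hQ).2 i hi, h'.2 E _ (ok_res c hQ).1 i hi, hsum]
    congr 1
    · congr 1
      apply List.map_congr_left
      intro G hG
      rw [cl_res G (h.1 G hG) Q]
    · congr 1
      apply List.map_congr_left
      intro G hG
      rw [cl_res G (h'.1 G hG) Q]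

end

end G5Aux

open G5Aux

theorem stmt_G5 : Stmt_G5 := by
  classical
  have hQ1 : Stmt_Q1 := stmt_Q1
  intro P ι _ f c Λ Λ' Λ'' h h' hΛ hΛ'
  obtain ⟨hs, crit, ts, b, he, hE, hT, hU⟩ := h
  obtain ⟨hs', crit', ts', b', he', hE', hT', hU'⟩ := h'
  have hc : ∀ d ∈ crit, d ≠ c := fun d hd => crit_mem hT hd
  have hc' : ∀ d ∈ crit', d = c := fun d hd => crit_mem hT' hd
  have hdis : Disjoint crit crit' := by
    rw [Finset.disjoint_left]
    intro d hd hd'
    exact hc d hd (hc' d hd')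
  set ts'' : ℂ → List Fam := fun d => if d = c then ts' d else ts d with hts
  set b'' : ℂ → ℕ → K := fun d => if d = c then b' d else b d with hb
  have t1 : ∀ d ∈ crit, ts'' d = ts d := fun d hd => by rw [hts]; simp [hc d hd]
  have t2 : ∀ d ∈ crit', ts'' d = ts' d := fun d hd => by rw [hts]; simp [hc' d hd]
  have b1 : ∀ d ∈ crit, b'' d = b d := fun d hd => by rw [hb]; simp [hc d hd]
  have b2 : ∀ d ∈ crit', b'' d = b' d := fun d hd => by rw [hb]; simp [hc' d hd]
  refine ⟨hs ++ hs', crit ∪ crit', ts'', b'', ?_, ?_, ?_, ?_⟩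
  · intro d hd
    rcases Finset.mem_union.1 hd with hd | hd
    · rw [t1 d hd, b1 d hd]
      have h1 := hΛ d (hc d hd)
      exact ⟨fun t ht => hQ1.1 _ _ _ h1 ((he d hd).1 t ht), hQ1.1 _ _ _ h1 (he d hd).2⟩
    · rw [t2 d hd, b2 d hd]
      have h1 : Λ' d ⊆ Λ'' d := by rw [hc' d hd]; exact hΛ'
      exact ⟨fun t ht => hQ1.1 _ _ _ h1 ((he' d hd).1 t ht), hQ1.1 _ _ _ h1 (he' d hd).2⟩
  · refine hasD_glue hE hE' ?_ ?_
    · intro G hG
      unfold exF at hG
      rcases List.mem_append.1 hG with hG | hG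
      · rw [List.map_append] at hG
        rcases List.mem_append.1 hG with hG | hG
        · exact Or.inl (List.mem_append_left _ hG)
        · exact Or.inr (List.mem_append_left _ hG)
      · obtain ⟨d, hd, hG⟩ := List.mem_flatMap.1 hG
        obtain ⟨t, ht, rfl⟩ := List.mem_map.1 hG
        rcases Finset.mem_union.1 (Finset.mem_toList.1 hd) with hd | hd
        · rw [t1 d hd] at ht
          exact Or.inl (mem_exF_c hd ht)
        · rw [t2 d hd] at ht
          exact Or.inr (mem_exF_c hd ht)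
    · intro F
      rw [sum_exF, sum_exF, sum_exF, List.map_append, List.sum_append,
        Finset.sum_union hdis]
      have e1 : ∑ d ∈ crit, ((ts'' d).map fun t => F (atv t d)).sum =
          ∑ d ∈ crit, ((ts d).map fun t => F (atv t d)).sum :=
        Finset.sum_congr rfl fun d hd => by rw [t1 d hd]
      have e2 : ∑ d ∈ crit', ((ts'' d).map fun t => F (atv t d)).sum =
          ∑ d ∈ crit', ((ts' d).map fun t => F (atv t d)).sum :=
        Finset.sum_congr rfl fun d hd => by rw [t2 d hd]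
      rw [e1, e2]
      ring
  · refine hasD_glue hT hT' ?_ ?_
    · intro G hG
      unfold tlF at hG
      rcases List.mem_append.1 hG with hG | hG
      · rw [List.map_append] at hG
        rcases List.mem_append.1 hG with hG | hG
        · exact Or.inl (List.mem_append_left _ hG)
        · exact Or.inr (List.mem_append_left _ hG)
      · obtain ⟨d, hd, rfl⟩ := List.mem_map.1 hG
        rcases Finset.mem_union.1 (Finset.mem_toList.1 hd) with hd | hd
        · rw [b1 d hd]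
          exact Or.inl (mem_tlF_c hd)
        · rw [b2 d hd]
          exact Or.inr (mem_tlF_c hd)
    · intro F
      rw [sum_tlF, sum_tlF, sum_tlF, List.map_append, List.sum_append,
        Finset.sum_union hdis]
      have e1 : ∑ d ∈ crit, F (ptv d (b'' d)) = ∑ d ∈ crit, F (ptv d (b d)) :=
        Finset.sum_congr rfl fun d hd => by rw [b1 d hd]
      have e2 : ∑ d ∈ crit', F (ptv d (b'' d)) = ∑ d ∈ crit', F (ptv d (b' d)) :=
        Finset.sum_congr rfl fun d hd => by rw [b2 d hd]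
      rw [e1, e2]
      ring
  · intro E _ Q hQ i e hi A
    rw [vol_split_PD c hQ.1 i e A, vol_split true c hQ.1 i,
      hU E _ (ok_res c hQ).2 i e hi A, hU' E _ (ok_res c hQ).1 i e hi A]
    ring

end Pool.Agent.Mono.RO
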