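import Pool.Agent.Work.Monodromy5.M5
import Pool.Agent.Work.Monodromy4.T0

/-!
# Block RN5: change of the index type
-/

set_option autoImplicit false
set_option linter.unusedSectionVars false

namespace Pool.Agent.Mono.RO

open MvPolynomial TS TS.VAAux M5Aux

namespace RN5Aux

section

variable {P : HodgeMeasure} {ι κ E : Type} [Fintype ι] [Fintype κ] {f : MvPolynomial ι ℂ}
  {φ : ι → κ}

theorem aeval_ren (x : κ → PowerSeries ℂ) (f : MvPolynomial ι ℂ) :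
    aeval x (rename φ f) = aeval (fun i => x (φ i)) f := by
  rw [aeval_rename]
  rfl

theorem SD_ren (w : Bool) (Q : Set (E ⊕ Bool → ℂ)) (i : ℕ) :
    SD (rename φ f) w Q i =
      {z : (E → ℂ) × (κ → PowerSeries ℂ) | (z.1, fun i => z.2 (φ i)) ∈ SD f w Q i} := by
  ext z
  simp only [SD, Set.mem_ofPred_eq, aeval_ren]

theorem PD_ren (Q : Set (E ⊕ Bool → ℂ)) (i e : ℕ) (A : ℕ → MvPolynomial (E ⊕ Bool) ℂ) :
    PD (rename φ f) Q i e A =
      {z : (E → ℂ) × (κ → PowerSeries ℂ) | (z.1, fun i => z.2 (φ i)) ∈ PD f Q i e A} := by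
  ext z
  simp only [PD, SD, Set.mem_ofPred_eq, aeval_ren]

theorem vol_SD_ren [Finite E] (hφ : Function.Injective φ) (w : Bool) {Q : Set (E ⊕ Bool → ℂ)}
    (hQ : Constructible Q) (i : ℕ) :
    vol P.rat xq (SD (rename φ f) w Q i) = vol P.rat xq (SD f w Q i) := by
  rw [SD_ren]
  exact T0Aux.vol_comp P hφ (cyl_SD f w hQ i)

theorem vol_PD_ren [Finite E] (hφ : Function.Injective φ) {Q : Set (E ⊕ Bool → ℂ)}
    (hQ : Constructible Q) (i e : ℕ) (A : ℕ → MvPolynomial (E ⊕ Bool) ℂ) :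
    vol P.rat xq (PD (rename φ f) Q i e A) = vol P.rat xq (PD f Q i e A) := by
  rw [PD_ren]
  exact T0Aux.vol_comp P hφ (cyl_PD f hQ i e A)

theorem hasD_ren (hφ : Function.Injective φ) {X : Set ℂ} {w : Bool} {Gs : List Fam2}
    (h : HasD P f X w Gs) : HasD P (rename φ f) X w Gs := by
  refine ⟨h.1, ?_⟩
  intro E _ Q hQ i hi
  rw [vol_SD_ren hφ w hQ.1 i]
  exact h.2 E Q hQ i hi

end

end RN5Aux

open RN5Aux

theorem stmt_RN5 : Stmt_RN5 := by
  intro P ι κ _ _ f X Λ φ hφ h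
  obtain ⟨hs, crit, ts, b, he, hE, hT, hU⟩ := h
  refine ⟨hs, crit, ts, b, he, hasD_ren hφ hE, hasD_ren hφ hT, ?_⟩
  intro E _ Q hQ i e hi A
  rw [vol_SD_ren hφ true hQ.1 i, vol_PD_ren hφ hQ.1 i e A]
  exact hU E Q hQ i e hi A

end Pool.Agent.Mono.RO
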