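import Pool.Agent.Work.Monodromy.Interface5
import Pool.Agent.Work.Monodromy4.TS
import Pool.Agent.Work.Monodromy4.VA
import Pool.Agent.Work.Monodromy4.VF
import Pool.Agent.Work.Monodromy4.VS
import Pool.Agent.Work.Monodromy4.T0

/-!
# Block TB5: the admissible polynomials of phase 4
-/

set_option autoImplicit false
set_option linter.unusedSectionVars false

namespace Pool.Agent.Mono.RO

open MvPolynomial TS
open Pool.Agent.Mono.TS.VAAux Pool.Agent.Mono.TS.VFAux Pool.Agent.Mono.TS.TSAux

namespace TB5Aux

section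

variable {E ι : Type} [Fintype ι]

theorem cyl_SD (f : MvPolynomial ι ℂ) (w : Bool) {Q : Set (E ⊕ Bool → ℂ)} (hQ : Constructible Q)
    (i : ℕ) : IsCyl (fun _ => i + 1) (SD f w Q i) := by
  set φ : E ⊕ Bool → MvPolynomial (E ⊕ Fin (i + 1)) ℂ :=
    Sum.elim (fun p => X (Sum.inl p)) fun b => if b then X (Sum.inr 0) else
      if w then X (Sum.inr (Fin.last i)) else 0 with hφ
  have hQ' : Constructible {v : E ⊕ Fin (i + 1) → ℂ |
      (∀ l : Fin (i + 1), (1 ≤ (l : ℕ) ∧ (l : ℕ) < (if w then i else i + 1)) →
        eval v (X (Sum.inr l)) = 0) ∧ (fun j => eval v (φ j)) ∈ Q} :=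
    Constructible.and (Constructible.all fun l => Constructible.imp (Constructible.const _)
      (Constructible.zero _)) (Constructible.preimage _ hQ)
  have h := cyl_one f (i + 1) hQ'
  convert h using 1
  ext z
  simp only [SD, Set.mem_ofPred_eq, eval_X, Sum.elim_inr]
  have h1 : (fun j => eval (Sum.elim z.1 fun s : Fin (i + 1) =>
      PowerSeries.coeff (s : ℕ) (aeval z.2 f)) (φ j)) =
      Sum.elim z.1 (dat w i (aeval z.2 f)) := by
    funext j
    rcases j with j | j
    · simp [hφ]
    · rcases j with _ | _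
      · rcases w with _ | _
        · simp [hφ, dat, ldc]
        · simp [hφ, dat, ldc]
      · simp [hφ, dat]
  rw [h1]
  refine and_congr ?_ Iff.rfl
  constructor
  · intro h l hl
    exact h l hl.1 hl.2
  · intro h l h2 h3
    refine h ⟨l, ?_⟩ ⟨h2, h3⟩
    split_ifs at h3 <;> omega

theorem SD_true [Finite E] (P : HodgeMeasure) (f : MvPolynomial ι ℂ) {Q : Set (E ⊕ Bool → ℂ)}
    (hQ : QOk {0} true Q) {i : ℕ} (hi : 1 ≤ i) :
    vol P.rat xq (SD f true Q i) = AA P f Q (X (Sum.inr false)) i := by
  classical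
  have hL := L_mul P
  have hc1 := cyl_SD f true hQ.1 i
  have hc2 := cyl_ctc f hQ.1 (X (Sum.inr false)) i
  rw [AA, vol_eq P.rat hL hc1, vol_eq P.rat hL hc2]
  congr 1
  have ecA : ∀ (l : ℕ) (v : E ⊕ (Σ _ : ι, Fin (i + 1)) → ℂ),
      eval v (GJetAux.cA E (fun _ : ι => i + 1) f l) =
        PowerSeries.coeff l (aeval (toArc (fun _ : ι => i + 1) fun s => v (Sum.inr s)) f) :=
    fun l v => by rw [GJetAux.eval_cA]
  refine val_graph P.rat hc1.2 hc2.2
    (Sum.elim (Sum.elim (fun p => X (Sum.inl p)) (fun b : Bool =>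
      if b then GJetAux.cA E (fun _ : ι => i + 1) f 0 else
        GJetAux.cA E (fun _ : ι => i + 1) f i)) fun s => X (Sum.inr s))
    (Sum.elim (fun p => Sum.inl (Sum.inl p)) fun s => Sum.inr s) ?_ ?_ ?_ ?_
  · rintro (p | s) <;> rfl
  · intro v hv
    obtain ⟨h1, h2⟩ := hv
    have h3 := (hQ.2 _ h2).1
    have h4 : PowerSeries.coeff 0 (aeval (toArc (fun _ : ι => i + 1) fun s => v (Sum.inr s)) f)
      = 0 := h3
    refine ⟨?_, ?_, ?_⟩
    · refine cast ?_ h2
      congr 1
      funext s
      rcases s with s | s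
      · simp
      · rcases s with _ | _
        · simp only [Sum.elim_inr, Sum.elim_inl, dat, ldc, Bool.false_eq_true, if_false, if_true]
          exact (ecA i v).symm
        · simp only [Sum.elim_inr, Sum.elim_inl, dat, if_true]
          exact (ecA 0 v).symm
    · intro l hl
      simp only [Sum.elim_inr, eval_X]
      rcases Nat.eq_zero_or_pos l with rfl | hl0
      · exact h4
      · exact h1 l hl0 (by simpa using hl)
    · simp only [Sum.elim_inr, Sum.elim_inl, eval_X, Bool.false_eq_true, if_false]
      exact (ecA i v).symm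
  · intro y hy
    obtain ⟨h1, h2, h3⟩ := hy
    refine ⟨?_, ?_⟩
    · intro l hl1 hl2
      exact h2 l (by simpa using hl2)
    · refine cast ?_ h1
      congr 1
      funext s
      rcases s with s | s
      · rfl
      · rcases s with _ | _
        · simp only [Sum.elim_inr, dat, Bool.false_eq_true, if_false, ldc, if_true]
          rw [eval_X] at h3
          exact h3.symm
        · simp only [Sum.elim_inr, dat, if_true]
          have h5 := h2 0 (by omega)
          have h6 := (hQ.2 _ h1).1
          exact h6.trans h5.symm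
  · intro y hy
    obtain ⟨h1, h2, h3⟩ := hy
    rintro ((p | b) | s)
    · simp
    · rcases b with _ | _
      · simp only [Sum.elim_inl, Sum.elim_inr, Bool.false_eq_true, if_false]
        rw [ecA]
        rw [eval_X] at h3
        exact h3
      · simp only [Sum.elim_inl, Sum.elim_inr, if_true]
        rw [ecA]
        have h5 := h2 0 (by omega)
        have h6 := (hQ.2 _ h1).1
        exact h5.trans h6.symm
    · simp

/-- the parameters of a tail set over the value `0` -/
def Q0 (Q : Set (E ⊕ Bool → ℂ)) : Set (E → ℂ) := {p | Sum.elim p (fun _ => 0) ∈ Q}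

theorem con_Q0 {Q : Set (E ⊕ Bool → ℂ)} (hQ : Constructible Q) : Constructible (Q0 Q) := by
  have h := Constructible.preimage (Sum.elim (fun p => X p) fun _ => 0 :
    E ⊕ Bool → MvPolynomial E ℂ) hQ
  convert h using 1
  ext p
  have h1 : (fun j => eval p ((Sum.elim (fun p => X p) fun _ => 0 :
    E ⊕ Bool → MvPolynomial E ℂ) j)) = Sum.elim p fun _ => 0 := by
    funext j
    rcases j with j | j <;> simp
  simp only [Q0, Set.mem_ofPred_eq, h1]

theorem SD_false [Finite E] (P : HodgeMeasure) (f : MvPolynomial ι ℂ) {Q : Set (E ⊕ Bool → ℂ)}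
    (hQ : QOk {0} false Q) (i : ℕ) :
    vol P.rat xq (SD f false Q i) = P.rat.val (Q0 Q) * bb P f i := by
  have h1 : SD f false Q i = {z : (E → ℂ) × (ι → PowerSeries ℂ) | z.1 ∈ Q0 Q ∧
      ∀ l ≤ i, PowerSeries.coeff l (aeval z.2 f) = 0} := by
    ext z
    constructor
    · rintro ⟨h1, h2⟩
      have h3 : PowerSeries.coeff 0 (aeval z.2 f) = 0 := (hQ.2 _ h2).1
      refine ⟨?_, ?_⟩
      · have h5 : dat false i (aeval z.2 f) = fun _ => 0 := by
          funext b
          rcases b with _ | _
          · simp [dat, ldc]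
          · simp only [dat, if_true]
            exact h3
        show Sum.elim z.1 (fun _ => 0) ∈ Q
        rw [← h5]
        exact h2
      · intro l hl
        rcases Nat.eq_zero_or_pos l with rfl | hl0
        · exact h3
        · exact h1 l hl0 (by simp; omega)
    · rintro ⟨h1, h2⟩
      refine ⟨?_, ?_⟩
      · intro l hl1 hl2
        exact h2 l (by simp at hl2; omega)
      · have h5 : dat false i (aeval z.2 f) = fun _ => 0 := by
          funext b
          rcases b with _ | _
          · simp [dat, ldc]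
          · have := h2 0 (Nat.zero_le _)
            simp only [dat, if_true]
            exact this
        show Sum.elim z.1 (dat false i (aeval z.2 f)) ∈ Q
        rw [h5]
        exact h1
  rw [h1, bb]
  exact VSAux.vol_par P (con_Q0 hQ.1)
    (fun x => ∀ l ≤ i, PowerSeries.coeff l (aeval x f) = 0) (cyl_gt' f i) (cyl_gt f i (con_Q0 hQ.1))

/-- the class of a family at the value `c`, explicitly -/
theorem cl_atv_eq [Finite E] (P : HodgeMeasure) (Q : Set (E ⊕ Bool → ℂ)) (t : Fam) (c : ℂ)
    [Finite t.σ] :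
    (atv t c).cl P Q = P.rat.val {z : E ⊕ t.σ → ℂ | (fun s => z (Sum.inr s)) ∈ t.S ∧
      Sum.elim (fun p => z (Sum.inl p)) (fun b : Bool => if b then
        eval (fun s => z (Sum.inr s)) (C c : MvPolynomial t.σ ℂ) else
          eval (fun s => z (Sum.inr s)) t.u) ∈ Q} := rfl

theorem cl_atv [Finite E] (P : HodgeMeasure) {Q : Set (E ⊕ Bool → ℂ)} (hQ : QOk {0} true Q)
    {t : Fam} (ht : t.Good) (i : ℕ) :
    t.val P Q (X (Sum.inr false)) i = (atv t 0).κ i * (atv t 0).cl P Q := by
  have := t.fin
  rw [cl_atv_eq]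
  unfold Fam.val
  change t.κ i * _ = t.κ i * _
  congr 1
  symm
  refine val_graph P.rat ?_ ?_
    (Sum.elim (Sum.elim (fun p => X (Sum.inl p)) (fun b : Bool => if b then 0 else
      rename Sum.inr t.u)) fun s => X (Sum.inr s))
    (Sum.elim (fun p => Sum.inl (Sum.inl p)) fun s => Sum.inr s) ?_ ?_ ?_ ?_
  · refine Constructible.and (Constructible.comap _ ht.1) ?_
    have h := Constructible.preimage (Sum.elim (fun p => X (Sum.inl p)) (fun b : Bool =>
      if b then 0 else rename Sum.inr t.u) : E ⊕ Bool → MvPolynomial (E ⊕ t.σ) ℂ) hQ.1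
    convert h using 1
    ext z
    simp only [Set.mem_ofPred_eq]
    apply Eq.to_iff
    congr 1
    funext j
    rcases j with j | j
    · simp
    · rcases j with _ | _
      · simp [eval_rename, Function.comp_def]
      · simp
  · refine Constructible.and (Constructible.comap _ hQ.1) (Constructible.and
      (Constructible.comap _ ht.1) ?_)
    have h := Constructible.eq (rename Sum.inl (X (Sum.inr false) : MvPolynomial (E ⊕ Bool) ℂ) :
      MvPolynomial ((E ⊕ Bool) ⊕ t.σ) ℂ) (rename Sum.inr t.u)
    convert h using 1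
    ext z
    simp [eval_rename, Function.comp_def]
  · rintro (p | s) <;> rfl
  · intro z hz
    obtain ⟨h1, h2⟩ := hz
    refine ⟨?_, ?_, ?_⟩
    · refine cast ?_ h2
      congr 1
      funext j
      rcases j with j | j
      · simp
      · rcases j with _ | _
        · simp [eval_rename, Function.comp_def]
        · simp
    · simpa using h1
    · simp [eval_rename, Function.comp_def]
  · intro y hy
    obtain ⟨h1, h2, h3⟩ := hy
    refine ⟨h2, ?_⟩
    refine cast ?_ h1
    congr 1
    funext j
    rcases j with j | j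
    · rfl
    · rcases j with _ | _
      · rw [eval_X] at h3
        simpa using h3
      · have h5 := (hQ.2 _ h1).1
        simpa using h5
  · intro y hy
    obtain ⟨h1, h2, h3⟩ := hy
    rintro ((p | b) | s)
    · simp
    · rcases b with _ | _
      · rw [eval_X] at h3
        simp only [Sum.elim_inl, Sum.elim_inr, Bool.false_eq_true, if_false, eval_rename]
        exact h3.symm
      · have h5 := (hQ.2 _ h1).1
        simp only [Sum.elim_inl, Sum.elim_inr, if_true, map_zero]
        exact h5.symm
    · simp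

/-- the Haar part at the value `0` -/
noncomputable def h0 (α : K) : HT where
  σ := Empty
  fin := inferInstance
  H := Set.univ
  v := 0
  lam := α

theorem cl_h0_eq [Finite E] (P : HodgeMeasure) (Q : Set (E ⊕ Bool → ℂ)) (α : K) :
    (h0 α).ex.cl P Q = P.rat.val {z : E ⊕ (Empty ⊕ Unit) → ℂ |
      ((fun s : Empty => z (Sum.inr (Sum.inl s))) ∈ (Set.univ : Set (Empty → ℂ)) ∧
        z (Sum.inr (Sum.inr ())) ≠ 0) ∧
      Sum.elim (fun p => z (Sum.inl p)) (fun b : Bool => if b then
        eval (fun s => z (Sum.inr s)) (rename Sum.inl (0 : MvPolynomial Empty ℂ)) else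
          eval (fun s => z (Sum.inr s)) (X (Sum.inr ()))) ∈ Q} := rfl

theorem cl_h0 [Finite E] (P : HodgeMeasure) {Q : Set (E ⊕ Bool → ℂ)} (hQ : QOk {0} true Q)
    (α : K) : (h0 α).ex.cl P Q = P.rat.val Q := by
  rw [cl_h0_eq]
  refine val_graph P.rat ?_ hQ.1
    (Sum.elim (fun p => X (Sum.inl p)) (fun b : Bool => if b then 0 else
      X (Sum.inr (Sum.inr ()))) : E ⊕ Bool → MvPolynomial (E ⊕ (Empty ⊕ Unit)) ℂ)
    (Sum.elim (fun p => Sum.inl p) (Sum.elim Empty.elim fun _ => Sum.inr false)) ?_ ?_ ?_ ?_
  · refine Constructible.and (Constructible.and (Constructible.comap _ Constructible.univ) ?_) ?_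
    · have h := Constructible.ne (X (Sum.inr (Sum.inr ())) : MvPolynomial (E ⊕ (Empty ⊕ Unit)) ℂ)
      convert h using 1
      ext z
      simp
    · have h := Constructible.preimage (Sum.elim (fun p => X (Sum.inl p)) (fun b : Bool =>
        if b then 0 else X (Sum.inr (Sum.inr ()))) :
          E ⊕ Bool → MvPolynomial (E ⊕ (Empty ⊕ Unit)) ℂ) hQ.1
      convert h using 1
      ext z
      simp only [Set.mem_ofPred_eq]
      apply Eq.to_iff
      congr 1
      funext j
      rcases j with j | j
      · simp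
      · rcases j with _ | _ <;> simp
  · rintro (p | (s | s))
    · rfl
    · exact s.elim
    · rfl
  · intro z hz
    obtain ⟨h1, h2⟩ := hz
    refine cast ?_ h2
    congr 1
    funext j
    rcases j with j | j
    · simp
    · rcases j with _ | _ <;> simp
  · intro y hy
    refine ⟨⟨Set.mem_univ _, (hQ.2 _ hy).2 rfl⟩, ?_⟩
    refine cast ?_ hy
    congr 1
    funext j
    rcases j with j | j
    · rfl
    · rcases j with _ | _
      · simp
      · have h5 := (hQ.2 _ hy).1
        simpa using h5
  · intro y hy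
    rintro (p | b)
    · simp
    · rcases b with _ | _
      · simp
      · have h5 := (hQ.2 _ hy).1
        simp only [Sum.elim_inr, if_true, map_zero]
        exact h5.symm

/-- a family without parameters at the value `0` -/
theorem cl_empty [Finite E] (P : HodgeMeasure) {Q : Set (E ⊕ Bool → ℂ)} (hQ : Constructible Q)
    (G : Fam2) (h : G.σ = Empty) (hS : G.S = Set.univ) (hv : ∀ τ, eval τ G.v = 0)
    (hu : ∀ τ, eval τ G.u = 0) : G.cl P Q = P.rat.val (Q0 Q) := by
  obtain ⟨σ, fin, S, v, u, κ⟩ := G
  change σ = Empty at h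
  subst h
  change S = (Set.univ : Set (Empty → ℂ)) at hS
  subst hS
  unfold Fam2.cl
  have hpt : ∀ τ : Empty → ℂ, (Fam2.mk Empty fin Set.univ v u κ).pt τ = fun _ => 0 := by
    intro τ
    funext b
    rcases b with _ | _
    · simpa [Fam2.pt] using hu τ
    · simpa [Fam2.pt] using hv τ
  refine val_graph P.rat ?_ (con_Q0 hQ)
    (fun p => X (Sum.inl p) : E → MvPolynomial (E ⊕ Empty) ℂ) (Sum.elim id Empty.elim) ?_ ?_ ?_ ?_
  · have h1 : {z : E ⊕ Empty → ℂ | (fun s => z (Sum.inr s)) ∈ (Set.univ : Set (Empty → ℂ)) ∧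
        Sum.elim (fun p => z (Sum.inl p)) ((Fam2.mk Empty fin Set.univ v u κ).pt
          fun s => z (Sum.inr s)) ∈ Q} = {z | (fun p => z (Sum.inl p)) ∈ Q0 Q} := by
      ext z
      simp only [Set.mem_ofPred_eq, Set.mem_univ, true_and, hpt, Q0]
    rw [h1]
    exact Constructible.comap _ (con_Q0 hQ)
  · rintro (p | s)
    · rfl
    · exact s.elim
  · intro z hz
    obtain ⟨-, h2⟩ := hz
    rw [hpt] at h2
    simp only [eval_X]
    exact h2
  · intro y hy
    refine ⟨Set.mem_univ _, ?_⟩
    rw [hpt]
    exact hy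
  · intro y hy j
    simp

end

end TB5Aux

open TB5Aux

theorem stmt_TB5 (hO5 : Stmt_O5) (hWS : Stmt_WS5) (hG : Stmt_G5) (hQ1 : Stmt_Q1)
    (hQ3 : Stmt_Q3) (hVA : Stmt_VA) : Stmt_TB5 := by
  classical
  intro P ι _ f Λ hnc hwh hM hΛ hE
  obtain ⟨w, d, hw, hd, hwd⟩ := hwh
  -- nonzero values
  have hreg1 : Reg P f {0}ᶜ fun _ => ∅ := by
    have hX : Constructible {x : ι → ℂ | eval x f ∈ ({0}ᶜ : Set ℂ)} := by
      have h := Constructible.ne f
      convert h using 1
      ext x
      simp
    have hs : ∀ x : ι → ℂ, eval x f ∈ ({0}ᶜ : Set ℂ) → ∃ i, eval x (pderiv i f) ≠ 0 := by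
      intro x hx
      by_contra h
      push Not at h
      apply hx
      have h1 := congrArg (eval x) hwd.sum_weight_X_mul_pderiv
      rw [map_sum] at h1
      have h2 : ∀ i ∈ Finset.univ, eval x (w i • (X i * pderiv i f)) = 0 := by
        intro i _
        rw [map_nsmul, map_mul, h i, mul_zero, smul_zero]
      rw [Finset.sum_eq_zero h2, map_nsmul] at h1
      have h3 : (d : ℂ) * eval x f = 0 := by
        rw [← nsmul_eq_mul]
        exact h1.symm
      rcases mul_eq_zero.1 h3 with h4 | h4
      · exfalso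
        have : d = 0 := by exact_mod_cast h4
        omega
      · exact h4
    obtain ⟨⟨h, h1, h2⟩, h3⟩ := hO5 P ι f {0}ᶜ hX hs
    refine ⟨[h], ∅, fun _ => [], fun _ _ => 0, ?_, ?_, ?_, h3⟩
    · intro c hc
      simp at hc
    · have : exF [h] ∅ (fun _ => []) = [h.ex] := by simp [exF]
      rw [this]
      exact h1
    · have : tlF [h] ∅ (fun _ _ => 0) = [h.tl] := by simp [tlF]
      rw [this]
      exact h2
  have hreg2 : Reg P f {0} fun _ => Λ := by
    obtain ⟨α, ts, hts, hF⟩ := hE
    have hF' := hF
    obtain ⟨hgood, hfam⟩ := hF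
    set b : ℕ → K := fun m => (1 - α * P.rat.L) - ∑ j ∈ Finset.range (m + 1), aR P ts j with hb
    have hbe : ESeq Λ b := bR_eseq hQ1 hQ3 hVA hΛ hts hF' hM
    have hgt : ∀ t ∈ ts, t.Good := fun t ht => hgood t (List.mem_cons_of_mem _ ht)
    have hex : exF [h0 α] {0} (fun _ => ts) = (h0 α).ex :: ts.map fun t => atv t 0 := by
      simp [exF]
    have htl : tlF [h0 α] {0} (fun _ => b) = [(h0 α).tl, ptv 0 b] := by
      simp [tlF]
    refine ⟨[h0 α], {0}, fun _ => ts, fun _ => b, ?_, ?_, ?_, ?_⟩
    · intro c _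
      exact ⟨hts, hbe⟩
    · rw [hex]
      refine ⟨?_, ?_⟩
      · intro G hG
        rcases List.mem_cons.1 hG with rfl | hG
        · refine ⟨?_, ?_⟩
          · show Constructible {z : Empty ⊕ Unit → ℂ |
              (fun s => z (Sum.inl s)) ∈ (Set.univ : Set (Empty → ℂ)) ∧ z (Sum.inr ()) ≠ 0}
            refine Constructible.and (Constructible.comap _ Constructible.univ) ?_
            have h := Constructible.ne (X (Sum.inr ()) : MvPolynomial (Empty ⊕ Unit) ℂ)
            convert h using 1
            ext z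
            simp
          · intro τ hτ
            refine ⟨?_, ?_⟩
            · have h3 : ∀ τ : Empty ⊕ Unit → ℂ,
                  eval τ (rename Sum.inl (0 : MvPolynomial Empty ℂ)) = 0 := by
                intro τ
                simp
              exact h3 τ
            · intro _
              have h2 : ∀ τ : Empty ⊕ Unit → ℂ, τ (Sum.inr ()) ≠ 0 →
                  eval τ (X (Sum.inr ()) : MvPolynomial (Empty ⊕ Unit) ℂ) ≠ 0 := by
                intro τ hτ
                rw [eval_X]
                exact hτ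
              exact h2 τ hτ.2
        · obtain ⟨t, ht, rfl⟩ := List.mem_map.1 hG
          refine ⟨(hgt t ht).1, ?_⟩
          intro τ hτ
          refine ⟨?_, fun _ => (hgt t ht).2 τ hτ⟩
          have h3 : ∀ τ : t.σ → ℂ, eval τ (C (0 : ℂ) : MvPolynomial t.σ ℂ) = 0 := by
            intro τ
            simp
          exact h3 τ
      · intro E _ Q hQ i hi
        rw [SD_true P f hQ (hi rfl), hfam (E ⊕ Bool) Q (X (Sum.inr false)) hQ.1
          (fun p hp => by rw [eval_X]; exact (hQ.2 p hp).2 rfl) i]
        rw [List.map_cons, List.sum_cons, List.map_cons, List.sum_cons, List.map_map]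
        congr 1
        · rw [cl_h0 P hQ α, T0Aux.haar_val P α hQ.1 (X (Sum.inr false))
            (fun p hp => by rw [eval_X]; exact (hQ.2 p hp).2 rfl) i]
          rfl
        · congr 1
          refine List.map_congr_left fun t ht => ?_
          exact cl_atv P hQ (hgt t ht) i
    · have hz0 : ∀ τ : Empty → ℂ, eval τ (0 : MvPolynomial Empty ℂ) = 0 := fun τ => map_zero _
      have hz1 : ∀ τ : Empty → ℂ, eval τ (C (0 : ℂ) : MvPolynomial Empty ℂ) = 0 := by
        intro τ
        simp
      rw [htl]
      refine ⟨?_, ?_⟩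
      · intro G hG
        rcases List.mem_cons.1 hG with rfl | hG
        · refine ⟨Constructible.univ, ?_⟩
          intro τ _
          refine ⟨?_, fun h => absurd h (by simp)⟩
          exact hz0 τ
        · rw [List.mem_singleton] at hG
          subst hG
          refine ⟨Constructible.univ, ?_⟩
          intro τ _
          refine ⟨?_, fun h => absurd h (by simp)⟩
          exact hz1 τ
      · intro E _ Q hQ i _
        rw [SD_false P f hQ i, bb_eq hVA hF' i]
        rw [List.map_cons, List.sum_cons, List.map_cons, List.sum_cons, List.map_nil, List.sum_nil]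
        rw [cl_empty P hQ.1 (h0 α).tl rfl rfl hz0 hz0,
          cl_empty P hQ.1 (ptv 0 b) rfl rfl hz1 hz0]
        show _ = α * xq ^ i * _ + (b i * _ + 0)
        rw [hb]
        ring
    · exact hWS P ι f ⟨w, d, hw, hd, hwd⟩
  refine hG P ι f 0 _ _ _ hreg1 hreg2 (fun d _ => Set.empty_subset _) ?_
  intro r hr
  exact ⟨rfl, hr⟩

end Pool.Agent.Mono.RO
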