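import Pool.Agent.Work.Monodromy.Interface5
import Pool.Agent.Work.Monodromy.YM
import Pool.Agent.Work.Monodromy4.Q1

/-!
# Block TC5 (helper2): compositions `p(f(x))`
-/

set_option autoImplicit false

namespace Pool.Agent.Mono.RO

open MvPolynomial TS

namespace TC5Aux

/-! ## Exponential sequences -/

theorem eseq_zero (Λ : Set ℚ) : ESeq Λ fun _ => 0 :=
  stmt_Q1.2.2.2.1 Λ _ 0 fun _ _ => rfl

theorem eseq_sum {α : Type*} (s : Finset α) (Λ : Set ℚ) (f : α → ℕ → K)
    (h : ∀ a ∈ s, ESeq Λ (f a)) : ESeq Λ fun m => ∑ a ∈ s, f a m := by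
  classical
  induction s using Finset.induction_on with
  | empty => simpa using eseq_zero Λ
  | insert a s ha ih =>
    have h1 := h a (Finset.mem_insert_self a s)
    have h2 := ih fun b hb => h b (Finset.mem_insert_of_mem hb)
    simpa [Finset.sum_insert ha] using stmt_Q1.2.1 Λ _ _ h1 h2

theorem eseq_lsum {α : Type*} (l : List α) (Λ : Set ℚ) (f : α → ℕ → K)
    (h : ∀ a ∈ l, ESeq Λ (f a)) : ESeq Λ fun m => (l.map fun a => f a m).sum := by
  induction l with
  | nil => simpa using eseq_zero Λ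
  | cons a l ih =>
    have h1 := h a List.mem_cons_self
    have h2 := ih fun b hb => h b (List.mem_cons_of_mem a hb)
    simpa using stmt_Q1.2.1 Λ _ _ h1 h2

/-- `λ u^{-i/k}` if `k ∣ i` -/
theorem eseq_hpow (Λ : Set ℚ) (k : ℕ) (hk : 1 ≤ k) (h : (1 / (k : ℚ)) ∈ Λ) (lam : K) :
    ESeq Λ fun i => if k ∣ i then lam * xq ^ (i / k) else 0 := by
  have h1 := stmt_Q1.2.2.2.2.1 Λ k 1 hk (by simpa using h)
  have h2 := stmt_Q1.2.2.1 Λ _ lam h1
  simpa only [mul_ite, mul_zero, one_mul] using h2

/-- `λ u^{-⌊i/k⌋}` -/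
theorem eseq_hfloor (Λ : Set ℚ) (k : ℕ) (hk : 1 ≤ k) (h : (1 / (k : ℚ)) ∈ Λ) (lam : K) :
    ESeq Λ fun i => lam * xq ^ (i / k) := by
  have h1 := stmt_Q1.2.2.2.2.1 {1} 1 1 le_rfl (by simp)
  have h2 := (stmt_Q1.2.2.2.2.2.2 {1} _ k hk h1).2
  have h3 : ESeq Λ fun m => if 1 ∣ m / k then xq ^ (1 * (m / k / 1)) else 0 := by
    refine stmt_Q1.1 _ _ _ ?_ h2
    intro r hr
    have hr' : (k : ℚ) * r = 1 := hr
    have hk0 : (k : ℚ) ≠ 0 := by positivity
    have : r = 1 / (k : ℚ) := by field_simp; linarith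
    rw [this]; exact h
  have h4 := stmt_Q1.2.2.1 Λ _ lam h3
  simpa only [one_dvd, if_true, one_mul, Nat.div_one] using h4

/-! ## Polynomials in one variable -/

theorem eval_comp {σ : Type} (p : Polynomial ℂ) (z : σ → ℂ) (v : MvPolynomial σ ℂ) :
    eval z (Polynomial.aeval v p) = p.eval (eval z v) := by
  induction p using Polynomial.induction_on' with
  | add p q hp hq => simp [hp, hq]
  | monomial n a => simp [Polynomial.aeval_monomial, MvPolynomial.algebraMap_eq]

variable (p : Polynomial ℂ)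

theorem deriv_ne (hp : p.natDegree ≠ 0) : p.derivative ≠ 0 := by
  intro h
  exact hp (Polynomial.derivative_eq_zero.1 h)

theorem sub_ne (hp : p.natDegree ≠ 0) (c : ℂ) : p - Polynomial.C (p.eval c) ≠ 0 := by
  intro h
  apply hp
  rw [sub_eq_zero.1 h]
  simp

theorem mul_pos' (hp : p.natDegree ≠ 0) (c : ℂ) : 1 ≤ mul p c := by
  have h : (p - Polynomial.C (p.eval c)).IsRoot c := by simp
  exact (Polynomial.rootMultiplicity_pos (sub_ne p hp c)).2 h

theorem two_le_mul (hp : p.natDegree ≠ 0) (c : ℂ) (hc : p.derivative.eval c = 0) :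
    2 ≤ mul p c := by
  have h : (p - Polynomial.C (p.eval c)).IsRoot c := by simp
  have h2 : (Polynomial.derivative (p - Polynomial.C (p.eval c))).IsRoot c := by
    simpa using hc
  exact (Polynomial.one_lt_rootMultiplicity_iff_isRoot (sub_ne p hp c)).2 ⟨h, h2⟩

theorem mul_eq_one (hp : p.natDegree ≠ 0) (c : ℂ) (hc : p.derivative.eval c ≠ 0) :
    mul p c = 1 := by
  have h1 := mul_pos' p hp c
  by_contra h
  have h2 : 1 < (p - Polynomial.C (p.eval c)).rootMultiplicity c := by
    have : mul p c = (p - Polynomial.C (p.eval c)).rootMultiplicity c := rfl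
    omega
  have h3 := ((Polynomial.one_lt_rootMultiplicity_iff_isRoot (sub_ne p hp c)).1 h2).2
  apply hc
  simpa using h3

theorem lc_ne (hp : p.natDegree ≠ 0) (c : ℂ) : lc p c ≠ 0 := by
  have h0 := sub_ne p hp c
  have h1 := Polynomial.eval_divByMonic_pow_rootMultiplicity_ne_zero c h0
  have h2 := Polynomial.pow_mul_divByMonic_rootMultiplicity_eq (p - Polynomial.C (p.eval c)) c
  set k := (p - Polynomial.C (p.eval c)).rootMultiplicity c with hk
  set q := (p - Polynomial.C (p.eval c)) /ₘ (Polynomial.X - Polynomial.C c) ^ k with hq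
  have hkm : mul p c = k := rfl
  have hk1 : 1 ≤ k := by rw [← hkm]; exact mul_pos' p hp c
  have h3 : Polynomial.taylor c p = Polynomial.X ^ k * Polynomial.taylor c q +
      Polynomial.C (p.eval c) := by
    have h4 : p = (Polynomial.X - Polynomial.C c) ^ k * q + Polynomial.C (p.eval c) := by
      rw [h2]; ring
    conv_lhs => rw [h4]
    rw [map_add, Polynomial.taylor_mul, Polynomial.taylor_pow]
    simp
  unfold lc
  rw [hkm, h3, Polynomial.coeff_add, Polynomial.coeff_X_pow_mul', Polynomial.coeff_C,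
    if_pos le_rfl, if_neg (by omega : ¬ k = 0), Nat.sub_self, add_zero,
    Polynomial.taylor_coeff_zero]
  exact h1

/-! ## The new data -/

noncomputable def hC (h : HT) : HT where
  σ := h.σ
  fin := h.fin
  H := {z | z ∈ h.H ∧ p.derivative.eval (eval z h.v) ≠ 0}
  v := Polynomial.aeval h.v p
  lam := h.lam

noncomputable def fH (c : ℂ) (h : HT) : Fam where
  σ := h.σ ⊕ Unit
  fin := haveI := h.fin; inferInstance
  S := {z | (fun s => z (Sum.inl s)) ∈ h.H ∧ eval (fun s => z (Sum.inl s)) h.v = c ∧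
    z (Sum.inr ()) ≠ 0}
  u := C (lc p c) * X (Sum.inr ()) ^ mul p c
  κ := fun i => if mul p c ∣ i then h.lam * xq ^ (i / mul p c) else 0

noncomputable def fT (c : ℂ) (t : Fam) : Fam where
  σ := t.σ
  fin := t.fin
  S := t.S
  u := C (lc p c) * t.u ^ mul p c
  κ := fun i => if mul p c ∣ i then t.κ (i / mul p c) else 0

noncomputable def fL (c : ℂ) (t : Fam) : Fam where
  σ := t.σ
  fin := t.fin
  S := t.S
  u := C (p.derivative.eval c) * t.u
  κ := t.κ

open Classical in
noncomputable def fc (hs : List HT) (crit : Finset ℂ) (ts : ℂ → List Fam) (c : ℂ) : List Fam :=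
  if p.derivative.eval c = 0 then
    hs.map (fH p c) ++ (if c ∈ crit then (ts c).map (fT p c) else [])
  else (if c ∈ crit then (ts c).map (fL p c) else [])

open Classical in
noncomputable def TT (crit : Finset ℂ) : Finset ℂ := crit ∪ p.derivative.roots.toFinset

open Classical in
noncomputable def critC (crit : Finset ℂ) : Finset ℂ := (TT p crit).image fun c => p.eval c

open Classical in
noncomputable def tsC (hs : List HT) (crit : Finset ℂ) (ts : ℂ → List Fam) (d : ℂ) : List Fam :=
  ((TT p crit).filter fun c => p.eval c = d).toList.flatMap (fc p hs crit ts)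

/-- the class of the points of `H` with value `c` -/
noncomputable def vc (P : HodgeMeasure) (c : ℂ) (h : HT) : K :=
  haveI := h.fin
  P.rat.val {z : h.σ → ℂ | z ∈ h.H ∧ eval z h.v = c}

open Classical in
noncomputable def bt (P : HodgeMeasure) (hs : List HT) (crit : Finset ℂ) (b : ℂ → ℕ → K) (c : ℂ)
    (m : ℕ) : K :=
  if p.derivative.eval c = 0 then
    (hs.map fun h => (h.lam * vc P c h) * xq ^ (m / mul p c)).sum +
      (if c ∈ crit then b c (m / mul p c) else 0)
  else (if c ∈ crit then b c m else 0)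

open Classical in
noncomputable def bC (P : HodgeMeasure) (hs : List HT) (crit : Finset ℂ) (b : ℂ → ℕ → K) (d : ℂ)
    (m : ℕ) : K :=
  ∑ c ∈ (TT p crit).filter (fun c => p.eval c = d), bt p P hs crit b c m

/-! ## Sums over the lists -/

theorem flat_sum {α β : Type*} (l : List α) (g : α → List β) (φ : β → K) :
    ((l.flatMap g).map φ).sum = (l.map fun a => ((g a).map φ).sum).sum := by
  induction l with
  | nil => simp
  | cons a l ih => simp [List.flatMap_cons, ih]

theorem exF_sum (hs : List HT) (crit : Finset ℂ) (ts : ℂ → List Fam) (φ : Fam2 → K) :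
    ((exF hs crit ts).map φ).sum = (hs.map fun h => φ h.ex).sum +
      ∑ c ∈ crit, ((ts c).map fun t => φ (atv t c)).sum := by
  unfold exF
  rw [List.map_append, List.sum_append, List.map_map, flat_sum, Finset.sum_map_toList]
  simp [List.map_map, Function.comp_def]

theorem tlF_sum (hs : List HT) (crit : Finset ℂ) (b : ℂ → ℕ → K) (φ : Fam2 → K) :
    ((tlF hs crit b).map φ).sum = (hs.map fun h => φ h.tl).sum +
      ∑ c ∈ crit, φ (ptv c (b c)) := by
  unfold tlF
  rw [List.map_append, List.sum_append, List.map_map, List.map_map, Finset.sum_map_toList]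
  simp [Function.comp_def]

theorem mem_exF {hs : List HT} {crit : Finset ℂ} {ts : ℂ → List Fam} {G : Fam2} :
    G ∈ exF hs crit ts ↔ (∃ h ∈ hs, h.ex = G) ∨ ∃ c ∈ crit, ∃ t ∈ ts c, atv t c = G := by
  simp [exF, List.mem_flatMap]

theorem mem_tlF {hs : List HT} {crit : Finset ℂ} {b : ℂ → ℕ → K} {G : Fam2} :
    G ∈ tlF hs crit b ↔ (∃ h ∈ hs, h.tl = G) ∨ ∃ c ∈ crit, ptv c (b c) = G := by
  simp [tlF]

theorem mem_TT (hp : p.natDegree ≠ 0) {crit : Finset ℂ} {c : ℂ} :
    c ∈ TT p crit ↔ c ∈ crit ∨ p.derivative.eval c = 0 := by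
  classical
  unfold TT
  rw [Finset.mem_union, Multiset.mem_toFinset, Polynomial.mem_roots (deriv_ne p hp)]
  rfl

theorem sum_crit (crit : Finset ℂ) (F : ℂ → K) :
    ∑ d ∈ critC p crit, ∑ c ∈ (TT p crit).filter (fun c => p.eval c = d), F c =
      ∑ c ∈ TT p crit, F c := by
  classical
  unfold critC
  exact Finset.sum_fiberwise_of_maps_to (fun c hc => Finset.mem_image_of_mem _ hc) F

theorem sum_TT (hp : p.natDegree ≠ 0) (crit : Finset ℂ) (F G : ℂ → K) :
    (∑ c ∈ TT p crit, if p.derivative.eval c = 0 then F c else 0) =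
        ∑ c ∈ p.derivative.roots.toFinset, F c ∧
      (∑ c ∈ TT p crit, if c ∈ crit then G c else 0) = ∑ c ∈ crit, G c := by
  classical
  constructor
  · rw [← Finset.sum_filter]
    apply Finset.sum_congr _ fun _ _ => rfl
    ext c
    rw [Finset.mem_filter, mem_TT p hp, Multiset.mem_toFinset,
      Polynomial.mem_roots (deriv_ne p hp)]
    constructor
    · rintro ⟨-, h⟩
      exact h
    · intro h
      exact ⟨Or.inr h, h⟩
  · rw [← Finset.sum_filter]
    apply Finset.sum_congr _ fun _ _ => rfl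
    ext c
    rw [Finset.mem_filter, mem_TT p hp]
    constructor
    · rintro ⟨-, h⟩
      exact h
    · intro h
      exact ⟨Or.inl h, h⟩

/-! ## Constructible sets -/

theorem mem_cgr {α : Type*} {Q : Set α} {a b : α} (h : a = b) : a ∈ Q ↔ b ∈ Q := by rw [h]

section

variable {E : Type}

/-- the substitution in the first set of `VCE` -/
theorem con_Q1 {Q : Set (E ⊕ Bool → ℂ)} (hQ : Constructible Q) :
    Constructible {z : E ⊕ Bool → ℂ | p.derivative.eval (z (Sum.inr true)) ≠ 0 ∧
      z (Sum.inr false) ≠ 0 ∧ Sum.elim (fun a => z (Sum.inl a)) (fun b : Bool => if b then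
        p.eval (z (Sum.inr true)) else
          p.derivative.eval (z (Sum.inr true)) * z (Sum.inr false)) ∈ Q} := by
  have h1 := Constructible.ne (Polynomial.aeval (X (Sum.inr true) : MvPolynomial (E ⊕ Bool) ℂ)
    p.derivative)
  have h2 := Constructible.ne (X (Sum.inr false) : MvPolynomial (E ⊕ Bool) ℂ)
  have h3 := Constructible.preimage (Sum.elim (fun a => (X (Sum.inl a) : MvPolynomial (E ⊕ Bool) ℂ))
    (fun b : Bool => if b then Polynomial.aeval (X (Sum.inr true)) p else
      Polynomial.aeval (X (Sum.inr true)) p.derivative * X (Sum.inr false))) hQ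
  simp only [eval_comp, eval_X] at h1 h2
  refine Constructible.and h1 (Constructible.and h2 ?_)
  convert h3 using 3 with z
  apply mem_cgr
  funext s
  rcases s with s | s
  · simp
  · cases s <;> simp [eval_comp]

theorem con_QR (c : ℂ) {Q : Set (E ⊕ Bool → ℂ)} (hQ : Constructible Q) :
    Constructible {z : E ⊕ Bool → ℂ | z (Sum.inr true) = c ∧
      z (Sum.inr false) ≠ 0 ∧ Sum.elim (fun a => z (Sum.inl a)) (fun b : Bool => if b then
        p.eval c else lc p c * z (Sum.inr false) ^ mul p c) ∈ Q} := by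
  have h1 := Constructible.eq (X (Sum.inr true) : MvPolynomial (E ⊕ Bool) ℂ) (C c)
  have h2 := Constructible.ne (X (Sum.inr false) : MvPolynomial (E ⊕ Bool) ℂ)
  have h3 := Constructible.preimage (Sum.elim (fun a => (X (Sum.inl a) : MvPolynomial (E ⊕ Bool) ℂ))
    (fun b : Bool => if b then C (p.eval c) else C (lc p c) * X (Sum.inr false) ^ mul p c)) hQ
  simp only [eval_X, eval_C] at h1 h2
  refine Constructible.and h1 (Constructible.and h2 ?_)
  convert h3 using 3 with z
  apply mem_cgr
  funext s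
  rcases s with s | s
  · simp
  · cases s <;> simp

theorem con_Q1t {Q : Set (E ⊕ Bool → ℂ)} (hQ : Constructible Q) :
    Constructible {z : E ⊕ Bool → ℂ | p.derivative.eval (z (Sum.inr true)) ≠ 0 ∧
      Sum.elim (fun a => z (Sum.inl a)) (fun b : Bool => if b then
        p.eval (z (Sum.inr true)) else 0) ∈ Q} := by
  have h1 := Constructible.ne (Polynomial.aeval (X (Sum.inr true) : MvPolynomial (E ⊕ Bool) ℂ)
    p.derivative)
  have h3 := Constructible.preimage (Sum.elim (fun a => (X (Sum.inl a) : MvPolynomial (E ⊕ Bool) ℂ))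
    (fun b : Bool => if b then Polynomial.aeval (X (Sum.inr true)) p else 0)) hQ
  simp only [eval_comp, eval_X] at h1
  refine Constructible.and h1 ?_
  convert h3 using 3 with z
  apply mem_cgr
  funext s
  rcases s with s | s
  · simp
  · cases s <;> simp [eval_comp]

theorem con_QRt (c : ℂ) {Q : Set (E ⊕ Bool → ℂ)} (hQ : Constructible Q) :
    Constructible {z : E ⊕ Bool → ℂ | z (Sum.inr true) = c ∧
      Sum.elim (fun a => z (Sum.inl a)) (fun b : Bool => if b then p.eval c else 0) ∈ Q} := by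
  have h1 := Constructible.eq (X (Sum.inr true) : MvPolynomial (E ⊕ Bool) ℂ) (C c)
  have h3 := Constructible.preimage (Sum.elim (fun a => (X (Sum.inl a) : MvPolynomial (E ⊕ Bool) ℂ))
    (fun b : Bool => if b then C (p.eval c) else 0)) hQ
  simp only [eval_X, eval_C] at h1
  refine Constructible.and h1 ?_
  convert h3 using 3 with z
  apply mem_cgr
  funext s
  rcases s with s | s
  · simp
  · cases s <;> simp

/-- the set in the definition of `Fam2.cl` -/
theorem con_cl {σ : Type} {S : Set (σ → ℂ)} (hS : Constructible S) (v u : MvPolynomial σ ℂ)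
    {Q : Set (E ⊕ Bool → ℂ)} (hQ : Constructible Q) :
    Constructible {z : E ⊕ σ → ℂ | (fun s => z (Sum.inr s)) ∈ S ∧
      Sum.elim (fun p => z (Sum.inl p)) (fun b : Bool => if b then
        eval (fun s => z (Sum.inr s)) v else eval (fun s => z (Sum.inr s)) u) ∈ Q} := by
  have h1 := Constructible.comap (Sum.inr : σ → E ⊕ σ) hS
  have h3 := Constructible.preimage (Sum.elim (fun a => (X (Sum.inl a) : MvPolynomial (E ⊕ σ) ℂ))
    (fun b : Bool => if b then rename Sum.inr v else rename Sum.inr u)) hQ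
  refine Constructible.and h1 ?_
  convert h3 using 3 with z
  apply mem_cgr
  funext s
  rcases s with s | s
  · simp
  · cases s <;> simp [eval_rename, Function.comp_def]

end

/-! ## The classes -/

section

variable {E : Type} [Finite E] (P : HodgeMeasure)

/-- the class of a parameter set of a family, with explicit index type -/
noncomputable def clx {σ : Type} [Finite σ] (S : Set (σ → ℂ)) (v u : MvPolynomial σ ℂ)
    (Q : Set (E ⊕ Bool → ℂ)) : K :=
  P.rat.val {z : E ⊕ σ → ℂ | (fun s => z (Sum.inr s)) ∈ S ∧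
      Sum.elim (fun p => z (Sum.inl p)) (fun b : Bool => if b then
        eval (fun s => z (Sum.inr s)) v else eval (fun s => z (Sum.inr s)) u) ∈ Q}

theorem clx_hC {σ : Type} [Finite σ] {H : Set (σ → ℂ)} (hH : Constructible H)
    (v : MvPolynomial σ ℂ) {Q : Set (E ⊕ Bool → ℂ)} (hQ : Constructible Q) :
    clx P {z : σ ⊕ Unit → ℂ | (fun s => z (Sum.inl s)) ∈ H ∧ z (Sum.inr ()) ≠ 0}
      (rename Sum.inl v) (X (Sum.inr ()))
      {z : E ⊕ Bool → ℂ | p.derivative.eval (z (Sum.inr true)) ≠ 0 ∧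
      z (Sum.inr false) ≠ 0 ∧ Sum.elim (fun a => z (Sum.inl a)) (fun b : Bool => if b then
        p.eval (z (Sum.inr true)) else
          p.derivative.eval (z (Sum.inr true)) * z (Sum.inr false)) ∈ Q} =
    clx P {z : σ ⊕ Unit → ℂ | (fun s => z (Sum.inl s)) ∈
      {z | z ∈ H ∧ p.derivative.eval (eval z v) ≠ 0} ∧ z (Sum.inr ()) ≠ 0}
      (rename Sum.inl (Polynomial.aeval v p)) (X (Sum.inr ())) Q := by
  have hS : Constructible {z : σ ⊕ Unit → ℂ | (fun s => z (Sum.inl s)) ∈ H ∧
      z (Sum.inr ()) ≠ 0} := by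
    have h2 := Constructible.ne (X (Sum.inr ()) : MvPolynomial (σ ⊕ Unit) ℂ)
    simp only [eval_X] at h2
    exact Constructible.and (Constructible.comap Sum.inl hH) h2
  have hS' : Constructible {z : σ ⊕ Unit → ℂ | (fun s => z (Sum.inl s)) ∈
      {z | z ∈ H ∧ p.derivative.eval (eval z v) ≠ 0} ∧ z (Sum.inr ()) ≠ 0} := by
    have h2 := Constructible.ne (X (Sum.inr ()) : MvPolynomial (σ ⊕ Unit) ℂ)
    have h3 := Constructible.ne (Polynomial.aeval v p.derivative)
    simp only [eval_X] at h2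
    simp only [eval_comp] at h3
    exact Constructible.and (Constructible.comap Sum.inl (Constructible.and hH h3)) h2
  have c1 := con_cl hS (rename Sum.inl v) (X (Sum.inr ())) (con_Q1 p hQ)
  have c2 := con_cl hS' (rename Sum.inl (Polynomial.aeval v p)) (X (Sum.inr ())) hQ
  refine P.rat.val_of_inv c1 c2
    (Sum.elim (fun a => X (Sum.inl a)) (Sum.elim (fun s => X (Sum.inr (Sum.inl s)))
      (fun _ => rename (fun s => Sum.inr (Sum.inl s)) (Polynomial.aeval v p.derivative) *
        X (Sum.inr (Sum.inr ())))))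
    (fun y => Sum.elim (fun a => y (Sum.inl a)) (Sum.elim (fun s => y (Sum.inr (Sum.inl s)))
      (fun _ => y (Sum.inr (Sum.inr ())) /
        p.derivative.eval (eval (fun s => y (Sum.inr (Sum.inl s))) v)))) ?_ ?_ ?_ ?_
  · rintro x ⟨⟨hx1, hx2⟩, hx3, hx4, hx5⟩
    simp only [Sum.elim_inr, Sum.elim_inl, eval_rename, Function.comp_def, if_true, eval_X,
      Bool.false_eq_true, if_false] at hx1 hx2 hx3 hx4 hx5
    refine ⟨⟨⟨?_, ?_⟩, ?_⟩, ?_⟩
    · simpa using hx1
    · simpa using hx3
    · simpa [eval_rename, Function.comp_def, eval_comp, hx4] using hx3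
    · refine (mem_cgr ?_).1 hx5
      funext s
      rcases s with s | s
      · simp
      · cases s <;> simp [eval_rename, Function.comp_def, eval_comp]
  · rintro y ⟨⟨⟨hy1, hy2⟩, hy3⟩, hy4⟩
    simp only [Sum.elim_inr, eval_rename, Function.comp_def, if_true, eval_X,
      Bool.false_eq_true, if_false] at hy1 hy2 hy3 hy4
    refine ⟨⟨?_, ?_⟩, ?_, ?_, ?_⟩
    · simpa using hy1
    · simpa [hy3] using hy2
    · simpa [eval_rename, Function.comp_def] using hy2
    · simpa [eval_rename, Function.comp_def, hy3] using hy2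
    · refine (mem_cgr ?_).1 hy4
      funext s
      rcases s with s | s
      · simp
      · cases s
        · simp only [Sum.elim_inr, eval_rename, Function.comp_def, eval_comp,
            Bool.false_eq_true, if_false, if_true, eval_X, Sum.elim_inl]
          rw [mul_div_cancel₀]
          exact hy2
        · simp [eval_rename, Function.comp_def, eval_comp]
  · rintro x ⟨⟨hx1, hx2⟩, hx3, hx4, hx5⟩
    simp only [Sum.elim_inr, eval_rename, Function.comp_def, if_true, eval_X,
      Bool.false_eq_true, if_false] at hx1 hx2 hx3 hx4 hx5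
    funext s
    rcases s with s | s | s
    · simp
    · simp
    · simp only [Sum.elim_inr, Sum.elim_inl, eval_X, map_mul, eval_rename, Function.comp_def,
        eval_comp]
      rw [mul_div_cancel_left₀]
      exact hx3
  · rintro y ⟨⟨⟨hy1, hy2⟩, hy3⟩, hy4⟩
    simp only [Sum.elim_inr, eval_rename, Function.comp_def, if_true, eval_X,
      Bool.false_eq_true, if_false] at hy1 hy2 hy3 hy4
    funext s
    rcases s with s | s | s
    · simp
    · simp
    · simp only [Sum.elim_inr, Sum.elim_inl, eval_X, map_mul, eval_rename, Function.comp_def,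
        eval_comp]
      rw [mul_div_cancel₀]
      exact hy2

theorem clx_Q1_point {σ : Type} [Finite σ] {S : Set (σ → ℂ)} (u : MvPolynomial σ ℂ)
    (hu : ∀ τ ∈ S, eval τ u ≠ 0) (c : ℂ) (Q : Set (E ⊕ Bool → ℂ)) :
    clx P S (C c) u
      {z : E ⊕ Bool → ℂ | p.derivative.eval (z (Sum.inr true)) ≠ 0 ∧
      z (Sum.inr false) ≠ 0 ∧ Sum.elim (fun a => z (Sum.inl a)) (fun b : Bool => if b then
        p.eval (z (Sum.inr true)) else
          p.derivative.eval (z (Sum.inr true)) * z (Sum.inr false)) ∈ Q} =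
    if p.derivative.eval c = 0 then 0 else
      clx P S (C (p.eval c)) (C (p.derivative.eval c) * u) Q := by
  split_ifs with h
  · unfold clx
    rw [← P.rat.val_empty (ι := E ⊕ σ)]
    congr 1
    ext z
    constructor
    · rintro ⟨-, h1, -⟩
      simp only [Sum.elim_inr, if_true, eval_C] at h1
      exact absurd h h1
    · rintro ⟨⟩
  · unfold clx
    congr 1
    ext z
    constructor
    · rintro ⟨h1, -, -, h4⟩
      refine ⟨h1, (mem_cgr ?_).1 h4⟩
      funext s
      rcases s with s | s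
      · simp
      · cases s <;> simp
    · rintro ⟨h1, h2⟩
      refine ⟨h1, ?_, ?_, (mem_cgr ?_).1 h2⟩
      · simpa using h
      · simpa using hu _ h1
      · funext s
        rcases s with s | s
        · simp
        · cases s <;> simp

theorem clx_QR_haar {σ : Type} [Finite σ] (H : Set (σ → ℂ)) (v : MvPolynomial σ ℂ) (c : ℂ)
    (Q : Set (E ⊕ Bool → ℂ)) :
    clx P {z : σ ⊕ Unit → ℂ | (fun s => z (Sum.inl s)) ∈ H ∧ z (Sum.inr ()) ≠ 0}
      (rename Sum.inl v) (X (Sum.inr ()))
      {z : E ⊕ Bool → ℂ | z (Sum.inr true) = c ∧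
      z (Sum.inr false) ≠ 0 ∧ Sum.elim (fun a => z (Sum.inl a)) (fun b : Bool => if b then
        p.eval c else lc p c * z (Sum.inr false) ^ mul p c) ∈ Q} =
    clx P {z : σ ⊕ Unit → ℂ | (fun s => z (Sum.inl s)) ∈ H ∧
      eval (fun s => z (Sum.inl s)) v = c ∧ z (Sum.inr ()) ≠ 0}
      (C (p.eval c)) (C (lc p c) * X (Sum.inr ()) ^ mul p c) Q := by
  unfold clx
  congr 1
  ext z
  constructor
  · rintro ⟨⟨h1, h2⟩, h3, h4, h5⟩
    simp only [Sum.elim_inr, if_true, eval_rename, Function.comp_def] at h3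
    refine ⟨⟨h1, h3, h2⟩, (mem_cgr ?_).1 h5⟩
    funext s
    rcases s with s | s
    · simp
    · cases s <;> simp
  · rintro ⟨⟨h1, h2, h3⟩, h4⟩
    refine ⟨⟨h1, h3⟩, ?_, ?_, (mem_cgr ?_).1 h4⟩
    · simpa [eval_rename, Function.comp_def] using h2
    · simpa using h3
    · funext s
      rcases s with s | s
      · simp
      · cases s <;> simp

theorem clx_QR_point {σ : Type} [Finite σ] {S : Set (σ → ℂ)} (u : MvPolynomial σ ℂ)
    (hu : ∀ τ ∈ S, eval τ u ≠ 0) (c c' : ℂ) (Q : Set (E ⊕ Bool → ℂ)) :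
    clx P S (C c') u
      {z : E ⊕ Bool → ℂ | z (Sum.inr true) = c ∧
      z (Sum.inr false) ≠ 0 ∧ Sum.elim (fun a => z (Sum.inl a)) (fun b : Bool => if b then
        p.eval c else lc p c * z (Sum.inr false) ^ mul p c) ∈ Q} =
    if c' = c then clx P S (C (p.eval c)) (C (lc p c) * u ^ mul p c) Q else 0 := by
  split_ifs with h
  · unfold clx
    congr 1
    ext z
    constructor
    · rintro ⟨h1, -, -, h4⟩
      refine ⟨h1, (mem_cgr ?_).1 h4⟩
      funext s
      rcases s with s | s
      · simp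
      · cases s <;> simp
    · rintro ⟨h1, h2⟩
      refine ⟨h1, ?_, ?_, (mem_cgr ?_).1 h2⟩
      · simpa using h
      · simpa using hu _ h1
      · funext s
        rcases s with s | s
        · simp
        · cases s <;> simp
  · unfold clx
    rw [← P.rat.val_empty (ι := E ⊕ σ)]
    congr 1
    ext z
    constructor
    · rintro ⟨-, h1, -⟩
      simp only [Sum.elim_inr, if_true, eval_C] at h1
      exact absurd h1 h
    · rintro ⟨⟩

theorem clx_Q1t_haar {σ : Type} [Finite σ] (H : Set (σ → ℂ)) (v : MvPolynomial σ ℂ)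
    (Q : Set (E ⊕ Bool → ℂ)) :
    clx P H v 0
      {z : E ⊕ Bool → ℂ | p.derivative.eval (z (Sum.inr true)) ≠ 0 ∧
      Sum.elim (fun a => z (Sum.inl a)) (fun b : Bool => if b then
        p.eval (z (Sum.inr true)) else 0) ∈ Q} =
    clx P {z | z ∈ H ∧ p.derivative.eval (eval z v) ≠ 0} (Polynomial.aeval v p) 0 Q := by
  unfold clx
  congr 1
  ext z
  constructor
  · rintro ⟨h1, h3, h5⟩
    simp only [Sum.elim_inr, if_true] at h3
    refine ⟨⟨h1, h3⟩, (mem_cgr ?_).1 h5⟩
    funext s
    rcases s with s | s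
    · simp
    · cases s <;> simp [eval_comp]
  · rintro ⟨⟨h1, h2⟩, h4⟩
    refine ⟨h1, ?_, (mem_cgr ?_).1 h4⟩
    · simpa using h2
    · funext s
      rcases s with s | s
      · simp
      · cases s <;> simp [eval_comp]

theorem clx_Q1t_point {σ : Type} [Finite σ] (S : Set (σ → ℂ)) (c : ℂ) (Q : Set (E ⊕ Bool → ℂ)) :
    clx P S (C c) 0
      {z : E ⊕ Bool → ℂ | p.derivative.eval (z (Sum.inr true)) ≠ 0 ∧
      Sum.elim (fun a => z (Sum.inl a)) (fun b : Bool => if b then
        p.eval (z (Sum.inr true)) else 0) ∈ Q} =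
    if p.derivative.eval c = 0 then 0 else clx P S (C (p.eval c)) 0 Q := by
  split_ifs with h
  · unfold clx
    rw [← P.rat.val_empty (ι := E ⊕ σ)]
    congr 1
    ext z
    constructor
    · rintro ⟨-, h1, -⟩
      simp only [Sum.elim_inr, if_true, eval_C] at h1
      exact absurd h h1
    · rintro ⟨⟩
  · unfold clx
    congr 1
    ext z
    constructor
    · rintro ⟨h1, -, h4⟩
      refine ⟨h1, (mem_cgr ?_).1 h4⟩
      funext s
      rcases s with s | s
      · simp
      · cases s <;> simp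
    · rintro ⟨h1, h2⟩
      refine ⟨h1, ?_, (mem_cgr ?_).1 h2⟩
      · simpa using h
      · funext s
        rcases s with s | s
        · simp
        · cases s <;> simp

theorem clx_QRt_point {σ : Type} [Finite σ] (S : Set (σ → ℂ)) (c c' : ℂ)
    (Q : Set (E ⊕ Bool → ℂ)) :
    clx P S (C c') 0
      {z : E ⊕ Bool → ℂ | z (Sum.inr true) = c ∧
      Sum.elim (fun a => z (Sum.inl a)) (fun b : Bool => if b then p.eval c else 0) ∈ Q} =
    if c' = c then clx P S (C (p.eval c)) 0 Q else 0 := by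
  split_ifs with h
  · unfold clx
    congr 1
    ext z
    constructor
    · rintro ⟨h1, -, h4⟩
      refine ⟨h1, (mem_cgr ?_).1 h4⟩
      funext s
      rcases s with s | s
      · simp
      · cases s <;> simp
    · rintro ⟨h1, h2⟩
      refine ⟨h1, ?_, (mem_cgr ?_).1 h2⟩
      · simpa using h
      · funext s
        rcases s with s | s
        · simp
        · cases s <;> simp
  · unfold clx
    rw [← P.rat.val_empty (ι := E ⊕ σ)]
    congr 1
    ext z
    constructor
    · rintro ⟨-, h1, -⟩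
      simp only [Sum.elim_inr, if_true, eval_C] at h1
      exact absurd h1 h
    · rintro ⟨⟩

/-- the parameter set over a point -/
theorem con_pt (d : ℂ) {Q : Set (E ⊕ Bool → ℂ)} (hQ : Constructible Q) :
    Constructible {e : E → ℂ | Sum.elim (fun a => e a) (fun b : Bool => if b then d else 0) ∈ Q} := by
  have h3 := Constructible.preimage (Sum.elim (fun a => (X a : MvPolynomial E ℂ))
    (fun b : Bool => if b then C d else 0)) hQ
  convert h3 using 3 with z
  apply mem_cgr
  funext s
  rcases s with s | s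
  · simp
  · cases s <;> simp

theorem clx_pt (d : ℂ) {Q : Set (E ⊕ Bool → ℂ)} (hQ : Constructible Q) :
    clx P (Set.univ : Set (Empty → ℂ)) (C d) 0 Q =
      P.rat.val {e : E → ℂ | Sum.elim (fun a => e a) (fun b : Bool => if b then d else 0) ∈ Q} := by
  have h := P.rat.val_prod (con_pt d hQ) (Constructible.univ (ι := Empty))
  rw [P.rat.point, mul_one] at h
  rw [← h]
  unfold clx
  congr 1
  ext z
  constructor
  · rintro ⟨-, h1⟩
    refine ⟨(mem_cgr (Q := Q) ?_).1 h1, trivial⟩
    funext s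
    rcases s with s | s
    · simp
    · cases s <;> simp
  · rintro ⟨h1, -⟩
    refine ⟨trivial, (mem_cgr (Q := Q) ?_).1 h1⟩
    funext s
    rcases s with s | s
    · simp
    · cases s <;> simp

theorem clx_QRt_haar {σ : Type} [Finite σ] {H : Set (σ → ℂ)} (hH : Constructible H)
    (v : MvPolynomial σ ℂ) (c : ℂ) {Q : Set (E ⊕ Bool → ℂ)} (hQ : Constructible Q) :
    clx P H v 0
      {z : E ⊕ Bool → ℂ | z (Sum.inr true) = c ∧
      Sum.elim (fun a => z (Sum.inl a)) (fun b : Bool => if b then p.eval c else 0) ∈ Q} =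
    P.rat.val {z : σ → ℂ | z ∈ H ∧ eval z v = c} *
      clx P (Set.univ : Set (Empty → ℂ)) (C (p.eval c)) 0 Q := by
  have h1 := Constructible.eq v (C c)
  simp only [eval_C] at h1
  have h2 : Constructible {z : σ → ℂ | z ∈ H ∧ eval z v = c} := Constructible.and hH h1
  have h := P.rat.val_prod (con_pt (p.eval c) hQ) h2
  rw [clx_pt P _ hQ, mul_comm, ← h]
  unfold clx
  congr 1
  ext z
  constructor
  · rintro ⟨h1, h2, h3⟩
    refine ⟨(mem_cgr (Q := Q) ?_).1 h3, h1, h2⟩
    funext s
    rcases s with s | s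
    · simp
    · cases s <;> simp
  · rintro ⟨h1, h2, h3⟩
    refine ⟨h2, h3, (mem_cgr (Q := Q) ?_).1 h1⟩
    funext s
    rcases s with s | s
    · simp
    · cases s <;> simp

theorem cl_hC {h : HT} (hH : Constructible h.H) {Q : Set (E ⊕ Bool → ℂ)} (hQ : Constructible Q) :
    h.ex.cl P {z : E ⊕ Bool → ℂ | p.derivative.eval (z (Sum.inr true)) ≠ 0 ∧
      z (Sum.inr false) ≠ 0 ∧ Sum.elim (fun a => z (Sum.inl a)) (fun b : Bool => if b then
        p.eval (z (Sum.inr true)) else
          p.derivative.eval (z (Sum.inr true)) * z (Sum.inr false)) ∈ Q} =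
      (hC p h).ex.cl P Q := by
  have i0 : Finite h.σ := h.fin
  exact clx_hC p P hH h.v hQ

end

/-! ## The distribution of `p(f(x))` -/

section

variable {P : HodgeMeasure} {ι : Type} [Fintype ι] {f : MvPolynomial ι ℂ} {hs : List HT}
  {crit : Finset ℂ} {ts : ℂ → List Fam} {b : ℂ → ℕ → K}

theorem con_H (ht : HasD P f Set.univ false (tlF hs crit b)) : ∀ h ∈ hs, Constructible h.H :=
  fun h hh => (ht.1 h.tl (mem_tlF.2 (Or.inl ⟨h, hh, rfl⟩))).1

theorem ok_ts (he : HasD P f Set.univ true (exF hs crit ts)) : ∀ c ∈ crit, ∀ t ∈ ts c,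
    Constructible t.S ∧ ∀ τ ∈ t.S, eval τ t.u ≠ 0 := by
  intro c hc t ht
  have h := he.1 (atv t c) (mem_exF.2 (Or.inr ⟨c, hc, t, ht, rfl⟩))
  exact ⟨h.1, fun τ hτ => (h.2 τ hτ).2 rfl⟩

theorem mem_fc (hp : p.natDegree ≠ 0) {c : ℂ} {t : Fam} (h : t ∈ fc p hs crit ts c) :
    (2 ≤ mul p c ∧ ∃ g ∈ hs, t = fH p c g) ∨
      (2 ≤ mul p c ∧ c ∈ crit ∧ ∃ g ∈ ts c, t = fT p c g) ∨
      (mul p c = 1 ∧ p.derivative.eval c ≠ 0 ∧ c ∈ crit ∧ ∃ g ∈ ts c, t = fL p c g) := by
  classical
  unfold fc at h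
  split_ifs at h with h1 h2 h2
  · rcases List.mem_append.1 h with h | h
    · obtain ⟨g, hg, rfl⟩ := List.mem_map.1 h
      exact Or.inl ⟨two_le_mul p hp c h1, g, hg, rfl⟩
    · obtain ⟨g, hg, rfl⟩ := List.mem_map.1 h
      exact Or.inr (Or.inl ⟨two_le_mul p hp c h1, h2, g, hg, rfl⟩)
  · rw [List.append_nil] at h
    obtain ⟨g, hg, rfl⟩ := List.mem_map.1 h
    exact Or.inl ⟨two_le_mul p hp c h1, g, hg, rfl⟩
  · obtain ⟨g, hg, rfl⟩ := List.mem_map.1 h
    exact Or.inr (Or.inr ⟨mul_eq_one p hp c h1, h1, h2, g, hg, rfl⟩)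
  · simp at h

theorem ev_pow {σ : Type} (τ : σ → ℂ) (a : ℂ) (u : MvPolynomial σ ℂ) (k : ℕ)
    (ha : a ≠ 0) (hu : eval τ u ≠ 0) : eval τ (C a * u ^ k) ≠ 0 := by
  rw [map_mul, map_pow, eval_C]
  exact mul_ne_zero ha (pow_ne_zero _ hu)

theorem ev_mul {σ : Type} (τ : σ → ℂ) (a : ℂ) (u : MvPolynomial σ ℂ)
    (ha : a ≠ 0) (hu : eval τ u ≠ 0) : eval τ (C a * u) ≠ 0 := by
  rw [map_mul, eval_C]
  exact mul_ne_zero ha hu

theorem ev_X {σ : Type} (τ : σ → ℂ) (s : σ) (h : τ s ≠ 0) :
    eval τ (X s : MvPolynomial σ ℂ) ≠ 0 := by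
  rw [eval_X]
  exact h

/-- the families are admissible -/
theorem ok_new (hp : p.natDegree ≠ 0) (he : HasD P f Set.univ true (exF hs crit ts))
    (ht : HasD P f Set.univ false (tlF hs crit b)) :
    ∀ G ∈ exF (hs.map (hC p)) (critC p crit) (tsC p hs crit ts), G.Ok Set.univ true := by
  classical
  intro G hG
  rcases mem_exF.1 hG with ⟨h, hh, rfl⟩ | ⟨d, hd, t, ht', rfl⟩
  · obtain ⟨g, hg, rfl⟩ := List.mem_map.1 hh
    have hH := con_H ht g hg
    have i0 : Finite g.σ := g.fin
    have h2 := Constructible.ne (X (Sum.inr ()) : MvPolynomial (g.σ ⊕ Unit) ℂ)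
    have h3 := Constructible.ne (Polynomial.aeval g.v p.derivative)
    simp only [eval_X] at h2
    simp only [eval_comp] at h3
    refine ⟨Constructible.and (Constructible.comap Sum.inl (Constructible.and hH h3)) h2,
      fun τ hτ => ⟨trivial, fun _ => ?_⟩⟩
    exact ev_X (σ := g.σ ⊕ Unit) τ (Sum.inr ()) hτ.2
  · unfold tsC at ht'
    obtain ⟨c, hc, ht''⟩ := List.mem_flatMap.1 ht'
    rcases mem_fc p hp ht'' with ⟨h2, g, hg, rfl⟩ | ⟨h2, hcc, g, hg, rfl⟩ |
      ⟨h1, hne, hcc, g, hg, rfl⟩
    · have hH := con_H ht g hg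
      have i0 : Finite g.σ := g.fin
      have h2 := Constructible.ne (X (Sum.inr ()) : MvPolynomial (g.σ ⊕ Unit) ℂ)
      have h3 := Constructible.eq (rename Sum.inl g.v : MvPolynomial (g.σ ⊕ Unit) ℂ) (C c)
      simp only [eval_X] at h2
      simp only [eval_rename, Function.comp_def, eval_C] at h3
      refine ⟨Constructible.and (Constructible.comap Sum.inl hH) (Constructible.and h3 h2),
        fun τ hτ => ⟨trivial, fun _ => ?_⟩⟩
      exact ev_pow (σ := g.σ ⊕ Unit) τ _ (X (Sum.inr ())) _ (lc_ne p hp c)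
        (ev_X (σ := g.σ ⊕ Unit) τ (Sum.inr ()) hτ.2.2)
    · obtain ⟨o1, o2⟩ := ok_ts he c hcc g hg
      refine ⟨o1, fun τ hτ => ⟨trivial, fun _ => ?_⟩⟩
      exact ev_pow (σ := g.σ) τ _ g.u _ (lc_ne p hp c) (o2 τ hτ)
    · obtain ⟨o1, o2⟩ := ok_ts he c hcc g hg
      refine ⟨o1, fun τ hτ => ⟨trivial, fun _ => ?_⟩⟩
      exact ev_mul (σ := g.σ) τ _ g.u hne (o2 τ hτ)

theorem ok_new_t (he : HasD P f Set.univ false (tlF hs crit b)) (b' : ℂ → ℕ → K) (crit' : Finset ℂ) :
    ∀ G ∈ tlF (hs.map (hC p)) crit' b', G.Ok Set.univ false := by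
  intro G hG
  rcases mem_tlF.1 hG with ⟨h, hh, rfl⟩ | ⟨d, hd, rfl⟩
  · obtain ⟨g, hg, rfl⟩ := List.mem_map.1 hh
    have hH := con_H he g hg
    have h3 := Constructible.ne (Polynomial.aeval g.v p.derivative)
    simp only [eval_comp] at h3
    exact ⟨Constructible.and hH h3, fun τ hτ => ⟨trivial, fun h => absurd h (by simp)⟩⟩
  · exact ⟨Constructible.univ, fun τ hτ => ⟨trivial, fun h => absurd h (by simp)⟩⟩

/-- the sum over the new families -/
theorem new_sum (hp : p.natDegree ≠ 0) (hs : List HT) (crit : Finset ℂ) (ts : ℂ → List Fam)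
    (φ : Fam2 → K) :
    ((exF (hs.map (hC p)) (critC p crit) (tsC p hs crit ts)).map φ).sum =
      (hs.map fun h => φ (hC p h).ex).sum +
      ∑ c ∈ p.derivative.roots.toFinset, ((hs.map fun h => φ (atv (fH p c h) (p.eval c))).sum +
        (if c ∈ crit then ((ts c).map fun t => φ (atv (fT p c t) (p.eval c))).sum else 0)) +
      ∑ c ∈ crit, (if p.derivative.eval c = 0 then 0 else
        ((ts c).map fun t => φ (atv (fL p c t) (p.eval c))).sum) := by
  classical
  rw [exF_sum, List.map_map, add_assoc]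
  congr 1
  have h1 : ∀ d ∈ critC p crit, ((tsC p hs crit ts d).map fun t => φ (atv t d)).sum =
      ∑ c ∈ (TT p crit).filter (fun c => p.eval c = d),
        ((fc p hs crit ts c).map fun t => φ (atv t (p.eval c))).sum := by
    intro d _
    unfold tsC
    rw [flat_sum, Finset.sum_map_toList]
    refine Finset.sum_congr rfl fun c hc => ?_
    rw [(Finset.mem_filter.1 hc).2]
  rw [Finset.sum_congr rfl h1, sum_crit]
  have h2 : ∀ c ∈ TT p crit, ((fc p hs crit ts c).map fun t => φ (atv t (p.eval c))).sum =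
      (if p.derivative.eval c = 0 then
        ((hs.map fun h => φ (atv (fH p c h) (p.eval c))).sum +
        (if c ∈ crit then ((ts c).map fun t => φ (atv (fT p c t) (p.eval c))).sum else 0)) else 0) +
      (if c ∈ crit then (if p.derivative.eval c = 0 then 0 else
        ((ts c).map fun t => φ (atv (fL p c t) (p.eval c))).sum) else 0) := by
    intro c _
    unfold fc
    by_cases h3 : p.derivative.eval c = 0 <;> by_cases h4 : c ∈ crit <;>
      simp [h3, h4, List.map_map, Function.comp_def]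
  rw [Finset.sum_congr rfl h2, Finset.sum_add_distrib, (sum_TT p hp crit _ fun _ => 0).1,
    (sum_TT p hp crit (fun _ => 0) _).2]

/-- the classes of `f` for the first set -/
theorem cl_one (he : HasD P f Set.univ true (exF hs crit ts))
    (ht : HasD P f Set.univ false (tlF hs crit b)) {E : Type} [Finite E] {Q : Set (E ⊕ Bool → ℂ)}
    (hQ : Constructible Q) (m : ℕ) :
    ((exF hs crit ts).map fun G => G.κ m * G.cl P
      {z : E ⊕ Bool → ℂ | p.derivative.eval (z (Sum.inr true)) ≠ 0 ∧
      z (Sum.inr false) ≠ 0 ∧ Sum.elim (fun a => z (Sum.inl a)) (fun b : Bool => if b then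
        p.eval (z (Sum.inr true)) else
          p.derivative.eval (z (Sum.inr true)) * z (Sum.inr false)) ∈ Q}).sum =
      (hs.map fun h => (hC p h).ex.κ m * (hC p h).ex.cl P Q).sum +
      ∑ c ∈ crit, (if p.derivative.eval c = 0 then 0 else
        ((ts c).map fun t => (atv (fL p c t) (p.eval c)).κ m *
          (atv (fL p c t) (p.eval c)).cl P Q).sum) := by
  rw [exF_sum]
  congr 1
  · congr 1
    refine List.map_congr_left fun h hh => ?_
    rw [cl_hC p P (con_H ht h hh) hQ]
    rfl
  · refine Finset.sum_congr rfl fun c hc => ?_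
    have h1 : ∀ t ∈ ts c, (atv t c).κ m * (atv t c).cl P
        {z : E ⊕ Bool → ℂ | p.derivative.eval (z (Sum.inr true)) ≠ 0 ∧
        z (Sum.inr false) ≠ 0 ∧ Sum.elim (fun a => z (Sum.inl a)) (fun b : Bool => if b then
          p.eval (z (Sum.inr true)) else
            p.derivative.eval (z (Sum.inr true)) * z (Sum.inr false)) ∈ Q} =
        if p.derivative.eval c = 0 then 0 else (atv (fL p c t) (p.eval c)).κ m *
          (atv (fL p c t) (p.eval c)).cl P Q := by
      intro t ht'
      have i0 : Finite t.σ := t.fin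
      have h2 := clx_Q1_point p P t.u (ok_ts he c hc t ht').2 c Q
      have h3 : (atv t c).cl P
        {z : E ⊕ Bool → ℂ | p.derivative.eval (z (Sum.inr true)) ≠ 0 ∧
        z (Sum.inr false) ≠ 0 ∧ Sum.elim (fun a => z (Sum.inl a)) (fun b : Bool => if b then
          p.eval (z (Sum.inr true)) else
            p.derivative.eval (z (Sum.inr true)) * z (Sum.inr false)) ∈ Q} =
        if p.derivative.eval c = 0 then 0 else (atv (fL p c t) (p.eval c)).cl P Q := h2
      rw [h3]
      split_ifs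
      · rw [mul_zero]
      · rfl
    rw [List.map_congr_left h1]
    split_ifs <;> simp

/-- the classes of `f` for the sets at the roots -/
theorem cl_root (he : HasD P f Set.univ true (exF hs crit ts)) {E : Type} [Finite E]
    (Q : Set (E ⊕ Bool → ℂ)) (c : ℂ) (m m' : ℕ) (hd : mul p c ∣ m) (hm' : m' = m / mul p c) :
    ((exF hs crit ts).map fun G => G.κ m' * G.cl P
      {z : E ⊕ Bool → ℂ | z (Sum.inr true) = c ∧
        z (Sum.inr false) ≠ 0 ∧ Sum.elim (fun a => z (Sum.inl a)) (fun b : Bool => if b then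
          p.eval c else lc p c * z (Sum.inr false) ^ mul p c) ∈ Q}).sum =
      (hs.map fun h => (atv (fH p c h) (p.eval c)).κ m * (atv (fH p c h) (p.eval c)).cl P Q).sum +
        (if c ∈ crit then ((ts c).map fun t => (atv (fT p c t) (p.eval c)).κ m *
          (atv (fT p c t) (p.eval c)).cl P Q).sum else 0) := by
  subst hm'
  rw [exF_sum]
  congr 1
  · congr 1
    refine List.map_congr_left fun h hh => ?_
    have i0 : Finite h.σ := h.fin
    have h2 := clx_QR_haar p P h.H h.v c Q
    have h3 : h.ex.cl P {z : E ⊕ Bool → ℂ | z (Sum.inr true) = c ∧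
        z (Sum.inr false) ≠ 0 ∧ Sum.elim (fun a => z (Sum.inl a)) (fun b : Bool => if b then
          p.eval c else lc p c * z (Sum.inr false) ^ mul p c) ∈ Q} =
      (atv (fH p c h) (p.eval c)).cl P Q := h2
    have h4 : (atv (fH p c h) (p.eval c)).κ m = h.ex.κ (m / mul p c) := if_pos hd
    rw [h3, h4]
  · have h0 : ∀ c' ∈ crit, ((ts c').map fun t => (atv t c').κ (m / mul p c) *
        (atv t c').cl P {z : E ⊕ Bool → ℂ | z (Sum.inr true) = c ∧
        z (Sum.inr false) ≠ 0 ∧ Sum.elim (fun a => z (Sum.inl a)) (fun b : Bool => if b then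
          p.eval c else lc p c * z (Sum.inr false) ^ mul p c) ∈ Q}).sum =
        if c' = c then ((ts c).map fun t => (atv (fT p c t) (p.eval c)).κ m *
          (atv (fT p c t) (p.eval c)).cl P Q).sum else 0 := by
      intro c' hc'
      have h1 : ∀ t ∈ ts c', (atv t c').κ (m / mul p c) *
          (atv t c').cl P {z : E ⊕ Bool → ℂ | z (Sum.inr true) = c ∧
          z (Sum.inr false) ≠ 0 ∧ Sum.elim (fun a => z (Sum.inl a)) (fun b : Bool => if b then
            p.eval c else lc p c * z (Sum.inr false) ^ mul p c) ∈ Q} =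
          if c' = c then (atv (fT p c t) (p.eval c)).κ m *
            (atv (fT p c t) (p.eval c)).cl P Q else 0 := by
        intro t ht'
        have i0 : Finite t.σ := t.fin
        have h2 := clx_QR_point p P t.u (ok_ts he c' hc' t ht').2 c c' Q
        have h3 : (atv t c').cl P {z : E ⊕ Bool → ℂ | z (Sum.inr true) = c ∧
          z (Sum.inr false) ≠ 0 ∧ Sum.elim (fun a => z (Sum.inl a)) (fun b : Bool => if b then
            p.eval c else lc p c * z (Sum.inr false) ^ mul p c) ∈ Q} =
          if c' = c then (atv (fT p c t) (p.eval c)).cl P Q else 0 := h2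
        have h4 : (atv (fT p c t) (p.eval c)).κ m = (atv t c').κ (m / mul p c) := if_pos hd
        rw [h3, h4]
        split_ifs
        · rfl
        · rw [mul_zero]
      rw [List.map_congr_left h1]
      split_ifs with h5
      · rw [h5]
      · simp
    rw [Finset.sum_congr rfl h0, Finset.sum_ite_eq' crit c]

/-- exact part -/
theorem exact_new (hV : Stmt_VCE) (hp : p.natDegree ≠ 0)
    (he : HasD P f Set.univ true (exF hs crit ts)) (ht : HasD P f Set.univ false (tlF hs crit b))
    (hU : Unif P f Set.univ) {E : Type} [Finite E] {Q : Set (E ⊕ Bool → ℂ)}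
    (hQ : QOk Set.univ true Q) {m : ℕ} (hm : 1 ≤ m) (e : ℕ)
    (A : ℕ → MvPolynomial (E ⊕ Bool) ℂ) :
    vol P.rat xq (PD (Polynomial.aeval f p) Q m e A) = xq ^ e *
      ((exF (hs.map (hC p)) (critC p crit) (tsC p hs crit ts)).map fun G =>
        G.κ m * G.cl P Q).sum := by
  have hQ1 := con_Q1 p hQ.1
  rw [hV P ι f p hp hU E Q hQ m e hm A]
  congr 1
  rw [he.2 E _ ⟨hQ1, fun z hz => ⟨trivial, fun _ => hz.2.1⟩⟩ m fun _ => hm,
    cl_one p he ht hQ.1 m, new_sum p hp hs crit ts]
  have hR : ∀ c ∈ p.derivative.roots.toFinset, (if mul p c ∣ m then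
      vol P.rat xq (SD f true {z : E ⊕ Bool → ℂ | z (Sum.inr true) = c ∧
        z (Sum.inr false) ≠ 0 ∧ Sum.elim (fun a => z (Sum.inl a)) (fun b : Bool => if b then
          p.eval c else lc p c * z (Sum.inr false) ^ mul p c) ∈ Q} (m / mul p c)) else 0) =
      (hs.map fun h => (atv (fH p c h) (p.eval c)).κ m * (atv (fH p c h) (p.eval c)).cl P Q).sum +
        (if c ∈ crit then ((ts c).map fun t => (atv (fT p c t) (p.eval c)).κ m *
          (atv (fT p c t) (p.eval c)).cl P Q).sum else 0) := by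
    intro c hc
    have hc' : p.derivative.eval c = 0 := by
      rw [Multiset.mem_toFinset, Polynomial.mem_roots (deriv_ne p hp)] at hc
      exact hc
    have h2 := two_le_mul p hp c hc'
    by_cases hd : mul p c ∣ m
    · have hmm : 1 ≤ m / mul p c := Nat.div_pos (Nat.le_of_dvd (by omega) hd) (by omega)
      rw [if_pos hd, he.2 E _ ⟨con_QR p c hQ.1, fun z hz => ⟨trivial, fun _ => hz.2.1⟩⟩
        (m / mul p c) fun _ => hmm]
      exact cl_root p he Q c m _ hd rfl
    · have h3 : ∀ h : HT, (atv (fH p c h) (p.eval c)).κ m = 0 := fun h => if_neg hd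
      have h4 : ∀ t : Fam, (atv (fT p c t) (p.eval c)).κ m = 0 := fun h => if_neg hd
      rw [if_neg hd]
      simp [h3, h4]
  rw [Finset.sum_congr rfl hR]
  ring

/-- tail part -/
theorem tail_new (hV : Stmt_VCT) (hp : p.natDegree ≠ 0)
    (ht : HasD P f Set.univ false (tlF hs crit b)) {E : Type} [Finite E]
    {Q : Set (E ⊕ Bool → ℂ)} (hQ : QOk Set.univ false Q) (m : ℕ) :
    vol P.rat xq (SD (Polynomial.aeval f p) false Q m) =
      ((tlF (hs.map (hC p)) (critC p crit) (bC p P hs crit b)).map fun G =>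
        G.κ m * G.cl P Q).sum := by
  classical
  rw [hV P ι f p hp E Q hQ m]
  rw [ht.2 E _ ⟨con_Q1t p hQ.1, fun z hz => ⟨trivial, fun h => absurd h (by simp)⟩⟩ m
    fun h => absurd h (by simp), tlF_sum, tlF_sum, List.map_map]
  set W : ℂ → K := fun d => clx P (Set.univ : Set (Empty → ℂ)) (C d) 0 Q with hW
  -- the first part
  have h1 : (hs.map fun h => h.tl.κ m * h.tl.cl P
      {z : E ⊕ Bool → ℂ | p.derivative.eval (z (Sum.inr true)) ≠ 0 ∧
      Sum.elim (fun a => z (Sum.inl a)) (fun b : Bool => if b then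
        p.eval (z (Sum.inr true)) else 0) ∈ Q}) =
      hs.map ((fun h : HT => h.tl.κ m * h.tl.cl P Q) ∘ hC p) := by
    refine List.map_congr_left fun h hh => ?_
    have i0 : Finite h.σ := h.fin
    have h2 := clx_Q1t_haar p P h.H h.v Q
    have h3 : h.tl.cl P {z : E ⊕ Bool → ℂ | p.derivative.eval (z (Sum.inr true)) ≠ 0 ∧
      Sum.elim (fun a => z (Sum.inl a)) (fun b : Bool => if b then
        p.eval (z (Sum.inr true)) else 0) ∈ Q} = (hC p h).tl.cl P Q := h2
    rw [h3]
    rfl
  have h2 : ∀ c ∈ crit, (ptv c (b c)).κ m * (ptv c (b c)).cl P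
      {z : E ⊕ Bool → ℂ | p.derivative.eval (z (Sum.inr true)) ≠ 0 ∧
      Sum.elim (fun a => z (Sum.inl a)) (fun b : Bool => if b then
        p.eval (z (Sum.inr true)) else 0) ∈ Q} =
      if p.derivative.eval c = 0 then 0 else b c m * W (p.eval c) := by
    intro c _
    have h3 := clx_Q1t_point p P (Set.univ : Set (Empty → ℂ)) c Q
    have h4 : (ptv c (b c)).cl P
      {z : E ⊕ Bool → ℂ | p.derivative.eval (z (Sum.inr true)) ≠ 0 ∧
      Sum.elim (fun a => z (Sum.inl a)) (fun b : Bool => if b then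
        p.eval (z (Sum.inr true)) else 0) ∈ Q} =
      if p.derivative.eval c = 0 then 0 else W (p.eval c) := h3
    rw [h4]
    split_ifs
    · rw [mul_zero]
    · rfl
  have h3 : ∀ c ∈ p.derivative.roots.toFinset,
      vol P.rat xq (SD f false {z : E ⊕ Bool → ℂ | z (Sum.inr true) = c ∧
        Sum.elim (fun a => z (Sum.inl a)) (fun b : Bool => if b then p.eval c else 0) ∈ Q}
          (m / mul p c)) =
      ((hs.map fun h => (h.lam * vc P c h) * xq ^ (m / mul p c)).sum +
      (if c ∈ crit then b c (m / mul p c) else 0)) * W (p.eval c) := by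
    intro c _
    rw [ht.2 E _ ⟨con_QRt p c hQ.1, fun z hz => ⟨trivial, fun h => absurd h (by simp)⟩⟩ _
      fun h => absurd h (by simp), tlF_sum, add_mul]
    congr 1
    · rw [← List.sum_map_mul_right]
      congr 1
      refine List.map_congr_left fun h hh => ?_
      have i0 : Finite h.σ := h.fin
      have h4 := clx_QRt_haar p P (con_H ht h hh) h.v c hQ.1
      have h5 : h.tl.cl P {z : E ⊕ Bool → ℂ | z (Sum.inr true) = c ∧
        Sum.elim (fun a => z (Sum.inl a)) (fun b : Bool => if b then p.eval c else 0) ∈ Q} =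
        vc P c h * W (p.eval c) := h4
      rw [h5]
      show h.lam * xq ^ (m / mul p c) * (vc P c h * W (p.eval c)) = _
      ring
    · have h6 : ∀ c' ∈ crit, (ptv c' (b c')).κ (m / mul p c) * (ptv c' (b c')).cl P
          {z : E ⊕ Bool → ℂ | z (Sum.inr true) = c ∧
          Sum.elim (fun a => z (Sum.inl a)) (fun b : Bool => if b then p.eval c else 0) ∈ Q} =
          if c' = c then b c (m / mul p c) * W (p.eval c) else 0 := by
        intro c' _
        have h4 := clx_QRt_point p P (Set.univ : Set (Empty → ℂ)) c c' Q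
        have h5 : (ptv c' (b c')).cl P
          {z : E ⊕ Bool → ℂ | z (Sum.inr true) = c ∧
          Sum.elim (fun a => z (Sum.inl a)) (fun b : Bool => if b then p.eval c else 0) ∈ Q} =
          if c' = c then W (p.eval c) else 0 := h4
        rw [h5]
        split_ifs with h7
        · rw [h7]; rfl
        · rw [mul_zero]
      rw [Finset.sum_congr rfl h6, Finset.sum_ite_eq' crit c]
      split_ifs <;> simp
  have h4 : ∀ d ∈ critC p crit, (ptv d (bC p P hs crit b d)).κ m *
      (ptv d (bC p P hs crit b d)).cl P Q =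
      ∑ c ∈ (TT p crit).filter (fun c => p.eval c = d), bt p P hs crit b c m * W (p.eval c) := by
    intro d _
    show (∑ c ∈ (TT p crit).filter (fun c => p.eval c = d), bt p P hs crit b c m) * W d = _
    rw [Finset.sum_mul]
    refine Finset.sum_congr rfl fun c hc => ?_
    rw [(Finset.mem_filter.1 hc).2]
  rw [h1, Finset.sum_congr rfl h2, Finset.sum_congr rfl h3, Finset.sum_congr rfl h4, sum_crit,
    add_assoc]
  congr 1
  have h5 : ∀ c ∈ TT p crit, bt p P hs crit b c m * W (p.eval c) =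
      (if p.derivative.eval c = 0 then
        ((hs.map fun h => (h.lam * vc P c h) * xq ^ (m / mul p c)).sum +
          (if c ∈ crit then b c (m / mul p c) else 0)) * W (p.eval c) else 0) +
      (if c ∈ crit then (if p.derivative.eval c = 0 then 0 else b c m * W (p.eval c)) else 0) := by
    intro c _
    unfold bt
    by_cases h3 : p.derivative.eval c = 0 <;> by_cases h4 : c ∈ crit <;>
      simp [h3, h4]
  rw [Finset.sum_congr rfl h5, Finset.sum_add_distrib, (sum_TT p hp crit _ fun _ => 0).1,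
    (sum_TT p hp crit (fun _ => 0) _).2, add_comm]

end

theorem PD_zero {E ι : Type} (f : MvPolynomial ι ℂ) (Q : Set (E ⊕ Bool → ℂ)) (i : ℕ)
    (A : ℕ → MvPolynomial (E ⊕ Bool) ℂ) : PD f Q i 0 A = SD f true Q i := by
  ext z
  simp [PD]

end TC5Aux

open TC5Aux

theorem stmt_TC5 (hE : Stmt_VCE) (hT : Stmt_VCT) : Stmt_TC5 := by
  classical
  intro P ι _ f p Λ hp ⟨hs, crit, ts, b, hΛ, he, ht, hU⟩
  refine ⟨hs.map (hC p), critC p crit, tsC p hs crit ts, bC p P hs crit b, ?_, ?_, ?_, ?_⟩
  · intro d _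
    constructor
    · intro t htt
      unfold tsC at htt
      obtain ⟨c, hc, htt'⟩ := List.mem_flatMap.1 htt
      have hcd : p.eval c = d := (Finset.mem_filter.1 (Finset.mem_toList.1 hc)).2
      rcases mem_fc p hp htt' with ⟨h2, g, hg, rfl⟩ | ⟨h2, hcc, g, hg, rfl⟩ |
        ⟨h1, hne, hcc, g, hg, rfl⟩
      · have hmem : (1 / (mul p c : ℚ)) ∈ {r : ℚ | ∃ c, p.eval c = d ∧
            ((mul p c : ℚ) * r ∈ Λ c ∨ (2 ≤ mul p c ∧ r = 1 / (mul p c : ℚ)))} :=
          ⟨c, hcd, Or.inr ⟨h2, rfl⟩⟩
        exact eseq_hpow _ (mul p c) (by omega) hmem g.lam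
      · have h3 := (stmt_Q1.2.2.2.2.2.2 (Λ c) g.κ (mul p c) (by omega) ((hΛ c hcc).1 g hg)).1
        exact stmt_Q1.1 _ _ _ (fun r hr => ⟨c, hcd, Or.inl hr⟩) h3
      · refine stmt_Q1.1 _ _ _ (fun r hr => ⟨c, hcd, Or.inl ?_⟩) ((hΛ c hcc).1 g hg)
        rw [h1]
        simpa using hr
    · unfold bC
      refine eseq_sum _ _ _ fun c hc => ?_
      obtain ⟨hcT, hcd⟩ := Finset.mem_filter.1 hc
      unfold bt
      by_cases h1 : p.derivative.eval c = 0
      · have h2 := two_le_mul p hp c h1
        simp only [h1, if_true]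
        refine stmt_Q1.2.1 _ _ _ ?_ ?_
        · have hmem : (1 / (mul p c : ℚ)) ∈ {r : ℚ | ∃ c, p.eval c = d ∧
              ((mul p c : ℚ) * r ∈ Λ c ∨ (2 ≤ mul p c ∧ r = 1 / (mul p c : ℚ)))} :=
            ⟨c, hcd, Or.inr ⟨h2, rfl⟩⟩
          exact eseq_lsum _ _ _ fun h _ => eseq_hfloor _ (mul p c) (by omega) hmem _
        · by_cases h3 : c ∈ crit
          · simp only [h3, if_true]
            have h4 := (stmt_Q1.2.2.2.2.2.2 (Λ c) (b c) (mul p c) (by omega) ((hΛ c h3).2)).2
            exact stmt_Q1.1 _ _ _ (fun r hr => ⟨c, hcd, Or.inl hr⟩) h4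
          · simp only [h3, if_false]
            exact eseq_zero _
      · have hm1 := mul_eq_one p hp c h1
        simp only [h1, if_false]
        by_cases h3 : c ∈ crit
        · simp only [h3, if_true]
          refine stmt_Q1.1 _ _ _ (fun r hr => ⟨c, hcd, Or.inl ?_⟩) ((hΛ c h3).2)
          rw [hm1]
          simpa using hr
        · simp only [h3, if_false]
          exact eseq_zero _
  · refine ⟨ok_new p hp he ht, ?_⟩
    intro E _ Q hQ i hi
    have h := exact_new p hE hp he ht hU hQ (hi rfl) 0 fun _ => 0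
    rwa [PD_zero, pow_zero, one_mul] at h
  · exact ⟨ok_new_t p ht _ _, fun E _ Q hQ i _ => tail_new p hT hp ht hQ i⟩
  · intro E _ Q hQ i e hi A
    have h := exact_new p hE hp he ht hU hQ hi 0 A
    rw [PD_zero, pow_zero, one_mul] at h
    rw [exact_new p hE hp he ht hU hQ hi e A, h]

end Pool.Agent.Mono.RO

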