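import Pool.Agent.Work.Monodromy5.R5

/-!
# Block P5: pairs of arcs
-/

set_option autoImplicit false
set_option linter.unusedSectionVars false

namespace Pool.Agent.Mono.RO

open MvPolynomial TS TS.VAAux R5Aux

namespace P5Aux

section

variable {E ι κ : Type} [Fintype ι] [Fintype κ]

/-- value and leading coefficient of `f(x)` as parameters -/
def Qa (Q : Set (E ⊕ Fin 4 → ℂ)) : Set ((E ⊕ Bool) ⊕ Bool → ℂ) :=
  {b | Sum.elim (fun p => b (Sum.inl (Sum.inl p))) ![b (Sum.inl (Sum.inr true)),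
    b (Sum.inl (Sum.inr false)), b (Sum.inr true), b (Sum.inr false)] ∈ Q}

theorem con_Qa {Q : Set (E ⊕ Fin 4 → ℂ)} (hQ : Constructible Q) : Constructible (Qa Q) := by
  have h := Constructible.comap (Sum.elim (fun p => Sum.inl (Sum.inl p))
    ![Sum.inl (Sum.inr true), Sum.inl (Sum.inr false), Sum.inr true, Sum.inr false] :
      E ⊕ Fin 4 → (E ⊕ Bool) ⊕ Bool) hQ
  refine cast ?_ h
  congr 1
  ext b
  refine Eq.to_iff (congrArg (· ∈ Q) ?_)
  funext s
  rcases s with s | s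
  · rfl
  · fin_cases s <;> rfl

/-- value and leading coefficient of `f(x)` from a family -/
def Qb (G : Fam2) (Q : Set (E ⊕ Fin 4 → ℂ)) : Set ((E ⊕ G.σ) ⊕ Bool → ℂ) :=
  {b | (fun s => b (Sum.inl (Sum.inr s))) ∈ G.S ∧
    Sum.elim (fun p => b (Sum.inl (Sum.inl p)))
      ![eval (fun s => b (Sum.inl (Sum.inr s))) G.v, eval (fun s => b (Sum.inl (Sum.inr s))) G.u,
        b (Sum.inr true), b (Sum.inr false)] ∈ Q}

theorem con_Qb (G : Fam2) (hG : Constructible G.S) {Q : Set (E ⊕ Fin 4 → ℂ)}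
    (hQ : Constructible Q) : Constructible (Qb G Q) := by
  have h := Constructible.and (Constructible.comap
    (fun s => Sum.inl (Sum.inr s) : G.σ → (E ⊕ G.σ) ⊕ Bool) hG)
    (Constructible.preimage (Sum.elim (fun p => X (Sum.inl (Sum.inl p)))
      ![rename (fun s => Sum.inl (Sum.inr s)) G.v, rename (fun s => Sum.inl (Sum.inr s)) G.u,
        X (Sum.inr true), X (Sum.inr false)] :
          E ⊕ Fin 4 → MvPolynomial ((E ⊕ G.σ) ⊕ Bool) ℂ) hQ)
  refine cast ?_ h
  congr 1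
  ext b
  refine and_congr Iff.rfl ?_
  refine Eq.to_iff (congrArg (· ∈ Q) ?_)
  funext s
  rcases s with s | s
  · simp
  · fin_cases s <;> simp [eval_rename, Function.comp_def]

theorem DD_eq (f : MvPolynomial ι ℂ) (g : MvPolynomial κ ℂ) (w w' : Bool)
    (Q : Set (E ⊕ Fin 4 → ℂ)) (i j : ℕ) :
    DD f g w w' Q i j = RT f w (SD g w' (Qa Q) j) i := by
  ext z
  exact Iff.rfl

theorem volR_eq [Finite E] (P : HodgeMeasure) (G : Fam2) (g : MvPolynomial κ ℂ) (w' : Bool)
    (Q : Set (E ⊕ Fin 4 → ℂ)) (j : ℕ) :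
    G.volR P (SD g w' (Qa Q) j) =
      haveI := G.fin
      vol P.rat xq (SD g w' (Qb G Q) j) := by
  haveI := G.fin
  unfold Fam2.volR
  congr 1
  ext z
  constructor
  · rintro ⟨h1, h2, h3⟩
    exact ⟨h2, h1, h3⟩
  · rintro ⟨h1, h2, h3⟩
    exact ⟨h2, h1, h3⟩

theorem cl_eq [Finite E] (P : HodgeMeasure) (G G' : Fam2) (hG : Constructible G.S)
    (hG' : Constructible G'.S) {Q : Set (E ⊕ Fin 4 → ℂ)} (hQ : Constructible Q) :
    (haveI := G.fin; G'.cl P (Qb G Q)) = G.cl2 G' P Q := by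
  haveI := G.fin
  haveI := G'.fin
  unfold Fam2.cl Fam2.cl2
  refine M5Aux.val_reindex' P (Equiv.sumAssoc E G.σ G'.σ) ?_ ?_ ?_
  · refine Constructible.and (Constructible.comap _ hG') ?_
    have h := Constructible.preimage (Sum.elim (fun s => X (Sum.inl s))
          (fun b : Bool => if b then rename (fun s => Sum.inr s) G'.v else
            rename (fun s => Sum.inr s) G'.u) :
            (E ⊕ G.σ) ⊕ Bool → MvPolynomial ((E ⊕ G.σ) ⊕ G'.σ) ℂ) (con_Qb G hG hQ)
    refine cast ?_ h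
    congr 1
    ext v
    simp only [Set.mem_ofPred_eq]
    refine Eq.to_iff (congrArg (· ∈ Qb G Q) ?_)
    funext s
    rcases s with s | s
    · simp
    · rcases s with _ | _ <;> simp [Fam2.pt, eval_rename, Function.comp_def]
  · refine Constructible.and (Constructible.comap _ hG) (Constructible.and
      (Constructible.comap _ hG') ?_)
    have h := Constructible.preimage (Sum.elim (fun p => X (Sum.inl p))
      ![rename (fun s => Sum.inr (Sum.inl s)) G.v, rename (fun s => Sum.inr (Sum.inl s)) G.u,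
        rename (fun s => Sum.inr (Sum.inr s)) G'.v, rename (fun s => Sum.inr (Sum.inr s)) G'.u] :
          E ⊕ Fin 4 → MvPolynomial (E ⊕ (G.σ ⊕ G'.σ)) ℂ) hQ
    refine cast ?_ h
    congr 1
    ext b
    simp only [Set.mem_ofPred_eq]
    refine Eq.to_iff (congrArg (· ∈ Q) ?_)
    funext s
    rcases s with s | s
    · simp
    · fin_cases s <;> simp [eval_rename, Function.comp_def]
  · intro x
    constructor
    · rintro ⟨h1, h2, h3⟩
      exact ⟨h2, h1, h3⟩
    · rintro ⟨h1, h2, h3⟩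
      exact ⟨h2, h1, h3⟩

end

end P5Aux

open P5Aux

theorem stmt_P5 : Stmt_P5 := by
  intro P ι κ _ _ f g w w' Gs Gs' hf hg E _ Q hQ hQ1 i j hi hj
  rw [DD_eq]
  have h1 := stmt_R5 P ι f Set.univ w Gs hf E κ (SD g w' (Qa Q) j) (j + 1)
    (M5Aux.cyl_SD g w' (con_Qa hQ) j) (fun z hz => ⟨Set.mem_univ _, (hQ1 _ hz.2).1⟩) i hi
  refine h1.trans ?_
  congr 1
  refine List.map_congr_left fun G hG => ?_
  haveI := G.fin
  rw [volR_eq, hg.2 _ (Qb G Q) ⟨con_Qb G (hf.1 G hG).1 hQ, fun z hz =>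
    ⟨Set.mem_univ _, (hQ1 _ hz.2).2⟩⟩ j hj, ← List.sum_map_mul_left]
  congr 1
  refine List.map_congr_left fun G' hG' => ?_
  rw [cl_eq P G G' (hf.1 G hG).1 (hg.1 G' hG').1 hQ, mul_assoc]

end Pool.Agent.Mono.RO
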