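import Pool.Agent.Work.Monodromy5.TG5A
import Pool.Agent.Work.Monodromy5.TC5

/-!
# Block TG5, part C (helper2): classes of pairs with a Haar part
-/

set_option autoImplicit false

namespace Pool.Agent.Mono.RO

open MvPolynomial TS

namespace TG5C

open TC5Aux TG5Aux

/-- `al`, `be` for polynomials -/
noncomputable def alP {σ : Type} (s : Bool) (_ b : MvPolynomial σ ℂ) : MvPolynomial σ ℂ :=
  if s then 1 else b

noncomputable def beP {σ : Type} (s : Bool) (a _ : MvPolynomial σ ℂ) : MvPolynomial σ ℂ :=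
  if s then 1 else a

theorem ev_gv {σ : Type} (s : Bool) (z : σ → ℂ) (a b : MvPolynomial σ ℂ) :
    eval z (gvP s a b) = gv s (eval z a) (eval z b) := by
  cases s <;> simp [gvP, gv]

theorem ev_al {σ : Type} (s : Bool) (z : σ → ℂ) (a b : MvPolynomial σ ℂ) :
    eval z (alP s a b) = al s (eval z a) (eval z b) := by
  cases s <;> simp [alP, al]

theorem ev_be {σ : Type} (s : Bool) (z : σ → ℂ) (a b : MvPolynomial σ ℂ) :
    eval z (beP s a b) = be s (eval z a) (eval z b) := by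
  cases s <;> simp [beP, be]

theorem al_ne {s : Bool} {a b : ℂ} (h : gv s a b ∈ Xs s) : al s a b ≠ 0 := by
  cases s
  · rcases h with h | h
    · exact absurd h (by simp)
    · simp only [gv, Bool.false_eq_true, if_false] at h
      simpa [al] using right_ne_zero_of_mul h
  · simp [al]

theorem be_ne {s : Bool} {a b : ℂ} (h : gv s a b ∈ Xs s) : be s a b ≠ 0 := by
  cases s
  · rcases h with h | h
    · exact absurd h (by simp)
    · simp only [gv, Bool.false_eq_true, if_false] at h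
      simpa [be] using left_ne_zero_of_mul h
  · simp [be]

theorem gv_comm (s : Bool) (a b : ℂ) : gv s a b = gv s b a := by
  cases s <;> simp [gv, mul_comm, add_comm]

theorem al_comm (s : Bool) (a b : ℂ) : al s a b = be s b a := rfl

section

variable {E : Type}

/-! ## Constructible sets -/

theorem con_Q1 (s : Bool) {Q : Set (E ⊕ Bool → ℂ)} (hQ : Constructible Q) :
    Constructible (Q1 s Q) := by
  have h2 := Constructible.ne (X (Sum.inr 1) : MvPolynomial (E ⊕ Fin 4) ℂ)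
  have h3 := Constructible.preimage (Sum.elim (fun a => (X (Sum.inl a) : MvPolynomial (E ⊕ Fin 4) ℂ))
    (fun b : Bool => if b then gvP s (X (Sum.inr 0)) (X (Sum.inr 2)) else
      alP s (X (Sum.inr 0)) (X (Sum.inr 2)) * X (Sum.inr 1))) hQ
  simp only [eval_X] at h2
  refine Constructible.and h2 ?_
  convert h3 using 3 with z
  apply mem_cgr
  funext x
  rcases x with x | x
  · simp
  · cases x <;> simp [ev_gv, ev_al]

theorem con_Q2 (s : Bool) {Q : Set (E ⊕ Bool → ℂ)} (hQ : Constructible Q) :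
    Constructible (Q2 s Q) := by
  have h2 := Constructible.ne (X (Sum.inr 3) : MvPolynomial (E ⊕ Fin 4) ℂ)
  have h3 := Constructible.preimage (Sum.elim (fun a => (X (Sum.inl a) : MvPolynomial (E ⊕ Fin 4) ℂ))
    (fun b : Bool => if b then gvP s (X (Sum.inr 0)) (X (Sum.inr 2)) else
      beP s (X (Sum.inr 0)) (X (Sum.inr 2)) * X (Sum.inr 3))) hQ
  simp only [eval_X] at h2
  refine Constructible.and h2 ?_
  convert h3 using 3 with z
  apply mem_cgr
  funext x
  rcases x with x | x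
  · simp
  · cases x <;> simp [ev_gv, ev_be]

theorem con_Q3 (s : Bool) {Q : Set (E ⊕ Bool → ℂ)} (hQ : Constructible Q) :
    Constructible (Q3 s Q) := by
  have h1 := Constructible.ne (X (Sum.inr 1) : MvPolynomial (E ⊕ Fin 4) ℂ)
  have h2 := Constructible.ne (X (Sum.inr 3) : MvPolynomial (E ⊕ Fin 4) ℂ)
  have h3 := Constructible.preimage (Sum.elim (fun a => (X (Sum.inl a) : MvPolynomial (E ⊕ Fin 4) ℂ))
    (fun b : Bool => if b then gvP s (X (Sum.inr 0)) (X (Sum.inr 2)) else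
      alP s (X (Sum.inr 0)) (X (Sum.inr 2)) * X (Sum.inr 1) +
      beP s (X (Sum.inr 0)) (X (Sum.inr 2)) * X (Sum.inr 3))) hQ
  simp only [eval_X] at h1 h2
  refine Constructible.and h1 (Constructible.and h2 ?_)
  convert h3 using 3 with z
  apply mem_cgr
  funext x
  rcases x with x | x
  · simp
  · cases x <;> simp [ev_gv, ev_be, ev_al]

theorem con_QC (s : Bool) {B : Set (E ⊕ Unit → ℂ)} (hB : Constructible B) :
    Constructible (QC s B) := by
  have h1 := Constructible.ne (X (Sum.inr 1) : MvPolynomial (E ⊕ Fin 4) ℂ)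
  have h2 := Constructible.ne (X (Sum.inr 3) : MvPolynomial (E ⊕ Fin 4) ℂ)
  have h0 := Constructible.eq (alP s (X (Sum.inr 0)) (X (Sum.inr 2)) * X (Sum.inr 1) +
      beP s (X (Sum.inr 0)) (X (Sum.inr 2)) * X (Sum.inr 3) : MvPolynomial (E ⊕ Fin 4) ℂ) 0
  have h3 := Constructible.preimage (Sum.elim (fun a => (X (Sum.inl a) : MvPolynomial (E ⊕ Fin 4) ℂ))
    (fun _ : Unit => gvP s (X (Sum.inr 0)) (X (Sum.inr 2)))) hB
  simp only [eval_X, map_add, map_mul, ev_al, ev_be, map_zero] at h0 h1 h2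
  refine Constructible.and h1 (Constructible.and h2 (Constructible.and h0 ?_))
  convert h3 using 3 with z
  apply mem_cgr
  funext x
  rcases x with x | x
  · simp
  · simp [ev_gv]

theorem con_BQ {Q : Set (E ⊕ Bool → ℂ)} (hQ : Constructible Q) : Constructible (BQ Q) := by
  have h3 := Constructible.preimage (Sum.elim
    (fun a => (X (Sum.inl (Sum.inl a)) : MvPolynomial ((E ⊕ Unit) ⊕ Unit) ℂ))
    (fun b : Bool => if b then X (Sum.inr ()) else X (Sum.inl (Sum.inr ())))) hQ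
  unfold BQ
  convert h3 using 3 with z
  apply mem_cgr
  funext x
  rcases x with x | x
  · simp
  · cases x <;> simp

/-- the set of `Fam2.cl2` -/
theorem con_cl2 {σ σ' : Type} {S : Set (σ → ℂ)} (hS : Constructible S) (v u : MvPolynomial σ ℂ)
    {S' : Set (σ' → ℂ)} (hS' : Constructible S') (v' u' : MvPolynomial σ' ℂ)
    {Q : Set (E ⊕ Fin 4 → ℂ)} (hQ : Constructible Q) :
    Constructible {z : E ⊕ (σ ⊕ σ') → ℂ | (fun s => z (Sum.inr (Sum.inl s))) ∈ S ∧
      (fun s => z (Sum.inr (Sum.inr s))) ∈ S' ∧ Sum.elim (fun p => z (Sum.inl p))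
      ![eval (fun s => z (Sum.inr (Sum.inl s))) v, eval (fun s => z (Sum.inr (Sum.inl s))) u,
        eval (fun s => z (Sum.inr (Sum.inr s))) v',
        eval (fun s => z (Sum.inr (Sum.inr s))) u'] ∈ Q} := by
  have h1 := Constructible.comap (fun x : σ => (Sum.inr (Sum.inl x) : E ⊕ (σ ⊕ σ'))) hS
  have h2 := Constructible.comap (fun x : σ' => (Sum.inr (Sum.inr x) : E ⊕ (σ ⊕ σ'))) hS'
  have h3 := Constructible.preimage (Sum.elim
    (fun a => (X (Sum.inl a) : MvPolynomial (E ⊕ (σ ⊕ σ')) ℂ))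
    ![rename (fun x => Sum.inr (Sum.inl x)) v, rename (fun x => Sum.inr (Sum.inl x)) u,
      rename (fun x => Sum.inr (Sum.inr x)) v', rename (fun x => Sum.inr (Sum.inr x)) u']) hQ
  refine Constructible.and h1 (Constructible.and h2 ?_)
  convert h3 using 3 with z
  apply mem_cgr
  funext x
  rcases x with x | x
  · simp
  · fin_cases x <;> simp [eval_rename, Function.comp_def]

/-- the set of `BC` -/
theorem con_BC (s : Bool) {σ σ' : Type} {S : Set (σ → ℂ)} (hS : Constructible S)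
    (v : MvPolynomial σ ℂ) {S' : Set (σ' → ℂ)} (hS' : Constructible S') (v' : MvPolynomial σ' ℂ)
    {B : Set (E ⊕ Unit → ℂ)} (hB : Constructible B) :
    Constructible {z : E ⊕ (σ ⊕ σ') → ℂ |
      (fun x => z (Sum.inr (Sum.inl x))) ∈ S ∧ (fun x => z (Sum.inr (Sum.inr x))) ∈ S' ∧
      Sum.elim (fun p => z (Sum.inl p)) (fun _ => gv s
        (eval (fun x => z (Sum.inr (Sum.inl x))) v)
        (eval (fun x => z (Sum.inr (Sum.inr x))) v')) ∈ B} := by
  have h1 := Constructible.comap (fun x : σ => (Sum.inr (Sum.inl x) : E ⊕ (σ ⊕ σ'))) hS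
  have h2 := Constructible.comap (fun x : σ' => (Sum.inr (Sum.inr x) : E ⊕ (σ ⊕ σ'))) hS'
  have h3 := Constructible.preimage (Sum.elim
    (fun a => (X (Sum.inl a) : MvPolynomial (E ⊕ (σ ⊕ σ')) ℂ))
    (fun _ : Unit => gvP s (rename (fun x => Sum.inr (Sum.inl x)) v)
      (rename (fun x => Sum.inr (Sum.inr x)) v'))) hB
  refine Constructible.and h1 (Constructible.and h2 ?_)
  convert h3 using 3 with z
  apply mem_cgr
  funext x
  rcases x with x | x
  · simp
  · simp [ev_gv, eval_rename, Function.comp_def]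

theorem con_ex {σ : Type} {H : Set (σ → ℂ)} (hH : Constructible H) :
    Constructible {z : σ ⊕ Unit → ℂ | (fun s => z (Sum.inl s)) ∈ H ∧ z (Sum.inr ()) ≠ 0} := by
  have h2 := Constructible.ne (X (Sum.inr ()) : MvPolynomial (σ ⊕ Unit) ℂ)
  simp only [eval_X] at h2
  exact Constructible.and (Constructible.comap Sum.inl hH) h2

/-! ## Swapping the factors -/

theorem cl2_swap [Finite E] (P : HodgeMeasure) (G G' : Fam2) (hG : Constructible G.S)
    (hG' : Constructible G'.S) {Q Q' : Set (E ⊕ Fin 4 → ℂ)} (hQ : Constructible Q)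
    (hQ' : Constructible Q')
    (h : ∀ (p : E → ℂ) (a b c d : ℂ), Sum.elim p ![a, b, c, d] ∈ Q ↔ Sum.elim p ![c, d, a, b] ∈ Q') :
    G.cl2 G' P Q = G'.cl2 G P Q' := by
  have i1 := G.fin
  have i2 := G'.fin
  have c1 := con_cl2 hG G.v G.u hG' G'.v G'.u hQ
  have c2 := con_cl2 hG' G'.v G'.u hG G.v G.u hQ'
  refine P.rat.val_of_inv c1 c2
    (Sum.elim (fun a => X (Sum.inl a)) (Sum.elim (fun s => X (Sum.inr (Sum.inr s)))
      (fun s => X (Sum.inr (Sum.inl s)))))
    (fun y => Sum.elim (fun a => y (Sum.inl a)) (Sum.elim (fun s => y (Sum.inr (Sum.inr s)))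
      (fun s => y (Sum.inr (Sum.inl s))))) ?_ ?_ ?_ ?_
  · rintro x ⟨h1, h2, h3⟩
    simp only [Set.mem_ofPred_eq, Sum.elim_inl, Sum.elim_inr, eval_X]
    exact ⟨h2, h1, (h _ _ _ _ _).1 h3⟩
  · rintro x ⟨h1, h2, h3⟩
    simp only [Set.mem_ofPred_eq, Sum.elim_inl, Sum.elim_inr, eval_X]
    exact ⟨h2, h1, (h _ _ _ _ _).2 h3⟩
  · rintro x -
    funext a
    rcases a with a | a | a <;> simp
  · rintro x -
    funext a
    rcases a with a | a | a <;> simp

theorem BC_swap [Finite E] (s : Bool) (P : HodgeMeasure) (G G' : Fam2) (hG : Constructible G.S)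
    (hG' : Constructible G'.S) {B : Set (E ⊕ Unit → ℂ)} (hB : Constructible B) :
    BC s P G G' B = BC s P G' G B := by
  have i1 := G.fin
  have i2 := G'.fin
  have c1 := con_BC s hG G.v hG' G'.v hB
  have c2 := con_BC s hG' G'.v hG G.v hB
  refine P.rat.val_of_inv c1 c2
    (Sum.elim (fun a => X (Sum.inl a)) (Sum.elim (fun s => X (Sum.inr (Sum.inr s)))
      (fun s => X (Sum.inr (Sum.inl s)))))
    (fun y => Sum.elim (fun a => y (Sum.inl a)) (Sum.elim (fun s => y (Sum.inr (Sum.inr s)))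
      (fun s => y (Sum.inr (Sum.inl s))))) ?_ ?_ ?_ ?_
  · rintro x ⟨h1, h2, h3⟩
    simp only [Set.mem_ofPred_eq, Sum.elim_inl, Sum.elim_inr, eval_X]
    refine ⟨h2, h1, ?_⟩
    rw [gv_comm]
    exact h3
  · rintro x ⟨h1, h2, h3⟩
    simp only [Set.mem_ofPred_eq, Sum.elim_inl, Sum.elim_inr, eval_X]
    refine ⟨h2, h1, ?_⟩
    rw [gv_comm]
    exact h3
  · rintro x -
    funext a
    rcases a with a | a | a <;> simp
  · rintro x -
    funext a
    rcases a with a | a | a <;> simp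

/-! ## The new Haar parts -/

theorem mk_ex' [Finite E] (s : Bool) (P : HodgeMeasure) {σ σ' : Type} [Finite σ] [Finite σ']
    {S : Set (σ → ℂ)} (hS : Constructible S) (v : MvPolynomial σ ℂ)
    {S' : Set (σ' → ℂ)} (hS' : Constructible S') (v' : MvPolynomial σ' ℂ)
    {Q : Set (E ⊕ Bool → ℂ)} (hQ : QOk (Xs s) true Q) :
    P.rat.val {z : E ⊕ ((σ ⊕ σ') ⊕ Unit) → ℂ | (fun x => z (Sum.inr x)) ∈
      {y : (σ ⊕ σ') ⊕ Unit → ℂ | (fun x => y (Sum.inl x)) ∈ {τ : σ ⊕ σ' → ℂ |
        (fun x => τ (Sum.inl x)) ∈ S ∧ (fun x => τ (Sum.inr x)) ∈ S' ∧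
        gv s (eval (fun x => τ (Sum.inl x)) v) (eval (fun x => τ (Sum.inr x)) v') ∈ Xs s} ∧
          y (Sum.inr ()) ≠ 0} ∧
      Sum.elim (fun p => z (Sum.inl p)) (fun b : Bool => if b then
        eval (fun x => z (Sum.inr x)) (rename Sum.inl (gvP s (rename Sum.inl v)
          (rename Sum.inr v'))) else
        eval (fun x => z (Sum.inr x)) (X (Sum.inr ()) : MvPolynomial ((σ ⊕ σ') ⊕ Unit) ℂ)) ∈ Q} =
    P.rat.val {z : (E ⊕ Unit) ⊕ (σ ⊕ σ') → ℂ |
      (fun x => z (Sum.inr (Sum.inl x))) ∈ S ∧ (fun x => z (Sum.inr (Sum.inr x))) ∈ S' ∧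
      Sum.elim (fun p => z (Sum.inl p)) (fun _ => gv s
        (eval (fun x => z (Sum.inr (Sum.inl x))) v)
        (eval (fun x => z (Sum.inr (Sum.inr x))) v')) ∈ BQ Q} := by
  have cX : Constructible {z : σ ⊕ σ' → ℂ | gv s (eval (fun x => z (Sum.inl x)) v)
      (eval (fun x => z (Sum.inr x)) v') ∈ Xs s} := by
    have h1 := Constructible.const (ι := σ ⊕ σ') (s = true)
    have h2 := Constructible.ne (gvP s (rename Sum.inl v) (rename Sum.inr v') :
      MvPolynomial (σ ⊕ σ') ℂ)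
    simp only [ev_gv, eval_rename, Function.comp_def] at h2
    exact Constructible.or h1 h2
  have c0 : Constructible {τ : σ ⊕ σ' → ℂ |
        (fun x => τ (Sum.inl x)) ∈ S ∧ (fun x => τ (Sum.inr x)) ∈ S' ∧
        gv s (eval (fun x => τ (Sum.inl x)) v) (eval (fun x => τ (Sum.inr x)) v') ∈ Xs s} :=
    Constructible.and (Constructible.comap Sum.inl hS)
      (Constructible.and (Constructible.comap Sum.inr hS') cX)
  have c1 := con_cl (con_ex c0) (rename Sum.inl (gvP s (rename Sum.inl v)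
          (rename Sum.inr v'))) (X (Sum.inr ())) hQ.1
  have c2 := con_BC s hS v hS' v' (con_BQ hQ.1)
  refine P.rat.val_of_inv c1 c2
    (Sum.elim (Sum.elim (fun a => X (Sum.inl a)) (fun _ => X (Sum.inr (Sum.inr ()))))
      (fun x => X (Sum.inr (Sum.inl x))))
    (fun y => Sum.elim (fun a => y (Sum.inl (Sum.inl a))) (Sum.elim (fun x => y (Sum.inr x))
      (fun _ => y (Sum.inl (Sum.inr ()))))) ?_ ?_ ?_ ?_
  · rintro x ⟨⟨⟨h1, h2, h3⟩, h4⟩, h5⟩
    refine ⟨?_, ?_, ?_⟩
    · simpa using h1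
    · simpa using h2
    · refine (mem_cgr (Q := Q) ?_).1 h5
      funext b
      rcases b with b | b
      · simp
      · cases b <;> simp [ev_gv, eval_rename, Function.comp_def]
  · rintro y ⟨h1, h2, h3⟩
    have h3' : Sum.elim (fun p => y (Sum.inl (Sum.inl p))) (fun b : Bool => if b then
        gv s (eval (fun x => y (Sum.inr (Sum.inl x))) v)
          (eval (fun x => y (Sum.inr (Sum.inr x))) v') else
        y (Sum.inl (Sum.inr ()))) ∈ Q := h3
    have h4 := hQ.2 _ h3'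
    simp only [Sum.elim_inr, if_true, Bool.false_eq_true, if_false, true_imp_iff] at h4
    refine ⟨⟨⟨?_, ?_, ?_⟩, ?_⟩, ?_⟩
    · simpa using h1
    · simpa using h2
    · simpa using h4.1
    · simpa using h4.2
    · refine (mem_cgr ?_).1 h3'
      funext b
      rcases b with b | b
      · simp
      · cases b <;> simp [ev_gv, eval_rename, Function.comp_def]
  · rintro x -
    funext a
    rcases a with a | a | a <;> simp
  · rintro x -
    funext a
    rcases a with (a | a) | a <;> simp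

theorem mk_ex [Finite E] (s : Bool) (P : HodgeMeasure) (G G' : Fam2) (a : K)
    (hG : Constructible G.S) (hG' : Constructible G'.S) {Q : Set (E ⊕ Bool → ℂ)}
    (hQ : QOk (Xs s) true Q) : (mkHT s G G' a).ex.cl P Q = BC s P G G' (BQ Q) := by
  have i1 := G.fin
  have i2 := G'.fin
  exact mk_ex' s P hG G.v hG' G'.v hQ

theorem mk_tl' [Finite E] (s : Bool) (P : HodgeMeasure) {σ σ' : Type} [Finite σ] [Finite σ']
    (S : Set (σ → ℂ)) (v : MvPolynomial σ ℂ) (S' : Set (σ' → ℂ)) (v' : MvPolynomial σ' ℂ)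
    {Q : Set (E ⊕ Bool → ℂ)} (hQ : QOk (Xs s) false Q) :
    P.rat.val {z : E ⊕ (σ ⊕ σ') → ℂ | (fun x => z (Sum.inr x)) ∈
      {τ : σ ⊕ σ' → ℂ | (fun x => τ (Sum.inl x)) ∈ S ∧ (fun x => τ (Sum.inr x)) ∈ S' ∧
        gv s (eval (fun x => τ (Sum.inl x)) v) (eval (fun x => τ (Sum.inr x)) v') ∈ Xs s} ∧
      Sum.elim (fun p => z (Sum.inl p)) (fun b : Bool => if b then
        eval (fun x => z (Sum.inr x)) (gvP s (rename Sum.inl v) (rename Sum.inr v')) else
        eval (fun x => z (Sum.inr x)) (0 : MvPolynomial (σ ⊕ σ') ℂ)) ∈ Q} =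
    P.rat.val {z : E ⊕ (σ ⊕ σ') → ℂ |
      (fun x => z (Sum.inr (Sum.inl x))) ∈ S ∧ (fun x => z (Sum.inr (Sum.inr x))) ∈ S' ∧
      Sum.elim (fun p => z (Sum.inl p)) (fun _ => gv s
        (eval (fun x => z (Sum.inr (Sum.inl x))) v)
        (eval (fun x => z (Sum.inr (Sum.inr x))) v')) ∈ BT Q} := by
  congr 1
  ext z
  constructor
  · rintro ⟨⟨h1, h2, h3⟩, h5⟩
    refine ⟨h1, h2, (mem_cgr (Q := Q) ?_).1 h5⟩
    funext b
    rcases b with b | b
    · simp
    · cases b <;> simp [ev_gv, eval_rename, Function.comp_def]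
  · rintro ⟨h1, h2, h3⟩
    have h3' : Sum.elim (fun p => z (Sum.inl p)) (fun b : Bool => if b then
        gv s (eval (fun x => z (Sum.inr (Sum.inl x))) v)
          (eval (fun x => z (Sum.inr (Sum.inr x))) v') else 0) ∈ Q := h3
    have h4 := hQ.2 _ h3'
    simp only [Sum.elim_inr, if_true] at h4
    refine ⟨⟨h1, h2, h4.1⟩, (mem_cgr ?_).1 h3'⟩
    funext b
    rcases b with b | b
    · simp
    · cases b <;> simp [ev_gv, eval_rename, Function.comp_def]

theorem mk_tl [Finite E] (s : Bool) (P : HodgeMeasure) (G G' : Fam2) (a : K)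
    {Q : Set (E ⊕ Bool → ℂ)}
    (hQ : QOk (Xs s) false Q) : (mkHT s G G' a).tl.cl P Q = BC s P G G' (BT Q) := by
  have i1 := G.fin
  have i2 := G'.fin
  exact mk_tl' s P G.S G.v G'.S G'.v hQ

/-! ## Haar part on the left -/

/-- the set of `cl2` with a Haar part on the left (exact) -/
def LS {σ σ' : Type} (H : Set (σ → ℂ)) (v : MvPolynomial σ ℂ) (S' : Set (σ' → ℂ))
    (v' u' : MvPolynomial σ' ℂ) (Q : Set (E ⊕ Fin 4 → ℂ)) : Set (E ⊕ ((σ ⊕ Unit) ⊕ σ') → ℂ) :=
  {z | (fun x => z (Sum.inr (Sum.inl x))) ∈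
      {y : σ ⊕ Unit → ℂ | (fun x => y (Sum.inl x)) ∈ H ∧ y (Sum.inr ()) ≠ 0} ∧
    (fun x => z (Sum.inr (Sum.inr x))) ∈ S' ∧ Sum.elim (fun p => z (Sum.inl p))
      ![eval (fun x => z (Sum.inr (Sum.inl x))) (rename Sum.inl v),
        eval (fun x => z (Sum.inr (Sum.inl x))) (X (Sum.inr ())),
        eval (fun x => z (Sum.inr (Sum.inr x))) v',
        eval (fun x => z (Sum.inr (Sum.inr x))) u'] ∈ Q}

/-- the set of `BC` -/
def BS (s : Bool) {σ σ' : Type} (H : Set (σ → ℂ)) (v : MvPolynomial σ ℂ) (S' : Set (σ' → ℂ))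
    (v' : MvPolynomial σ' ℂ) (B : Set (E ⊕ Unit → ℂ)) : Set (E ⊕ (σ ⊕ σ') → ℂ) :=
  {z | (fun x => z (Sum.inr (Sum.inl x))) ∈ H ∧ (fun x => z (Sum.inr (Sum.inr x))) ∈ S' ∧
    Sum.elim (fun p => z (Sum.inl p)) (fun _ => gv s
        (eval (fun x => z (Sum.inr (Sum.inl x))) v)
        (eval (fun x => z (Sum.inr (Sum.inr x))) v')) ∈ B}

theorem mem_LS {σ σ' : Type} {H : Set (σ → ℂ)} {v : MvPolynomial σ ℂ} {S' : Set (σ' → ℂ)}
    {v' u' : MvPolynomial σ' ℂ} {Q : Set (E ⊕ Fin 4 → ℂ)} {z : E ⊕ ((σ ⊕ Unit) ⊕ σ') → ℂ} :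
    z ∈ LS H v S' v' u' Q ↔ (fun x => z (Sum.inr (Sum.inl (Sum.inl x)))) ∈ H ∧
      z (Sum.inr (Sum.inl (Sum.inr ()))) ≠ 0 ∧ (fun x => z (Sum.inr (Sum.inr x))) ∈ S' ∧
      Sum.elim (fun p => z (Sum.inl p))
      ![eval (fun x => z (Sum.inr (Sum.inl (Sum.inl x)))) v, z (Sum.inr (Sum.inl (Sum.inr ()))),
        eval (fun x => z (Sum.inr (Sum.inr x))) v',
        eval (fun x => z (Sum.inr (Sum.inr x))) u'] ∈ Q := by
  unfold LS
  simp only [Set.mem_ofPred_eq, eval_rename, Function.comp_def, eval_X]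
  tauto

theorem mem_BSQ {s : Bool} {σ σ' : Type} {H : Set (σ → ℂ)} {v : MvPolynomial σ ℂ}
    {S' : Set (σ' → ℂ)} {v' : MvPolynomial σ' ℂ} {Q : Set (E ⊕ Bool → ℂ)}
    {z : (E ⊕ Unit) ⊕ (σ ⊕ σ') → ℂ} :
    z ∈ BS s H v S' v' (BQ Q) ↔ (fun x => z (Sum.inr (Sum.inl x))) ∈ H ∧
      (fun x => z (Sum.inr (Sum.inr x))) ∈ S' ∧
      Sum.elim (fun p => z (Sum.inl (Sum.inl p))) (fun b : Bool => if b then
        gv s (eval (fun x => z (Sum.inr (Sum.inl x))) v)
          (eval (fun x => z (Sum.inr (Sum.inr x))) v') else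
        z (Sum.inl (Sum.inr ()))) ∈ Q := Iff.rfl

section

variable {σ σ' : Type} [Finite σ] [Finite σ'] [Finite E] {s : Bool} {H : Set (σ → ℂ)}
  {v : MvPolynomial σ ℂ} {S' : Set (σ' → ℂ)} {v' u' : MvPolynomial σ' ℂ}

theorem ls_Q1 (P : HodgeMeasure)
    (hH : Constructible H) (hS' : Constructible S') {Q : Set (E ⊕ Bool → ℂ)}
    (hQ : QOk (Xs s) true Q) :
    P.rat.val (LS H v S' v' u' (Q1 s Q)) = P.rat.val (BS s H v S' v' (BQ Q)) := by
  have c1 : Constructible (LS H v S' v' u' (Q1 s Q)) :=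
    con_cl2 (con_ex hH) (rename Sum.inl v) (X (Sum.inr ())) hS' v' u' (con_Q1 s hQ.1)
  have c2 : Constructible (BS s H v S' v' (BQ Q)) := con_BC s hH v hS' v' (con_BQ hQ.1)
  refine P.rat.val_of_inv c1 c2
    (Sum.elim (Sum.elim (fun a => X (Sum.inl a)) (fun _ =>
      alP s (rename (fun x => Sum.inr (Sum.inl (Sum.inl x))) v)
        (rename (fun x => Sum.inr (Sum.inr x)) v') * X (Sum.inr (Sum.inl (Sum.inr ())))))
      (Sum.elim (fun x => X (Sum.inr (Sum.inl (Sum.inl x)))) (fun x => X (Sum.inr (Sum.inr x)))))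
    (fun y => Sum.elim (fun a => y (Sum.inl (Sum.inl a))) (Sum.elim
      (Sum.elim (fun x => y (Sum.inr (Sum.inl x))) (fun _ => y (Sum.inl (Sum.inr ())) /
        al s (eval (fun x => y (Sum.inr (Sum.inl x))) v)
          (eval (fun x => y (Sum.inr (Sum.inr x))) v')))
      (fun x => y (Sum.inr (Sum.inr x))))) ?_ ?_ ?_ ?_
  · intro x hx
    obtain ⟨h1, h2, h3, h4, h5⟩ := mem_LS.1 hx
    refine mem_BSQ.2 ⟨?_, ?_, ?_⟩
    · simpa using h1
    · simpa using h3
    · refine (mem_cgr (Q := Q) ?_).1 h5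
      funext b
      rcases b with b | b
      · simp
      · cases b <;> simp [ev_al, eval_rename, Function.comp_def]
  · intro y hy
    obtain ⟨h1, h2, h3⟩ := mem_BSQ.1 hy
    have h4 := hQ.2 _ h3
    simp only [Sum.elim_inr, if_true, Bool.false_eq_true, if_false, true_imp_iff] at h4
    have h5 := al_ne h4.1
    have h6 := h4.2
    refine mem_LS.2 ⟨?_, ?_, ?_, ?_, ?_⟩
    · simpa using h1
    · simpa using ⟨h6, h5⟩
    · simpa using h2
    · simpa using ⟨h6, h5⟩
    · refine (mem_cgr (Q := Q) ?_).1 h3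
      funext b
      rcases b with b | b
      · simp
      · cases b
        · simp [mul_div_cancel₀ _ h5]
        · simp
  · intro x hx
    obtain ⟨h1, h2, h3, h4, h5⟩ := mem_LS.1 hx
    have h6 := hQ.2 _ h5
    simp only [Sum.elim_inr, if_true, Bool.false_eq_true, if_false] at h6
    have h7 := al_ne h6.1
    funext a
    rcases a with a | (a | a) | a
    · simp
    · simp
    · simp only [Sum.elim_inr, Sum.elim_inl, eval_X, map_mul, ev_al, eval_rename,
        Function.comp_def]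
      exact mul_div_cancel_left₀ _ h7
    · simp
  · intro y hy
    obtain ⟨h1, h2, h3⟩ := mem_BSQ.1 hy
    have h4 := hQ.2 _ h3
    simp only [Sum.elim_inr, if_true, Bool.false_eq_true, if_false, true_imp_iff] at h4
    have h5 := al_ne h4.1
    funext a
    rcases a with (a | a) | a | a
    · simp
    · simp only [Sum.elim_inr, Sum.elim_inl, eval_X, map_mul, ev_al, eval_rename,
        Function.comp_def]
      exact mul_div_cancel₀ _ h5
    · simp
    · simp

/-- the graph `q = be u'` and its complement -/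
theorem con_gr (hH : Constructible H) (hS' : Constructible S') {Q : Set (E ⊕ Bool → ℂ)}
    (hQ : Constructible Q) :
    Constructible {y : (E ⊕ Unit) ⊕ (σ ⊕ σ') → ℂ | y ∈ BS s H v S' v' (BQ Q) ∧
      y (Sum.inl (Sum.inr ())) = be s (eval (fun x => y (Sum.inr (Sum.inl x))) v)
        (eval (fun x => y (Sum.inr (Sum.inr x))) v') *
          eval (fun x => y (Sum.inr (Sum.inr x))) u'} ∧
    Constructible {y : (E ⊕ Unit) ⊕ (σ ⊕ σ') → ℂ | y ∈ BS s H v S' v' (BQ Q) ∧
      ¬ y (Sum.inl (Sum.inr ())) = be s (eval (fun x => y (Sum.inr (Sum.inl x))) v)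
        (eval (fun x => y (Sum.inr (Sum.inr x))) v') *
          eval (fun x => y (Sum.inr (Sum.inr x))) u'} := by
  have c2 : Constructible (BS s H v S' v' (BQ Q)) := con_BC s hH v hS' v' (con_BQ hQ)
  have c3 := Constructible.eq (X (Sum.inl (Sum.inr ())) : MvPolynomial ((E ⊕ Unit) ⊕ (σ ⊕ σ')) ℂ)
    (beP s (rename (fun x => Sum.inr (Sum.inl x)) v) (rename (fun x => Sum.inr (Sum.inr x)) v') *
      rename (fun x => Sum.inr (Sum.inr x)) u')
  simp only [eval_X, map_mul, ev_be, eval_rename, Function.comp_def] at c3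
  exact ⟨Constructible.and c2 c3, Constructible.and c2 (Constructible.not c3)⟩

/-- the set of `cl2` with a Haar part on the left (tail) -/
def LT {σ σ' : Type} (H : Set (σ → ℂ)) (v : MvPolynomial σ ℂ) (S' : Set (σ' → ℂ))
    (v' u' : MvPolynomial σ' ℂ) (Q : Set (E ⊕ Fin 4 → ℂ)) : Set (E ⊕ (σ ⊕ σ') → ℂ) :=
  {z | (fun x => z (Sum.inr (Sum.inl x))) ∈ H ∧
    (fun x => z (Sum.inr (Sum.inr x))) ∈ S' ∧ Sum.elim (fun p => z (Sum.inl p))
      ![eval (fun x => z (Sum.inr (Sum.inl x))) v,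
        eval (fun x => z (Sum.inr (Sum.inl x))) (0 : MvPolynomial σ ℂ),
        eval (fun x => z (Sum.inr (Sum.inr x))) v',
        eval (fun x => z (Sum.inr (Sum.inr x))) u'] ∈ Q}

theorem lt_Q2 (P : HodgeMeasure)
    (hH : Constructible H) (hS' : Constructible S') (hu : ∀ τ ∈ S', eval τ u' ≠ 0)
    {Q : Set (E ⊕ Bool → ℂ)} (hQ : QOk (Xs s) true Q) :
    P.rat.val (LT H v S' v' u' (Q2 s Q)) =
      P.rat.val {y : (E ⊕ Unit) ⊕ (σ ⊕ σ') → ℂ | y ∈ BS s H v S' v' (BQ Q) ∧
      y (Sum.inl (Sum.inr ())) = be s (eval (fun x => y (Sum.inr (Sum.inl x))) v)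
        (eval (fun x => y (Sum.inr (Sum.inr x))) v') *
          eval (fun x => y (Sum.inr (Sum.inr x))) u'} := by
  have c1 : Constructible (LT H v S' v' u' (Q2 s Q)) :=
    con_cl2 hH v 0 hS' v' u' (con_Q2 s hQ.1)
  have c2 := (con_gr (u' := u') (v := v) (v' := v') (s := s) hH hS' hQ.1).1
  refine P.rat.val_of_inv c1 c2
    (Sum.elim (Sum.elim (fun a => X (Sum.inl a)) (fun _ =>
      beP s (rename (fun x => Sum.inr (Sum.inl x)) v)
        (rename (fun x => Sum.inr (Sum.inr x)) v') * rename (fun x => Sum.inr (Sum.inr x)) u'))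
      (fun x => X (Sum.inr x)))
    (fun y => Sum.elim (fun a => y (Sum.inl (Sum.inl a))) (fun x => y (Sum.inr x))) ?_ ?_ ?_ ?_
  · rintro x ⟨h1, h3, h4, h5⟩
    refine ⟨mem_BSQ.2 ⟨?_, ?_, ?_⟩, ?_⟩
    · simpa using h1
    · simpa using h3
    · refine (mem_cgr (Q := Q) ?_).1 h5
      funext b
      rcases b with b | b
      · simp
      · cases b <;> simp [ev_be, eval_rename, Function.comp_def]
    · simp [ev_be, eval_rename, Function.comp_def]
  · rintro y ⟨hy, hq⟩
    obtain ⟨h1, h2, h3⟩ := mem_BSQ.1 hy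
    refine ⟨h1, h2, hu _ h2, ?_⟩
    refine (mem_cgr (Q := Q) ?_).1 h3
    funext b
    rcases b with b | b
    · simp
    · cases b
      · simp [hq]
      · simp
  · rintro x -
    funext a
    rcases a with a | a <;> simp
  · rintro y ⟨hy, hq⟩
    funext a
    rcases a with (a | a) | a
    · simp
    · simp [ev_be, eval_rename, Function.comp_def, hq]
    · simp

theorem ls_Q3 (P : HodgeMeasure)
    (hH : Constructible H) (hS' : Constructible S') (hu : ∀ τ ∈ S', eval τ u' ≠ 0)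
    {Q : Set (E ⊕ Bool → ℂ)} (hQ : QOk (Xs s) true Q) :
    P.rat.val (LS H v S' v' u' (Q3 s Q)) =
      P.rat.val {y : (E ⊕ Unit) ⊕ (σ ⊕ σ') → ℂ | y ∈ BS s H v S' v' (BQ Q) ∧
      ¬ y (Sum.inl (Sum.inr ())) = be s (eval (fun x => y (Sum.inr (Sum.inl x))) v)
        (eval (fun x => y (Sum.inr (Sum.inr x))) v') *
          eval (fun x => y (Sum.inr (Sum.inr x))) u'} := by
  have c1 : Constructible (LS H v S' v' u' (Q3 s Q)) :=
    con_cl2 (con_ex hH) (rename Sum.inl v) (X (Sum.inr ())) hS' v' u' (con_Q3 s hQ.1)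
  have c2 := (con_gr (u' := u') (v := v) (v' := v') (s := s) hH hS' hQ.1).2
  refine P.rat.val_of_inv c1 c2
    (Sum.elim (Sum.elim (fun a => X (Sum.inl a)) (fun _ =>
      alP s (rename (fun x => Sum.inr (Sum.inl (Sum.inl x))) v)
        (rename (fun x => Sum.inr (Sum.inr x)) v') * X (Sum.inr (Sum.inl (Sum.inr ()))) +
      beP s (rename (fun x => Sum.inr (Sum.inl (Sum.inl x))) v)
        (rename (fun x => Sum.inr (Sum.inr x)) v') * rename (fun x => Sum.inr (Sum.inr x)) u'))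
      (Sum.elim (fun x => X (Sum.inr (Sum.inl (Sum.inl x)))) (fun x => X (Sum.inr (Sum.inr x)))))
    (fun y => Sum.elim (fun a => y (Sum.inl (Sum.inl a))) (Sum.elim
      (Sum.elim (fun x => y (Sum.inr (Sum.inl x))) (fun _ => (y (Sum.inl (Sum.inr ())) -
        be s (eval (fun x => y (Sum.inr (Sum.inl x))) v)
          (eval (fun x => y (Sum.inr (Sum.inr x))) v') *
            eval (fun x => y (Sum.inr (Sum.inr x))) u') /
        al s (eval (fun x => y (Sum.inr (Sum.inl x))) v)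
          (eval (fun x => y (Sum.inr (Sum.inr x))) v')))
      (fun x => y (Sum.inr (Sum.inr x))))) ?_ ?_ ?_ ?_
  · intro x hx
    obtain ⟨h1, h2, h3, h4, h4', h5⟩ := mem_LS.1 hx
    have h6 := hQ.2 _ h5
    simp only [Sum.elim_inr, if_true, Bool.false_eq_true, if_false] at h6
    have h7 := al_ne h6.1
    refine ⟨mem_BSQ.2 ⟨?_, ?_, ?_⟩, ?_⟩
    · simpa using h1
    · simpa using h3
    · refine (mem_cgr (Q := Q) ?_).1 h5
      funext b
      rcases b with b | b
      · simp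
      · cases b <;> simp [ev_al, ev_be, eval_rename, Function.comp_def]
    · simp only [Sum.elim_inr, Sum.elim_inl, eval_X, map_mul, map_add, ev_al, ev_be, eval_rename,
        Function.comp_def]
      intro h
      have h8 := add_eq_right.1 h
      rcases mul_eq_zero.1 h8 with h8 | h8
      · exact h7 h8
      · exact h2 h8
  · rintro y ⟨hy, hq⟩
    obtain ⟨h1, h2, h3⟩ := mem_BSQ.1 hy
    have h4 := hQ.2 _ h3
    simp only [Sum.elim_inr, if_true, Bool.false_eq_true, if_false, true_imp_iff] at h4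
    have h5 := al_ne h4.1
    have h6 := div_ne_zero (sub_ne_zero.2 hq) h5
    refine mem_LS.2 ⟨?_, ?_, ?_, ?_, ?_, ?_⟩
    · simpa using h1
    · simpa only [Sum.elim_inr, Sum.elim_inl] using h6
    · simpa using h2
    · exact h6
    · simpa using hu _ h2
    · refine (mem_cgr (Q := Q) ?_).1 h3
      funext b
      rcases b with b | b
      · simp
      · cases b
        · simp [mul_div_cancel₀ _ h5]
        · simp
  · intro x hx
    obtain ⟨h1, h2, h3, h4, h4', h5⟩ := mem_LS.1 hx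
    have h6 := hQ.2 _ h5
    simp only [Sum.elim_inr, if_true, Bool.false_eq_true, if_false] at h6
    have h7 := al_ne h6.1
    funext a
    rcases a with a | (a | a) | a
    · simp
    · simp
    · simp only [Sum.elim_inr, Sum.elim_inl, eval_X, map_mul, map_add, ev_al, ev_be, eval_rename,
        Function.comp_def, add_sub_cancel_right]
      exact mul_div_cancel_left₀ _ h7
    · simp
  · rintro y ⟨hy, hq⟩
    obtain ⟨h1, h2, h3⟩ := mem_BSQ.1 hy
    have h4 := hQ.2 _ h3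
    simp only [Sum.elim_inr, if_true, Bool.false_eq_true, if_false, true_imp_iff] at h4
    have h5 := al_ne h4.1
    funext a
    rcases a with (a | a) | a | a
    · simp
    · simp only [Sum.elim_inr, Sum.elim_inl, eval_X, map_mul, map_add, ev_al, ev_be, eval_rename,
        Function.comp_def]
      rw [mul_div_cancel₀ _ h5, sub_add_cancel]
    · simp
    · simp

theorem ls_QC (P : HodgeMeasure)
    (hH : Constructible H) (hS' : Constructible S') (hu : ∀ τ ∈ S', eval τ u' ≠ 0)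
    {B : Set (E ⊕ Unit → ℂ)} (hB : Constructible B) (hX : ∀ w ∈ B, w (Sum.inr ()) ∈ Xs s) :
    P.rat.val (LS H v S' v' u' (QC s B)) = P.rat.val (BS s H v S' v' B) := by
  have c1 : Constructible (LS H v S' v' u' (QC s B)) :=
    con_cl2 (con_ex hH) (rename Sum.inl v) (X (Sum.inr ())) hS' v' u' (con_QC s hB)
  have c2 : Constructible (BS s H v S' v' B) := con_BC s hH v hS' v' hB
  refine P.rat.val_of_inv c1 c2
    (Sum.elim (fun a => X (Sum.inl a)) (Sum.elim (fun x => X (Sum.inr (Sum.inl (Sum.inl x))))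
      (fun x => X (Sum.inr (Sum.inr x)))))
    (fun y => Sum.elim (fun a => y (Sum.inl a)) (Sum.elim
      (Sum.elim (fun x => y (Sum.inr (Sum.inl x))) (fun _ => -(
        be s (eval (fun x => y (Sum.inr (Sum.inl x))) v)
          (eval (fun x => y (Sum.inr (Sum.inr x))) v') *
            eval (fun x => y (Sum.inr (Sum.inr x))) u') /
        al s (eval (fun x => y (Sum.inr (Sum.inl x))) v)
          (eval (fun x => y (Sum.inr (Sum.inr x))) v')))
      (fun x => y (Sum.inr (Sum.inr x))))) ?_ ?_ ?_ ?_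
  · intro x hx
    obtain ⟨h1, h2, h3, h4, h4', h4'', h5⟩ := mem_LS.1 hx
    refine ⟨?_, ?_, ?_⟩
    · simpa using h1
    · simpa using h3
    · refine (mem_cgr (Q := B) ?_).1 h5
      funext b
      rcases b with b | b
      · simp
      · simp
  · rintro y ⟨h1, h2, h3⟩
    have h4 := hX _ h3
    simp only [Sum.elim_inr] at h4
    have h5 := al_ne h4
    have h5' := be_ne h4
    have h6 := div_ne_zero (neg_ne_zero.2 (mul_ne_zero h5' (hu _ h2))) h5
    refine mem_LS.2 ⟨?_, ?_, ?_, ?_, ?_, ?_, ?_⟩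
    · simpa using h1
    · simpa only [Sum.elim_inr, Sum.elim_inl] using h6
    · simpa using h2
    · exact h6
    · simpa using hu _ h2
    · simp [mul_div_cancel₀ _ h5]
    · refine (mem_cgr (Q := B) ?_).1 h3
      funext b
      rcases b with b | b
      · simp
      · simp
  · intro x hx
    obtain ⟨h1, h2, h3, h4, h4', h4'', h5⟩ := mem_LS.1 hx
    have h6 := hX _ h5
    simp only [Sum.elim_inr] at h6
    have h7 := al_ne h6
    simp only [Sum.elim_inr] at h4''
    funext a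
    rcases a with a | (a | a) | a
    · simp
    · simp
    · simp only [Sum.elim_inr, Sum.elim_inl, eval_X]
      have h8 := eq_neg_of_add_eq_zero_left h4''
      exact (div_eq_iff h7).2 (h8.symm.trans (mul_comm _ _))
    · simp
  · rintro y ⟨h1, h2, h3⟩
    funext a
    rcases a with a | a | a
    · simp
    · simp
    · simp

end

end

/-! ## The statements for pairs with a Haar part on the left -/

section

variable {E : Type} [Finite E] (P : HodgeMeasure) {s : Bool}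

theorem left_Q1 {h : HT} {G' : Fam2} (hH : Constructible h.H) (hG' : Constructible G'.S)
    {Q : Set (E ⊕ Bool → ℂ)} (hQ : QOk (Xs s) true Q) :
    h.ex.cl2 G' P (Q1 s Q) = BC s P h.tl G' (BQ Q) := by
  have i1 := h.fin
  have i2 := G'.fin
  exact ls_Q1 P hH hG' hQ

theorem left_Q3 {h : HT} {G' : Fam2} (hH : Constructible h.H) (hG' : ExOk G')
    {Q : Set (E ⊕ Bool → ℂ)} (hQ : QOk (Xs s) true Q) :
    h.tl.cl2 G' P (Q2 s Q) + h.ex.cl2 G' P (Q3 s Q) = BC s P h.tl G' (BQ Q) := by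
  have i1 := h.fin
  have i2 := G'.fin
  have e1 : h.tl.cl2 G' P (Q2 s Q) = _ := lt_Q2 (v := h.v) (v' := G'.v) P hH hG'.1 hG'.2 hQ
  have e2 : h.ex.cl2 G' P (Q3 s Q) = _ := ls_Q3 (v := h.v) (v' := G'.v) P hH hG'.1 hG'.2 hQ
  have c := con_gr (u' := G'.u) (v := h.v) (v' := G'.v) (s := s) hH hG'.1 hQ.1
  rw [e1, e2, ← P.rat.union _ _ c.1 c.2]
  · have e3 : BC s P h.tl G' (BQ Q) = P.rat.val (BS s h.H h.v G'.S G'.v (BQ Q)) := rfl
    rw [e3]
    congr 1
    ext y
    constructor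
    · rintro (hy | hy)
      · exact hy.1
      · exact hy.1
    · intro hy
      by_cases hq : y (Sum.inl (Sum.inr ())) = be s (eval (fun x => y (Sum.inr (Sum.inl x))) h.v)
        (eval (fun x => y (Sum.inr (Sum.inr x))) G'.v) *
          eval (fun x => y (Sum.inr (Sum.inr x))) G'.u
      · exact Or.inl ⟨hy, hq⟩
      · exact Or.inr ⟨hy, hq⟩
  · rw [Set.disjoint_left]
    rintro y hy hy'
    exact hy'.2 hy.2

theorem left_QC {h : HT} {G' : Fam2} (hH : Constructible h.H) (hG' : ExOk G')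
    {B : Set (E ⊕ Unit → ℂ)} (hB : Constructible B) (hX : ∀ w ∈ B, w (Sum.inr ()) ∈ Xs s) :
    h.ex.cl2 G' P (QC s B) = BC s P h.tl G' B := by
  have i1 := h.fin
  have i2 := G'.fin
  exact ls_QC P hH hG'.1 hG'.2 hB hX

/-! ## Haar part on the right -/

theorem swap_Q1 (p : E → ℂ) (a b c d : ℂ) {Q : Set (E ⊕ Bool → ℂ)} :
    Sum.elim p ![a, b, c, d] ∈ Q2 s Q ↔ Sum.elim p ![c, d, a, b] ∈ Q1 s Q := by
  have e : Sum.elim p ![a, b, c, d] ∈ Q2 s Q ↔ d ≠ 0 ∧ Sum.elim p (fun t : Bool => if t then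
    gv s a c else be s a c * d) ∈ Q := Iff.rfl
  have e' : Sum.elim p ![c, d, a, b] ∈ Q1 s Q ↔ d ≠ 0 ∧ Sum.elim p (fun t : Bool => if t then
    gv s c a else al s c a * d) ∈ Q := Iff.rfl
  rw [e, e', gv_comm, al_comm]

theorem swap_Q3 (p : E → ℂ) (a b c d : ℂ) {Q : Set (E ⊕ Bool → ℂ)} :
    Sum.elim p ![a, b, c, d] ∈ Q3 s Q ↔ Sum.elim p ![c, d, a, b] ∈ Q3 s Q := by
  have e : Sum.elim p ![a, b, c, d] ∈ Q3 s Q ↔ b ≠ 0 ∧ d ≠ 0 ∧
    Sum.elim p (fun t : Bool => if t then
    gv s a c else al s a c * b + be s a c * d) ∈ Q := Iff.rfl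
  have e' : Sum.elim p ![c, d, a, b] ∈ Q3 s Q ↔ d ≠ 0 ∧ b ≠ 0 ∧
    Sum.elim p (fun t : Bool => if t then
    gv s c a else al s c a * d + be s c a * b) ∈ Q := Iff.rfl
  rw [e, e', gv_comm, al_comm, al_comm, add_comm]
  tauto

theorem swap_QC (p : E → ℂ) (a b c d : ℂ) {B : Set (E ⊕ Unit → ℂ)} :
    Sum.elim p ![a, b, c, d] ∈ QC s B ↔ Sum.elim p ![c, d, a, b] ∈ QC s B := by
  have e : Sum.elim p ![a, b, c, d] ∈ QC s B ↔ b ≠ 0 ∧ d ≠ 0 ∧
    al s a c * b + be s a c * d = 0 ∧ Sum.elim p (fun _ => gv s a c) ∈ B := Iff.rfl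
  have e' : Sum.elim p ![c, d, a, b] ∈ QC s B ↔ d ≠ 0 ∧ b ≠ 0 ∧
    al s c a * d + be s c a * b = 0 ∧ Sum.elim p (fun _ => gv s c a) ∈ B := Iff.rfl
  rw [e, e', gv_comm, al_comm, al_comm, add_comm]
  tauto

theorem con_hex {h : HT} (hH : Constructible h.H) : Constructible h.ex.S := con_ex hH

end

end TG5C

open TG5C TG5Aux in
theorem stmt_TG5C : Stmt_TG5C := by
  intro s P
  refine ⟨?_, ?_, ?_, ?_, ?_, ?_, ?_⟩
  · intro G G' a hG hG' E _ Q
    exact ⟨fun hQ => mk_ex s P G G' a hG hG' hQ, fun hQ => mk_tl s P G G' a hQ⟩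
  · intro h G' hH hG' E _ Q hQ
    exact left_Q1 P hH hG' hQ
  · intro h G' hH hG' E _ Q hQ
    exact left_Q3 P hH hG' hQ
  · intro h G' hH hG' E _ B hB hX
    exact left_QC P hH hG' hB hX
  · intro G h hG hH E _ Q hQ
    rw [cl2_swap P G h.ex hG (con_hex hH) (con_Q2 s hQ.1) (con_Q1 s hQ.1)
      fun p a b c d => swap_Q1 p a b c d, left_Q1 P hH hG hQ]
    exact BC_swap s P h.tl G hH hG (con_BQ hQ.1)
  · intro G h hG hH E _ Q hQ
    rw [cl2_swap P G h.ex hG.1 (con_hex hH) (con_Q3 s hQ.1) (con_Q3 s hQ.1)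
      fun p a b c d => swap_Q3 p a b c d,
      cl2_swap P G h.tl hG.1 hH (con_Q1 s hQ.1) (con_Q2 s hQ.1)
      fun p a b c d => (swap_Q1 p c d a b).symm, left_Q3 P hH hG hQ]
    exact BC_swap s P h.tl G hH hG.1 (con_BQ hQ.1)
  · intro G h hG hH E _ B hB hX
    rw [cl2_swap P G h.ex hG.1 (con_hex hH) (con_QC s hB) (con_QC s hB)
      fun p a b c d => swap_QC p a b c d, left_QC P hH hG hB hX]
    exact BC_swap s P h.tl G hH hG.1 hB

end Pool.Agent.Mono.RO
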