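import Pool.Agent.Work.Monodromy5.VGC

/-!
# Block U5: prescribed coefficients of `f(x)` relative to a cylinder in further arcs
-/

set_option autoImplicit false
set_option linter.unusedSectionVars false

namespace Pool.Agent.Mono.RO

open MvPolynomial TS

namespace U5Aux

open VGAux

section

variable {E ι κ : Type} [Fintype ι] [Fintype κ]

/-- the jets of the arcs `y` as parameters -/
def jt (N : ℕ) (S : Set ((E → ℂ) × (ι ⊕ κ → PowerSeries ℂ))) :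
    Set ((E ⊕ (Σ _ : κ, Fin N) → ℂ) × (ι → PowerSeries ℂ)) :=
  {z | ((fun p => z.1 (Sum.inl p)),
    Sum.elim z.2 (toArc (fun _ => N) fun s => z.1 (Sum.inr s))) ∈ S}

/-- the equivalence of the index sets -/
def eqv (E ι κ : Type) (N : ℕ) :
    (E ⊕ (Σ _ : κ, Fin N)) ⊕ (Σ _ : ι, Fin N) ≃ E ⊕ (Σ _ : ι ⊕ κ, Fin N) where
  toFun := Sum.elim (Sum.elim Sum.inl fun s => Sum.inr ⟨Sum.inr s.1, s.2⟩)
    fun s => Sum.inr ⟨Sum.inl s.1, s.2⟩
  invFun := Sum.elim (fun p => Sum.inl (Sum.inl p)) fun s => match s with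
    | ⟨Sum.inl a, l⟩ => Sum.inr ⟨a, l⟩
    | ⟨Sum.inr a, l⟩ => Sum.inl (Sum.inr ⟨a, l⟩)
  left_inv := by rintro ((p | s) | s) <;> rfl
  right_inv := by rintro (p | ⟨a | a, l⟩) <;> rfl

theorem sec_jt (N : ℕ) (S : Set ((E → ℂ) × (ι ⊕ κ → PowerSeries ℂ))) :
    sec (fun _ => N) (jt N S) =
      {v : (E ⊕ (Σ _ : κ, Fin N)) ⊕ (Σ _ : ι, Fin N) → ℂ |
        (fun s => v ((eqv E ι κ N).symm s)) ∈ sec (fun _ => N) S} := by
  ext v
  change ((fun p => v (Sum.inl (Sum.inl p))), Sum.elim (toArc (fun _ => N) fun s => v (Sum.inr s))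
    (toArc (fun _ => N) fun s => v (Sum.inl (Sum.inr s)))) ∈ S ↔
    ((fun p => v ((eqv E ι κ N).symm (Sum.inl p))),
      toArc (fun _ => N) fun s => v ((eqv E ι κ N).symm (Sum.inr s))) ∈ S
  have e : (Sum.elim (toArc (fun _ => N) fun s => v (Sum.inr s))
    (toArc (fun _ => N) fun s => v (Sum.inl (Sum.inr s))) : ι ⊕ κ → PowerSeries ℂ) =
      toArc (fun _ => N) fun s => v ((eqv E ι κ N).symm (Sum.inr s)) := by
    funext a
    rcases a with a | a <;> rfl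
  rw [e]
  exact Iff.rfl

theorem cyl_jt {N : ℕ} {S : Set ((E → ℂ) × (ι ⊕ κ → PowerSeries ℂ))}
    (hS : IsCyl (fun _ => N) S) : IsCyl (fun _ => N) (jt N S) := by
  constructor
  · intro p x y hxy
    refine hS.1 _ _ _ ?_
    rintro (a | a) l hl
    · exact hxy a l hl
    · rfl
  · rw [sec_jt]
    exact Constructible.comap _ hS.2

theorem vol_jt [Finite E] (P : HodgeMeasure) {N : ℕ}
    {S : Set ((E → ℂ) × (ι ⊕ κ → PowerSeries ℂ))} (hS : IsCyl (fun _ => N) S) :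
    vol P.rat xq S = xq ^ (Fintype.card κ * N) * vol P.rat xq (jt N S) := by
  have hL := VAAux.L_mul P
  rw [vol_eq P.rat hL hS, vol_eq P.rat hL (cyl_jt hS), sec_jt,
    P.rat.reindex (eqv E ι κ N).symm hS.2]
  simp only [Finset.sum_const, Finset.card_univ, smul_eq_mul, Fintype.card_sum, add_mul, pow_add]
  ring

/-- the prescribed coefficients without the preceding ones -/
noncomputable def rec5 (N : ℕ) (A : ℕ → MvPolynomial ((E ⊕ Bool) ⊕ ((κ × ℕ) ⊕ ℕ)) ℂ) :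
    ℕ → MvPolynomial ((E ⊕ (Σ _ : κ, Fin N)) ⊕ Bool) ℂ
  | l => bind₁ (Sum.elim (fun p => X (Sum.map Sum.inl id p))
      (Sum.elim (fun s => if h : s.2 < N then X (Sum.inl (Sum.inr ⟨s.1, ⟨s.2, h⟩⟩)) else 0)
        fun s => if _h : s < l then rec5 N A s else 0)) (A l)

theorem eval_rec5 (N : ℕ) (A : ℕ → MvPolynomial ((E ⊕ Bool) ⊕ ((κ × ℕ) ⊕ ℕ)) ℂ)
    (v : (E ⊕ (Σ _ : κ, Fin N)) ⊕ Bool → ℂ) (l : ℕ) :
    eval v (rec5 N A l) = eval (Sum.elim (fun p => v (Sum.map Sum.inl id p))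
      (Sum.elim (fun s => PowerSeries.coeff s.2
        (toArc (fun _ : κ => N) (fun s => v (Sum.inl (Sum.inr s))) s.1))
        fun s => if s < l then eval v (rec5 N A s) else 0)) (A l) := by
  rw [rec5]
  have h3 := eval₂Hom_bind₁ (RingHom.id ℂ) v
    (Sum.elim (fun p => X (Sum.map Sum.inl id p))
      (Sum.elim (fun s => if h : s.2 < N then X (Sum.inl (Sum.inr ⟨s.1, ⟨s.2, h⟩⟩)) else 0)
        fun s => if _h : s < l then rec5 N A s else 0)) (A l)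
  change eval v (bind₁ _ (A l)) = eval _ (A l) at h3
  rw [h3]
  congr 2
  funext a
  rcases a with a | a | a
  · exact eval_X _
  · change eval v (if h : a.2 < N then X (Sum.inl (Sum.inr ⟨a.1, ⟨a.2, h⟩⟩)) else 0) =
      PowerSeries.coeff a.2 (toArc (fun _ : κ => N) (fun s => v (Sum.inl (Sum.inr s))) a.1)
    rw [toArc, PowerSeries.coeff_mk]
    by_cases h : a.2 < N
    · rw [dif_pos h, dif_pos h, eval_X]
    · rw [dif_neg h, dif_neg h, map_zero]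
  · change eval v (if _h : a < l then rec5 N A a else 0) = if a < l then _ else 0
    by_cases h : a < l
    · rw [dif_pos h, if_pos h]
    · rw [dif_neg h, if_neg h, map_zero]

/-- the parameter set -/
def Q5 (N : ℕ) (C : Set ((E ⊕ Bool → ℂ) × (κ → PowerSeries ℂ))) :
    Set ((E ⊕ (Σ _ : κ, Fin N)) ⊕ Bool → ℂ) :=
  {v | ((fun p => v (Sum.map Sum.inl id p)),
    toArc (fun _ => N) fun s => v (Sum.inl (Sum.inr s))) ∈ C}

theorem con_Q5 {N : ℕ} {C : Set ((E ⊕ Bool → ℂ) × (κ → PowerSeries ℂ))}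
    (hC : IsCyl (fun _ => N) C) : Constructible (Q5 N C) := by
  have h := Constructible.comap (fun s : (E ⊕ Bool) ⊕ (Σ _ : κ, Fin N) =>
    (Sum.elim (Sum.map Sum.inl id) (fun s => Sum.inl (Sum.inr s)) s :
      (E ⊕ (Σ _ : κ, Fin N)) ⊕ Bool)) hC.2
  exact h

/-- one condition -/
def cnd (f : MvPolynomial ι ℂ) (i l : ℕ) (A : MvPolynomial ((E ⊕ Bool) ⊕ ((κ × ℕ) ⊕ ℕ)) ℂ) :
    Set ((E → ℂ) × (ι ⊕ κ → PowerSeries ℂ)) :=
  {z | PowerSeries.coeff (i + 1 + l) (aeval (fun a => z.2 (Sum.inl a)) f) =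
            eval (Sum.elim (Sum.elim z.1 (dat true i (aeval (fun a => z.2 (Sum.inl a)) f)))
              (Sum.elim (fun s => PowerSeries.coeff s.2 (z.2 (Sum.inr s.1)))
                fun s => if s < l then
                  PowerSeries.coeff (i + 1 + s) (aeval (fun a => z.2 (Sum.inl a)) f) else 0)) A}

theorem cy_cnd (f : MvPolynomial ι ℂ) (i l : ℕ)
    (A : MvPolynomial ((E ⊕ Bool) ⊕ ((κ × ℕ) ⊕ ℕ)) ℂ) : Cy (cnd f i l A) := by
  have h : ∀ a : (E ⊕ Bool) ⊕ ((κ × ℕ) ⊕ ℕ), RF fun z : (E → ℂ) × (ι ⊕ κ → PowerSeries ℂ) =>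
      (Sum.elim (Sum.elim z.1 (dat true i (aeval (fun a => z.2 (Sum.inl a)) f)))
              (Sum.elim (fun s => PowerSeries.coeff s.2 (z.2 (Sum.inr s.1)))
                fun s => if s < l then
                  PowerSeries.coeff (i + 1 + s) (aeval (fun a => z.2 (Sum.inl a)) f) else 0) :
        (E ⊕ Bool) ⊕ ((κ × ℕ) ⊕ ℕ) → ℂ) a := by
    rintro (a | a | a)
    · exact RF.prm f i a
    · exact RF.arc (Sum.inr a.1) a.2
    · exact RF.ite (a < l) (RF.coefL f _) (RF.const 0)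
  exact Cy.eq (RF.coefL f (i + 1 + l)) (RF.eval h A)

/-- the sets of the statement -/
def LS (f : MvPolynomial ι ℂ) (C : Set ((E ⊕ Bool → ℂ) × (κ → PowerSeries ℂ))) (i e : ℕ)
    (A : ℕ → MvPolynomial ((E ⊕ Bool) ⊕ ((κ × ℕ) ⊕ ℕ)) ℂ) :
    Set ((E → ℂ) × (ι ⊕ κ → PowerSeries ℂ)) :=
  {z | z ∈ Sx f C i ∧ ∀ l < e, z ∈ cnd f i l (A l)}

theorem cy_LS [Finite E] (f : MvPolynomial ι ℂ)
    {C : Set ((E ⊕ Bool → ℂ) × (κ → PowerSeries ℂ))} (hC : Cy C) (i e : ℕ)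
    (A : ℕ → MvPolynomial ((E ⊕ Bool) ⊕ ((κ × ℕ) ⊕ ℕ)) ℂ) : Cy (LS f C i e A) :=
  Cy.and (S := fun z => z ∈ Sx f C i) (T := fun z => ∀ l < e, z ∈ cnd f i l (A l))
    (Cy.Sx f hC i) (Cy.all_lt (S := fun l z => z ∈ cnd f i l (A l)) e fun l _ =>
      cy_cnd f i l (A l))

theorem e0 (N : ℕ) (q : E ⊕ (Σ _ : κ, Fin N) → ℂ) (d : Bool → ℂ) :
    (fun p : E ⊕ Bool => (Sum.elim q d : (E ⊕ (Σ _ : κ, Fin N)) ⊕ Bool → ℂ)
        (Sum.map Sum.inl id p)) = Sum.elim (fun p => q (Sum.inl p)) d := by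
  funext p
  rcases p with p | p <;> rfl

theorem eR (N : ℕ) (f : MvPolynomial ι ℂ) (C : Set ((E ⊕ Bool → ℂ) × (κ → PowerSeries ℂ)))
    (i : ℕ) : jt N (Sx f C i) = SD f true (Q5 N C) i := by
  ext z
  change (cut true i (aeval z.2 f) ∧ ((Sum.elim (fun p => z.1 (Sum.inl p))
      (dat true i (aeval z.2 f))), toArc (fun _ => N) fun s => z.1 (Sum.inr s)) ∈ C) ↔
      (cut true i (aeval z.2 f) ∧ ((fun p : E ⊕ Bool =>
        (Sum.elim z.1 (dat true i (aeval z.2 f)) : (E ⊕ (Σ _ : κ, Fin N)) ⊕ Bool → ℂ)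
        (Sum.map Sum.inl id p)), toArc (fun _ => N) fun s => z.1 (Sum.inr s)) ∈ C)
  rw [e0]

/-- the value of the condition -/
noncomputable def val5 (N : ℕ) (f : MvPolynomial ι ℂ) (i l : ℕ)
    (A : MvPolynomial ((E ⊕ Bool) ⊕ ((κ × ℕ) ⊕ ℕ)) ℂ)
    (z : (E ⊕ (Σ _ : κ, Fin N) → ℂ) × (ι → PowerSeries ℂ)) (c : ℕ → ℂ) : ℂ :=
  eval (Sum.elim (Sum.elim (fun p => z.1 (Sum.inl p)) (dat true i (aeval z.2 f)))
              (Sum.elim (fun s => PowerSeries.coeff s.2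
                (toArc (fun _ : κ => N) (fun s => z.1 (Sum.inr s)) s.1))
                fun s => if s < l then c s else 0)) A

theorem val5_congr (N : ℕ) (f : MvPolynomial ι ℂ) (i l : ℕ)
    (A : MvPolynomial ((E ⊕ Bool) ⊕ ((κ × ℕ) ⊕ ℕ)) ℂ)
    (z : (E ⊕ (Σ _ : κ, Fin N) → ℂ) × (ι → PowerSeries ℂ)) (c c' : ℕ → ℂ)
    (h : ∀ s < l, c s = c' s) : val5 N f i l A z c = val5 N f i l A z c' := by
  unfold val5
  have e : (fun s => if s < l then c s else 0) = fun s => if s < l then c' s else 0 := by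
    funext s
    by_cases hs : s < l
    · rw [if_pos hs, if_pos hs, h s hs]
    · rw [if_neg hs, if_neg hs]
  rw [e]

theorem val5_rec (N : ℕ) (f : MvPolynomial ι ℂ) (i l : ℕ)
    (A : ℕ → MvPolynomial ((E ⊕ Bool) ⊕ ((κ × ℕ) ⊕ ℕ)) ℂ)
    (z : (E ⊕ (Σ _ : κ, Fin N) → ℂ) × (ι → PowerSeries ℂ)) :
    eval (Sum.elim z.1 (dat true i (aeval z.2 f))) (rec5 N A l) =
      val5 N f i l (A l) z fun s =>
        eval (Sum.elim z.1 (dat true i (aeval z.2 f))) (rec5 N A s) := by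
  rw [eval_rec5, e0]
  rfl

theorem mem_cnd (N : ℕ) (f : MvPolynomial ι ℂ) (i l : ℕ)
    (A : MvPolynomial ((E ⊕ Bool) ⊕ ((κ × ℕ) ⊕ ℕ)) ℂ)
    (z : (E ⊕ (Σ _ : κ, Fin N) → ℂ) × (ι → PowerSeries ℂ)) :
    z ∈ jt N (cnd f i l A) ↔ PowerSeries.coeff (i + 1 + l) (aeval z.2 f) =
      val5 N f i l A z fun s => PowerSeries.coeff (i + 1 + s) (aeval z.2 f) := Iff.rfl

theorem eL (N : ℕ) (f : MvPolynomial ι ℂ) (C : Set ((E ⊕ Bool → ℂ) × (κ → PowerSeries ℂ)))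
    (i e : ℕ) (A : ℕ → MvPolynomial ((E ⊕ Bool) ⊕ ((κ × ℕ) ⊕ ℕ)) ℂ) :
    jt N (LS f C i e A) = PD f (Q5 N C) i e (rec5 N A) := by
  ext z
  have e1 : z ∈ jt N (LS f C i e A) ↔ z ∈ jt N (Sx f C i) ∧ ∀ l < e, z ∈ jt N (cnd f i l (A l)) :=
    Iff.rfl
  have e2 : z ∈ PD f (Q5 N C) i e (rec5 N A) ↔ z ∈ SD f true (Q5 N C) i ∧ ∀ l < e,
      PowerSeries.coeff (i + 1 + l) (aeval z.2 f) =
        eval (Sum.elim z.1 (dat true i (aeval z.2 f))) (rec5 N A l) := Iff.rfl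
  rw [e1, e2, eR]
  refine and_congr Iff.rfl ?_
  constructor
  · intro h l
    induction l using Nat.strong_induction_on with
    | _ l ih =>
      intro hl
      rw [(mem_cnd N f i l (A l) z).1 (h l hl), val5_rec]
      exact val5_congr N f i l _ z _ _ fun s hs => ih s hs (by omega)
  · intro h l hl
    rw [mem_cnd, h l hl, val5_rec]
    exact val5_congr N f i l _ z _ _ fun s hs => (h s (by omega)).symm

end

end U5Aux

open VGAux U5Aux in
theorem stmt_U5 : Stmt_U5 := by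
  intro P ι _ f X hf E κ _ _ C n hC hX i e hi A
  have hCy : Cy C := ⟨n, fun N hN => hC.mono fun _ => hN⟩
  obtain ⟨N1, hN1⟩ := Cy.Sx f hCy i
  obtain ⟨N2, hN2⟩ := cy_LS f hCy i e A
  have hRN := hN1 (max n (max N1 N2)) (by omega)
  have hLN := hN2 (max n (max N1 N2)) (by omega)
  have hCN : IsCyl (fun _ => max n (max N1 N2)) C := hC.mono fun _ => le_max_left _ _
  generalize max n (max N1 N2) = N at hRN hLN hCN
  have hQ : QOk X true (U5Aux.Q5 N C) :=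
    ⟨U5Aux.con_Q5 hCN, fun v hv => ⟨(hX _ hv).1, fun _ => (hX _ hv).2⟩⟩
  have h1 := hf (E ⊕ (Σ _ : κ, Fin N)) (U5Aux.Q5 N C) hQ i e hi (rec5 N A)
  have h2 : vol P.rat xq (LS f C i e A) = xq ^ e * vol P.rat xq (Sx f C i) := by
    rw [vol_jt P hLN, vol_jt P hRN, eL, eR, h1]
    ring
  have h3 : LS f C i e A = {z : (E → ℂ) × (ι ⊕ κ → PowerSeries ℂ) |
          cut true i (aeval (fun a => z.2 (Sum.inl a)) f) ∧
          ((Sum.elim z.1 (dat true i (aeval (fun a => z.2 (Sum.inl a)) f))),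
            fun a => z.2 (Sum.inr a)) ∈ C ∧
          ∀ l < e, PowerSeries.coeff (i + 1 + l) (aeval (fun a => z.2 (Sum.inl a)) f) =
            eval (Sum.elim (Sum.elim z.1 (dat true i (aeval (fun a => z.2 (Sum.inl a)) f)))
              (Sum.elim (fun s => PowerSeries.coeff s.2 (z.2 (Sum.inr s.1)))
                fun s => if s < l then
                  PowerSeries.coeff (i + 1 + s) (aeval (fun a => z.2 (Sum.inl a)) f) else 0))
              (A l)} := by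
    ext z
    exact ⟨fun h => ⟨h.1.1, h.1.2, h.2⟩, fun h => ⟨⟨h.1, h.2.1⟩, h.2.2⟩⟩
  rw [← h3]
  exact h2

end Pool.Agent.Mono.RO
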