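import Pool.Agent.Work.Monodromy5.VGC

/-!
# Block VGE: sums, and products over nonzero values: exact
-/

set_option autoImplicit false
set_option linter.unusedSectionVars false

namespace Pool.Agent.Mono.RO

open MvPolynomial TS

namespace VGEAux

open VGAux

variable {E ι κ : Type} [Fintype ι] [Fintype κ]

/-- exact or tail, with nonzero leading coefficients -/
def TT (f : MvPolynomial ι ℂ) (g : MvPolynomial κ ℂ) (w w' : Bool) (j : ℕ) :
    Set ((E → ℂ) × (ι ⊕ κ → PowerSeries ℂ)) :=
  {z | cut w j (aeval (fun a => z.2 (Sum.inl a)) f) ∧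
    cut w' j (aeval (fun a => z.2 (Sum.inr a)) g) ∧
    (w = true → PowerSeries.coeff j (aeval (fun a => z.2 (Sum.inl a)) f) ≠ 0) ∧
    (w' = true → PowerSeries.coeff j (aeval (fun a => z.2 (Sum.inr a)) g) ≠ 0)}

theorem Cy.TT (f : MvPolynomial ι ℂ) (g : MvPolynomial κ ℂ) (w w' : Bool) (j : ℕ) :
    Cy (TT (E := E) f g w w' j) :=
  Cy.and (Cy.cutL f w j) (Cy.and (Cy.cutR g w' j) (Cy.and
    (Cy.imp fun _ => Cy.not (Cy.zero (RF.coefL f j)))
    (Cy.imp fun _ => Cy.not (Cy.zero (RF.coefR g j)))))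

/-- the values of the result as polynomials -/
noncomputable def sg (s : Bool) (gc : ℕ → MvPolynomial (κ × ℕ) ℂ) (m : ℕ) :
    E ⊕ Bool → MvPolynomial ((E ⊕ Bool) ⊕ (κ × ℕ)) ℂ :=
  Sum.elim (fun p => X (Sum.inl (Sum.inl p))) fun b : Bool => if b then
    (if s then X (Sum.inl (Sum.inr true)) + rename Sum.inr (gc 0) else
      X (Sum.inl (Sum.inr true)) * rename Sum.inr (gc 0)) else
    (if s then 1 else rename Sum.inr (gc 0)) * X (Sum.inl (Sum.inr false)) +
      (if s then 1 else X (Sum.inl (Sum.inr true))) * rename Sum.inr (gc m)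

theorem eval_sg (s : Bool) (f : MvPolynomial ι ℂ) (g : MvPolynomial κ ℂ)
    (gc : ℕ → MvPolynomial (κ × ℕ) ℂ)
    (hgc : ∀ (b : ℕ) (y : κ → PowerSeries ℂ), PowerSeries.coeff b (aeval y g) =
      eval (fun s => PowerSeries.coeff s.2 (y s.1)) (gc b)) (m : ℕ)
    (z : (E → ℂ) × (ι ⊕ κ → PowerSeries ℂ))
    (hm : PowerSeries.coeff m (aeval z.2 (gp s f g)) =
      al s (PowerSeries.coeff 0 (aeval (fun a => z.2 (Sum.inl a)) f))
        (PowerSeries.coeff 0 (aeval (fun a => z.2 (Sum.inr a)) g)) *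
          PowerSeries.coeff m (aeval (fun a => z.2 (Sum.inl a)) f) +
      be s (PowerSeries.coeff 0 (aeval (fun a => z.2 (Sum.inl a)) f))
        (PowerSeries.coeff 0 (aeval (fun a => z.2 (Sum.inr a)) g)) *
          PowerSeries.coeff m (aeval (fun a => z.2 (Sum.inr a)) g))
    (A : MvPolynomial (E ⊕ Bool) ℂ) :
    eval (Sum.elim (prm f m z).1 fun s => PowerSeries.coeff s.2 (z.2 (Sum.inr s.1)))
      (bind₁ (sg s gc m) A) =
      eval (Sum.elim z.1 (dat true m (aeval z.2 (gp s f g)))) A := by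
  have h1 := eval₂Hom_bind₁ (RingHom.id ℂ)
    (Sum.elim (prm f m z).1 fun s => PowerSeries.coeff s.2 (z.2 (Sum.inr s.1))) (sg s gc m) A
  change eval _ (bind₁ (sg s gc m) A) = eval _ A at h1
  rw [h1]
  have hg : ∀ b, eval (Sum.elim (prm f m z).1
      fun s : κ × ℕ => PowerSeries.coeff s.2 (z.2 (Sum.inr s.1))) (rename Sum.inr (gc b)) =
        PowerSeries.coeff b (aeval (fun a => z.2 (Sum.inr a)) g) := by
    intro b
    rw [eval_rename, hgc]
    rfl
  congr 2
  funext a
  change eval (Sum.elim (prm f m z).1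
      fun s : κ × ℕ => PowerSeries.coeff s.2 (z.2 (Sum.inr s.1))) (sg s gc m a) = _
  rcases a with a | _ | _
  · simp only [sg, Sum.elim_inl, eval_X]
    rfl
  · simp only [sg, Sum.elim_inr, Bool.false_eq_true, if_false, map_add, map_mul, hg, eval_X,
      dat, ldc, if_true]
    rw [hm]
    rcases s with _ | _
    · simp only [Bool.false_eq_true, if_false, hg, eval_X, al, be]
      rfl
    · simp only [if_true, map_one, al, be]
      rfl
  · simp only [sg, Sum.elim_inr, if_true, dat]
    rw [coeff_gp_zero]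
    rcases s with _ | _
    · simp only [Bool.false_eq_true, if_false, map_mul, hg, eval_X, gv]
      rfl
    · simp only [if_true, map_add, hg, eval_X, gv]
      rfl

/-- `Q1` and `Q3` together -/
def Qx (s w : Bool) (Q : Set (E ⊕ Bool → ℂ)) : Set (E ⊕ Fin 4 → ℂ) :=
  {z | z (Sum.inr 1) ≠ 0 ∧ (w = true → z (Sum.inr 3) ≠ 0) ∧
    Sum.elim (fun p => z (Sum.inl p)) (fun b : Bool => if b then
      gv s (z (Sum.inr 0)) (z (Sum.inr 2)) else
        al s (z (Sum.inr 0)) (z (Sum.inr 2)) * z (Sum.inr 1) +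
          be s (z (Sum.inr 0)) (z (Sum.inr 2)) * (if w then z (Sum.inr 3) else 0)) ∈ Q}

theorem Qx_true (s : Bool) (Q : Set (E ⊕ Bool → ℂ)) : Qx s true Q = Q3 s Q := by
  ext z
  simp only [Qx, Q3, Set.mem_ofPred_eq, if_true, true_implies]

theorem Qx_false (s : Bool) (Q : Set (E ⊕ Bool → ℂ)) : Qx s false Q = Q1 s Q := by
  ext z
  simp only [Qx, Q1, Set.mem_ofPred_eq, Bool.false_eq_true, if_false, false_implies, true_and,
    mul_zero, add_zero]

theorem con_Qx (s w : Bool) {Q : Set (E ⊕ Bool → ℂ)} (hQ : Constructible Q) :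
    Constructible (Qx s w Q) := by
  rcases w with _ | _
  · rw [Qx_false]
    exact con_Q1 s hQ
  · rw [Qx_true]
    exact con_Q3 s hQ

theorem piece13 (s w : Bool) (f : MvPolynomial ι ℂ) (g : MvPolynomial κ ℂ)
    (gc : ℕ → MvPolynomial (κ × ℕ) ℂ)
    (hgc : ∀ (b : ℕ) (y : κ → PowerSeries ℂ), PowerSeries.coeff b (aeval y g) =
      eval (fun s => PowerSeries.coeff s.2 (y s.1)) (gc b))
    (Q : Set (E ⊕ Bool → ℂ)) (m e : ℕ) (hm : 1 ≤ m) (A : ℕ → MvPolynomial (E ⊕ Bool) ℂ) :
    PD (gp s f g) Q m e A ∩ TT f g true w m =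
      Sy s f g (CC g w (Qx s w Q) m) m e fun l => bind₁ (sg s gc m) (A l) := by
  ext z
  set F := aeval (fun a => z.2 (Sum.inl a)) f with hF
  set G := aeval (fun a => z.2 (Sum.inr a)) g with hG
  have key : cut true m F → PowerSeries.coeff m (aeval z.2 (gp s f g)) =
      al s (PowerSeries.coeff 0 F) (PowerSeries.coeff 0 G) * PowerSeries.coeff m F +
      be s (PowerSeries.coeff 0 F) (PowerSeries.coeff 0 G) * PowerSeries.coeff m G := fun h1 =>
    low s f g z.2 m (fun l a b => h1 l a b) m hm le_rfl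
  have hdat : cut true m F → dat true m (aeval z.2 (gp s f g)) = fun b : Bool => if b then
          gv s (PowerSeries.coeff 0 F) (PowerSeries.coeff 0 G) else
      al s (PowerSeries.coeff 0 F) (PowerSeries.coeff 0 G) * PowerSeries.coeff m F +
      be s (PowerSeries.coeff 0 F) (PowerSeries.coeff 0 G) * PowerSeries.coeff m G := by
    intro h1
    funext b
    rcases b with _ | _
    · simp only [dat, ldc, Bool.false_eq_true, if_false, if_true]
      exact key h1
    · simp only [dat, if_true]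
      rw [coeff_gp_zero]
  have hGm : cut w m G → (if w then PowerSeries.coeff m G else 0) = PowerSeries.coeff m G := by
    intro h1
    rcases w with _ | _
    · have := h1 m hm (by simp)
      simp [this]
    · simp
  constructor
  · rintro ⟨⟨⟨h1, h2⟩, h3⟩, h4, h5, h6, h7⟩
    rw [hdat h4] at h2
    refine ⟨⟨h4, h5, h6 rfl, ?_, ?_⟩, fun l hl => ?_⟩
    · intro hw
      subst hw
      exact h7 rfl
    · change Sum.elim z.1 (fun b : Bool => if b then
          gv s (PowerSeries.coeff 0 F) (PowerSeries.coeff 0 G) else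
      al s (PowerSeries.coeff 0 F) (PowerSeries.coeff 0 G) * PowerSeries.coeff m F +
      be s (PowerSeries.coeff 0 F) (PowerSeries.coeff 0 G) *
        (if w then (if w then PowerSeries.coeff m G else 0) else 0)) ∈ Q
      have : (if w then (if w then PowerSeries.coeff m G else 0) else 0) =
          PowerSeries.coeff m G := by
        rw [hGm h5]
        exact hGm h5
      rw [this]
      exact h2
    · rw [eval_sg s f g gc hgc m z (key h4)]
      exact h3 l hl
  · rintro ⟨⟨h4, h5, h6, h7, h8⟩, h3⟩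
    have h5' : cut w m G := h5
    have h8' : Sum.elim z.1 (fun b : Bool => if b then
          gv s (PowerSeries.coeff 0 F) (PowerSeries.coeff 0 G) else
      al s (PowerSeries.coeff 0 F) (PowerSeries.coeff 0 G) * PowerSeries.coeff m F +
      be s (PowerSeries.coeff 0 F) (PowerSeries.coeff 0 G) *
        (if w then (if w then PowerSeries.coeff m G else 0) else 0)) ∈ Q := h8
    have : (if w then (if w then PowerSeries.coeff m G else 0) else 0) =
        PowerSeries.coeff m G := by
      rw [hGm h5']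
      exact hGm h5'
    rw [this] at h8'
    refine ⟨⟨⟨fun l hl1 hl2 => ?_, ?_⟩, fun l hl => ?_⟩, h4, h5, fun _ => h6, fun hw => ?_⟩
    · simp only [if_true] at hl2
      rw [low s f g z.2 m (fun l a b => h4 l a b) l hl1 hl2.le, ← hF, ← hG,
        h4 l hl1 hl2, h5' l hl1 (by rcases w with _ | _ <;> simp <;> omega), mul_zero, mul_zero,
        add_zero]
    · rw [hdat h4]
      exact h8'
    · have := h3 l hl
      rw [eval_sg s f g gc hgc m z (key h4)] at this
      exact this
    · subst hw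
      exact h7 rfl

theorem vol13 (hU : Stmt_U5) [Finite E] (P : HodgeMeasure) (s w : Bool) (f : MvPolynomial ι ℂ)
    (g : MvPolynomial κ ℂ) (hf : Unif P f Set.univ) {Q : Set (E ⊕ Bool → ℂ)}
    (hQ : QOk (Xs s) true Q) (m e : ℕ) (hm : 1 ≤ m) (A : ℕ → MvPolynomial (E ⊕ Bool) ℂ) :
    vol P.rat xq (PD (gp s f g) Q m e A ∩ TT f g true w m) =
      xq ^ e * vol P.rat xq (DD f g true w (Qx s w Q) m m) := by
  choose gc hgc using exists_gc g
  rw [piece13 s w f g gc hgc Q m e hm A]
  have h1 := solve hU P s f g hf (Cy.CC g w (con_Qx s w hQ.1) m) (fun u hu => hu.2.1)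
      (fun u hu => ?_) m e hm fun l => bind₁ (sg s gc m) (A l)
  · rw [Sx_CC] at h1
    exact h1
  · have h2 : gv s (u.1 (Sum.inr true)) (PowerSeries.coeff 0 (aeval u.2 g)) ∈ Xs s := by
      have := (hQ.2 _ hu.2.2.2).1
      exact this
    exact (ne_of_Xs s _ _ h2).1

/-! ## Exchange of `f` and `g` -/

theorem aeval_swap (s : Bool) (f : MvPolynomial ι ℂ) (g : MvPolynomial κ ℂ)
    (z : ι ⊕ κ → PowerSeries ℂ) :
    aeval (fun i => z (Sum.swap i)) (gp s g f) = aeval z (gp s f g) := by
  rw [aeval_gp, aeval_gp]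
  rcases s with _ | _
  · simp only [Bool.false_eq_true, if_false]
    exact mul_comm _ _
  · simp only [if_true]
    exact add_comm _ _

theorem PD_swap (s : Bool) (f : MvPolynomial ι ℂ) (g : MvPolynomial κ ℂ)
    (Q : Set (E ⊕ Bool → ℂ)) (m e : ℕ) (A : ℕ → MvPolynomial (E ⊕ Bool) ℂ) :
    PD (gp s f g) Q m e A ∩ TT f g false true m =
      {z : (E → ℂ) × (ι ⊕ κ → PowerSeries ℂ) | (z.1, fun i => z.2 (Sum.swap i)) ∈
        PD (gp s g f) Q m e A ∩ TT g f true false m} := by
  ext z
  have h1 := aeval_swap s f g z.2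
  constructor
  · rintro ⟨h2, h3, h4, h5, h6⟩
    refine ⟨?_, h4, h3, h6, h5⟩
    change (cut true m (aeval (fun i => z.2 (Sum.swap i)) (gp s g f)) ∧
      Sum.elim z.1 (dat true m (aeval (fun i => z.2 (Sum.swap i)) (gp s g f))) ∈ Q) ∧
      ∀ l < e, PowerSeries.coeff (m + 1 + l) (aeval (fun i => z.2 (Sum.swap i)) (gp s g f)) =
        eval (Sum.elim z.1 (dat true m (aeval (fun i => z.2 (Sum.swap i)) (gp s g f)))) (A l)
    rw [h1]
    exact h2
  · rintro ⟨h2, h3, h4, h5, h6⟩
    refine ⟨?_, h4, h3, h6, h5⟩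
    change (cut true m (aeval (fun i => z.2 (Sum.swap i)) (gp s g f)) ∧
      Sum.elim z.1 (dat true m (aeval (fun i => z.2 (Sum.swap i)) (gp s g f))) ∈ Q) ∧
      ∀ l < e, PowerSeries.coeff (m + 1 + l) (aeval (fun i => z.2 (Sum.swap i)) (gp s g f)) =
        eval (Sum.elim z.1 (dat true m (aeval (fun i => z.2 (Sum.swap i)) (gp s g f)))) (A l)
        at h2
    rw [h1] at h2
    exact h2

theorem DD_swap (s : Bool) (f : MvPolynomial ι ℂ) (g : MvPolynomial κ ℂ)
    (Q : Set (E ⊕ Bool → ℂ)) (m : ℕ) :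
    DD f g false true (Q2 s Q) m m =
      {z : (E → ℂ) × (ι ⊕ κ → PowerSeries ℂ) | (z.1, fun i => z.2 (Sum.swap i)) ∈
        DD g f true false (Q1 s Q) m m} := by
  ext z
  set F := aeval (fun a => z.2 (Sum.inl a)) f with hF
  set G := aeval (fun a => z.2 (Sum.inr a)) g with hG
  have e1 : gv s (PowerSeries.coeff 0 G) (PowerSeries.coeff 0 F) =
      gv s (PowerSeries.coeff 0 F) (PowerSeries.coeff 0 G) := by
    rcases s with _ | _
    · simp [gv, mul_comm]
    · simp [gv, add_comm]
  have e2 : al s (PowerSeries.coeff 0 G) (PowerSeries.coeff 0 F) =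
      be s (PowerSeries.coeff 0 F) (PowerSeries.coeff 0 G) := by
    rcases s with _ | _ <;> simp [al, be]
  have key : (Sum.elim z.1 (fun b : Bool => if b then
      gv s (PowerSeries.coeff 0 F) (PowerSeries.coeff 0 G) else
        be s (PowerSeries.coeff 0 F) (PowerSeries.coeff 0 G) * PowerSeries.coeff m G) ∈ Q) ↔
      (Sum.elim z.1 (fun b : Bool => if b then
      gv s (PowerSeries.coeff 0 G) (PowerSeries.coeff 0 F) else
        al s (PowerSeries.coeff 0 G) (PowerSeries.coeff 0 F) * PowerSeries.coeff m G) ∈ Q) := by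
    rw [e1, e2]
  constructor
  · rintro ⟨h1, h2, h3, h4⟩
    exact ⟨h2, h1, h3, key.1 h4⟩
  · rintro ⟨h1, h2, h3, h4⟩
    exact ⟨h2, h1, h3, key.2 h4⟩

theorem vol2 (hU : Stmt_U5) [Finite E] (P : HodgeMeasure) (s : Bool) (f : MvPolynomial ι ℂ)
    (g : MvPolynomial κ ℂ) (hg : Unif P g Set.univ) {Q : Set (E ⊕ Bool → ℂ)}
    (hQ : QOk (Xs s) true Q) (m e : ℕ) (hm : 1 ≤ m) (A : ℕ → MvPolynomial (E ⊕ Bool) ℂ) :
    vol P.rat xq (PD (gp s f g) Q m e A ∩ TT f g false true m) =
      xq ^ e * vol P.rat xq (DD f g false true (Q2 s Q) m m) := by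
  rw [PD_swap, DD_swap, vol_swap P ((Cy.PD (gp s g f) hQ.1 m e A).inter (Cy.TT g f true false m)),
    vol_swap P (Cy.DD g f true false (con_Q1 s hQ.1) m m), vol13 hU P s false g f hg hQ m e hm A,
    Qx_false]

/-! ## Cancellation -/

/-- the prescribed values -/
noncomputable def B4 (s : Bool) (gc : ℕ → MvPolynomial (κ × ℕ) ℂ) (j m : ℕ)
    (A : ℕ → MvPolynomial (E ⊕ Bool) ℂ) (l : ℕ) :
    MvPolynomial (((E ⊕ Unit) ⊕ Bool) ⊕ (κ × ℕ)) ℂ :=
  if j + 1 + l < m then 0 else if j + 1 + l = m then X (Sum.inl (Sum.inl (Sum.inr ()))) else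
    bind₁ (Sum.elim (fun p => X (Sum.inl (Sum.inl (Sum.inl p)))) fun b : Bool => if b then
    (if s then X (Sum.inl (Sum.inr true)) + rename Sum.inr (gc 0) else
      X (Sum.inl (Sum.inr true)) * rename Sum.inr (gc 0)) else
        X (Sum.inl (Sum.inl (Sum.inr ())))) (A (j + 1 + l - m - 1))

theorem eval_B4 (s : Bool) (f : MvPolynomial ι ℂ) (g : MvPolynomial κ ℂ)
    (gc : ℕ → MvPolynomial (κ × ℕ) ℂ)
    (hgc : ∀ (b : ℕ) (y : κ → PowerSeries ℂ), PowerSeries.coeff b (aeval y g) =
      eval (fun s => PowerSeries.coeff s.2 (y s.1)) (gc b)) (j m : ℕ)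
    (z : (E ⊕ Unit → ℂ) × (ι ⊕ κ → PowerSeries ℂ)) (A : ℕ → MvPolynomial (E ⊕ Bool) ℂ) (l : ℕ) :
    eval (Sum.elim (prm f j z).1 fun s => PowerSeries.coeff s.2 (z.2 (Sum.inr s.1)))
      (B4 s gc j m A l) = if j + 1 + l < m then 0 else if j + 1 + l = m then z.1 (Sum.inr ())
        else eval (Sum.elim (fun p => z.1 (Sum.inl p)) fun b : Bool => if b then
          gv s (PowerSeries.coeff 0 (aeval (fun a => z.2 (Sum.inl a)) f))
            (PowerSeries.coeff 0 (aeval (fun a => z.2 (Sum.inr a)) g)) else z.1 (Sum.inr ()))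
              (A (j + 1 + l - m - 1)) := by
  unfold B4
  by_cases h1 : j + 1 + l < m
  · rw [if_pos h1, if_pos h1, map_zero]
  · rw [if_neg h1, if_neg h1]
    by_cases h2 : j + 1 + l = m
    · rw [if_pos h2, if_pos h2, eval_X]
      rfl
    · rw [if_neg h2, if_neg h2]
      set τ : E ⊕ Bool → MvPolynomial (((E ⊕ Unit) ⊕ Bool) ⊕ (κ × ℕ)) ℂ :=
        Sum.elim (fun p => X (Sum.inl (Sum.inl (Sum.inl p)))) fun b : Bool => if b then
          (if s then X (Sum.inl (Sum.inr true)) + rename Sum.inr (gc 0) else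
          X (Sum.inl (Sum.inr true)) * rename Sum.inr (gc 0)) else
            X (Sum.inl (Sum.inl (Sum.inr ()))) with hτ
      have h3 := eval₂Hom_bind₁ (RingHom.id ℂ)
        (Sum.elim (prm f j z).1 fun s => PowerSeries.coeff s.2 (z.2 (Sum.inr s.1))) τ
          (A (j + 1 + l - m - 1))
      change eval _ (bind₁ τ (A (j + 1 + l - m - 1))) = eval _ (A (j + 1 + l - m - 1)) at h3
      rw [h3]
      have hg : ∀ b, eval (Sum.elim (prm f j z).1
          fun s : κ × ℕ => PowerSeries.coeff s.2 (z.2 (Sum.inr s.1))) (rename Sum.inr (gc b)) =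
            PowerSeries.coeff b (aeval (fun a => z.2 (Sum.inr a)) g) := by
        intro b
        rw [eval_rename, hgc]
        rfl
      congr 2
      funext a
      change eval (Sum.elim (prm f j z).1
          fun s : κ × ℕ => PowerSeries.coeff s.2 (z.2 (Sum.inr s.1))) (τ a) = _
      rcases a with a | _ | _
      · simp only [hτ, Sum.elim_inl, eval_X]
        rfl
      · simp only [hτ, Sum.elim_inr, Bool.false_eq_true, if_false, eval_X]
        rfl
      · simp only [hτ, Sum.elim_inr, if_true]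
        rcases s with _ | _
        · simp only [Bool.false_eq_true, if_false, map_mul, hg, eval_X, gv]
          rfl
        · simp only [if_true, map_add, hg, eval_X, gv]
          rfl

theorem vol4 (hU : Stmt_U5) [Finite E] (P : HodgeMeasure) (s : Bool) (f : MvPolynomial ι ℂ)
    (g : MvPolynomial κ ℂ) (hf : Unif P f Set.univ) {Q : Set (E ⊕ Bool → ℂ)}
    (hQ : QOk (Xs s) true Q) (m e j : ℕ) (hj : 1 ≤ j) (hjm : j < m)
    (A : ℕ → MvPolynomial (E ⊕ Bool) ℂ) :
    vol P.rat xq (PD (gp s f g) Q m e A ∩ TT f g true true j) =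
      xq ^ (m - j + e) * vol P.rat xq (DD f g true true (Q4 s Q) j j) := by
  choose gc hgc using exists_gc g
  have h1 := solve hU P s f g hf (Cy.CC g true (con_Q4 s hQ.1) j) (fun u hu => hu.2.1)
      (fun u hu => ?_) j (m - j + e) hj (B4 s gc j m A)
  · rw [Sx_CC] at h1
    rw [← h1]
    symm
    have hdat : ∀ z : (E → ℂ) × (ι ⊕ κ → PowerSeries ℂ), dat true m (aeval z.2 (gp s f g)) =
        fun b : Bool => if b then
          gv s (PowerSeries.coeff 0 (aeval (fun a => z.2 (Sum.inl a)) f))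
            (PowerSeries.coeff 0 (aeval (fun a => z.2 (Sum.inr a)) g)) else
              PowerSeries.coeff m (aeval z.2 (gp s f g)) := by
      intro z
      funext b
      rcases b with _ | _
      · simp [dat, ldc]
      · simp only [dat, if_true]
        rw [coeff_gp_zero]
    have hq : ∀ z ∈ Sy s f g (CC g true (Q4 s Q) j) j (m - j + e) (B4 s gc j m A),
        z.1 (Sum.inr ()) = PowerSeries.coeff m (aeval z.2 (gp s f g)) := by
      rintro z ⟨-, h2⟩
      have h3 := h2 (m - j - 1) (by omega)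
      have h6 : j + 1 + (m - j - 1) = m := by omega
      rw [eval_B4 s f g gc hgc, if_neg (by omega), if_pos (by omega), h6] at h3
      exact h3.symm
    refine vol_base P (Cy.Sy s f g (Cy.CC g true (con_Q4 s hQ.1) j) j _ _)
      ((Cy.PD (gp s f g) hQ.1 m e A).inter (Cy.TT f g true true j)) Sum.inl ?_ ?_ ?_
    · intro z hz
      have hqz := hq z hz
      obtain ⟨⟨a1, a2, a3, a4, a5, a6⟩, a7⟩ := hz
      have a2' : cut true j (aeval (fun a => z.2 (Sum.inr a)) g) := a2
      refine ⟨⟨⟨fun l hl1 hl2 => ?_, ?_⟩, fun l hl => ?_⟩, a1, a2, fun _ => a3, fun _ => a4⟩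
      · simp only [if_true] at hl2
        change PowerSeries.coeff l (aeval z.2 (gp s f g)) = 0
        rcases lt_trichotomy l j with h | h | h
        · rw [low s f g z.2 j (fun l a b => a1 l a b) l hl1 h.le, a1 l hl1 h, a2' l hl1 h,
            mul_zero, mul_zero, add_zero]
        · subst h
          rw [low s f g z.2 l (fun l a b => a1 l a b) l hl1 le_rfl]
          exact a5
        · have h5 := a7 (l - j - 1) (by omega)
          rw [eval_B4 s f g gc hgc, if_pos (by omega)] at h5
          have h6 : j + 1 + (l - j - 1) = l := by omega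
          rw [h6] at h5
          exact h5
      · rw [hdat]
        change Sum.elim (fun e => z.1 (Sum.inl e)) (fun b : Bool => if b then
          gv s (PowerSeries.coeff 0 (aeval (fun a => z.2 (Sum.inl a)) f))
            (PowerSeries.coeff 0 (aeval (fun a => z.2 (Sum.inr a)) g)) else
              PowerSeries.coeff m (aeval z.2 (gp s f g))) ∈ Q
        rw [← hqz]
        exact a6
      · rw [hdat]
        change PowerSeries.coeff (m + 1 + l) (aeval z.2 (gp s f g)) =
          eval (Sum.elim (fun e => z.1 (Sum.inl e)) (fun b : Bool => if b then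
          gv s (PowerSeries.coeff 0 (aeval (fun a => z.2 (Sum.inl a)) f))
            (PowerSeries.coeff 0 (aeval (fun a => z.2 (Sum.inr a)) g)) else
              PowerSeries.coeff m (aeval z.2 (gp s f g)))) (A l)
        have h5 := a7 (m - j + l) (by omega)
        rw [eval_B4 s f g gc hgc, if_neg (by omega), if_neg (by omega)] at h5
        have h6 : j + 1 + (m - j + l) = m + 1 + l := by omega
        have h7 : m + 1 + l - m - 1 = l := by omega
        rw [h6, h7] at h5
        rw [← hqz]
        exact h5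
    · intro z hz z' hz' h2 h3
      funext p
      rcases p with p | ⟨⟩
      · exact congrFun h2 p
      · rw [hq z hz, hq z' hz', h3]
    · rintro z ⟨⟨⟨b1, b2⟩, b3⟩, b4, b5, b6, b7⟩
      rw [hdat] at b2
      refine ⟨Sum.elim z.1 fun _ => PowerSeries.coeff m (aeval z.2 (gp s f g)), rfl,
        ⟨b4, b5, b6 rfl, b7 rfl, ?_, b2⟩, fun l hl => ?_⟩
      · have h5 := b1 j hj hjm
        rw [low s f g z.2 j (fun l a b => b4 l a b) j hj le_rfl] at h5
        exact h5
      · rw [eval_B4 s f g gc hgc]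
        change PowerSeries.coeff (j + 1 + l) (aeval z.2 (gp s f g)) = _
        by_cases h1 : j + 1 + l < m
        · rw [if_pos h1]
          exact b1 _ (by omega) h1
        · rw [if_neg h1]
          by_cases h2 : j + 1 + l = m
          · rw [if_pos h2, h2]
            rfl
          · rw [if_neg h2]
            have h5 := b3 (j + 1 + l - m - 1) (by omega)
            have h6 : m + 1 + (j + 1 + l - m - 1) = j + 1 + l := by omega
            rw [h6, hdat] at h5
            exact h5
  · have h2 : gv s (u.1 (Sum.inr true)) (PowerSeries.coeff 0 (aeval u.2 g)) ∈ Xs s := by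
      have := (hQ.2 _ hu.2.2.2.2).1
      exact this
    exact (ne_of_Xs s _ _ h2).1

end VGEAux

open VGAux VGEAux in
theorem stmt_VGE (hU : Stmt_U5) : Stmt_VGE := by
  intro s P ι κ _ _ f g hf hg E _ Q hQ m e hm A
  have hcP := Cy.PD (gp s f g) hQ.1 m e A
  have hset : PD (gp s f g) Q m e A =
      ((PD (gp s f g) Q m e A ∩ TT f g true false m) ∪
        (PD (gp s f g) Q m e A ∩ TT f g false true m)) ∪
      ((PD (gp s f g) Q m e A ∩ TT f g true true m) ∪
        ⋃ j ∈ Finset.Ico 1 m, (PD (gp s f g) Q m e A ∩ TT f g true true j)) := by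
    ext z
    simp only [Set.mem_union, Set.mem_iUnion, Finset.mem_Ico, exists_prop, Set.mem_inter_iff]
    set F := aeval (fun a => z.2 (Sum.inl a)) f with hF
    set G := aeval (fun a => z.2 (Sum.inr a)) g with hG
    constructor
    · intro hz
      obtain ⟨⟨h1, h2⟩, h3⟩ := id hz
      obtain ⟨hX, hne⟩ := hQ.2 _ h2
      have hc : gv s (PowerSeries.coeff 0 F) (PowerSeries.coeff 0 G) ∈ Xs s := by
        simp only [Sum.elim_inr, dat, if_true] at hX
        rw [coeff_gp_zero] at hX
        exact hX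
      obtain ⟨ha, hb⟩ := ne_of_Xs s _ _ hc
      have hHm : PowerSeries.coeff m (aeval z.2 (gp s f g)) ≠ 0 := by
        have := hne rfl
        simpa [dat, ldc] using this
      have hex : ∃ l, 1 ≤ l ∧ l ≤ m ∧
          (PowerSeries.coeff l F ≠ 0 ∨ PowerSeries.coeff l G ≠ 0) := by
        by_contra hcon
        push Not at hcon
        have h5 := low s f g z.2 m (fun l a b => (hcon l a b.le).1) m hm le_rfl
        rw [← hF, ← hG, (hcon m hm le_rfl).1, (hcon m hm le_rfl).2, mul_zero, mul_zero,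
          add_zero] at h5
        exact hHm h5
      obtain ⟨hj1, hj2, hj3⟩ := Nat.find_spec hex
      set j := Nat.find hex with hj
      have hmin : ∀ l, 1 ≤ l → l < j →
          PowerSeries.coeff l F = 0 ∧ PowerSeries.coeff l G = 0 := by
        intro l hl1 hl2
        by_contra hcon
        refine Nat.find_min hex hl2 ⟨hl1, by omega, ?_⟩
        by_contra h5
        push Not at h5
        exact hcon h5
      rcases Nat.lt_or_ge j m with hlt | hge
      · right
        right
        have hlow := low s f g z.2 j (fun l hl1 hl2 => (hmin l hl1 hl2).1) j hj1 le_rfl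
        have hz0 : PowerSeries.coeff j (aeval z.2 (gp s f g)) = 0 := h1 j hj1 hlt
        rw [hz0, ← hF, ← hG] at hlow
        have hFj : PowerSeries.coeff j F ≠ 0 := by
          intro h5
          rcases hj3 with h6 | h6
          · exact h6 h5
          · rw [h5, mul_zero, zero_add] at hlow
            exact mul_ne_zero hb h6 hlow.symm
        have hGj : PowerSeries.coeff j G ≠ 0 := by
          intro h5
          rw [h5, mul_zero, add_zero] at hlow
          exact mul_ne_zero ha hFj hlow.symm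
        exact ⟨j, ⟨hj1, hlt⟩, hz, fun l a b => (hmin l a b).1, fun l a b => (hmin l a b).2,
          fun _ => hFj, fun _ => hGj⟩
      · have hjm : j = m := by omega
        rw [hjm] at hmin hj3
        by_cases hFm : PowerSeries.coeff m F = 0
        · have hGm : PowerSeries.coeff m G ≠ 0 := hj3.resolve_left fun h => h hFm
          left
          right
          refine ⟨hz, fun l a b => ?_, fun l a b => (hmin l a b).2,
            fun h => absurd h (by simp), fun _ => hGm⟩
          simp only [Bool.false_eq_true, if_false] at b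
          rcases Nat.lt_succ_iff_lt_or_eq.1 b with h | rfl
          · exact (hmin l a h).1
          · exact hFm
        · by_cases hGm : PowerSeries.coeff m G = 0
          · left
            left
            refine ⟨hz, fun l a b => (hmin l a b).1, fun l a b => ?_, fun _ => hFm,
              fun h => absurd h (by simp)⟩
            simp only [Bool.false_eq_true, if_false] at b
            rcases Nat.lt_succ_iff_lt_or_eq.1 b with h | rfl
            · exact (hmin l a h).2
            · exact hGm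
          · right
            left
            exact ⟨hz, fun l a b => (hmin l a b).1, fun l a b => (hmin l a b).2, fun _ => hFm,
              fun _ => hGm⟩
    · rintro ((h | h) | (h | ⟨j, -, h⟩)) <;> exact h.1
  have c1 := hcP.inter (Cy.TT (E := E) f g true false m)
  have c2 := hcP.inter (Cy.TT (E := E) f g false true m)
  have c3 := hcP.inter (Cy.TT (E := E) f g true true m)
  have c4 : ∀ j ∈ Finset.Ico 1 m, Cy (PD (gp s f g) Q m e A ∩ TT f g true true j) :=
    fun j _ => hcP.inter (Cy.TT (E := E) f g true true j)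
  have c12 : Cy ((PD (gp s f g) Q m e A ∩ TT f g true false m) ∪
        (PD (gp s f g) Q m e A ∩ TT f g false true m)) := by
    obtain ⟨N, hN⟩ := c1
    obtain ⟨N', hN'⟩ := c2
    exact ⟨max N N', fun M hM => (hN M (by omega)).union (hN' M (by omega))⟩
  have c34 : Cy ((PD (gp s f g) Q m e A ∩ TT f g true true m) ∪
        ⋃ j ∈ Finset.Ico 1 m, (PD (gp s f g) Q m e A ∩ TT f g true true j)) := by
    obtain ⟨N, hN⟩ := c3
    obtain ⟨N', hN'⟩ := Cy.biUnion _ c4
    exact ⟨max N N', fun M hM => (hN M (by omega)).union (hN' M (by omega))⟩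
  rw [hset, vol_uni P c12 c34, vol_uni P c1 c2, vol_uni P c3 (Cy.biUnion _ c4), vol_biU P _ c4,
    vol13 hU P s false f g hf hQ m e hm A, vol13 hU P s true f g hf hQ m e hm A,
    vol2 hU P s f g hg hQ m e hm A, Qx_false, Qx_true]
  · have h5 : ∑ j ∈ Finset.Ico 1 m,
        vol P.rat xq (PD (gp s f g) Q m e A ∩ TT f g true true j) =
        xq ^ e * ∑ j ∈ Finset.Ico 1 m,
          xq ^ (m - j) * vol P.rat xq (DD f g true true (Q4 s Q) j j) := by
      rw [Finset.mul_sum]
      refine Finset.sum_congr rfl fun j hj => ?_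
      obtain ⟨hj1, hj2⟩ := Finset.mem_Ico.1 hj
      rw [vol4 hU P s f g hf hQ m e j hj1 hj2 A, pow_add]
      ring
    rw [h5]
    ring
  · intro j hj j' hj' hne
    obtain ⟨hj1, -⟩ := Finset.mem_Ico.1 hj
    obtain ⟨hj1', -⟩ := Finset.mem_Ico.1 hj'
    rw [Set.disjoint_left]
    rintro z ⟨-, a1, -, a2, -⟩ ⟨-, b1, -, b2, -⟩
    exact hne (order_eq hj1 hj1' a1 (a2 rfl) b1 (b2 rfl))
  · rw [Set.disjoint_left]
    rintro z ⟨-, a1, -⟩ hz
    simp only [Set.mem_iUnion, Finset.mem_Ico, exists_prop] at hz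
    obtain ⟨j, ⟨hj1, hj2⟩, -, -, -, b2, -⟩ := hz
    exact b2 rfl (a1 j hj1 hj2)
  · rw [Set.disjoint_left]
    rintro z ⟨-, a1, a2, a3, a4⟩ ⟨-, b1, b2, b3, b4⟩
    exact a3 rfl (b1 m hm (by simp))
  · rw [Set.disjoint_left]
    rintro z (⟨-, a1, a2, a3, a4⟩ | ⟨-, a1, a2, a3, a4⟩) (⟨-, b1, b2, b3, b4⟩ | hz)
    · exact b4 rfl (a2 m hm (by simp))
    · simp only [Set.mem_iUnion, Finset.mem_Ico, exists_prop] at hz
      obtain ⟨j, ⟨hj1, hj2⟩, -, -, -, b2, -⟩ := hz
      exact b2 rfl (a1 j hj1 hj2)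
    · exact b3 rfl (a1 m hm (by simp))
    · simp only [Set.mem_iUnion, Finset.mem_Ico, exists_prop] at hz
      obtain ⟨j, ⟨hj1, hj2⟩, -, -, -, b2, -⟩ := hz
      exact b2 rfl (a1 j hj1 (by simp; omega))

end Pool.Agent.Mono.RO
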