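import Pool.Agent.Work.Monodromy5.VGC

/-!
# Block VGT: sums, and products over nonzero values: tail
-/

set_option autoImplicit false
set_option linter.unusedSectionVars false

namespace Pool.Agent.Mono.RO

open MvPolynomial TS

open VGAux in
theorem stmt_VGT (hU : Stmt_U5) : Stmt_VGT := by
  intro s P ι κ _ _ f g hf E _ Q hQ m
  set T : ℕ → Set ((E → ℂ) × (ι ⊕ κ → PowerSeries ℂ)) := fun j =>
    Sy s f g (CC g true (Q6 s Q) j) j (m - j) 0 with hT
  have hset : SD (gp s f g) false Q m =
      DD f g false false (Q5 s Q) m m ∪ ⋃ j ∈ Finset.Icc 1 m, T j := by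
    ext z
    simp only [Set.mem_union, Set.mem_iUnion, Finset.mem_Icc, exists_prop]
    set F := aeval (fun a => z.2 (Sum.inl a)) f with hF
    set G := aeval (fun a => z.2 (Sum.inr a)) g with hG
    constructor
    · rintro ⟨h1, h2⟩
      have hc : gv s (PowerSeries.coeff 0 F) (PowerSeries.coeff 0 G) ∈ Xs s := by
        have := (hQ.2 _ h2).1
        simp only [Sum.elim_inr, dat, if_true] at this
        rw [coeff_gp_zero] at this
        exact this
      obtain ⟨ha, hb⟩ := ne_of_Xs s _ _ hc
      have hdat : dat false m (aeval z.2 (gp s f g)) = fun b : Bool => if b then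
          gv s (PowerSeries.coeff 0 F) (PowerSeries.coeff 0 G) else 0 := by
        funext b
        rcases b with _ | _
        · simp [dat, ldc]
        · simp only [dat, if_true]
          rw [coeff_gp_zero]
      rw [hdat] at h2
      by_cases hex : ∃ l, 1 ≤ l ∧ l ≤ m ∧
          (PowerSeries.coeff l F ≠ 0 ∨ PowerSeries.coeff l G ≠ 0)
      · right
        obtain ⟨hj1, hj2, hj3⟩ := Nat.find_spec hex
        set j := Nat.find hex with hj
        have hmin : ∀ l, 1 ≤ l → l < j →
            PowerSeries.coeff l F = 0 ∧ PowerSeries.coeff l G = 0 := by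
          intro l hl1 hl2
          by_contra hcon
          refine Nat.find_min hex hl2 ⟨hl1, by omega, ?_⟩
          by_contra h5
          push Not at h5
          exact hcon h5
        have hlow := low s f g z.2 j (fun l hl1 hl2 => (hmin l hl1 hl2).1) j hj1 le_rfl
        have hz : PowerSeries.coeff j (aeval z.2 (gp s f g)) = 0 :=
          h1 j hj1 (by simp only [Bool.false_eq_true, if_false]; omega)
        rw [hz, ← hF, ← hG] at hlow
        have hFj : PowerSeries.coeff j F ≠ 0 := by
          intro h5
          rcases hj3 with h6 | h6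
          · exact h6 h5
          · rw [h5, mul_zero, zero_add] at hlow
            exact mul_ne_zero hb h6 hlow.symm
        have hGj : PowerSeries.coeff j G ≠ 0 := by
          intro h5
          rw [h5, mul_zero, add_zero] at hlow
          exact mul_ne_zero ha hFj hlow.symm
        refine ⟨j, ⟨hj1, hj2⟩, ⟨fun l hl1 hl2 => (hmin l hl1 hl2).1,
          fun l hl1 hl2 => (hmin l hl1 hl2).2, hFj, hGj, hlow.symm, h2⟩, fun l hl => ?_⟩
        rw [Pi.zero_apply, map_zero]
        exact h1 _ (by omega) (by simp only [Bool.false_eq_true, if_false]; omega)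
      · left
        have hall : ∀ l, 1 ≤ l → l < m + 1 →
            PowerSeries.coeff l F = 0 ∧ PowerSeries.coeff l G = 0 := by
          intro l hl1 hl2
          by_contra hcon
          refine hex ⟨l, hl1, by omega, ?_⟩
          by_contra h5
          push Not at h5
          exact hcon h5
        exact ⟨fun l hl1 hl2 => (hall l hl1 hl2).1, fun l hl1 hl2 => (hall l hl1 hl2).2, h2⟩
    · have hdat : dat false m (aeval z.2 (gp s f g)) = fun b : Bool => if b then
          gv s (PowerSeries.coeff 0 F) (PowerSeries.coeff 0 G) else 0 := by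
        funext b
        rcases b with _ | _
        · simp [dat, ldc]
        · simp only [dat, if_true]
          rw [coeff_gp_zero]
      rintro (⟨h1, h2, h3⟩ | ⟨j, ⟨hj1, hj2⟩, ⟨h1, h2, hFj, hGj, h0, h3⟩, h4⟩)
      · refine ⟨fun l hl1 hl2 => ?_, ?_⟩
        · rw [low s f g z.2 (m + 1) (fun l a b => h1 l a b) l hl1
            (by simp only [Bool.false_eq_true, if_false] at hl2; omega), ← hF, ← hG,
            h1 l hl1 hl2, h2 l hl1 hl2, mul_zero, mul_zero, add_zero]
        · rw [hdat]
          exact h3
      · have h2' : cut true j G := h2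
        refine ⟨fun l hl1 hl2 => ?_, ?_⟩
        · simp only [Bool.false_eq_true, if_false] at hl2
          rcases lt_trichotomy l j with h | h | h
          · rw [low s f g z.2 j (fun l a b => h1 l a b) l hl1 h.le, ← hF, ← hG,
              h1 l hl1 h, h2' l hl1 h, mul_zero, mul_zero, add_zero]
          · subst h
            rw [low s f g z.2 l (fun l a b => h1 l a b) l hl1 le_rfl]
            exact h0
          · have h5 := h4 (l - j - 1) (by omega)
            rw [Pi.zero_apply, map_zero] at h5
            have h6 : j + 1 + (l - j - 1) = l := by omega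
            rw [h6] at h5
            exact h5
        · rw [hdat]
          exact h3
  have hcT : ∀ j ∈ Finset.Icc 1 m, Cy (T j) := fun j _ =>
    Cy.Sy s f g (Cy.CC g true (con_Q6 s hQ.1) j) j (m - j) 0
  rw [hset, vol_uni P (Cy.DD f g false false (con_Q5 s hQ.1) m m) (Cy.biUnion _ hcT),
    vol_biU P _ hcT]
  · congr 1
    refine Finset.sum_congr rfl fun j hj => ?_
    obtain ⟨hj1, hj2⟩ := Finset.mem_Icc.1 hj
    have h1 := solve hU P s f g hf (Cy.CC g true (con_Q6 s hQ.1) j) (fun u hu => hu.2.1)
      (fun u hu => ?_) j (m - j) hj1 0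
    · rw [Sx_CC] at h1
      exact h1
    · have h2 : gv s (u.1 (Sum.inr true)) (PowerSeries.coeff 0 (aeval u.2 g)) ∈ Xs s := by
        have := (hQ.2 _ hu.2.2.2.2).1
        exact this
      exact (ne_of_Xs s _ _ h2).1
  · intro j hj j' hj' hne
    obtain ⟨hj1, -⟩ := Finset.mem_Icc.1 hj
    obtain ⟨hj1', -⟩ := Finset.mem_Icc.1 hj'
    rw [Set.disjoint_left]
    rintro z ⟨⟨a1, -, a2, -⟩, -⟩ ⟨⟨b1, -, b2, -⟩, -⟩
    exact hne (order_eq hj1 hj1' a1 a2 b1 b2)
  · rw [Set.disjoint_left]
    rintro z ⟨a1, -⟩ hz
    simp only [Set.mem_iUnion, Finset.mem_Icc, exists_prop] at hz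
    obtain ⟨j, ⟨hj1, hj2⟩, ⟨b1, -, b2, -⟩, -⟩ := hz
    exact b2 (a1 j hj1 (by simp only [Bool.false_eq_true, if_false]; omega))

end Pool.Agent.Mono.RO
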