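import Pool.Agent.Work.Monodromy5.TG5H
import Pool.Agent.Work.Monodromy5.TG5C
import Pool.Agent.Work.Monodromy4.Q1
import Pool.Agent.Work.Monodromy4.Q2
import Pool.Agent.Work.Monodromy4.Q3
import Pool.Agent.Work.Monodromy5.P5
import Pool.Agent.Work.Monodromy5.U5
import Pool.Agent.Work.Monodromy5.VGE
import Pool.Agent.Work.Monodromy5.VGT

/-!
# Block TG5: sums, and products over nonzero values
-/

set_option autoImplicit false
set_option linter.unusedSectionVars false

namespace Pool.Agent.Mono.RO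

open MvPolynomial TS TS.VAAux M5Aux

namespace TG5Aux

theorem con_Xs {α : Type} {g : (α → ℂ) → ℂ} (s : Bool) (hg : IP g) :
    Constructible {x | g x ∈ Xs s} := by
  cases s
  · have h := con_ne hg
    have h2 : {x | g x ∈ Xs false} = {x | g x ≠ 0} := by
      ext x
      simp [Xs]
    rw [h2]
    exact h
  · have h2 : {x | g x ∈ Xs true} = Set.univ := by
      ext x
      simp [Xs]
    rw [h2]
    exact Constructible.univ

theorem mkHT_ok (s : Bool) {G G' : Fam2} (hG : Constructible G.S) (hG' : Constructible G'.S)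
    (x : K) : Constructible (mkHT s G G' x).H ∧
      ∀ τ ∈ (mkHT s G G' x).H, eval τ (mkHT s G G' x).v ∈ Xs s := by
  constructor
  · refine (Constructible.comap _ hG).and ((Constructible.comap _ hG').and (con_Xs s ?_))
    exact IP.gv s (IP.ev _ fun a => IP.coord _) (IP.ev _ fun a => IP.coord _)
  · intro τ hτ
    have h1 : ∀ τ : G.σ ⊕ G'.σ → ℂ, eval τ (gvP s (rename Sum.inl G.v) (rename Sum.inr G'.v)) =
        gv s (eval (fun x => τ (Sum.inl x)) G.v) (eval (fun x => τ (Sum.inr x)) G'.v) := by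
      intro τ
      cases s <;> simp [gvP, gv, eval_rename, Function.comp_def]
    have h2 := h1 τ
    have h3 : eval τ (mkHT s G G' x).v =
        gv s (eval (fun x => τ (Sum.inl x)) G.v) (eval (fun x => τ (Sum.inr x)) G'.v) := h2
    rw [h3]
    exact hτ.2.2

theorem eseq_mod' {Λ : Set ℚ} {κ : ℕ → K} (h : ESeq Λ κ) :
    ESeq Λ fun m => if m = 0 then 0 else κ m := by
  obtain ⟨-, q2, -, q4, -, -, -⟩ := stmt_Q1
  have h1 := q2 Λ _ _ h (q4 Λ (fun m => if m = 0 then -κ 0 else 0) 1
    fun m hm => if_neg (by omega))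
  refine cast ?_ h1
  congr 1
  funext m
  by_cases hm : m = 0
  · subst hm
    simp
  · simp [hm]

theorem eseq_KK (s : Bool) (P : HodgeMeasure) {ts ts' : ℂ → List Fam} {Λ Λ' : Set ℚ} {c c' : ℂ}
    (h : ∀ t ∈ ts c, ESeq Λ t.κ) (h' : ∀ t ∈ ts' c', ESeq Λ' t.κ) :
    ESeq (sumE Λ Λ') (KK s P ts ts' c c') := by
  obtain ⟨-, -, q3, -, -, -, -⟩ := stmt_Q1
  have h1 : ESeq (sumE Λ Λ') fun j => DS (ts c) (ts' c') fun t t' =>
      NN s P c c' t t' * (t.κ j * t'.κ j) := by
    refine eseq_lsum _ (fun t j => ((ts' c').map fun t' =>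
      NN s P c c' t t' * (t.κ j * t'.κ j)).sum) (ts c) ?_
    intro t ht
    refine eseq_lsum _ (fun t' j => NN s P c c' t t' * (t.κ j * t'.κ j)) (ts' c') ?_
    intro t' ht'
    exact q3 _ _ _ (stmt_Q2 _ _ _ _ (h t ht) (h' t' ht'))
  exact eseq_mod' h1

end TG5Aux

open TG5Aux

theorem stmt_TG5' (hP5 : Stmt_P5) (hM5 : Stmt_M5) (hVGE : Stmt_VGE) (hVGT : Stmt_VGT) :
    Stmt_TG5 := by
  classical
  intro s P ι κ _ _ f g Λ Λ' hΛ hΛ' hf hg
  obtain ⟨hs, crit, ts, b, hE1, hEf, hTf, hUf⟩ := hf
  obtain ⟨hs', crit', ts', b', hE1', hEg, hTg, hUg⟩ := hg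
  have hC : Stmt_TG5C := stmt_TG5C
  have hD : Stmt_TG5D := stmt_TG5D
  obtain ⟨q1, q2, q3, -, -, -, -⟩ := stmt_Q1
  -- the choice of `a`
  have hQ4 : ∀ c ∈ crit, ∀ c' ∈ crit', ∃ x : K, ESeq (sumE (Λ c) (Λ' c')) fun m =>
      (∑ j ∈ Finset.range m, KK s P ts ts' c c' j * xq ^ (m - j)) - x * xq ^ m := by
    intro c hc c' hc'
    refine stmt_Q4 _ _ ?_ (eseq_KK s P (hE1 c hc).1 (hE1' c' hc').1)
    rintro r ⟨x, hx, y, hy, rfl⟩
    exact add_pos (Set.mem_Ioi.1 (hΛ c hx)) (Set.mem_Ioi.1 (hΛ' c' hy))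
  set a : ℂ → ℂ → K := fun c c' => if h : c ∈ crit ∧ c' ∈ crit' then
    (hQ4 c h.1 c' h.2).choose else 0 with ha
  have haS : ∀ c ∈ crit, ∀ c' ∈ crit', ESeq (sumE (Λ c) (Λ' c')) (seqN s P ts ts' a c c') := by
    intro c hc c' hc'
    have h1 := (hQ4 c hc c' hc').choose_spec
    have h2 : a c c' = (hQ4 c hc c' hc').choose := by
      rw [ha]
      exact dif_pos (⟨hc, hc'⟩ : c ∈ crit ∧ c' ∈ crit')
    unfold seqN
    rw [h2]
    exact h1
  set I := Itm hs crit with hI
  set I' := Itm hs' crit' with hI'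
  have hlist : ∀ c ∈ crit, ∀ c' ∈ crit', sumE (Λ c) (Λ' c') ⊆
      {r | ∃ c0 c0', gv s c0 c0' = gv s c c' ∧ r ∈ sumE (Λ c0) (Λ' c0')} :=
    fun c _ c' _ r hr => ⟨c, c', rfl, hr⟩
  refine reg_of_lists
    (I.flatMap fun i => I'.map fun i' => mkHT s (tlI b i) (tlI b' i') (lamN b b' a i i'))
    (I.flatMap fun i => I'.flatMap fun i' => LL s P ts ts' b b' a i i')
    (I.flatMap fun i => I'.flatMap fun i' => LL' s P ts ts' b b' a i i') ?_ ?_ ?_ ?_ ?_ ?_
  · intro h hh
    obtain ⟨i, hi, hh⟩ := List.mem_flatMap.1 hh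
    obtain ⟨i', hi', rfl⟩ := List.mem_map.1 hh
    exact mkHT_ok s (tl_con hTf hi) (tl_con hTg hi') _
  · intro x hx hxY
    obtain ⟨i, hi, hx⟩ := List.mem_flatMap.1 hx
    obtain ⟨i', hi', hx⟩ := List.mem_flatMap.1 hx
    rcases i with h | c
    · exact absurd hx (List.not_mem_nil)
    · rcases i' with h' | c'
      · exact absurd hx (List.not_mem_nil)
      · have hc := mem_crit hi
        have hc' := mem_crit hi'
        have hx' : x ∈ LLc s P ts ts' b b' a c c' := hx
        unfold LLc at hx'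
        rcases List.mem_append.1 hx' with hx | hx
        · obtain ⟨t, ht, rfl⟩ := List.mem_map.1 hx
          obtain ⟨h1, h2⟩ := atv_ok hEf hc ht
          refine ⟨q1 _ _ _ (hlist c hc c' hc') (stmt_Q2 _ _ _ _ ((hE1 c hc).1 t ht)
            (hE1' c' hc').2), h1, ?_⟩
          intro τ hτ
          have h3 : ∀ τ : t.σ → ℂ, eval τ (C (al s c c') * t.u) = al s c c' * eval τ t.u := by
            intro τ
            rw [map_mul, eval_C]
          have h4 : eval τ (A1 s c c' t fun m => t.κ m * b' c' m).u = al s c c' * eval τ t.u :=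
            h3 τ
          change eval τ (A1 s c c' t fun m => t.κ m * b' c' m).u ≠ 0
          rw [h4]
          exact mul_ne_zero (TG5Aux.al_ne hxY) (h2 τ hτ)
        · rcases List.mem_append.1 hx with hx | hx
          · obtain ⟨t, ht, rfl⟩ := List.mem_map.1 hx
            obtain ⟨h1, h2⟩ := atv_ok hEg hc' ht
            refine ⟨q1 _ _ _ (hlist c hc c' hc') (stmt_Q2 _ _ _ _ (hE1 c hc).2
              ((hE1' c' hc').1 t ht)), h1, ?_⟩
            intro τ hτ
            have h3 : ∀ τ : t.σ → ℂ, eval τ (C (be s c c') * t.u) = be s c c' * eval τ t.u := by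
              intro τ
              rw [map_mul, eval_C]
            have h4 : eval τ (A2 s c c' t fun m => b c m * t.κ m).u = be s c c' * eval τ t.u :=
              h3 τ
            change eval τ (A2 s c c' t fun m => b c m * t.κ m).u ≠ 0
            rw [h4]
            exact mul_ne_zero (TG5Aux.be_ne hxY) (h2 τ hτ)
          · rcases List.mem_append.1 hx with hx | hx
            · obtain ⟨t, ht, hx⟩ := List.mem_flatMap.1 hx
              obtain ⟨t', ht', rfl⟩ := List.mem_map.1 hx
              obtain ⟨h1, h2⟩ := atv_ok hEf hc ht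
              obtain ⟨h1', h2'⟩ := atv_ok hEg hc' ht'
              refine ⟨q1 _ _ _ (hlist c hc c' hc') (stmt_Q2 _ _ _ _ ((hE1 c hc).1 t ht)
                ((hE1' c' hc').1 t' ht')), ?_, ?_⟩
              · refine ((Constructible.comap _ h1).and (Constructible.comap _ h1')).and
                  (con_ne ?_)
                exact ((IP.const _).mul (IP.ev _ fun a => IP.coord _)).add
                  ((IP.const _).mul (IP.ev _ fun a => IP.coord _))
              · intro τ hτ
                have h3 : ∀ τ : t.σ ⊕ t'.σ → ℂ, eval τ (C (al s c c') * rename Sum.inl t.u +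
                    C (be s c c') * rename Sum.inr t'.u) =
                    al s c c' * eval (fun x => τ (Sum.inl x)) t.u +
                      be s c c' * eval (fun x => τ (Sum.inr x)) t'.u := by
                  intro τ
                  rw [map_add, map_mul, map_mul, eval_C, eval_C, eval_rename, eval_rename]
                  rfl
                have h4 : eval τ (A3 s c c' t t' fun m => t.κ m * t'.κ m).u =
                    al s c c' * eval (fun x => τ (Sum.inl x)) t.u +
                      be s c c' * eval (fun x => τ (Sum.inr x)) t'.u := h3 τ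
                change eval τ (A3 s c c' t t' fun m => t.κ m * t'.κ m).u ≠ 0
                rw [h4]
                exact hτ.2
            · have hx2 : x = (gv s c c', A4 (seqN s P ts ts' a c c')) := by simpa using hx
              subst hx2
              refine ⟨q1 _ _ _ (hlist c hc c' hc') (haS c hc c' hc'), con_ne0, ?_⟩
              intro τ hτ
              have h3 : ∀ τ : Unit → ℂ, eval τ (X () : MvPolynomial Unit ℂ) = τ () :=
                fun τ => eval_X _
              have h4 : eval τ (A4 (seqN s P ts ts' a c c')).u = (τ : Unit → ℂ) () := h3 τ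
              change eval τ (A4 (seqN s P ts ts' a c c')).u ≠ 0
              rw [h4]
              exact hτ
  · intro x hx hxY
    obtain ⟨i, hi, hx⟩ := List.mem_flatMap.1 hx
    obtain ⟨i', hi', hx⟩ := List.mem_flatMap.1 hx
    rcases i with h | c
    · exact absurd hx (List.not_mem_nil)
    · rcases i' with h' | c'
      · exact absurd hx (List.not_mem_nil)
      · have hc := mem_crit hi
        have hc' := mem_crit hi'
        have hx2 : x = (gv s c c', fun m => b c m * b' c' m + (KK s P ts ts' c c' m +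
          seqN s P ts ts' a c c' m)) := List.mem_singleton.1 hx
        subst hx2
        refine q1 _ _ _ (hlist c hc c' hc') (q2 _ _ _ (stmt_Q2 _ _ _ _ (hE1 c hc).2
          (hE1' c' hc').2) (q2 _ _ _ (eseq_KK s P (hE1 c hc).1 (hE1' c' hc').1)
            (haS c hc c' hc')))
  · -- exact
    intro E _ Q hQ m hm
    have h0 : PD (gp s f g) Q m 0 (fun _ => 0) = SD (gp s f g) true Q m := by
      ext z
      simp [PD]
    have hV := hVGE s P ι κ f g hUf hUg E Q hQ m 0 hm (fun _ => 0)
    rw [h0, pow_zero, one_mul] at hV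
    rw [hV]
    have v1 : vol P.rat xq (DD f g true false (Q1 s Q) m m) = DS I I' fun i i' =>
        ((exI ts i).map fun G => G.κ m * (tlI b' i').κ m * G.cl2 (tlI b' i') P (Q1 s Q)).sum := by
      rw [hP5 P ι κ f g true false _ _ hEf hTg E (Q1 s Q) (con_Q1 hQ.1)
        (fun z hz => ⟨fun _ => hz.1, fun h => by simp at h⟩) m m (fun _ => hm)
        (fun h => by simp at h)]
      change DS (exF hs crit ts) (tlF hs' crit' b') _ = _
      rw [exF_eq, tlF_eq, DS_map_right, DS_flat_left]
    have v2 : vol P.rat xq (DD f g false true (Q2 s Q) m m) = DS I I' fun i i' =>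
        ((exI ts' i').map fun G' => (tlI b i).κ m * G'.κ m *
          (tlI b i).cl2 G' P (Q2 s Q)).sum := by
      rw [hP5 P ι κ f g false true _ _ hTf hEg E (Q2 s Q) (con_Q2 hQ.1)
        (fun z hz => ⟨fun h => by simp at h, fun _ => hz.1⟩) m m (fun h => by simp at h)
        (fun _ => hm)]
      change DS (tlF hs crit b) (exF hs' crit' ts') _ = _
      rw [exF_eq, tlF_eq, DS_map_left, DS_flat_right]
    have v3 : vol P.rat xq (DD f g true true (Q3 s Q) m m) = DS I I' fun i i' =>
        DS (exI ts i) (exI ts' i') (fun G G' => G.κ m * G'.κ m * G.cl2 G' P (Q3 s Q)) := by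
      rw [hP5 P ι κ f g true true _ _ hEf hEg E (Q3 s Q) (con_Q3 hQ.1)
        (fun z hz => ⟨fun _ => hz.1, fun _ => hz.2.1⟩) m m (fun _ => hm) (fun _ => hm)]
      change DS (exF hs crit ts) (exF hs' crit' ts') _ = _
      rw [exF_eq, exF_eq, DS_flat]
    have v4 : ∑ j ∈ Finset.Ico 1 m, xq ^ (m - j) *
        vol P.rat xq (DD f g true true (Q4 s Q) j j) = DS I I' fun i i' =>
        ∑ j ∈ Finset.Ico 1 m, xq ^ (m - j) * DS (exI ts i) (exI ts' i')
          (fun G G' => G.κ j * G'.κ j * G.cl2 G' P (QC s (BQ Q))) := by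
      rw [← DS_finset]
      refine Finset.sum_congr rfl fun j hj => ?_
      rw [Finset.mem_Ico] at hj
      rw [DS_mul]
      congr 1
      rw [Q4_eq, hP5 P ι κ f g true true _ _ hEf hEg (E ⊕ Unit) (QC s (BQ Q))
        (con_QC (con_BQ hQ.1)) (fun z hz => ⟨fun _ => hz.1, fun _ => hz.2.1⟩) j j
        (fun _ => hj.1) (fun _ => hj.1)]
      change DS (exF hs crit ts) (exF hs' crit' ts') _ = _
      rw [exF_eq, exF_eq, DS_flat]
    rw [v1, v2, v3, v4, ← DS_add, ← DS_add, ← DS_add, sum_pairs, sum_pairs', ← DS_add]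
    apply DS_congr
    intro i hi i' hi'
    rw [pair_all (s := s) a hC hM5 hD hEf hTf hEg hTg hi hi' hQ m hm]
    congr 1
    obtain ⟨c1, -⟩ := hC s P
    rw [(c1 (tlI b i) (tlI b' i') (lamN b b' a i i') (tl_con hTf hi) (tl_con hTg hi') E Q).1 hQ]
    rfl
  · -- tail
    intro E _ Q hQ m
    rw [hVGT s P ι κ f g hUf E Q hQ m]
    have v1 : vol P.rat xq (DD f g false false (Q5 s Q) m m) = DS I I' fun i i' =>
        (tlI b i).κ m * (tlI b' i').κ m * BC s P (tlI b i) (tlI b' i') (BT Q) := by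
      rw [hP5 P ι κ f g false false _ _ hTf hTg E (Q5 s Q) (con_Q5 hQ.1)
        (fun z hz => ⟨fun h => by simp at h, fun h => by simp at h⟩) m m
        (fun h => by simp at h) (fun h => by simp at h)]
      change DS (tlF hs crit b) (tlF hs' crit' b') _ = _
      rw [tlF_eq, tlF_eq, DS_map_left, DS_map_right]
      rfl
    have v4 : ∑ j ∈ Finset.Icc 1 m, xq ^ (m - j) *
        vol P.rat xq (DD f g true true (Q6 s Q) j j) = DS I I' fun i i' =>
        ∑ j ∈ Finset.Icc 1 m, xq ^ (m - j) * DS (exI ts i) (exI ts' i')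
          (fun G G' => G.κ j * G'.κ j * G.cl2 G' P (QC s (BT Q))) := by
      rw [← DS_finset]
      refine Finset.sum_congr rfl fun j hj => ?_
      rw [Finset.mem_Icc] at hj
      rw [DS_mul]
      congr 1
      rw [Q6_eq, hP5 P ι κ f g true true _ _ hEf hEg E (QC s (BT Q))
        (con_QC (con_BT hQ.1)) (fun z hz => ⟨fun _ => hz.1, fun _ => hz.2.1⟩) j j
        (fun _ => hj.1) (fun _ => hj.1)]
      change DS (exF hs crit ts) (exF hs' crit' ts') _ = _
      rw [exF_eq, exF_eq, DS_flat]
    rw [v1, v4, ← DS_add, sum_pairs, sum_pairs', ← DS_add]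
    apply DS_congr
    intro i hi i' hi'
    rw [tail_all (s := s) a hC hM5 hD hEf hTf hEg hTg hi hi' hQ m]
    congr 1
    obtain ⟨c1, -⟩ := hC s P
    rw [(c1 (tlI b i) (tlI b' i') (lamN b b' a i i') (tl_con hTf hi) (tl_con hTg hi') E Q).2 hQ]
    rfl
  · -- uniformity
    intro E _ Q hQ i e hi A
    have h0 : PD (gp s f g) Q i 0 (fun _ => 0) = SD (gp s f g) true Q i := by
      ext z
      simp [PD]
    have hV := hVGE s P ι κ f g hUf hUg E Q hQ i 0 hi (fun _ => 0)
    rw [h0, pow_zero, one_mul] at hV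
    rw [hV]
    exact hVGE s P ι κ f g hUf hUg E Q hQ i e hi A

theorem stmt_TG5 : Stmt_TG5 :=
  stmt_TG5' stmt_P5 stmt_M5 (stmt_VGE stmt_U5) (stmt_VGT stmt_U5)

end Pool.Agent.Mono.RO
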