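import Pool.Agent.Work.Monodromy.Interface5
import Pool.Agent.Work.Monodromy4.TP
import Pool.Agent.Work.Monodromy.YM
import Pool.Agent.Work.Monodromy.YC

/-!
# Block TZ5 (helper98): products over the value `0`
-/

set_option autoImplicit false
set_option linter.unusedSectionVars false

namespace Pool.Agent.Mono.RO

open MvPolynomial TS TS.TKAux TS.TPAux

namespace TZ5Aux

/-! ## Pairs of families -/

/-- the four values of a pair of families -/
noncomputable def four (G G' : Fam2) : Fin 4 → MvPolynomial (G.σ ⊕ G'.σ) ℂ :=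
  ![rename Sum.inl G.v, rename Sum.inl G.u, rename Sum.inr G'.v, rename Sum.inr G'.u]

theorem eval_four (G G' : Fam2) (τ : G.σ ⊕ G'.σ → ℂ) :
    (fun k => eval τ (four G G' k)) = ![eval (fun s => τ (Sum.inl s)) G.v,
      eval (fun s => τ (Sum.inl s)) G.u, eval (fun s => τ (Sum.inr s)) G'.v,
      eval (fun s => τ (Sum.inr s)) G'.u] := by
  funext k
  fin_cases k <;> simp [four, eval_rename, Function.comp_def]

/-- the parameters of pairs -/
def S2 (G G' : Fam2) (S0 : Set (Fin 4 → ℂ)) : Set (G.σ ⊕ G'.σ → ℂ) :=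
  {τ | (fun s => τ (Sum.inl s)) ∈ G.S ∧ (fun s => τ (Sum.inr s)) ∈ G'.S ∧
    (fun k => eval τ (four G G' k)) ∈ S0}

theorem con_S2 {G G' : Fam2} (h : Constructible G.S) (h' : Constructible G'.S)
    {S0 : Set (Fin 4 → ℂ)} (h0 : Constructible S0) : Constructible (S2 G G' S0) :=
  cand (preX Sum.inl h) (cand (preX Sum.inr h') (TKAux.pre (four G G') h0))

/-- a family of pairs -/
noncomputable def mkF (G G' : Fam2) (S0 : Set (Fin 4 → ℂ)) (U : MvPolynomial (Fin 4) ℂ)
    (κ : ℕ → K) : Fam where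
  σ := G.σ ⊕ G'.σ
  fin := by
    have := G.fin
    have := G'.fin
    infer_instance
  S := S2 G G' S0
  u := bind₁ (four G G') U
  κ := κ

theorem eval_bind {σ τ : Type} (ψ : σ → MvPolynomial τ ℂ) (U : MvPolynomial σ ℂ) (v : τ → ℂ) :
    eval v (bind₁ ψ U) = eval (fun k => eval v (ψ k)) U := by
  rw [← coe_aeval_eq_eval, ← coe_aeval_eq_eval, RingHom.coe_coe, aeval_bind₁]
  rfl

section

variable {E : Type}

/-- parameter sets for the exact case -/
def QU (S0 : Set (Fin 4 → ℂ)) (U : MvPolynomial (Fin 4) ℂ) (Q : Set (E ⊕ Bool → ℂ)) :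
    Set (E ⊕ Fin 4 → ℂ) :=
  {z | (fun k => z (Sum.inr k)) ∈ S0 ∧ Sum.elim (fun p => z (Sum.inl p))
    (fun b : Bool => if b then 0 else eval (fun k => z (Sum.inr k)) U) ∈ Q}

theorem con_QU {S0 : Set (Fin 4 → ℂ)} (h0 : Constructible S0) (U : MvPolynomial (Fin 4) ℂ)
    {Q : Set (E ⊕ Bool → ℂ)} (hQ : Constructible Q) : Constructible (QU S0 U Q) := by
  refine cand (preX Sum.inr h0) ?_
  have h := TKAux.pre (Sum.elim (fun p => X (Sum.inl p)) (fun b : Bool => if b then 0 else
    rename Sum.inr U) : E ⊕ Bool → MvPolynomial (E ⊕ Fin 4) ℂ) hQ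
  refine cast ?_ h
  congr 1
  ext z
  have h1 : (fun j => eval z ((Sum.elim (fun p => X (Sum.inl p)) (fun b : Bool => if b then 0 else
    rename Sum.inr U) : E ⊕ Bool → MvPolynomial (E ⊕ Fin 4) ℂ) j)) =
      Sum.elim (fun p => z (Sum.inl p))
    (fun b : Bool => if b then 0 else eval (fun k => z (Sum.inr k)) U) := by
    funext j
    rcases j with j | j
    · simp
    · rcases j with _ | _ <;> simp [eval_rename, Function.comp_def]
  change (fun j => eval z ((Sum.elim (fun p => X (Sum.inl p)) (fun b : Bool => if b then 0 else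
    rename Sum.inr U) : E ⊕ Bool → MvPolynomial (E ⊕ Fin 4) ℂ) j)) ∈ Q ↔ _
  rw [h1]
  exact Iff.rfl

theorem cl_mkF (P : HodgeMeasure) [Finite E] (G G' : Fam2) (S0 : Set (Fin 4 → ℂ))
    (U : MvPolynomial (Fin 4) ℂ) (κ : ℕ → K) (Q : Set (E ⊕ Bool → ℂ)) :
    (atv (mkF G G' S0 U κ) 0).cl P Q = G.cl2 G' P (QU S0 U Q) := by
  have := G.fin
  have := G'.fin
  have hset : ∀ z : E ⊕ (G.σ ⊕ G'.σ) → ℂ, ((fun s => z (Sum.inr s)) ∈ S2 G G' S0 ∧
      Sum.elim (fun p => z (Sum.inl p))
        (fun b : Bool => if b then eval (fun s => z (Sum.inr s)) (C 0 : MvPolynomial _ ℂ) else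
          eval (fun s => z (Sum.inr s)) (bind₁ (four G G') U)) ∈ Q) ↔
      ((fun s => z (Sum.inr (Sum.inl s))) ∈ G.S ∧ (fun s => z (Sum.inr (Sum.inr s))) ∈ G'.S ∧
        Sum.elim (fun p => z (Sum.inl p))
          ![eval (fun s => z (Sum.inr (Sum.inl s))) G.v,
            eval (fun s => z (Sum.inr (Sum.inl s))) G.u,
            eval (fun s => z (Sum.inr (Sum.inr s))) G'.v,
            eval (fun s => z (Sum.inr (Sum.inr s))) G'.u] ∈ QU S0 U Q) := by
    intro z
    have h1 := eval_four G G' (fun s => z (Sum.inr s))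
    simp only [S2, QU, Set.mem_ofPred_eq, Sum.elim_inr, Sum.elim_inl, eval_bind, eval_C, and_assoc]
    rw [h1]
  unfold Fam2.cl Fam2.cl2
  congr 1
  ext z
  exact hset z

/-- parameter sets for the tail case -/
def QT (S0 : Set (Fin 4 → ℂ)) (Q : Set (E ⊕ Bool → ℂ)) : Set (E ⊕ Fin 4 → ℂ) :=
  {z | (fun k => z (Sum.inr k)) ∈ S0 ∧ Sum.elim (fun p => z (Sum.inl p)) (fun _ : Bool => 0) ∈ Q}

/-- the points with data `0` -/
def B0 (Q : Set (E ⊕ Bool → ℂ)) : Set (E → ℂ) := {p | Sum.elim p (fun _ : Bool => 0) ∈ Q}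

theorem con_B0 {Q : Set (E ⊕ Bool → ℂ)} (hQ : Constructible Q) : Constructible (B0 Q) := by
  have h := TKAux.pre (Sum.elim (fun p => X p) (fun _ : Bool => 0) :
    E ⊕ Bool → MvPolynomial E ℂ) hQ
  refine cast ?_ h
  congr 1
  ext z
  have h1 : (fun j => eval z ((Sum.elim (fun p => X p) (fun _ : Bool => 0) :
    E ⊕ Bool → MvPolynomial E ℂ) j)) = Sum.elim z (fun _ : Bool => 0) := by
    funext j
    rcases j with j | j <;> simp
  change (fun j => eval z ((Sum.elim (fun p => X p) (fun _ : Bool => 0) :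
    E ⊕ Bool → MvPolynomial E ℂ) j)) ∈ Q ↔ _
  rw [h1]
  exact Iff.rfl

theorem con_QT {S0 : Set (Fin 4 → ℂ)} (h0 : Constructible S0)
    {Q : Set (E ⊕ Bool → ℂ)} (hQ : Constructible Q) : Constructible (QT S0 Q) :=
  cand (preX Sum.inr h0) (preX Sum.inl (con_B0 hQ))

/-- the class of the parameters of pairs -/
noncomputable def val2 (P : HodgeMeasure) (G G' : Fam2) (S0 : Set (Fin 4 → ℂ)) : K :=
  haveI := G.fin
  haveI := G'.fin
  P.rat.val (S2 G G' S0)

theorem cl2_QT (P : HodgeMeasure) [Finite E] {G G' : Fam2} (h : Constructible G.S)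
    (h' : Constructible G'.S) {S0 : Set (Fin 4 → ℂ)} (h0 : Constructible S0)
    {Q : Set (E ⊕ Bool → ℂ)} (hQ : Constructible Q) :
    G.cl2 G' P (QT S0 Q) = P.rat.val (B0 Q) * val2 P G G' S0 := by
  have := G.fin
  have := G'.fin
  have h1 := P.rat.prod (B0 Q) (S2 G G' S0) (con_B0 hQ) (con_S2 h h' h0)
  have hset : ∀ z : E ⊕ (G.σ ⊕ G'.σ) → ℂ,
      ((fun s => z (Sum.inr (Sum.inl s))) ∈ G.S ∧ (fun s => z (Sum.inr (Sum.inr s))) ∈ G'.S ∧
        Sum.elim (fun p => z (Sum.inl p))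
          ![eval (fun s => z (Sum.inr (Sum.inl s))) G.v,
            eval (fun s => z (Sum.inr (Sum.inl s))) G.u,
            eval (fun s => z (Sum.inr (Sum.inr s))) G'.v,
            eval (fun s => z (Sum.inr (Sum.inr s))) G'.u] ∈ QT S0 Q) ↔
      ((fun i => z (Sum.inl i)) ∈ B0 Q ∧ (fun j => z (Sum.inr j)) ∈ S2 G G' S0) := by
    intro z
    have h1 := eval_four G G' (fun s => z (Sum.inr s))
    simp only [S2, QT, B0, Set.mem_ofPred_eq, Sum.elim_inr, Sum.elim_inl]
    rw [h1]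
    constructor
    · rintro ⟨a, b, c, d⟩
      exact ⟨d, a, b, c⟩
    · rintro ⟨d, a, b, c⟩
      exact ⟨a, b, c, d⟩
  unfold Fam2.cl2 val2
  rw [← h1]
  congr 1
  ext z
  exact hset z

theorem cl_ptv (P : HodgeMeasure) [Finite E] (b : ℕ → K) {Q : Set (E ⊕ Bool → ℂ)}
    (hQ : Constructible Q) : (ptv 0 b).cl P Q = P.rat.val (B0 Q) := by
  have h1 := P.rat.prod (B0 Q) (Set.univ : Set (Empty → ℂ)) (con_B0 hQ) Constructible.univ
  rw [P.rat.point, mul_one] at h1
  rw [← h1]
  have hset : ∀ z : E ⊕ Empty → ℂ, ((fun s => z (Sum.inr s)) ∈ (Set.univ : Set (Empty → ℂ)) ∧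
      Sum.elim (fun p => z (Sum.inl p))
        (fun b : Bool => if b then eval (fun s => z (Sum.inr s)) (C 0 : MvPolynomial Empty ℂ) else
          eval (fun s => z (Sum.inr s)) (0 : MvPolynomial Empty ℂ)) ∈ Q) ↔
      ((fun i => z (Sum.inl i)) ∈ B0 Q ∧ (fun j => z (Sum.inr j)) ∈
        (Set.univ : Set (Empty → ℂ))) := by
    intro z
    have h2 : (fun b : Bool => if b then eval (fun s => z (Sum.inr s)) (C 0 : MvPolynomial Empty ℂ)
        else eval (fun s => z (Sum.inr s)) (0 : MvPolynomial Empty ℂ)) = fun _ => 0 := by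
      funext b
      rcases b with _ | _ <;> simp
    rw [h2, and_comm]
    exact Iff.rfl
  unfold Fam2.cl
  congr 1
  ext z
  exact hset z

/-! ## Only the families at the value `0` contribute -/

open Classical in
/-- the coefficients if the value `0` occurs -/
noncomputable def k0 (G : Fam2) : ℕ → K := if ∃ τ ∈ G.S, eval τ G.v = 0 then G.κ else 0

theorem k0_left (P : HodgeMeasure) [Finite E] (G G' : Fam2) {Q : Set (E ⊕ Fin 4 → ℂ)}
    (hQ : ∀ z ∈ Q, z (Sum.inr 0) = 0) (i : ℕ) :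
    G.κ i * G.cl2 G' P Q = k0 G i * G.cl2 G' P Q := by
  have := G.fin
  have := G'.fin
  by_cases h : ∃ τ ∈ G.S, eval τ G.v = 0
  · rw [k0, if_pos h]
  · have h1 : G.cl2 G' P Q = 0 := by
      unfold Fam2.cl2
      rw [← P.rat.val_empty (ι := E ⊕ (G.σ ⊕ G'.σ))]
      congr 1
      ext z
      refine ⟨fun hz => ?_, fun hz => absurd hz (Set.notMem_empty z)⟩
      obtain ⟨h2, -, h3⟩ := hz
      exact (h ⟨_, h2, hQ _ h3⟩).elim
    rw [h1, mul_zero, mul_zero]

theorem k0_right (P : HodgeMeasure) [Finite E] (G G' : Fam2) {Q : Set (E ⊕ Fin 4 → ℂ)}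
    (hQ : ∀ z ∈ Q, z (Sum.inr 2) = 0) (i : ℕ) :
    G'.κ i * G.cl2 G' P Q = k0 G' i * G.cl2 G' P Q := by
  have := G.fin
  have := G'.fin
  by_cases h : ∃ τ ∈ G'.S, eval τ G'.v = 0
  · rw [k0, if_pos h]
  · have h1 : G.cl2 G' P Q = 0 := by
      unfold Fam2.cl2
      rw [← P.rat.val_empty (ι := E ⊕ (G.σ ⊕ G'.σ))]
      congr 1
      ext z
      refine ⟨fun hz => ?_, fun hz => absurd hz (Set.notMem_empty z)⟩
      obtain ⟨-, h2, h3⟩ := hz
      exact (h ⟨_, h2, hQ _ h3⟩).elim
    rw [h1, mul_zero, mul_zero]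

end

/-! ## Sequences -/

theorem eseq_zero (hQ : Stmt_Q1) (Λ : Set ℚ) : ESeq Λ (0 : ℕ → K) :=
  hQ.2.2.2.1 Λ _ 0 fun _ _ => rfl

theorem eseq_pow (hQ : Stmt_Q1) (Λ : Set ℚ) (h : (1 : ℚ) ∈ Λ) (α : K) :
    ESeq Λ fun m => α * xq ^ m := eseq_haar hQ Λ h α

/-- finite modification -/
theorem eseq_mod (hQ : Stmt_Q1) {Λ : Set ℚ} {κ : ℕ → K} (h : ESeq Λ κ) :
    ESeq Λ fun m => if m = 0 then 0 else κ m := by
  obtain ⟨-, q2, -, q4, -, -, -⟩ := hQ
  have h1 := q2 Λ _ _ h (q4 Λ (fun m => if m = 0 then -κ 0 else 0) 1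
    fun m hm => if_neg (by omega))
  refine cast ?_ h1
  congr 1
  funext m
  by_cases hm : m = 0
  · subst hm
    simp
  · simp [hm]

theorem conv_Ico (a b : ℕ → K) (m : ℕ) :
    ∑ i ∈ Finset.range (m + 1), (if i = 0 then 0 else a i) * (if m - i = 0 then 0 else b (m - i)) =
      ∑ i ∈ Finset.Ico 1 m, a i * b (m - i) := by
  refine (Finset.sum_subset (s₁ := Finset.Ico 1 m) ?_ ?_).symm.trans ?_
  · intro i hi
    rw [Finset.mem_Ico] at hi
    rw [Finset.mem_range]
    omega
  · intro i hi hi'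
    rw [Finset.mem_range] at hi
    rw [Finset.mem_Ico] at hi'
    by_cases h0 : i = 0
    · rw [if_pos h0, zero_mul]
    · rw [if_pos (show m - i = 0 by omega), mul_zero]
  · refine Finset.sum_congr rfl fun i hi => ?_
    rw [Finset.mem_Ico] at hi
    rw [if_neg (by omega), if_neg (by omega)]

theorem conv_Icc (a b : ℕ → K) (m : ℕ) :
    ∑ i ∈ Finset.range (m + 1), (if i = 0 then 0 else a i) * b (m - i) =
      ∑ i ∈ Finset.Icc 1 m, a i * b (m - i) := by
  refine (Finset.sum_subset (s₁ := Finset.Icc 1 m) ?_ ?_).symm.trans ?_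
  · intro i hi
    rw [Finset.mem_Icc] at hi
    rw [Finset.mem_range]
    omega
  · intro i hi hi'
    rw [Finset.mem_range] at hi
    rw [Finset.mem_Icc] at hi'
    rw [if_pos (by omega), zero_mul]
  · refine Finset.sum_congr rfl fun i hi => ?_
    rw [Finset.mem_Icc] at hi
    rw [if_neg (by omega)]

theorem eseq_exF (hQ : Stmt_Q1) {hs : List HT} {crit : Finset ℂ} {ts : ℂ → List Fam}
    {Λ : ℂ → Set ℚ} (h : ∀ c ∈ crit, ∀ t ∈ ts c, ESeq (Λ c) t.κ) (G : Fam2)
    (hG : G ∈ exF hs crit ts) : ESeq (Λ 0 ∪ {1}) (k0 G) := by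
  by_cases h0 : ∃ τ ∈ G.S, eval τ G.v = 0
  · rw [k0, if_pos h0]
    rw [exF, List.mem_append] at hG
    rcases hG with hG | hG
    · obtain ⟨t, -, rfl⟩ := List.mem_map.1 hG
      exact eseq_pow hQ _ (Or.inr rfl) t.lam
    · obtain ⟨c, hc, hG⟩ := List.mem_flatMap.1 hG
      obtain ⟨t, ht, rfl⟩ := List.mem_map.1 hG
      obtain ⟨τ, -, hτ⟩ := h0
      have hc0 : c = 0 := (eval_C (f := (τ : t.σ → ℂ)) c).symm.trans hτ
      subst hc0
      exact hQ.1 _ _ _ Set.subset_union_left (h 0 (Finset.mem_toList.1 hc) t ht)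
  · rw [k0, if_neg h0]
    exact eseq_zero hQ _

theorem eseq_tlF (hQ : Stmt_Q1) {hs : List HT} {crit : Finset ℂ} {b : ℂ → ℕ → K}
    {Λ : ℂ → Set ℚ} (h : ∀ c ∈ crit, ESeq (Λ c) (b c)) (G : Fam2)
    (hG : G ∈ tlF hs crit b) : ESeq (Λ 0 ∪ {1}) (k0 G) := by
  by_cases h0 : ∃ τ ∈ G.S, eval τ G.v = 0
  · rw [k0, if_pos h0]
    rw [tlF, List.mem_append] at hG
    rcases hG with hG | hG
    · obtain ⟨t, -, rfl⟩ := List.mem_map.1 hG
      exact eseq_pow hQ _ (Or.inr rfl) t.lam
    · obtain ⟨c, hc, rfl⟩ := List.mem_map.1 hG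
      obtain ⟨τ, -, hτ⟩ := h0
      have hc0 : c = 0 := (eval_C (f := (τ : Empty → ℂ)) c).symm.trans hτ
      subst hc0
      exact hQ.1 _ _ _ Set.subset_union_left (h 0 (Finset.mem_toList.1 hc))
  · rw [k0, if_neg h0]
    exact eseq_zero hQ _

/-! ## The parameter sets -/

def Sa : Set (Fin 4 → ℂ) := {x | x 0 = 0 ∧ x 1 ≠ 0 ∧ x 2 ≠ 0}
def Sb : Set (Fin 4 → ℂ) := {x | x 2 = 0 ∧ x 3 ≠ 0 ∧ x 0 ≠ 0}
def Sc : Set (Fin 4 → ℂ) := {x | x 0 = 0 ∧ x 2 = 0 ∧ x 1 ≠ 0 ∧ x 3 ≠ 0}
def Ta : Set (Fin 4 → ℂ) := {x | x 0 = 0}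
def Tb : Set (Fin 4 → ℂ) := {x | x 0 ≠ 0 ∧ x 2 = 0}
def Tc : Set (Fin 4 → ℂ) := {x | x 0 = 0 ∧ x 2 = 0 ∧ x 1 ≠ 0}

theorem cz (k : Fin 4) : Constructible {x : Fin 4 → ℂ | x k = 0} := by
  have h := Constructible.zero (X k : MvPolynomial (Fin 4) ℂ)
  simpa only [eval_X] using h

theorem cn (k : Fin 4) : Constructible {x : Fin 4 → ℂ | x k ≠ 0} := by
  have h := Constructible.ne (X k : MvPolynomial (Fin 4) ℂ)
  simpa only [eval_X] using h

theorem con_Sa : Constructible Sa := cand (cz 0) (cand (cn 1) (cn 2))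
theorem con_Sb : Constructible Sb := cand (cz 2) (cand (cn 3) (cn 0))
theorem con_Sc : Constructible Sc := cand (cz 0) (cand (cz 2) (cand (cn 1) (cn 3)))
theorem con_Ta : Constructible Ta := cz 0
theorem con_Tb : Constructible Tb := cand (cn 0) (cz 2)
theorem con_Tc : Constructible Tc := cand (cz 0) (cand (cz 2) (cn 1))

/-- the families of the product -/
noncomputable def newTs (Ge Gt Ge' Gt' : List Fam2) : List Fam :=
  (Ge.flatMap fun G => Gt'.map fun G' => mkF G G' Sa (X 1 * X 2) fun m => k0 G m * G'.κ 0) ++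
  (Gt.flatMap fun G => Ge'.map fun G' => mkF G G' Sb (X 0 * X 3) fun m => G.κ 0 * k0 G' m) ++
  (Ge.flatMap fun G => Ge'.map fun G' => mkF G G' Sc (X 1 * X 3)
    fun m => ∑ i ∈ Finset.Ico 1 m, k0 G i * k0 G' (m - i))

/-- the tail coefficients of the product -/
noncomputable def newB (P : HodgeMeasure) (Ge Gt Gt' : List Fam2) (m : ℕ) : K :=
  (Gt.map fun G => (Gt'.map fun G' => (G'.κ 0 * val2 P G G' Ta) * k0 G m).sum).sum +
  (Gt.map fun G => (Gt'.map fun G' => (G.κ 0 * val2 P G G' Tb) * k0 G' m).sum).sum +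
  (Ge.map fun G => (Gt'.map fun G' => val2 P G G' Tc *
    ∑ i ∈ Finset.Icc 1 m, k0 G i * k0 G' (m - i)).sum).sum

end TZ5Aux

open TZ5Aux

theorem stmt_TZ5 (hQ : Stmt_Q1) (hP5 : Stmt_P5) (hVZE : Stmt_VZE) (hVZT : Stmt_VZT) :
    Stmt_TZ5 := by
  classical
  intro P ι κ _ _ f g Λ Λ' hf hg
  obtain ⟨hs, crit, ts, b, hE1, hfe, hft, hfU⟩ := hf
  obtain ⟨hs', crit', ts', b', hE1', hge, hgt, hgU⟩ := hg
  obtain ⟨q1, q2, q3, q4, q5, q6, q7⟩ := id hQ
  set Ge := exF hs crit ts with hGe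
  set Gt := tlF hs crit b with hGt
  set Ge' := exF hs' crit' ts' with hGe'
  set Gt' := tlF hs' crit' b' with hGt'
  have ee : ∀ G ∈ Ge, ESeq (Λ 0 ∪ {1}) (k0 G) := fun G hG =>
    eseq_exF hQ (fun c hc => (hE1 c hc).1) G hG
  have et : ∀ G ∈ Gt, ESeq (Λ 0 ∪ {1}) (k0 G) := fun G hG =>
    eseq_tlF hQ (fun c hc => (hE1 c hc).2) G hG
  have ee' : ∀ G ∈ Ge', ESeq (Λ' 0 ∪ {1}) (k0 G) := fun G hG =>
    eseq_exF hQ (fun c hc => (hE1' c hc).1) G hG
  have et' : ∀ G ∈ Gt', ESeq (Λ' 0 ∪ {1}) (k0 G) := fun G hG =>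
    eseq_tlF hQ (fun c hc => (hE1' c hc).2) G hG
  set Λ'' : Set ℚ := Λ 0 ∪ Λ' 0 ∪ {1} with hΛ
  have s1 : Λ 0 ∪ {1} ⊆ Λ'' := by
    rintro r (hr | hr)
    · exact Or.inl (Or.inl hr)
    · exact Or.inr hr
  have s2 : Λ' 0 ∪ {1} ⊆ Λ'' := by
    rintro r (hr | hr)
    · exact Or.inl (Or.inr hr)
    · exact Or.inr hr
  have s3 : (Λ 0 ∪ {1}) ∪ (Λ' 0 ∪ {1}) ⊆ Λ'' := Set.union_subset s1 s2
  refine ⟨[], {0}, fun _ => newTs Ge Gt Ge' Gt', fun _ => newB P Ge Gt Gt', ?_, ?_, ?_, ?_⟩
  · -- exponents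
    intro c _
    constructor
    · intro t ht
      rw [newTs, List.mem_append, List.mem_append] at ht
      rcases ht with (ht | ht) | ht
      · obtain ⟨G, hG, ht⟩ := List.mem_flatMap.1 ht
        obtain ⟨G', hG', rfl⟩ := List.mem_map.1 ht
        have h1 := q3 _ _ (G'.κ 0) (q1 _ _ _ s1 (ee G hG))
        refine cast ?_ h1
        congr 1
        funext m
        exact mul_comm _ _
      · obtain ⟨G, hG, ht⟩ := List.mem_flatMap.1 ht
        obtain ⟨G', hG', rfl⟩ := List.mem_map.1 ht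
        exact q3 _ _ (G.κ 0) (q1 _ _ _ s2 (ee' G' hG'))
      · obtain ⟨G, hG, ht⟩ := List.mem_flatMap.1 ht
        obtain ⟨G', hG', rfl⟩ := List.mem_map.1 ht
        have h1 := q1 _ _ _ s3 (q6 _ _ _ _ (eseq_mod hQ (ee G hG)) (eseq_mod hQ (ee' G' hG')))
        refine cast ?_ h1
        congr 1
        funext m
        exact conv_Ico _ _ m
    · unfold newB
      refine q2 _ _ _ (q2 _ _ _ ?_ ?_) ?_
      · refine eseq_list hQ _ _ Gt fun G hG => eseq_list hQ _ _ Gt' fun G' hG' => ?_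
        exact q3 _ _ _ (q1 _ _ _ s1 (et G hG))
      · refine eseq_list hQ _ _ Gt fun G hG => eseq_list hQ _ _ Gt' fun G' hG' => ?_
        exact q3 _ _ _ (q1 _ _ _ s2 (et' G' hG'))
      · refine eseq_list hQ _ _ Ge fun G hG => eseq_list hQ _ _ Gt' fun G' hG' => ?_
        refine q3 _ _ _ ?_
        have h1 := q1 _ _ _ s3 (q6 _ _ _ _ (eseq_mod hQ (ee G hG)) (et' G' hG'))
        refine cast ?_ h1
        congr 1
        funext m
        exact conv_Icc _ _ m
  · -- exact
    constructor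
    · intro H hH
      have hH2 : ∃ t ∈ newTs Ge Gt Ge' Gt', H = atv t 0 := by
        simp only [exF, List.map_nil, List.nil_append, Finset.toList_singleton,
          List.flatMap_cons, List.flatMap_nil, List.append_nil, List.mem_map] at hH
        obtain ⟨t, ht, rfl⟩ := hH
        exact ⟨t, ht, rfl⟩
      obtain ⟨t, ht, rfl⟩ := hH2
      have key : ∀ (G G' : Fam2) (S0 : Set (Fin 4 → ℂ)) (U : MvPolynomial (Fin 4) ℂ)
          (k : ℕ → K), Constructible G.S → Constructible G'.S → Constructible S0 →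
          (∀ x ∈ S0, eval x U ≠ 0) → (atv (mkF G G' S0 U k) 0).Ok {0} true := by
        intro G G' S0 U k h1 h2 h3 h4
        refine ⟨con_S2 h1 h2 h3, fun τ hτ => ⟨?_, fun _ => ?_⟩⟩
        · exact eval_C (f := (τ : G.σ ⊕ G'.σ → ℂ)) 0
        · intro h5
          exact h4 _ hτ.2.2 ((eval_bind (four G G') U (τ : G.σ ⊕ G'.σ → ℂ)).symm.trans h5)
      rw [newTs, List.mem_append, List.mem_append] at ht
      rcases ht with (ht | ht) | ht
      · obtain ⟨G, hG, ht⟩ := List.mem_flatMap.1 ht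
        obtain ⟨G', hG', rfl⟩ := List.mem_map.1 ht
        refine key G G' Sa _ _ (hfe.1 G hG).1 (hgt.1 G' hG').1 con_Sa ?_
        intro x hx
        rw [map_mul, eval_X, eval_X]
        exact mul_ne_zero hx.2.1 hx.2.2
      · obtain ⟨G, hG, ht⟩ := List.mem_flatMap.1 ht
        obtain ⟨G', hG', rfl⟩ := List.mem_map.1 ht
        refine key G G' Sb _ _ (hft.1 G hG).1 (hge.1 G' hG').1 con_Sb ?_
        intro x hx
        rw [map_mul, eval_X, eval_X]
        exact mul_ne_zero hx.2.2 hx.2.1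
      · obtain ⟨G, hG, ht⟩ := List.mem_flatMap.1 ht
        obtain ⟨G', hG', rfl⟩ := List.mem_map.1 ht
        refine key G G' Sc _ _ (hfe.1 G hG).1 (hge.1 G' hG').1 con_Sc ?_
        intro x hx
        rw [map_mul, eval_X, eval_X]
        exact mul_ne_zero hx.2.2.1 hx.2.2.2
    · intro E _ Q hQok m hm
      have hm1 : 1 ≤ m := hm rfl
      have h0 := hVZE P ι κ f g hfU hgU E Q hQok m 0 hm1 (fun _ => 0)
      rw [pow_zero, one_mul] at h0
      have hPD : PD (otimes f g) Q m 0 (fun _ => 0) = SD (otimes f g) true Q m := by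
        ext z
        exact ⟨fun h => h.1, fun h => ⟨h, fun l hl => absurd hl (Nat.not_lt_zero l)⟩⟩
      rw [hPD] at h0
      have ea : {z : E ⊕ Fin 4 → ℂ | z (Sum.inr 0) = 0 ∧ z (Sum.inr 1) ≠ 0 ∧
          z (Sum.inr 2) ≠ 0 ∧ Sum.elim (fun p => z (Sum.inl p)) (fun b : Bool => if b then 0 else
            z (Sum.inr 1) * z (Sum.inr 2)) ∈ Q} = QU Sa (X 1 * X 2) Q := by
        ext z
        simp only [QU, Sa, Set.mem_ofPred_eq, map_mul, eval_X, and_assoc]
      have eb : {z : E ⊕ Fin 4 → ℂ | z (Sum.inr 2) = 0 ∧ z (Sum.inr 3) ≠ 0 ∧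
          z (Sum.inr 0) ≠ 0 ∧ Sum.elim (fun p => z (Sum.inl p)) (fun b : Bool => if b then 0 else
            z (Sum.inr 0) * z (Sum.inr 3)) ∈ Q} = QU Sb (X 0 * X 3) Q := by
        ext z
        simp only [QU, Sb, Set.mem_ofPred_eq, map_mul, eval_X, and_assoc]
      have ec : {z : E ⊕ Fin 4 → ℂ | z (Sum.inr 0) = 0 ∧
          z (Sum.inr 2) = 0 ∧ z (Sum.inr 1) ≠ 0 ∧ z (Sum.inr 3) ≠ 0 ∧
          Sum.elim (fun p => z (Sum.inl p)) (fun b : Bool => if b then 0 else
            z (Sum.inr 1) * z (Sum.inr 3)) ∈ Q} = QU Sc (X 1 * X 3) Q := by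
        ext z
        simp only [QU, Sc, Set.mem_ofPred_eq, map_mul, eval_X, and_assoc]
      rw [ea, eb, ec] at h0
      have va := hP5 P ι κ f g true false Ge Gt' hfe hgt E (QU Sa (X 1 * X 2) Q)
        (con_QU con_Sa _ hQok.1) (fun z hz => ⟨fun _ => hz.1.2.1, fun h => absurd h Bool.false_ne_true⟩) m 0
        (fun _ => hm1) (fun h => absurd h Bool.false_ne_true)
      have vb := hP5 P ι κ f g false true Gt Ge' hft hge E (QU Sb (X 0 * X 3) Q)
        (con_QU con_Sb _ hQok.1) (fun z hz => ⟨fun h => absurd h Bool.false_ne_true, fun _ => hz.1.2.1⟩) 0 m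
        (fun h => absurd h Bool.false_ne_true) (fun _ => hm1)
      have vc : ∀ i ∈ Finset.Ico 1 m, vol P.rat xq (DD f g true true (QU Sc (X 1 * X 3) Q) i
          (m - i)) = (Ge.map fun G => (Ge'.map fun G' => G.κ i * G'.κ (m - i) *
            G.cl2 G' P (QU Sc (X 1 * X 3) Q)).sum).sum := by
        intro i hi
        rw [Finset.mem_Ico] at hi
        exact hP5 P ι κ f g true true Ge Ge' hfe hge E (QU Sc (X 1 * X 3) Q)
          (con_QU con_Sc _ hQok.1) (fun z hz => ⟨fun _ => hz.1.2.2.1, fun _ => hz.1.2.2.2⟩) i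
          (m - i) (fun _ => hi.1) (fun _ => by omega)
      rw [h0, va, vb, Finset.sum_congr rfl vc]
      have hlist : ((exF [] {0} fun _ => newTs Ge Gt Ge' Gt').map
          fun G => G.κ m * G.cl P Q).sum =
          ((newTs Ge Gt Ge' Gt').map fun t => t.κ m * (atv t 0).cl P Q).sum := by
        simp only [exF, List.map_nil, List.nil_append, Finset.toList_singleton,
          List.flatMap_cons, List.flatMap_nil, List.append_nil, List.map_map]
        rfl
      rw [hlist, newTs, List.map_append, List.map_append, List.sum_append, List.sum_append,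
        sum_flatMap, sum_flatMap, sum_flatMap]
      congr 1
      · congr 1
        · congr 1
          refine List.map_congr_left fun G hG => ?_
          rw [List.map_map]
          congr 1
          refine List.map_congr_left fun G' hG' => ?_
          rw [Function.comp_apply, cl_mkF]
          change _ = k0 G m * G'.κ 0 * _
          rw [mul_right_comm, k0_left P G G' (fun z hz => hz.1.1) m, mul_right_comm]
        · congr 1
          refine List.map_congr_left fun G hG => ?_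
          rw [List.map_map]
          congr 1
          refine List.map_congr_left fun G' hG' => ?_
          rw [Function.comp_apply, cl_mkF]
          change _ = G.κ 0 * k0 G' m * _
          rw [mul_assoc, k0_right P G G' (fun z hz => hz.1.1) m, mul_assoc]
      · rw [list_sum_comm]
        congr 1
        refine List.map_congr_left fun G hG => ?_
        rw [list_sum_comm, List.map_map]
        congr 1
        refine List.map_congr_left fun G' hG' => ?_
        rw [Function.comp_apply, cl_mkF]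
        change _ = (∑ i ∈ Finset.Ico 1 m, k0 G i * k0 G' (m - i)) * _
        rw [Finset.sum_mul]
        refine Finset.sum_congr rfl fun i _ => ?_
        rw [mul_right_comm, k0_left P G G' (fun z hz => hz.1.1) i, mul_right_comm, mul_assoc,
          k0_right P G G' (fun z hz => hz.1.2.1) (m - i), mul_assoc]
  · -- tail
    constructor
    · intro H hH
      have hH2 : H = ptv 0 (newB P Ge Gt Gt') := by
        simpa only [tlF, List.map_nil, List.nil_append, Finset.toList_singleton,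
          List.map_cons, List.mem_singleton] using hH
      subst hH2
      refine ⟨Constructible.univ, fun τ _ => ⟨?_, fun h => absurd h Bool.false_ne_true⟩⟩
      exact eval_C (f := (τ : Empty → ℂ)) 0
    · intro E _ Q hQok m _
      have h0 := hVZT P ι κ f g E Q hQok m
      have ea : {z : E ⊕ Fin 4 → ℂ | z (Sum.inr 0) = 0 ∧
          Sum.elim (fun p => z (Sum.inl p)) (fun _ : Bool => 0) ∈ Q} = QT Ta Q := rfl
      have eb : {z : E ⊕ Fin 4 → ℂ | z (Sum.inr 0) ≠ 0 ∧ z (Sum.inr 2) = 0 ∧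
          Sum.elim (fun p => z (Sum.inl p)) (fun _ : Bool => 0) ∈ Q} = QT Tb Q := by
        ext z
        simp only [QT, Tb, Set.mem_ofPred_eq, and_assoc]
      have ec : {z : E ⊕ Fin 4 → ℂ | z (Sum.inr 0) = 0 ∧ z (Sum.inr 2) = 0 ∧
          z (Sum.inr 1) ≠ 0 ∧
          Sum.elim (fun p => z (Sum.inl p)) (fun _ : Bool => 0) ∈ Q} = QT Tc Q := by
        ext z
        simp only [QT, Tc, Set.mem_ofPred_eq, and_assoc]
      rw [ea, eb, ec] at h0
      have va := hP5 P ι κ f g false false Gt Gt' hft hgt E (QT Ta Q)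
        (con_QT con_Ta hQok.1) (fun z hz => ⟨fun h => absurd h Bool.false_ne_true, fun h => absurd h Bool.false_ne_true⟩) m 0
        (fun h => absurd h Bool.false_ne_true) (fun h => absurd h Bool.false_ne_true)
      have vb := hP5 P ι κ f g false false Gt Gt' hft hgt E (QT Tb Q)
        (con_QT con_Tb hQok.1) (fun z hz => ⟨fun h => absurd h Bool.false_ne_true, fun h => absurd h Bool.false_ne_true⟩) 0 m
        (fun h => absurd h Bool.false_ne_true) (fun h => absurd h Bool.false_ne_true)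
      have vc : ∀ i ∈ Finset.Icc 1 m, vol P.rat xq (DD f g true false (QT Tc Q) i
          (m - i)) = (Ge.map fun G => (Gt'.map fun G' => G.κ i * G'.κ (m - i) *
            G.cl2 G' P (QT Tc Q)).sum).sum := by
        intro i hi
        rw [Finset.mem_Icc] at hi
        exact hP5 P ι κ f g true false Ge Gt' hfe hgt E (QT Tc Q)
          (con_QT con_Tc hQok.1) (fun z hz => ⟨fun _ => hz.1.2.2, fun h => absurd h Bool.false_ne_true⟩) i
          (m - i) (fun _ => hi.1) (fun h => absurd h Bool.false_ne_true)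
      rw [h0, va, vb, Finset.sum_congr rfl vc]
      have hlist : ((tlF [] {0} fun _ => newB P Ge Gt Gt').map
          fun G => G.κ m * G.cl P Q).sum =
          newB P Ge Gt Gt' m * P.rat.val (B0 Q) := by
        simp only [tlF, List.map_nil, List.nil_append, Finset.toList_singleton,
          List.map_cons, List.sum_cons, List.sum_nil, add_zero]
        rw [cl_ptv P _ hQok.1]
        rfl
      rw [hlist, newB, add_mul, add_mul, ← List.sum_map_mul_right, ← List.sum_map_mul_right,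
        ← List.sum_map_mul_right]
      congr 1
      · congr 1
        · congr 1
          refine List.map_congr_left fun G hG => ?_
          rw [← List.sum_map_mul_right]
          congr 1
          refine List.map_congr_left fun G' hG' => ?_
          rw [mul_right_comm, k0_left P G G' (fun z hz => hz.1) m,
            cl2_QT P (hft.1 G hG).1 (hgt.1 G' hG').1 con_Ta hQok.1]
          ring
        · congr 1
          refine List.map_congr_left fun G hG => ?_
          rw [← List.sum_map_mul_right]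
          congr 1
          refine List.map_congr_left fun G' hG' => ?_
          rw [mul_assoc, k0_right P G G' (fun z hz => hz.1.2) m,
            cl2_QT P (hft.1 G hG).1 (hgt.1 G' hG').1 con_Tb hQok.1]
          ring
      · rw [list_sum_comm]
        congr 1
        refine List.map_congr_left fun G hG => ?_
        rw [list_sum_comm, ← List.sum_map_mul_right]
        congr 1
        refine List.map_congr_left fun G' hG' => ?_
        rw [Finset.mul_sum, Finset.sum_mul]
        refine Finset.sum_congr rfl fun i _ => ?_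
        rw [mul_right_comm, k0_left P G G' (fun z hz => hz.1.1) i, mul_right_comm, mul_assoc,
          k0_right P G G' (fun z hz => hz.1.2.1) (m - i),
          cl2_QT P (hfe.1 G hG).1 (hgt.1 G' hG').1 con_Tc hQok.1]
        ring
  · -- further coefficients
    intro E _ Q hQok m e hm A
    have h0 := hVZE P ι κ f g hfU hgU E Q hQok m e hm A
    have h1 := hVZE P ι κ f g hfU hgU E Q hQok m 0 hm (fun _ => 0)
    rw [pow_zero, one_mul] at h1
    have hPD : PD (otimes f g) Q m 0 (fun _ => 0) = SD (otimes f g) true Q m := by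
      ext z
      exact ⟨fun h => h.1, fun h => ⟨h, fun l hl => absurd hl (Nat.not_lt_zero l)⟩⟩
    rw [hPD] at h1
    rw [h0, h1]

end Pool.Agent.Mono.RO
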