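import Pool.Agent.Work.Monodromy5.VCA

/-!
# Block VCE (helper61): compositions `p(f(x))`, exact, with prescribed further coefficients
-/

set_option autoImplicit false
set_option linter.unusedSectionVars false

namespace Pool.Agent.Mono.RO

open MvPolynomial TS VGAux VCAux TC5Aux VZEAux VZAux

namespace VCAux

section lib

variable {E ι : Type}

theorem RS.mulS {s t : (E → ℂ) × (ι → PowerSeries ℂ) → PowerSeries ℂ} (hs : RS s) (ht : RS t) :
    RS fun z => s z * t z := by
  intro l
  simp only [PowerSeries.coeff_mul]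
  exact RF.sum _ fun q _ => (hs q.1).mul (ht q.2)

theorem RS.addS {s t : (E → ℂ) × (ι → PowerSeries ℂ) → PowerSeries ℂ} (hs : RS s) (ht : RS t) :
    RS fun z => s z + t z := by
  intro l
  simp only [map_add]
  exact (hs l).add (ht l)

theorem RS.constS (c : PowerSeries ℂ) : RS fun _ : (E → ℂ) × (ι → PowerSeries ℂ) => c :=
  fun _ => RF.const _

theorem RS.powS {s : (E → ℂ) × (ι → PowerSeries ℂ) → PowerSeries ℂ} (hs : RS s) (n : ℕ) :
    RS fun z => s z ^ n := by
  induction n with
  | zero => simpa using RS.constS (E := E) (ι := ι) 1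
  | succ n ih => simpa only [pow_succ] using RS.mulS ih hs

theorem RS.aevalS {s : (E → ℂ) × (ι → PowerSeries ℂ) → PowerSeries ℂ} (hs : RS s)
    (p : Polynomial ℂ) : RS fun z => Polynomial.aeval (s z) p := by
  induction p using Polynomial.induction_on' with
  | add p q hp hq => simpa only [map_add] using RS.addS hp hq
  | monomial n a =>
    simp only [Polynomial.aeval_monomial]
    exact RS.mulS (RS.constS _) (RS.powS hs n)

theorem RS.CS {φ : (E → ℂ) × (ι → PowerSeries ℂ) → ℂ} (h : RF φ) :
    RS fun z => PowerSeries.C (φ z) := by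
  intro l
  simp only [PowerSeries.coeff_C]
  exact RF.ite _ h (RF.const 0)

theorem RS.mkS {φ : ℕ → (E → ℂ) × (ι → PowerSeries ℂ) → ℂ} (h : ∀ r, RF (φ r)) :
    RS fun z => PowerSeries.mk fun r => φ r z := by
  intro l
  simp only [PowerSeries.coeff_mk]
  exact h l

theorem RF.evalp {φ : (E → ℂ) × (ι → PowerSeries ℂ) → ℂ} (h : RF φ) (q : Polynomial ℂ) :
    RF fun z => q.eval (φ z) := by
  induction q using Polynomial.induction_on' with
  | add p q hp hq => simpa only [Polynomial.eval_add] using hp.add hq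
  | monomial n a =>
    simp only [Polynomial.eval_monomial]
    refine (RF.const a).mul ?_
    induction n with
    | zero => simpa using RF.const 1
    | succ n ih => simpa only [pow_succ] using ih.mul h

theorem RF.powF {φ : (E → ℂ) × (ι → PowerSeries ℂ) → ℂ} (h : RF φ) (n : ℕ) :
    RF fun z => φ z ^ n := by
  induction n with
  | zero => simpa using RF.const 1
  | succ n ih => simpa only [pow_succ] using ih.mul h

/-- the Taylor coefficients are regular functions -/
theorem RF.taylor {φ : (E → ℂ) × (ι → PowerSeries ℂ) → ℂ} (h : RF φ) (p : Polynomial ℂ) (k : ℕ) :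
    RF fun z => (Polynomial.taylor (φ z) p).coeff k := by
  simp only [Polynomial.taylor_coeff]
  exact RF.evalp h _

end lib

section main

variable {E ι : Type} [Fintype ι]

/-- `SD f true B i`, and the coefficients `m+1, …, m+e` of `p(f(x))` are prescribed -/
def T (f : MvPolynomial ι ℂ) (p : Polynomial ℂ) (m i : ℕ) (B : Set (E ⊕ Bool → ℂ))
    (A : ℕ → MvPolynomial (E ⊕ Bool) ℂ) (e : ℕ) : Set ((E → ℂ) × (ι → PowerSeries ℂ)) :=
  {z | z ∈ SD f true B i ∧ ∀ l < e, PowerSeries.coeff (m + 1 + l)
    (Polynomial.aeval (aeval z.2 f) p) = eval (Sum.elim z.1 (dat true m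
      (Polynomial.aeval (aeval z.2 f) p))) (A l)}

theorem rf_dat {s : (E → ℂ) × (ι → PowerSeries ℂ) → PowerSeries ℂ} (hs : RS s) (m : ℕ)
    (a : E ⊕ Bool) : RF fun z => Sum.elim z.1 (dat true m (s z)) a := by
  rcases a with a | b
  · exact RF.par _
  · exact RF.ite (b = true) (hs 0) (hs m)

theorem cy_T [Finite E] (f : MvPolynomial ι ℂ) (p : Polynomial ℂ) (m i : ℕ)
    {B : Set (E ⊕ Bool → ℂ)} (hB : Constructible B) (A : ℕ → MvPolynomial (E ⊕ Bool) ℂ) (e : ℕ) :
    Cy (T f p m i B A e) := by
  have hs : RS fun z : (E → ℂ) × (ι → PowerSeries ℂ) => Polynomial.aeval (aeval z.2 f) p :=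
    RS.aevalS (fun l => RF.coef f l) p
  exact Cy.and (Cy.SD f true hB i) (Cy.all_lt e fun l _ => Cy.eq (hs _)
    (RF.eval (rf_dat hs m) (A l)))

/-- solving for the coefficients of `f(x)` -/
theorem core (hU5 : Stmt_U5) (P : HodgeMeasure) [Finite E] {f : MvPolynomial ι ℂ}
    (hU : Unif P f Set.univ) (p : Polynomial ℂ) (k i m : ℕ) (hk : 1 ≤ k) (hi : 1 ≤ i)
    (hm : k * i = m) {B : Set (E ⊕ Bool → ℂ)} (hB : Constructible B)
    (h1 : ∀ v ∈ B, v (Sum.inr false) ≠ 0 ∧
      (∀ j, 1 ≤ j → j < k → (Polynomial.taylor (v (Sum.inr true)) p).coeff j = 0) ∧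
      (Polynomial.taylor (v (Sum.inr true)) p).coeff k ≠ 0)
    (A : ℕ → MvPolynomial (E ⊕ Bool) ℂ) (e : ℕ) :
    vol P.rat xq (T f p m i B A e) = xq ^ e * vol P.rat xq (SD f true B i) := by
  classical
  subst hm
  -- the base with `w = 1 / (k τ_k(c) a^{k-1})`
  let C0 : Set (((E ⊕ Unit) ⊕ Bool → ℂ) × (Empty → PowerSeries ℂ)) :=
    {z | (fun s : E ⊕ Bool => z.1 (Sum.map Sum.inl id s)) ∈ B ∧
      z.1 (Sum.inl (Sum.inr ())) * ((k : ℂ) *
        (Polynomial.taylor (z.1 (Sum.inr true)) p).coeff k * z.1 (Sum.inr false) ^ (k - 1)) = 1}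
  have hCy : Cy C0 := Cy.and (Cy.mem hB fun s => RF.par _)
    (Cy.eq ((RF.par _).mul (((RF.const _).mul (RF.taylor (RF.par _) p k)).mul
      (RF.powF (RF.par _) _))) (RF.const 1))
  -- the truncated series
  let V : (((E ⊕ Unit) ⊕ Bool) ⊕ ℕ → ℂ) × (Empty → PowerSeries ℂ) → PowerSeries ℂ := fun z =>
    PowerSeries.mk fun r => if r = 0 then z.1 (Sum.inl (Sum.inr false)) else z.1 (Sum.inr (r - 1))
  have hV : RS V := RS.mkS fun r => RF.ite _ (RF.par _) (RF.par _)
  let φ : ℕ → ((((E ⊕ Unit) ⊕ Bool) ⊕ ℕ → ℂ) × (Empty → PowerSeries ℂ)) → ℂ := fun l z =>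
    z.1 (Sum.inl (Sum.inl (Sum.inr ()))) *
      (eval (Sum.elim (fun s => z.1 (Sum.inl (Sum.inl (Sum.inl s)))) fun b : Bool =>
          if b then p.eval (z.1 (Sum.inl (Sum.inr true))) else
            (Polynomial.taylor (z.1 (Sum.inl (Sum.inr true))) p).coeff k *
              z.1 (Sum.inl (Sum.inr false)) ^ k) (A l) -
      PowerSeries.coeff (k * i + 1 + l) (Polynomial.aeval
        (PowerSeries.C (z.1 (Sum.inl (Sum.inr true))) + PowerSeries.X ^ i * V z) p))
  have hφ : ∀ l, RF (φ l) := by
    intro l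
    refine (RF.par _).mul (RF.sub (RF.eval (σ := E ⊕ Bool) ?_ (A l)) ?_)
    · rintro (s | b)
      · exact RF.par _
      · exact RF.ite (b = true) (RF.evalp (RF.par _) p)
          ((RF.taylor (RF.par _) p k).mul (RF.powF (RF.par _) k))
    · exact RS.aevalS (RS.addS (RS.CS (RF.par _)) (RS.mulS (RS.constS _) hV)) p _
  -- `T` with the additional parameter
  let S : ℕ → Set ((E → ℂ) × (ι ⊕ Empty → PowerSeries ℂ)) := fun e =>
    {z | (z.1, fun a => z.2 (Sum.inl a)) ∈ T f p (k * i) i B A e}
  have hS : ∀ e, Cy (S e) := fun e => (cy_T f p (k * i) i hB A e).pull (fun s => RF.par _) Sum.inl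
  have hSv : ∀ e, vol P.rat xq (S e) = vol P.rat xq (T f p (k * i) i B A e) := by
    intro e
    obtain ⟨N, hN⟩ := cy_T f p (k * i) i hB A e
    exact T0Aux.vol_comp P (φ := (Sum.inl : ι → ι ⊕ Empty)) Sum.inl_injective (hN N le_rfl)
  let D : ℕ → Set ((E ⊕ Unit → ℂ) × (ι ⊕ Empty → PowerSeries ℂ)) := fun e =>
    {z | z.1 (Sum.inr ()) * ((k : ℂ) * (Polynomial.taylor (PowerSeries.coeff 0
        (aeval (fun a => z.2 (Sum.inl a)) f)) p).coeff k *
          PowerSeries.coeff i (aeval (fun a => z.2 (Sum.inl a)) f) ^ (k - 1)) = 1 ∧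
      ((fun s => z.1 (Sum.inl s)), z.2) ∈ S e}
  have hD : ∀ e, Cy (D e) := fun e => Cy.and
    (Cy.eq ((RF.par _).mul (((RF.const _).mul (RF.taylor (RF.cl f 0) p k)).mul
      (RF.powF (RF.cl f i) _))) (RF.const 1))
    ((hS e).pull (fun s => RF.par _) id)
  have hne : ∀ (e : ℕ) (z : (E → ℂ) × (ι ⊕ Empty → PowerSeries ℂ)), z ∈ S e →
      ((k : ℂ) * (Polynomial.taylor (PowerSeries.coeff 0
        (aeval (fun a => z.2 (Sum.inl a)) f)) p).coeff k *
          PowerSeries.coeff i (aeval (fun a => z.2 (Sum.inl a)) f) ^ (k - 1)) ≠ 0 := by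
    intro e z hz
    obtain ⟨h2, -, h3⟩ := h1 _ hz.1.2
    have h2' : PowerSeries.coeff i (aeval (fun a => z.2 (Sum.inl a)) f) ≠ 0 := h2
    have h3' : (Polynomial.taylor (PowerSeries.coeff 0
        (aeval (fun a => z.2 (Sum.inl a)) f)) p).coeff k ≠ 0 := h3
    have hk0 : (k : ℂ) ≠ 0 := by exact_mod_cast (by omega : k ≠ 0)
    exact mul_ne_zero (mul_ne_zero hk0 h3') (pow_ne_zero _ h2')
  have hbase : ∀ e, vol P.rat xq (D e) = vol P.rat xq (S e) := by
    intro e
    refine vol_base P (hD e) (hS e) Sum.inl (fun z hz => hz.2) ?_ ?_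
    · intro z hz z' hz' h2 h3
      funext s
      rcases s with s | s
      · exact congrFun h2 s
      · have h4 := hz.1
        have h5 := hz'.1
        rw [← h3] at h5
        exact mul_right_cancel₀ (hne e _ hz.2) (h4.trans h5.symm)
    · intro z hz
      exact ⟨Sum.elim z.1 fun _ => ((k : ℂ) * (Polynomial.taylor (PowerSeries.coeff 0
        (aeval (fun a => z.2 (Sum.inl a)) f)) p).coeff k *
          PowerSeries.coeff i (aeval (fun a => z.2 (Sum.inl a)) f) ^ (k - 1))⁻¹,
        rfl, inv_mul_cancel₀ (hne e _ hz), hz⟩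
  have key := u5rf hU5 P hU hCy (fun z hz => ⟨Set.mem_univ _, (h1 _ hz.1).1⟩) i e hi hφ
  -- identification of the sets
  have hset : ∀ e, D e = {z : (E ⊕ Unit → ℂ) × (ι ⊕ Empty → PowerSeries ℂ) |
        cut true i (aeval (fun a => z.2 (Sum.inl a)) f) ∧
        ((Sum.elim z.1 (dat true i (aeval (fun a => z.2 (Sum.inl a)) f))),
          fun a => z.2 (Sum.inr a)) ∈ C0 ∧
        ∀ l < e, PowerSeries.coeff (i + 1 + l) (aeval (fun a => z.2 (Sum.inl a)) f) =
          φ l (Sum.elim (Sum.elim z.1 (dat true i (aeval (fun a => z.2 (Sum.inl a)) f)))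
            (fun s => if s < l then
              PowerSeries.coeff (i + 1 + s) (aeval (fun a => z.2 (Sum.inl a)) f) else 0),
            fun a => z.2 (Sum.inr a))} := by
    intro e
    ext z
    set F := aeval (fun a => z.2 (Sum.inl a)) f with hF
    set w := z.1 (Sum.inr ()) with hw
    set dd := (k : ℂ) * (Polynomial.taylor (PowerSeries.coeff 0 F) p).coeff k *
          PowerSeries.coeff i F ^ (k - 1) with hdd
    have hB' : ((fun s : E ⊕ Bool => (Sum.elim z.1 (dat true i F) : (E ⊕ Unit) ⊕ Bool → ℂ)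
        (Sum.map Sum.inl id s)) ∈ B) ↔
        (Sum.elim (fun s => z.1 (Sum.inl s)) (dat true i F) : E ⊕ Bool → ℂ) ∈ B := by
      apply Eq.to_iff
      congr 1
      funext s
      rcases s with s | s <;> rfl
    have hmain : cut true i F → (Sum.elim (fun s => z.1 (Sum.inl s)) (dat true i F) :
        E ⊕ Bool → ℂ) ∈ B → w * dd = 1 → ∀ l,
        (PowerSeries.coeff (k * i + 1 + l) (Polynomial.aeval F p) =
          eval (Sum.elim (fun s => z.1 (Sum.inl s)) (dat true (k * i) (Polynomial.aeval F p)))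
            (A l) ↔
        PowerSeries.coeff (i + 1 + l) F =
          φ l (Sum.elim (Sum.elim z.1 (dat true i F))
            (fun s => if s < l then PowerSeries.coeff (i + 1 + s) F else 0),
            fun a => z.2 (Sum.inr a))) := by
      intro h2 h3 h4 l
      obtain ⟨-, h5, -⟩ := h1 _ h3
      have h5' : ∀ j, 1 ≤ j → j < k →
        (Polynomial.taylor (PowerSeries.coeff 0 F) p).coeff j = 0 := h5
      have e1 : (Sum.elim (fun s => z.1 (Sum.inl s)) (dat true (k * i) (Polynomial.aeval F p)) :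
          E ⊕ Bool → ℂ) = Sum.elim (fun s => z.1 (Sum.inl s)) fun b : Bool =>
          if b then p.eval (PowerSeries.coeff 0 F) else
            (Polynomial.taylor (PowerSeries.coeff 0 F) p).coeff k * PowerSeries.coeff i F ^ k := by
        congr 1
        funext b
        cases b
        · have := lead_comp p hi hk h2 h5'
          simpa [dat, ldc] using this
        · simpa [dat] using zero_comp p F
      set b : ℕ → ℂ := fun s => if s < l then PowerSeries.coeff (i + 1 + s) F else 0 with hb
      set W : PowerSeries ℂ := PowerSeries.mk fun r => if r = 0 then PowerSeries.coeff i F else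
        b (r - 1) with hW
      have hnext := next_comp p (n := l + 1) hi (by omega) h2 h5' W (by
        intro r hr
        rw [hW, PowerSeries.coeff_mk]
        rcases Nat.eq_zero_or_pos r with h6 | h6
        · rw [if_pos h6, h6, add_zero]
        · rw [if_neg (by omega), hb]
          simp only
          rw [if_pos (by omega), show i + 1 + (r - 1) = i + r by omega]) (by
        rw [hW, PowerSeries.coeff_mk, if_neg (by omega), hb]
        simp only
        rw [if_neg (by omega)])
      have hφl : φ l (Sum.elim (Sum.elim z.1 (dat true i F)) b, fun a => z.2 (Sum.inr a)) =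
          w * (eval (Sum.elim (fun s => z.1 (Sum.inl s)) fun b : Bool =>
          if b then p.eval (PowerSeries.coeff 0 F) else
            (Polynomial.taylor (PowerSeries.coeff 0 F) p).coeff k * PowerSeries.coeff i F ^ k)
            (A l) - PowerSeries.coeff (k * i + 1 + l) (Polynomial.aeval
              (PowerSeries.C (PowerSeries.coeff 0 F) + PowerSeries.X ^ i * W) p)) := rfl
      rw [hφl, e1, show k * i + 1 + l = k * i + (l + 1) by ring, hnext, ← hdd,
        show i + (l + 1) = i + 1 + l by ring]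
      set al := eval (Sum.elim (fun s => z.1 (Sum.inl s)) fun b : Bool =>
          if b then p.eval (PowerSeries.coeff 0 F) else
            (Polynomial.taylor (PowerSeries.coeff 0 F) p).coeff k * PowerSeries.coeff i F ^ k)
            (A l)
      set co := PowerSeries.coeff (k * i + (l + 1)) (Polynomial.aeval
              (PowerSeries.C (PowerSeries.coeff 0 F) + PowerSeries.X ^ i * W) p)
      constructor
      · intro h6
        rw [← h6]
        linear_combination (-PowerSeries.coeff (i + 1 + l) F) * h4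
      · intro h6
        rw [h6]
        linear_combination (al - co) * h4
    constructor
    · rintro ⟨h2, h3, h4⟩
      have h3' : (Sum.elim (fun s => z.1 (Sum.inl s)) (dat true i F) : E ⊕ Bool → ℂ) ∈ B := h3.2
      exact ⟨h3.1, ⟨hB'.2 h3', h2⟩, fun l hl => (hmain h3.1 h3' h2 l).1 (h4 l hl)⟩
    · rintro ⟨h2, ⟨h3, h4⟩, h5⟩
      have h3' := hB'.1 h3
      exact ⟨h4, ⟨h2, h3'⟩, fun l hl => (hmain h2 h3' h4 l).2 (h5 l hl)⟩
  have hSD : T f p (k * i) i B A 0 = SD f true B i := by
    ext z
    exact ⟨fun h => h.1, fun h => ⟨h, fun l hl => absurd hl (Nat.not_lt_zero l)⟩⟩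
  rw [← hSv e, ← hbase e, hset e, key, ← hSD, ← hSv 0, ← hbase 0, hset 0]
  congr 2
  ext z
  simp only [Set.mem_ofPred_eq, Nat.not_lt_zero, false_imp_iff, implies_true, and_true]

end main

end VCAux

theorem stmt_VCE (hU5 : Stmt_U5) : Stmt_VCE := by
  classical
  intro P ι _ f p hp hf E _ Q hQ m e hm A
  set R := p.derivative.roots.toFinset.filter fun c => mul p c ∣ m with hR
  set B1 : Set (E ⊕ Bool → ℂ) := {z : E ⊕ Bool → ℂ | p.derivative.eval (z (Sum.inr true)) ≠ 0 ∧
          z (Sum.inr false) ≠ 0 ∧ Sum.elim (fun a => z (Sum.inl a)) (fun b : Bool => if b then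
            p.eval (z (Sum.inr true)) else
              p.derivative.eval (z (Sum.inr true)) * z (Sum.inr false)) ∈ Q} with hB1
  set B2 : ℂ → Set (E ⊕ Bool → ℂ) := fun c => {z : E ⊕ Bool → ℂ | z (Sum.inr true) = c ∧
            z (Sum.inr false) ≠ 0 ∧ Sum.elim (fun a => z (Sum.inl a)) (fun b : Bool => if b then
              p.eval c else lc p c * z (Sum.inr false) ^ mul p c) ∈ Q} with hB2
  have cB1 : Constructible B1 := TC5Aux.con_Q1 p hQ.1
  have cB2 : ∀ c, Constructible (B2 c) := fun c => con_QR p c hQ.1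
  have hR' : ∀ c, c ∈ R ↔ p.derivative.eval c = 0 ∧ mul p c ∣ m := by
    intro c
    rw [hR, Finset.mem_filter, Multiset.mem_toFinset, Polynomial.mem_roots (deriv_ne p hp)]
    exact Iff.rfl
  have hmem1 : ∀ v ∈ B1, v (Sum.inr false) ≠ 0 ∧
      (∀ j, 1 ≤ j → j < 1 → (Polynomial.taylor (v (Sum.inr true)) p).coeff j = 0) ∧
      (Polynomial.taylor (v (Sum.inr true)) p).coeff 1 ≠ 0 := by
    rintro v ⟨h1, h2, -⟩
    exact ⟨h2, fun j h3 h4 => absurd h4 (by omega), by rw [taylor_one]; exact h1⟩
  have hmem2 : ∀ c, ∀ v ∈ B2 c, v (Sum.inr false) ≠ 0 ∧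
      (∀ j, 1 ≤ j → j < mul p c → (Polynomial.taylor (v (Sum.inr true)) p).coeff j = 0) ∧
      (Polynomial.taylor (v (Sum.inr true)) p).coeff (mul p c) ≠ 0 := by
    rintro c v ⟨h1, h2, -⟩
    rw [h1]
    exact ⟨h2, fun j h3 h4 => taylor_zero p c j h3 h4, lc_ne p hp c⟩
  -- the partition
  have hpart : PD (Polynomial.aeval f p) Q m e A =
      T f p m m B1 A e ∪ ⋃ c ∈ R, T f p m (m / mul p c) (B2 c) A e := by
    ext z
    set F := aeval z.2 f with hF
    have hPD : z ∈ PD (Polynomial.aeval f p) Q m e A ↔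
        (cut true m (Polynomial.aeval F p) ∧
          (Sum.elim z.1 (dat true m (Polynomial.aeval F p)) : E ⊕ Bool → ℂ) ∈ Q) ∧
        ∀ l < e, PowerSeries.coeff (m + 1 + l) (Polynomial.aeval F p) =
          eval (Sum.elim z.1 (dat true m (Polynomial.aeval F p))) (A l) := by
      unfold PD SD
      rw [Set.mem_ofPred_eq, Set.mem_ofPred_eq, aeval_comp']
    have hT1 : z ∈ T f p m m B1 A e ↔ (cut true m F ∧ p.derivative.eval (PowerSeries.coeff 0 F) ≠ 0
        ∧ PowerSeries.coeff m F ≠ 0 ∧ (Sum.elim z.1 (fun b : Bool => if b then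
            p.eval (PowerSeries.coeff 0 F) else
              p.derivative.eval (PowerSeries.coeff 0 F) * PowerSeries.coeff m F) :
              E ⊕ Bool → ℂ) ∈ Q) ∧
        ∀ l < e, PowerSeries.coeff (m + 1 + l) (Polynomial.aeval F p) =
          eval (Sum.elim z.1 (dat true m (Polynomial.aeval F p))) (A l) := Iff.rfl
    have hT2 : ∀ c, z ∈ T f p m (m / mul p c) (B2 c) A e ↔ (cut true (m / mul p c) F ∧
        PowerSeries.coeff 0 F = c ∧ PowerSeries.coeff (m / mul p c) F ≠ 0 ∧
        (Sum.elim z.1 (fun b : Bool => if b then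
            p.eval c else lc p c * PowerSeries.coeff (m / mul p c) F ^ mul p c) :
              E ⊕ Bool → ℂ) ∈ Q) ∧
        ∀ l < e, PowerSeries.coeff (m + 1 + l) (Polynomial.aeval F p) =
          eval (Sum.elim z.1 (dat true m (Polynomial.aeval F p))) (A l) := fun c => Iff.rfl
    rw [hPD]
    simp only [Set.mem_union, Set.mem_iUnion, exists_prop, hT1, hT2, hR']
    set c := PowerSeries.coeff 0 F with hc
    set k := mul p c with hk
    have hk1 : 1 ≤ k := mul_pos' p hp _
    have ht := fun j h1 h2 => taylor_zero p c j h1 h2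
    have hlc : (Polynomial.taylor c p).coeff k ≠ 0 := lc_ne p hp _
    -- the data of the result
    have hres : ∀ i, 1 ≤ i → k * i = m → cut true i F → cut true m (Polynomial.aeval F p) ∧
        dat true m (Polynomial.aeval F p) = fun b : Bool => if b then p.eval c else
          (Polynomial.taylor c p).coeff k * PowerSeries.coeff i F ^ k := by
      intro i hi hki hcut
      constructor
      · intro l h1 h2
        refine low_comp p hi hcut ht l h1 ?_
        rw [hki]
        simpa using h2
      · funext b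
        cases b
        · have := lead_comp p hi hk1 hcut ht
          rw [hki] at this
          change PowerSeries.coeff m (Polynomial.aeval F p) = _
          exact this
        · have := zero_comp p F
          change PowerSeries.coeff 0 (Polynomial.aeval F p) = _
          exact this
    constructor
    · rintro ⟨⟨h1, h2⟩, h3⟩
      have h4 : PowerSeries.coeff m (Polynomial.aeval F p) ≠ 0 := by
        have := (hQ.2 _ h2).2 rfl
        simpa [dat, ldc] using this
      have hex : ∃ l, 1 ≤ l ∧ PowerSeries.coeff l F ≠ 0 := by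
        by_contra h'
        have h5 : ∀ l, 1 ≤ l → PowerSeries.coeff l F = 0 := fun l hl => by
          by_contra h6
          exact h' ⟨l, hl, h6⟩
        have hcut : cut true (m + 1) F := fun l hl _ => h5 l hl
        refine h4 (low_comp p (Nat.le_add_left 1 m) hcut ht m hm ?_)
        calc m < 1 * (m + 1) := by omega
          _ ≤ k * (m + 1) := Nat.mul_le_mul_right _ hk1
      have h5 := Nat.find_spec hex
      set i := Nat.find hex with hi
      have hcut : cut true i F := by
        intro l h6 h7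
        by_contra h8
        exact Nat.find_min hex (by simpa using h7 : l < i) ⟨h6, h8⟩
      have hki : k * i = m := by
        have h6 : cut true (k * i) (Polynomial.aeval F p) := by
          intro l h7 h8
          exact low_comp p h5.1 hcut ht l h7 (by simpa using h8)
        have h7 : PowerSeries.coeff (k * i) (Polynomial.aeval F p) ≠ 0 := by
          rw [lead_comp p h5.1 hk1 hcut ht]
          exact mul_ne_zero hlc (pow_ne_zero _ h5.2)
        exact order_eq (Nat.mul_pos hk1 h5.1) hm h6 h7 h1 h4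
      have hdat := (hres i h5.1 hki hcut).2
      rw [hdat] at h2
      by_cases h6 : p.derivative.eval c = 0
      · right
        have h7 : m / k = i := by
          rw [← hki]
          exact Nat.mul_div_cancel_left i hk1
        refine ⟨c, ⟨h6, ⟨i, hki.symm⟩⟩, ⟨?_, rfl, ?_, ?_⟩, h3⟩
        · rw [← hk, h7]
          exact hcut
        · rw [← hk, h7]
          exact h5.2
        · rw [← hk, h7]
          exact h2
      · left
        have h7 : k = 1 := mul_eq_one p hp _ h6
        have h8 : i = m := by rw [← hki, h7, one_mul]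
        rw [h8] at hcut h2
        rw [h7, taylor_one, pow_one] at h2
        refine ⟨⟨hcut, h6, ?_, h2⟩, h3⟩
        rw [← h8]
        exact h5.2
    · rintro (⟨⟨h1, h2, h3, h4⟩, h5⟩ | ⟨c', ⟨h0, h0'⟩, ⟨h1, h2, h3, h4⟩, h5⟩)
      · have h7 : k = 1 := mul_eq_one p hp _ h2
        obtain ⟨h8, h9⟩ := hres m hm (by rw [h7, one_mul]) h1
        refine ⟨⟨h8, ?_⟩, h5⟩
        rw [h9, h7, taylor_one, pow_one]
        exact h4
      · subst h2
        rw [← hk] at h1 h3 h4 h0'
        have h6 : k * (m / k) = m := Nat.mul_div_cancel' h0'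
        have h7 : 1 ≤ m / k := Nat.div_pos (Nat.le_of_dvd hm h0') hk1
        obtain ⟨h8, h9⟩ := hres (m / k) h7 h6 h1
        refine ⟨⟨h8, ?_⟩, h5⟩
        rw [h9]
        exact h4
  have yB : ∀ c ∈ R, Cy (T f p m (m / mul p c) (B2 c) A e) := fun c _ => cy_T f p _ _ (cB2 c) A e
  rw [hpart, vol_uni P (cy_T f p m m cB1 A e) (Cy.biUnion _ yB), vol_biU P _ yB]
  · rw [core hU5 P hf p 1 m m le_rfl hm (one_mul m) cB1 hmem1 A e]
    have hsum : ∀ c ∈ R, vol P.rat xq (T f p m (m / mul p c) (B2 c) A e) =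
        xq ^ e * vol P.rat xq (SD f true (B2 c) (m / mul p c)) := by
      intro c hc
      have hc' := (hR' c).1 hc
      exact core hU5 P hf p (mul p c) (m / mul p c) m (mul_pos' p hp c)
        (Nat.div_pos (Nat.le_of_dvd hm hc'.2) (mul_pos' p hp c)) (Nat.mul_div_cancel' hc'.2)
        (cB2 c) (hmem2 c) A e
    rw [Finset.sum_congr rfl hsum, ← Finset.mul_sum, ← mul_add, hR, Finset.sum_filter]
  · intro c _ c' _ hcc
    rw [Set.disjoint_left]
    rintro z ⟨⟨-, h1, -⟩, -⟩ ⟨⟨-, h2, -⟩, -⟩
    exact hcc (h1.symm.trans h2)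
  · rw [Set.disjoint_left]
    rintro z ⟨⟨-, h1, -⟩, -⟩ h2
    simp only [Set.mem_iUnion, exists_prop] at h2
    obtain ⟨c, hc, ⟨-, h3, -⟩, -⟩ := h2
    apply h1
    change p.derivative.eval (PowerSeries.coeff 0 (aeval z.2 f)) = 0
    have h4 : PowerSeries.coeff 0 (aeval z.2 f) = c := h3
    rw [h4]
    exact ((hR' c).1 hc).1

end Pool.Agent.Mono.RO
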