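import Pool.Agent.Work.Monodromy5.VCA

/-!
# Block VCT (helper61): compositions `p(f(x))`, tail
-/

set_option autoImplicit false
set_option linter.unusedSectionVars false

namespace Pool.Agent.Mono.RO

open MvPolynomial TS VGAux VCAux TC5Aux

namespace VCAux

theorem cut_false_iff (p : Polynomial ℂ) (hp : p.natDegree ≠ 0) (F : PowerSeries ℂ) (m : ℕ) :
    cut false m (Polynomial.aeval F p) ↔
      cut false (m / mul p (PowerSeries.coeff 0 F)) F := by
  classical
  set k := mul p (PowerSeries.coeff 0 F) with hk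
  have hk1 : 1 ≤ k := mul_pos' p hp _
  have ht := fun j h1 h2 => taylor_zero p (PowerSeries.coeff 0 F) j h1 h2
  have hlc : (Polynomial.taylor (PowerSeries.coeff 0 F) p).coeff k ≠ 0 := lc_ne p hp _
  constructor
  · intro h
    by_contra hc
    have hex : ∃ l, 1 ≤ l ∧ l ≤ m / k ∧ PowerSeries.coeff l F ≠ 0 := by
      by_contra h'
      apply hc
      intro l h1 h2
      by_contra h3
      refine h' ⟨l, h1, ?_, h3⟩
      simp only [Bool.false_eq_true, if_false] at h2
      omega
    have h1 := Nat.find_spec hex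
    set i := Nat.find hex with hi
    have hcut : cut true i F := by
      intro l h2 h3
      by_contra h4
      have h3' : l < i := by simpa using h3
      exact Nat.find_min hex h3' ⟨h2, by omega, h4⟩
    have h5 := lead_comp p h1.1 hk1 hcut ht
    have h6 : PowerSeries.coeff (k * i) (Polynomial.aeval F p) = 0 := by
      refine h _ (Nat.mul_pos hk1 h1.1) ?_
      have h7 : k * i ≤ m := by
        calc k * i ≤ k * (m / k) := Nat.mul_le_mul_left k h1.2.1
          _ ≤ m := Nat.mul_div_le m k
      simp only [Bool.false_eq_true, if_false]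
      omega
    rw [h6] at h5
    exact mul_ne_zero hlc (pow_ne_zero _ h1.2.2) h5.symm
  · intro h l h1 h2
    have hcut : cut true (m / k + 1) F := by
      intro l h3 h4
      refine h l h3 ?_
      simpa using h4
    refine low_comp p (Nat.le_add_left _ _) hcut ht l h1 ?_
    simp only [Bool.false_eq_true, if_false] at h2
    have h3 := Nat.lt_mul_div_succ m (show 0 < k by omega)
    exact lt_of_le_of_lt (Nat.lt_succ_iff.1 h2) h3

end VCAux

theorem stmt_VCT : Stmt_VCT := by
  classical
  intro P ι _ f p hp E _ Q hQ m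
  set R := p.derivative.roots.toFinset with hR
  set A0 := SD f false {z : E ⊕ Bool → ℂ | p.derivative.eval (z (Sum.inr true)) ≠ 0 ∧
          Sum.elim (fun a => z (Sum.inl a)) (fun b : Bool => if b then
            p.eval (z (Sum.inr true)) else 0) ∈ Q} m with hA0
  set B0 : ℂ → Set ((E → ℂ) × (ι → PowerSeries ℂ)) := fun c =>
    SD f false {z : E ⊕ Bool → ℂ | z (Sum.inr true) = c ∧
            Sum.elim (fun a => z (Sum.inl a)) (fun b : Bool => if b then p.eval c else 0) ∈ Q}
              (m / mul p c) with hB0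
  have yA : Cy A0 := Cy.SD f false (con_Q1t p hQ.1) m
  have yB : ∀ c ∈ R, Cy (B0 c) := fun c _ => Cy.SD f false (con_QRt p c hQ.1) _
  have hdat : ∀ (z : E → ℂ) (H : PowerSeries ℂ) (a : ℂ), PowerSeries.coeff 0 H = a →
      Sum.elim z (dat false m H) = Sum.elim z (fun b : Bool => if b then a else 0) := by
    intro z H a h
    congr 1
    funext b
    cases b
    · simp [dat, ldc]
    · simpa [dat] using h
  have hset : SD (Polynomial.aeval f p) false Q m = A0 ∪ ⋃ c ∈ R, B0 c := by
    ext z
    have hz : z ∈ SD (Polynomial.aeval f p) false Q m ↔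
        cut false (m / mul p (PowerSeries.coeff 0 (aeval z.2 f))) (aeval z.2 f) ∧
        Sum.elim z.1 (fun b : Bool => if b then p.eval (PowerSeries.coeff 0 (aeval z.2 f)) else 0)
          ∈ Q := by
      unfold SD
      rw [Set.mem_ofPred_eq, aeval_comp', cut_false_iff p hp, hdat _ _ _ (zero_comp p _)]
    rw [hz]
    have hA : z ∈ A0 ↔ cut false m (aeval z.2 f) ∧
        p.derivative.eval (PowerSeries.coeff 0 (aeval z.2 f)) ≠ 0 ∧
        Sum.elim z.1 (fun b : Bool => if b then p.eval (PowerSeries.coeff 0 (aeval z.2 f)) else 0)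
          ∈ Q := Iff.rfl
    have hB : ∀ c, z ∈ B0 c ↔ cut false (m / mul p c) (aeval z.2 f) ∧
        PowerSeries.coeff 0 (aeval z.2 f) = c ∧
        Sum.elim z.1 (fun b : Bool => if b then p.eval c else 0) ∈ Q := fun c => Iff.rfl
    simp only [Set.mem_union, Set.mem_iUnion, exists_prop, hA, hB]
    constructor
    · rintro ⟨h1, h2⟩
      by_cases h3 : p.derivative.eval (PowerSeries.coeff 0 (aeval z.2 f)) = 0
      · right
        refine ⟨PowerSeries.coeff 0 (aeval z.2 f), ?_, h1, rfl, h2⟩
        rw [hR, Multiset.mem_toFinset, Polynomial.mem_roots (deriv_ne p hp)]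
        exact h3
      · left
        rw [mul_eq_one p hp _ h3, Nat.div_one] at h1
        exact ⟨h1, h3, h2⟩
    · rintro (⟨h1, h2, h3⟩ | ⟨c, hc, h1, h2, h3⟩)
      · rw [mul_eq_one p hp _ h2, Nat.div_one]
        exact ⟨h1, h3⟩
      · subst h2
        exact ⟨h1, h3⟩
  rw [hset, vol_uni P yA (Cy.biUnion _ yB), vol_biU P _ yB]
  · intro c _ c' _ hcc
    rw [Set.disjoint_left]
    rintro z ⟨-, h1, -⟩ ⟨-, h2, -⟩
    exact hcc (h1.symm.trans h2)
  · rw [Set.disjoint_left]
    rintro z ⟨-, h1, -⟩ h2
    simp only [Set.mem_iUnion, exists_prop] at h2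
    obtain ⟨c, hc, -, h3, -⟩ := h2
    rw [hR, Multiset.mem_toFinset, Polynomial.mem_roots (deriv_ne p hp)] at hc
    apply h1
    change p.derivative.eval (PowerSeries.coeff 0 (aeval z.2 f)) = 0
    have h4 : PowerSeries.coeff 0 (aeval z.2 f) = c := h3
    rw [h4]
    exact hc

end Pool.Agent.Mono.RO
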