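import Pool.Agent.Work.Monodromy5.VGA

/-!
# Block VZE: products over the value `0`, exact, with prescribed further coefficients
-/

set_option autoImplicit false
set_option linter.unusedSectionVars false

namespace Pool.Agent.Mono.RO

open MvPolynomial TS VGAux

namespace VZEAux


section lib

variable {E E' ι κ : Type}

theorem RF.cl [Fintype ι] [Fintype κ] (f : MvPolynomial ι ℂ) (l : ℕ) :
    RF fun z : (E → ℂ) × (ι ⊕ κ → PowerSeries ℂ) =>
      PowerSeries.coeff l (aeval (fun a => z.2 (Sum.inl a)) f) := by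
  have h := RF.coef (E := E) (rename (Sum.inl : ι → ι ⊕ κ) f) l
  have e : (fun z : (E → ℂ) × (ι ⊕ κ → PowerSeries ℂ) =>
      PowerSeries.coeff l (aeval z.2 (rename (Sum.inl : ι → ι ⊕ κ) f))) =
      fun z : (E → ℂ) × (ι ⊕ κ → PowerSeries ℂ) =>
      PowerSeries.coeff l (aeval (fun a => z.2 (Sum.inl a)) f) := by
    funext z
    rw [aeval_rename]
    rfl
  rwa [e] at h

theorem RF.cr [Fintype ι] [Fintype κ] (g : MvPolynomial κ ℂ) (l : ℕ) :
    RF fun z : (E → ℂ) × (ι ⊕ κ → PowerSeries ℂ) =>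
      PowerSeries.coeff l (aeval (fun a => z.2 (Sum.inr a)) g) := by
  have h := RF.coef (E := E) (rename (Sum.inr : κ → ι ⊕ κ) g) l
  have e : (fun z : (E → ℂ) × (ι ⊕ κ → PowerSeries ℂ) =>
      PowerSeries.coeff l (aeval z.2 (rename (Sum.inr : κ → ι ⊕ κ) g))) =
      fun z : (E → ℂ) × (ι ⊕ κ → PowerSeries ℂ) =>
      PowerSeries.coeff l (aeval (fun a => z.2 (Sum.inr a)) g) := by
    funext z
    rw [aeval_rename]
    rfl
  rwa [e] at h

theorem RF.sum {α : Type} (F : Finset α) {φ : α → (E → ℂ) × (ι → PowerSeries ℂ) → ℂ}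
    (h : ∀ a ∈ F, RF (φ a)) : RF fun z => ∑ a ∈ F, φ a z := by
  classical
  induction F using Finset.induction_on with
  | empty => simpa using RF.const 0
  | insert a F ha ih =>
    simp only [Finset.sum_insert ha]
    exact (h a (Finset.mem_insert_self _ _)).add (ih fun b hb => h b (Finset.mem_insert_of_mem hb))

theorem RF.neg {φ : (E → ℂ) × (ι → PowerSeries ℂ) → ℂ} (h : RF φ) : RF fun z => - φ z := by
  have := (RF.const (-1)).mul h
  simpa using this

theorem RF.sub {φ ψ : (E → ℂ) × (ι → PowerSeries ℂ) → ℂ} (h : RF φ) (h' : RF ψ) :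
    RF fun z => φ z - ψ z := by
  have := h.add (RF.neg h')
  simpa [sub_eq_add_neg] using this

end lib

/-- `Stmt_U5` with regular functions -/
theorem u5rf (hU5 : Stmt_U5) (P : HodgeMeasure) {ι : Type} [Fintype ι] {f : MvPolynomial ι ℂ}
    {X : Set ℂ} (hU : Unif P f X) {E κ : Type} [Finite E] [Fintype κ]
    {C : Set ((E ⊕ Bool → ℂ) × (κ → PowerSeries ℂ))} (hC : Cy C)
    (hC1 : ∀ z ∈ C, z.1 (Sum.inr true) ∈ X ∧ z.1 (Sum.inr false) ≠ 0)
    (i e : ℕ) (hi : 1 ≤ i) {φ : ℕ → (((E ⊕ Bool) ⊕ ℕ → ℂ) × (κ → PowerSeries ℂ)) → ℂ}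
    (hφ : ∀ l, RF (φ l)) :
    vol P.rat xq {z : (E → ℂ) × (ι ⊕ κ → PowerSeries ℂ) |
        cut true i (aeval (fun a => z.2 (Sum.inl a)) f) ∧
        ((Sum.elim z.1 (dat true i (aeval (fun a => z.2 (Sum.inl a)) f))),
          fun a => z.2 (Sum.inr a)) ∈ C ∧
        ∀ l < e, PowerSeries.coeff (i + 1 + l) (aeval (fun a => z.2 (Sum.inl a)) f) =
          φ l (Sum.elim (Sum.elim z.1 (dat true i (aeval (fun a => z.2 (Sum.inl a)) f)))
            (fun s => if s < l then
              PowerSeries.coeff (i + 1 + s) (aeval (fun a => z.2 (Sum.inl a)) f) else 0),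
            fun a => z.2 (Sum.inr a))} =
      xq ^ e * vol P.rat xq {z : (E → ℂ) × (ι ⊕ κ → PowerSeries ℂ) |
        cut true i (aeval (fun a => z.2 (Sum.inl a)) f) ∧
        ((Sum.elim z.1 (dat true i (aeval (fun a => z.2 (Sum.inl a)) f))),
          fun a => z.2 (Sum.inr a)) ∈ C} := by
  classical
  obtain ⟨n, hn⟩ := hC
  choose N hN using hφ
  have h1 := fun l => (hN l (N l) le_rfl).1
  have h2 := fun l => (hN l (N l) le_rfl).2
  choose A hA using h2
  have key := hU5 P ι f X hU E κ C n (hn n le_rfl) hC1 i e hi fun l =>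
    rename (Sum.elim (Sum.elim Sum.inl fun s => Sum.inr (Sum.inr s))
      fun s : (Σ _ : κ, Fin (N l)) => Sum.inr (Sum.inl (s.1, (s.2 : ℕ)))) (A l)
  rw [← key]
  congr 1
  ext z
  have hz : ∀ l, eval (Sum.elim (Sum.elim z.1 (dat true i (aeval (fun a => z.2 (Sum.inl a)) f)))
        (Sum.elim (fun s : κ × ℕ => PowerSeries.coeff s.2 (z.2 (Sum.inr s.1)))
          fun s => if s < l then
            PowerSeries.coeff (i + 1 + s) (aeval (fun a => z.2 (Sum.inl a)) f) else 0))
      (rename (Sum.elim (Sum.elim Sum.inl fun s => Sum.inr (Sum.inr s))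
      fun s : (Σ _ : κ, Fin (N l)) => Sum.inr (Sum.inl (s.1, (s.2 : ℕ)))) (A l)) =
      φ l (Sum.elim (Sum.elim z.1 (dat true i (aeval (fun a => z.2 (Sum.inl a)) f)))
        (fun s => if s < l then
          PowerSeries.coeff (i + 1 + s) (aeval (fun a => z.2 (Sum.inl a)) f) else 0),
        fun a => z.2 (Sum.inr a)) := by
    intro l
    rw [eval_rename]
    set v : ((E ⊕ Bool) ⊕ ℕ) ⊕ (Σ _ : κ, Fin (N l)) → ℂ :=
      (Sum.elim (Sum.elim z.1 (dat true i (aeval (fun a => z.2 (Sum.inl a)) f)))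
        (Sum.elim (fun s : κ × ℕ => PowerSeries.coeff s.2 (z.2 (Sum.inr s.1)))
          fun s => if s < l then
            PowerSeries.coeff (i + 1 + s) (aeval (fun a => z.2 (Sum.inl a)) f) else 0)) ∘
      (Sum.elim (Sum.elim Sum.inl fun s => Sum.inr (Sum.inr s))
      fun s : (Σ _ : κ, Fin (N l)) => Sum.inr (Sum.inl (s.1, (s.2 : ℕ)))) with hv
    rw [← hA l v]
    have e1 : (fun p => v (Sum.inl p)) =
        Sum.elim (Sum.elim z.1 (dat true i (aeval (fun a => z.2 (Sum.inl a)) f)))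
          (fun s => if s < l then
            PowerSeries.coeff (i + 1 + s) (aeval (fun a => z.2 (Sum.inl a)) f) else 0) := by
      funext p
      rcases p with p | s
      · rfl
      · rfl
    rw [e1]
    refine h1 l _ _ _ fun a s hs => ?_
    rw [toArc, PowerSeries.coeff_mk, dif_pos hs]
    rfl
  constructor
  · rintro ⟨h3, h4, h5⟩
    exact ⟨h3, h4, fun l hl => (h5 l hl).trans (hz l).symm⟩
  · rintro ⟨h3, h4, h5⟩
    exact ⟨h3, h4, fun l hl => (h5 l hl).trans (hz l)⟩

/-- coefficients of a product -/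
theorem coeff_mul_ord {F G : PowerSeries ℂ} {i j : ℕ} (hF : ∀ l < i, PowerSeries.coeff l F = 0)
    (hG : ∀ l < j, PowerSeries.coeff l G = 0) (n : ℕ) :
    PowerSeries.coeff (i + j + n) (F * G) =
      ∑ s ∈ Finset.range (n + 1), PowerSeries.coeff (i + s) F * PowerSeries.coeff (j + (n - s)) G := by
  obtain ⟨F', rfl⟩ := PowerSeries.X_pow_dvd_iff.2 hF
  obtain ⟨G', rfl⟩ := PowerSeries.X_pow_dvd_iff.2 hG
  have e : PowerSeries.X ^ i * F' * (PowerSeries.X ^ j * G') =
      PowerSeries.X ^ (i + j) * (F' * G') := by ring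
  rw [e, add_comm (i + j) n, PowerSeries.coeff_X_pow_mul, PowerSeries.coeff_mul,
    Finset.Nat.sum_antidiagonal_eq_sum_range_succ (f := fun a b =>
      PowerSeries.coeff a F' * PowerSeries.coeff b G')]
  refine Finset.sum_congr rfl fun s hs => ?_
  rw [add_comm i s, PowerSeries.coeff_X_pow_mul, add_comm j, PowerSeries.coeff_X_pow_mul]

theorem coeff_mul_low {F G : PowerSeries ℂ} {i j : ℕ} (hF : ∀ l < i, PowerSeries.coeff l F = 0)
    (hG : ∀ l < j, PowerSeries.coeff l G = 0) : ∀ l < i + j, PowerSeries.coeff l (F * G) = 0 := by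
  rw [← PowerSeries.X_pow_dvd_iff] at hF hG ⊢
  rw [pow_add]
  exact mul_dvd_mul hF hG

theorem coeff_mul_lead {F G : PowerSeries ℂ} {i j : ℕ} (hF : ∀ l < i, PowerSeries.coeff l F = 0)
    (hG : ∀ l < j, PowerSeries.coeff l G = 0) :
    PowerSeries.coeff (i + j) (F * G) = PowerSeries.coeff i F * PowerSeries.coeff j G := by
  have := coeff_mul_ord hF hG 0
  simpa using this

/-- the order -/
theorem exists_ord {F : PowerSeries ℂ} (h : F ≠ 0) :
    ∃ i, (∀ l < i, PowerSeries.coeff l F = 0) ∧ PowerSeries.coeff i F ≠ 0 := by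
  classical
  have h1 : ∃ i, PowerSeries.coeff i F ≠ 0 := by
    by_contra h2
    push Not at h2
    exact h (PowerSeries.ext fun n => by simpa using h2 n)
  exact ⟨Nat.find h1, fun l hl => by simpa using Nat.find_min h1 hl, Nat.find_spec h1⟩

theorem ord_unique {H : PowerSeries ℂ} {i m : ℕ} (h1 : ∀ l < i, PowerSeries.coeff l H = 0)
    (h2 : PowerSeries.coeff i H ≠ 0) (h3 : ∀ l < m, PowerSeries.coeff l H = 0)
    (h4 : PowerSeries.coeff m H ≠ 0) : i = m := by
  rcases lt_trichotomy i m with h | h | h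
  · exact absurd (h3 i h) h2
  · exact h
  · exact absurd (h1 m h) h4

theorem cut_iff {i : ℕ} (hi : 1 ≤ i) (F : PowerSeries ℂ) :
    (cut true i F ∧ PowerSeries.coeff 0 F = 0) ↔ ∀ l < i, PowerSeries.coeff l F = 0 := by
  constructor
  · rintro ⟨h1, h2⟩ l hl
    rcases Nat.eq_zero_or_pos l with rfl | h
    · exact h2
    · exact h1 l h (by simpa using hl)
  · intro h
    exact ⟨fun l _ h2 => h l (by simpa using h2), h 0 (by omega)⟩

theorem cutf_iff {i : ℕ} (F : PowerSeries ℂ) :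
    (cut false i F ∧ PowerSeries.coeff 0 F = 0) ↔ ∀ l < i + 1, PowerSeries.coeff l F = 0 := by
  constructor
  · rintro ⟨h1, h2⟩ l hl
    rcases Nat.eq_zero_or_pos l with rfl | h
    · exact h2
    · exact h1 l h (by simpa using hl)
  · intro h
    exact ⟨fun l _ h2 => h l (by simpa using h2), h 0 (by omega)⟩

theorem cutf_zero (F : PowerSeries ℂ) : cut false 0 F := by
  intro l h1 h2
  have : l < 0 + 1 := by simpa using h2
  omega

theorem aeval_otimes {ι κ : Type} (f : MvPolynomial ι ℂ) (g : MvPolynomial κ ℂ)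
    (z : ι ⊕ κ → PowerSeries ℂ) : aeval z (otimes f g) =
      aeval (fun a => z (Sum.inl a)) f * aeval (fun a => z (Sum.inr a)) g := by
  rw [otimes, map_mul, aeval_rename, aeval_rename]
  rfl

section main

variable {E ι κ : Type}

/-- `(p, 0, c)` -/
noncomputable def pt (p : E → ℂ) (c : ℂ) : E ⊕ Bool → ℂ :=
  Sum.elim p fun b : Bool => if b then 0 else c

/-- `ord F = i`, `ord G = j`, the product is in `Q` and has the prescribed coefficients -/
def T (f : MvPolynomial ι ℂ) (g : MvPolynomial κ ℂ) (Q : Set (E ⊕ Bool → ℂ))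
    (A : ℕ → MvPolynomial (E ⊕ Bool) ℂ) (i j e : ℕ) :
    Set ((E → ℂ) × (ι ⊕ κ → PowerSeries ℂ)) :=
  {z | (∀ l < i, PowerSeries.coeff l (aeval (fun a => z.2 (Sum.inl a)) f) = 0) ∧
    PowerSeries.coeff i (aeval (fun a => z.2 (Sum.inl a)) f) ≠ 0 ∧
    (∀ l < j, PowerSeries.coeff l (aeval (fun a => z.2 (Sum.inr a)) g) = 0) ∧
    PowerSeries.coeff j (aeval (fun a => z.2 (Sum.inr a)) g) ≠ 0 ∧
    pt z.1 (PowerSeries.coeff i (aeval (fun a => z.2 (Sum.inl a)) f) *
      PowerSeries.coeff j (aeval (fun a => z.2 (Sum.inr a)) g)) ∈ Q ∧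
    ∀ l < e, PowerSeries.coeff (i + j + 1 + l) (aeval (fun a => z.2 (Sum.inl a)) f *
        aeval (fun a => z.2 (Sum.inr a)) g) =
      eval (pt z.1 (PowerSeries.coeff i (aeval (fun a => z.2 (Sum.inl a)) f) *
        PowerSeries.coeff j (aeval (fun a => z.2 (Sum.inr a)) g))) (A l)}

theorem rf_pt {E' ι' : Type} {E : Type} {φ : E → (E' → ℂ) × (ι' → PowerSeries ℂ) → ℂ}
    {ψ : (E' → ℂ) × (ι' → PowerSeries ℂ) → ℂ} (hφ : ∀ s, RF (φ s)) (hψ : RF ψ) (s : E ⊕ Bool) :
    RF fun z => pt (fun s => φ s z) (ψ z) s := by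
  rcases s with s | b
  · exact hφ s
  · cases b
    · exact hψ
    · exact RF.const 0

theorem cy_pt {E' ι' : Type} {E : Type} [Finite E] {φ : E → (E' → ℂ) × (ι' → PowerSeries ℂ) → ℂ}
    {ψ : (E' → ℂ) × (ι' → PowerSeries ℂ) → ℂ} (hφ : ∀ s, RF (φ s)) (hψ : RF ψ)
    {Q : Set (E ⊕ Bool → ℂ)} (hQ : Constructible Q) :
    Cy {z : (E' → ℂ) × (ι' → PowerSeries ℂ) | pt (fun s => φ s z) (ψ z) ∈ Q} :=
  Cy.mem hQ (rf_pt hφ hψ)

theorem rf_prod [Fintype ι] [Fintype κ] (f : MvPolynomial ι ℂ) (g : MvPolynomial κ ℂ) (l : ℕ) :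
    RF fun z : (E → ℂ) × (ι ⊕ κ → PowerSeries ℂ) => PowerSeries.coeff l
      (aeval (fun a => z.2 (Sum.inl a)) f * aeval (fun a => z.2 (Sum.inr a)) g) := by
  have h := RF.coef (E := E) (otimes f g) l
  simpa only [aeval_otimes] using h

theorem cy_T [Finite E] [Fintype ι] [Fintype κ] (f : MvPolynomial ι ℂ) (g : MvPolynomial κ ℂ)
    {Q : Set (E ⊕ Bool → ℂ)} (hQ : Constructible Q) (A : ℕ → MvPolynomial (E ⊕ Bool) ℂ)
    (i j e : ℕ) : Cy (T f g Q A i j e) := by
  have hp := fun s => RF.par (ι := ι ⊕ κ) (E := E) s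
  have hm := (RF.cl (E := E) (κ := κ) f i).mul (RF.cr (E := E) (ι := ι) g j)
  exact Cy.and (Cy.all_lt i fun l _ => Cy.zero (RF.cl f l)) (Cy.and
    (Cy.not (Cy.zero (RF.cl f i))) (Cy.and
    (Cy.all_lt j fun l _ => Cy.zero (RF.cr g l)) (Cy.and
    (Cy.not (Cy.zero (RF.cr g j))) (Cy.and (cy_pt hp hm hQ)
    (Cy.all_lt e fun l _ => Cy.eq (rf_prod f g _) (RF.eval (rf_pt hp hm) (A l)))))))

/-- solving for the coefficients of `f(x)` -/
theorem core (hU5 : Stmt_U5) (P : HodgeMeasure) [Finite E] [Fintype ι] [Fintype κ]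
    {f : MvPolynomial ι ℂ} (hU : Unif P f Set.univ) (g : MvPolynomial κ ℂ)
    {Q : Set (E ⊕ Bool → ℂ)} (hQ : Constructible Q) (A : ℕ → MvPolynomial (E ⊕ Bool) ℂ)
    (i j e : ℕ) (hi : 1 ≤ i) :
    vol P.rat xq (T f g Q A i j e) = xq ^ e * vol P.rat xq (T f g Q A i j 0) := by
  classical
  -- the base with `w = 1 / G_j`
  let C : Set (((E ⊕ Unit) ⊕ Bool → ℂ) × (κ → PowerSeries ℂ)) :=
    {z | z.1 (Sum.inr true) = 0 ∧ z.1 (Sum.inr false) ≠ 0 ∧
      (∀ l < j, PowerSeries.coeff l (aeval z.2 g) = 0) ∧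
      z.1 (Sum.inl (Sum.inr ())) * PowerSeries.coeff j (aeval z.2 g) = 1 ∧
      pt (fun s => z.1 (Sum.inl (Sum.inl s)))
        (z.1 (Sum.inr false) * PowerSeries.coeff j (aeval z.2 g)) ∈ Q}
  have hCy : Cy C := Cy.and (Cy.zero (RF.par _)) (Cy.and (Cy.not (Cy.zero (RF.par _)))
    (Cy.and (Cy.all_lt j fun l _ => Cy.zero (RF.coef g l)) (Cy.and
    (Cy.eq ((RF.par _).mul (RF.coef g j)) (RF.const 1))
    (cy_pt (fun s => RF.par _) ((RF.par _).mul (RF.coef g j)) hQ))))
  let φ : ℕ → ((((E ⊕ Unit) ⊕ Bool) ⊕ ℕ → ℂ) × (κ → PowerSeries ℂ)) → ℂ := fun l z =>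
    z.1 (Sum.inl (Sum.inl (Sum.inr ()))) *
      (eval (pt (fun s => z.1 (Sum.inl (Sum.inl (Sum.inl s))))
        (z.1 (Sum.inl (Sum.inr false)) * PowerSeries.coeff j (aeval z.2 g))) (A l) -
      ∑ s ∈ Finset.range (l + 1), (if s = 0 then z.1 (Sum.inl (Sum.inr false)) else
        z.1 (Sum.inr (s - 1))) * PowerSeries.coeff (j + (l + 1 - s)) (aeval z.2 g))
  have hφ : ∀ l, RF (φ l) := fun l => (RF.par _).mul (RF.sub
    (RF.eval (rf_pt (fun s => RF.par _) ((RF.par _).mul (RF.coef g j))) (A l))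
    (RF.sum _ fun s _ => (RF.ite _ (RF.par _) (RF.par _)).mul (RF.coef g _)))
  -- `T` with the additional parameter
  let D : ℕ → Set ((E ⊕ Unit → ℂ) × (ι ⊕ κ → PowerSeries ℂ)) := fun e =>
    {z | z.1 (Sum.inr ()) * PowerSeries.coeff j (aeval (fun a => z.2 (Sum.inr a)) g) = 1 ∧
      ((fun s => z.1 (Sum.inl s)), z.2) ∈ T f g Q A i j e}
  have hD : ∀ e, Cy (D e) := fun e => Cy.and
    (Cy.eq ((RF.par _).mul (RF.cr g j)) (RF.const 1))
    ((cy_T f g hQ A i j e).pull (fun s => RF.par _) id)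
  have hbase : ∀ e, vol P.rat xq (D e) = vol P.rat xq (T f g Q A i j e) := by
    intro e
    refine vol_base P (hD e) (cy_T f g hQ A i j e) Sum.inl (fun z hz => hz.2) ?_ ?_
    · intro z hz z' hz' h1 h2
      funext s
      rcases s with s | s
      · exact congrFun h1 s
      · have h3 := hz.1
        have h4 := hz'.1
        rw [← h2] at h4
        have h5 : PowerSeries.coeff j (aeval (fun a => z.2 (Sum.inr a)) g) ≠ 0 := by
          intro h
          rw [h, mul_zero] at h3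
          exact zero_ne_one h3
        exact mul_right_cancel₀ h5 (h3.trans h4.symm)
    · intro z hz
      have h5 : PowerSeries.coeff j (aeval (fun a => z.2 (Sum.inr a)) g) ≠ 0 := hz.2.2.2.1
      exact ⟨Sum.elim z.1 fun _ => (PowerSeries.coeff j (aeval (fun a => z.2 (Sum.inr a)) g))⁻¹,
        rfl, inv_mul_cancel₀ h5, hz⟩
  have key := u5rf hU5 P hU hCy (fun z hz => ⟨Set.mem_univ _, hz.2.1⟩) i e hi hφ
  -- identification of the sets
  have hset : ∀ e, D e = {z : (E ⊕ Unit → ℂ) × (ι ⊕ κ → PowerSeries ℂ) |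
        cut true i (aeval (fun a => z.2 (Sum.inl a)) f) ∧
        ((Sum.elim z.1 (dat true i (aeval (fun a => z.2 (Sum.inl a)) f))),
          fun a => z.2 (Sum.inr a)) ∈ C ∧
        ∀ l < e, PowerSeries.coeff (i + 1 + l) (aeval (fun a => z.2 (Sum.inl a)) f) =
          φ l (Sum.elim (Sum.elim z.1 (dat true i (aeval (fun a => z.2 (Sum.inl a)) f)))
            (fun s => if s < l then
              PowerSeries.coeff (i + 1 + s) (aeval (fun a => z.2 (Sum.inl a)) f) else 0),
            fun a => z.2 (Sum.inr a))} := by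
    intro e
    ext z
    set F := aeval (fun a => z.2 (Sum.inl a)) f with hF
    set G := aeval (fun a => z.2 (Sum.inr a)) g with hG
    set w := z.1 (Sum.inr ()) with hw
    -- the prescribed coefficients
    have hcoef : (∀ l < i, PowerSeries.coeff l F = 0) → (∀ l < j, PowerSeries.coeff l G = 0) →
        w * PowerSeries.coeff j G = 1 → ∀ l, ∀ a : ℂ,
        (PowerSeries.coeff (i + j + 1 + l) (F * G) = a ↔
          PowerSeries.coeff (i + 1 + l) F = w * (a - ∑ s ∈ Finset.range (l + 1),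
            (if s = 0 then PowerSeries.coeff i F else if s - 1 < l then
              PowerSeries.coeff (i + 1 + (s - 1)) F else 0) *
                PowerSeries.coeff (j + (l + 1 - s)) G)) := by
      intro h1 h2 h3 l a
      have h4 : PowerSeries.coeff (i + j + 1 + l) (F * G) =
          (∑ s ∈ Finset.range (l + 1), (if s = 0 then PowerSeries.coeff i F else if s - 1 < l then
              PowerSeries.coeff (i + 1 + (s - 1)) F else 0) *
                PowerSeries.coeff (j + (l + 1 - s)) G) +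
            PowerSeries.coeff (i + 1 + l) F * PowerSeries.coeff j G := by
        have h5 := coeff_mul_ord h1 h2 (l + 1)
        rw [Finset.sum_range_succ] at h5
        rw [show i + j + 1 + l = i + j + (l + 1) by omega, h5]
        congr 1
        · refine Finset.sum_congr rfl fun s hs => ?_
          have hs1 := Finset.mem_range.1 hs
          rcases Nat.eq_zero_or_pos s with rfl | hs2
          · simp
          · rw [if_neg (by omega), if_pos (by omega), show i + 1 + (s - 1) = i + s by omega]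
        · rw [show i + (l + 1) = i + 1 + l by omega, Nat.sub_self, add_zero]
      rw [h4]
      constructor
      · intro h5
        rw [← h5]
        linear_combination (-PowerSeries.coeff (i + 1 + l) F) * h3
      · intro h5
        rw [h5]
        linear_combination (a - ∑ s ∈ Finset.range (l + 1), (if s = 0 then PowerSeries.coeff i F
          else if s - 1 < l then PowerSeries.coeff (i + 1 + (s - 1)) F else 0) *
            PowerSeries.coeff (j + (l + 1 - s)) G) * h3
    constructor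
    · rintro ⟨h1, h2, h3, h4, h5, h6, h7⟩
      obtain ⟨h8, h9⟩ := (cut_iff hi _).2 h2
      exact ⟨h8, ⟨h9, h3, h4, h1, h6⟩, fun l hl => (hcoef h2 h4 h1 l _).1 (h7 l hl)⟩
    · rintro ⟨h1, ⟨h2, h3, h4, h5, h6⟩, h7⟩
      have h8 := (cut_iff hi _).1 ⟨h1, h2⟩
      have h9 : PowerSeries.coeff j G ≠ 0 := by
        intro h
        have h5' : w * PowerSeries.coeff j G = 1 := h5
        rw [h, mul_zero] at h5'
        exact zero_ne_one h5'
      exact ⟨h5, h8, h3, h4, h9, h6, fun l hl => (hcoef h8 h4 h5 l _).2 (h7 l hl)⟩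
  rw [← hbase e, ← hbase 0, hset e, key]
  congr 2
  rw [hset 0]
  ext z
  simp only [Set.mem_ofPred_eq, Nat.not_lt_zero, false_imp_iff, implies_true, and_true]

/-- exchange of `f` and `g` -/
theorem T_swap (P : HodgeMeasure) [Finite E] [Fintype ι] [Fintype κ]
    (f : MvPolynomial ι ℂ) (g : MvPolynomial κ ℂ)
    {Q : Set (E ⊕ Bool → ℂ)} (hQ : Constructible Q) (A : ℕ → MvPolynomial (E ⊕ Bool) ℂ)
    (i j e : ℕ) : vol P.rat xq (T f g Q A i j e) = vol P.rat xq (T g f Q A j i e) := by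
  rw [← vol_swap P (cy_T g f hQ A j i e)]
  congr 1
  ext z
  have e1 : ∀ a b : PowerSeries ℂ, a * b = b * a := mul_comm
  constructor
  · rintro ⟨h1, h2, h3, h4, h5, h6⟩
    refine ⟨h3, h4, h1, h2, ?_, ?_⟩
    · rw [mul_comm]
      exact h5
    · intro l hl
      have h7 := h6 l hl
      rw [add_comm i j, mul_comm (aeval (fun a => z.2 (Sum.inl a)) f),
        mul_comm (PowerSeries.coeff i (aeval (fun a => z.2 (Sum.inl a)) f))] at h7
      exact h7
  · rintro ⟨h1, h2, h3, h4, h5, h6⟩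
    refine ⟨h3, h4, h1, h2, ?_, ?_⟩
    · rw [mul_comm]
      exact h5
    · intro l hl
      have h7 := h6 l hl
      rw [add_comm i j, mul_comm (aeval (fun a => z.2 (Sum.inl a)) f),
        mul_comm (PowerSeries.coeff i (aeval (fun a => z.2 (Sum.inl a)) f))]
      exact h7

end main

end VZEAux

open VZEAux

theorem stmt_VZE (hU5 : Stmt_U5) : Stmt_VZE := by
  intro P ι κ _ _ f g hf hg E _ Q hQ m e hm A
  have hQ1 := hQ.1
  -- the partition
  have hpart : PD (otimes f g) Q m e A = ⋃ i ∈ Finset.range (m + 1), T f g Q A i (m - i) e := by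
    ext z
    simp only [PD, SD, Set.mem_ofPred_eq, Set.mem_iUnion, Finset.mem_range, exists_prop, T,
      aeval_otimes]
    set F := aeval (fun a => z.2 (Sum.inl a)) f with hF
    set G := aeval (fun a => z.2 (Sum.inr a)) g with hG
    have hdat : ∀ H : PowerSeries ℂ, PowerSeries.coeff 0 H = 0 →
        Sum.elim z.1 (dat true m H) = pt z.1 (PowerSeries.coeff m H) := by
      intro H h0
      rw [pt]
      congr 1
      funext b
      cases b
      · simp [dat, ldc]
      · simpa [dat] using h0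
    constructor
    · rintro ⟨⟨h1, h2⟩, h3⟩
      have h0 : PowerSeries.coeff 0 (F * G) = 0 := by
        have := (hQ.2 _ h2).1
        simpa [dat] using this
      have h4 : PowerSeries.coeff m (F * G) ≠ 0 := by
        have := (hQ.2 _ h2).2 rfl
        simpa [dat, ldc] using this
      rw [hdat _ h0] at h2 h3
      have h5 := (cut_iff hm (F * G)).1 ⟨h1, h0⟩
      obtain ⟨i, hi1, hi2⟩ := exists_ord (F := F) (by rintro h; rw [h] at h4; simp at h4)
      obtain ⟨j, hj1, hj2⟩ := exists_ord (F := G) (by rintro h; rw [h] at h4; simp at h4)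
      have h6 : i + j = m := by
        refine ord_unique (coeff_mul_low hi1 hj1) ?_ h5 h4
        rw [coeff_mul_lead hi1 hj1]
        exact mul_ne_zero hi2 hj2
      have h7 : m - i = j := by omega
      refine ⟨i, by omega, ?_⟩
      rw [h7]
      have h8 : PowerSeries.coeff m (F * G) = PowerSeries.coeff i F * PowerSeries.coeff j G := by
        rw [← h6, coeff_mul_lead hi1 hj1]
      rw [h8] at h2 h3
      refine ⟨hi1, hi2, hj1, hj2, h2, fun l hl => ?_⟩
      rw [h6]
      exact h3 l hl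
    · rintro ⟨i, hi, h1, h2, h3, h4, h5, h6⟩
      have h7 : i + (m - i) = m := by omega
      have h8 : PowerSeries.coeff m (F * G) =
          PowerSeries.coeff i F * PowerSeries.coeff (m - i) G := by
        rw [← coeff_mul_lead h1 h3, h7]
      have h9 := coeff_mul_low h1 h3
      rw [h7] at h9
      obtain ⟨h10, h11⟩ := (cut_iff hm _).2 h9
      rw [hdat _ h11, h8]
      refine ⟨⟨h10, h5⟩, fun l hl => ?_⟩
      have h12 := h6 l hl
      rw [h7] at h12
      exact h12
  have hd : ∀ a ∈ Finset.range (m + 1), ∀ b ∈ Finset.range (m + 1), a ≠ b →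
      Disjoint (T f g Q A a (m - a) e) (T f g Q A b (m - b) e) := by
    intro a _ b _ hab
    rw [Set.disjoint_left]
    rintro z ⟨h1, h2, -⟩ ⟨h3, h4, -⟩
    exact hab (ord_unique h1 h2 h3 h4)
  rw [hpart, vol_biU P _ (fun a _ => cy_T f g hQ1 A _ _ _) hd]
  have hall : ∀ i ∈ Finset.range (m + 1), vol P.rat xq (T f g Q A i (m - i) e) =
      xq ^ e * vol P.rat xq (T f g Q A i (m - i) 0) := by
    intro i hi
    rcases Nat.eq_zero_or_pos i with rfl | h
    · rw [T_swap P f g hQ1 A, T_swap P f g hQ1 A 0 (m - 0) 0]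
      exact core hU5 P hg f hQ1 A _ _ _ (by omega)
    · exact core hU5 P hf g hQ1 A _ _ _ h
  rw [Finset.sum_congr rfl hall, ← Finset.mul_sum]
  congr 1
  rw [Finset.sum_range_succ, Finset.range_eq_Ico, Finset.sum_eq_sum_Ico_succ_bot (by omega),
    Nat.sub_self, Nat.sub_zero]
  have h1 : T f g Q A m 0 0 = DD f g true false {z | z (Sum.inr 0) = 0 ∧ z (Sum.inr 1) ≠ 0 ∧
          z (Sum.inr 2) ≠ 0 ∧ Sum.elim (fun p => z (Sum.inl p)) (fun b : Bool => if b then 0 else
            z (Sum.inr 1) * z (Sum.inr 2)) ∈ Q} m 0 := by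
    ext z
    constructor
    · rintro ⟨h1, h2, h3, h4, h5, -⟩
      obtain ⟨h6, h7⟩ := (cut_iff hm _).2 h1
      exact ⟨h6, cutf_zero _, h7, h2, h4, h5⟩
    · rintro ⟨h1, -, h3, h4, h5, h6⟩
      exact ⟨(cut_iff hm _).1 ⟨h1, h3⟩, h4, by simp, h5, h6, by simp⟩
  have h2 : T f g Q A 0 m 0 = DD f g false true {z | z (Sum.inr 2) = 0 ∧ z (Sum.inr 3) ≠ 0 ∧
          z (Sum.inr 0) ≠ 0 ∧ Sum.elim (fun p => z (Sum.inl p)) (fun b : Bool => if b then 0 else
            z (Sum.inr 0) * z (Sum.inr 3)) ∈ Q} 0 m := by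
    ext z
    constructor
    · rintro ⟨h1, h2, h3, h4, h5, -⟩
      obtain ⟨h6, h7⟩ := (cut_iff hm _).2 h3
      exact ⟨cutf_zero _, h6, h7, h4, h2, h5⟩
    · rintro ⟨-, h1, h3, h4, h5, h6⟩
      exact ⟨by simp, h5, (cut_iff hm _).1 ⟨h1, h3⟩, h4, h6, by simp⟩
  have h3 : ∀ i ∈ Finset.Ico (0 + 1) m, T f g Q A i (m - i) 0 =
      DD f g true true {z | z (Sum.inr 0) = 0 ∧
          z (Sum.inr 2) = 0 ∧ z (Sum.inr 1) ≠ 0 ∧ z (Sum.inr 3) ≠ 0 ∧
          Sum.elim (fun p => z (Sum.inl p)) (fun b : Bool => if b then 0 else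
            z (Sum.inr 1) * z (Sum.inr 3)) ∈ Q} i (m - i) := by
    intro i hi
    obtain ⟨hi1, hi2⟩ := Finset.mem_Ico.1 hi
    ext z
    constructor
    · rintro ⟨h1, h2, h3, h4, h5, -⟩
      obtain ⟨h6, h7⟩ := (cut_iff (by omega) _).2 h1
      obtain ⟨h8, h9⟩ := (cut_iff (by omega) _).2 h3
      exact ⟨h6, h8, h7, h9, h2, h4, h5⟩
    · rintro ⟨h1, h2, h3, h4, h5, h6, h7⟩
      exact ⟨(cut_iff (by omega) _).1 ⟨h1, h3⟩, h5, (cut_iff (by omega) _).1 ⟨h2, h4⟩, h6, h7,
        by simp⟩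
  rw [h1, h2, Finset.sum_congr rfl fun i hi => by rw [h3 i hi]]
  ring

end Pool.Agent.Mono.RO
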