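import Pool.Agent.Work.Monodromy5.VZA

/-!
# Block VZT (helper98): products over the value `0`, tail
-/

set_option autoImplicit false
set_option linter.unusedSectionVars false

namespace Pool.Agent.Mono.RO

open MvPolynomial TS VGAux VZAux TS.VPAux

theorem stmt_VZT : Stmt_VZT := by
  classical
  intro P ι κ _ _ f g E _ Q hQok m
  set A0 := DD f g false false {z : E ⊕ Fin 4 → ℂ | z (Sum.inr 0) = 0 ∧
    Sum.elim (fun p => z (Sum.inl p)) (fun _ : Bool => 0) ∈ Q} m 0 with hA0
  set B0 := DD f g false false {z : E ⊕ Fin 4 → ℂ | z (Sum.inr 0) ≠ 0 ∧ z (Sum.inr 2) = 0 ∧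
    Sum.elim (fun p => z (Sum.inl p)) (fun _ : Bool => 0) ∈ Q} 0 m with hB0
  set C0 := fun i : ℕ => DD f g true false {z : E ⊕ Fin 4 → ℂ | z (Sum.inr 0) = 0 ∧
    z (Sum.inr 2) = 0 ∧ z (Sum.inr 1) ≠ 0 ∧
    Sum.elim (fun p => z (Sum.inl p)) (fun _ : Bool => 0) ∈ Q} i (m - i) with hC0
  have cz : Constructible {z : E ⊕ Fin 4 → ℂ |
      Sum.elim (fun p => z (Sum.inl p)) (fun _ : Bool => 0) ∈ Q} := by
    have h := Constructible.preimage (Sum.elim (fun p => X (Sum.inl p)) (fun _ : Bool => 0) :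
      E ⊕ Bool → MvPolynomial (E ⊕ Fin 4) ℂ) hQok.1
    convert h using 2
    ext z
    apply Eq.to_iff
    congr 1
    funext s
    rcases s with s | s <;> simp
  have c0 : ∀ k : Fin 4, Constructible {z : E ⊕ Fin 4 → ℂ | z (Sum.inr k) = 0} := by
    intro k
    have h := Constructible.zero (X (Sum.inr k) : MvPolynomial (E ⊕ Fin 4) ℂ)
    simpa only [eval_X] using h
  have yA : Cy A0 := cy_DD f g false false (Constructible.and (c0 0) cz) m 0
  have yB : Cy B0 := cy_DD f g false false (Constructible.and (Constructible.not (c0 0))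
    (Constructible.and (c0 2) cz)) 0 m
  have yC : ∀ i ∈ Finset.Icc 1 m, Cy (C0 i) := fun i _ => cy_DD f g true false
    (Constructible.and (c0 0) (Constructible.and (c0 2)
      (Constructible.and (Constructible.not (c0 1)) cz))) i (m - i)
  -- membership
  have mA : ∀ z : (E → ℂ) × (ι ⊕ κ → PowerSeries ℂ), z ∈ A0 ↔
      (∀ l ≤ m, PowerSeries.coeff l (aeval (fun a => z.2 (Sum.inl a)) f) = 0) ∧
        Sum.elim z.1 (fun _ : Bool => 0) ∈ Q := by
    intro z
    constructor
    · rintro ⟨h1, -, h2, h3⟩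
      refine ⟨fun l hl => ?_, h3⟩
      rcases Nat.eq_zero_or_pos l with h4 | h4
      · subst h4
        exact h2
      · exact h1 l h4 (by simp; omega)
    · rintro ⟨h1, h2⟩
      refine ⟨fun l _ hl => h1 l ?_, fun l hl hl' => ?_, h1 0 (Nat.zero_le _), h2⟩
      · have hl' : l < m + 1 := hl
        omega
      · have hl'' : l < 0 + 1 := hl'
        omega
  have mB : ∀ z : (E → ℂ) × (ι ⊕ κ → PowerSeries ℂ), z ∈ B0 ↔
      PowerSeries.coeff 0 (aeval (fun a => z.2 (Sum.inl a)) f) ≠ 0 ∧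
      (∀ l ≤ m, PowerSeries.coeff l (aeval (fun a => z.2 (Sum.inr a)) g) = 0) ∧
        Sum.elim z.1 (fun _ : Bool => 0) ∈ Q := by
    intro z
    constructor
    · rintro ⟨-, h1, h2, h3, h4⟩
      refine ⟨h2, fun l hl => ?_, h4⟩
      rcases Nat.eq_zero_or_pos l with h5 | h5
      · subst h5
        exact h3
      · exact h1 l h5 (by simp; omega)
    · rintro ⟨h1, h2, h3⟩
      refine ⟨fun l hl hl' => ?_, fun l _ hl => h2 l ?_, h1, h2 0 (Nat.zero_le _), h3⟩
      · have hl'' : l < 0 + 1 := hl'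
        omega
      · have hl' : l < m + 1 := hl
        omega
  have mC : ∀ (i : ℕ) (z : (E → ℂ) × (ι ⊕ κ → PowerSeries ℂ)), 1 ≤ i → (z ∈ C0 i ↔
      (∀ l < i, PowerSeries.coeff l (aeval (fun a => z.2 (Sum.inl a)) f) = 0) ∧
      PowerSeries.coeff i (aeval (fun a => z.2 (Sum.inl a)) f) ≠ 0 ∧
      (∀ l ≤ m - i, PowerSeries.coeff l (aeval (fun a => z.2 (Sum.inr a)) g) = 0) ∧
        Sum.elim z.1 (fun _ : Bool => 0) ∈ Q) := by
    intro i z hi
    constructor
    · rintro ⟨h1, h2, h3, h4, h5, h6⟩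
      refine ⟨fun l hl => ?_, h5, fun l hl => ?_, h6⟩
      · rcases Nat.eq_zero_or_pos l with h7 | h7
        · subst h7
          exact h3
        · exact h1 l h7 hl
      · rcases Nat.eq_zero_or_pos l with h7 | h7
        · subst h7
          exact h4
        · exact h2 l h7 (by simp; omega)
    · rintro ⟨h1, h2, h3, h4⟩
      refine ⟨fun l _ hl => h1 l hl, fun l _ hl => h3 l ?_, h1 0 hi, h3 0 (Nat.zero_le _), h2, h4⟩
      have hl' : l < m - i + 1 := hl
      omega
  have hset : SD (otimes f g) false Q m = (A0 ∪ B0) ∪ ⋃ i ∈ Finset.Icc 1 m, C0 i := by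
    ext z
    have hL : z ∈ SD (otimes f g) false Q m ↔ (∀ l ≤ m, PowerSeries.coeff l
        (aeval (fun a => z.2 (Sum.inl a)) f * aeval (fun a => z.2 (Sum.inr a)) g) = 0) ∧
        Sum.elim z.1 (fun _ : Bool => 0) ∈ Q := by
      rw [← aeval_otimes]
      constructor
      · rintro ⟨h1, h2⟩
        have h3 : PowerSeries.coeff 0 (aeval z.2 (otimes f g)) = 0 := (hQok.2 _ h2).1
        have h4 : dat false m (aeval z.2 (otimes f g)) = fun _ => 0 := by
          funext b
          rcases b with _ | _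
          · rfl
          · exact h3
        rw [h4] at h2
        refine ⟨fun l hl => ?_, h2⟩
        rcases Nat.eq_zero_or_pos l with h5 | h5
        · rw [h5]
          exact h3
        · exact h1 l h5 (by simp; omega)
      · rintro ⟨h1, h2⟩
        have h4 : dat false m (aeval z.2 (otimes f g)) = fun _ => 0 := by
          funext b
          rcases b with _ | _
          · rfl
          · exact h1 0 (Nat.zero_le _)
        refine ⟨fun l _ hl => h1 l ?_, ?_⟩
        · have hl' : l < m + 1 := hl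
          omega
        · rw [h4]
          exact h2
    rw [hL]
    simp only [Set.mem_union, Set.mem_iUnion, exists_prop, mA, mB]
    constructor
    · rintro ⟨h1, h2⟩
      rcases (mul_gt_iff _ _ m).1 h1 with h3 | ⟨i, hi, ⟨h3, h4⟩, h5⟩
      · exact Or.inl (Or.inl ⟨h3, h2⟩)
      · rcases Nat.eq_zero_or_pos i with h6 | h6
        · subst h6
          exact Or.inl (Or.inr ⟨h4, h5, h2⟩)
        · exact Or.inr ⟨i, Finset.mem_Icc.2 ⟨h6, by omega⟩, (mC i z h6).2 ⟨h3, h4, h5, h2⟩⟩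
    · rintro ((⟨h1, h2⟩ | ⟨h1, h2, h3⟩) | ⟨i, hi, h1⟩)
      · exact ⟨(mul_gt_iff _ _ m).2 (Or.inl h1), h2⟩
      · exact ⟨(mul_gt_iff _ _ m).2 (Or.inr ⟨0, by omega, ⟨fun l hl => absurd hl
          (Nat.not_lt_zero l), h1⟩, h2⟩), h3⟩
      · rw [Finset.mem_Icc] at hi
        obtain ⟨h2, h3, h4, h5⟩ := (mC i z hi.1).1 h1
        exact ⟨(mul_gt_iff _ _ m).2 (Or.inr ⟨i, by omega, ⟨h2, h3⟩, h4⟩), h5⟩
  rw [hset, vol_uni P (cy_union yA yB) (Cy.biUnion _ yC), vol_uni P yA yB, vol_biU P _ yC]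
  · intro i hi j hj hij
    rw [Finset.mem_Icc] at hi hj
    rw [Set.disjoint_left]
    intro z h1 h2
    obtain ⟨h3, h4, -⟩ := (mC i z hi.1).1 h1
    obtain ⟨h5, h6, -⟩ := (mC j z hj.1).1 h2
    exact hij (order_unique h3 h4 h5 h6)
  · rw [Set.disjoint_left]
    intro z h1 h2
    exact ((mB z).1 h2).1 (((mA z).1 h1).1 0 (Nat.zero_le _))
  · rw [Set.disjoint_left]
    intro z h1 h2
    simp only [Set.mem_iUnion, exists_prop, Finset.mem_Icc] at h2
    obtain ⟨i, hi, h2⟩ := h2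
    obtain ⟨h3, h4, -⟩ := (mC i z hi.1).1 h2
    rcases h1 with h1 | h1
    · exact h4 (((mA z).1 h1).1 i hi.2)
    · exact ((mB z).1 h1).1 (h3 0 hi.1)

end Pool.Agent.Mono.RO
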