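import Pool.Agent.Work.Monodromy5.WUA

/-!
# Block WP5 (helper98): products over nonzero values
-/

set_option autoImplicit false
set_option linter.unusedSectionVars false

namespace Pool.Agent.Mono.RO

open MvPolynomial TS TS.WBAux TS.W4Aux WUAux
open scoped TensorProduct

theorem stmt_WP5 : Stmt_WP5 := by
  rintro ι κ _ _ _ _ f g c c' β β' hc hc' ⟨V, i1, i2, w, v, hv0, hf0, hdf, hD, hf⟩
    ⟨V', i1', i2', w', v', hv0', hf0', hdf', hD', hf'⟩
  -- the first factor
  set F : MvPolynomial ι ℂ := f - C c with hF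
  -- the second factor
  set n : MvPolynomial κ ℂ := g - C c' with hn
  set G : MvPolynomial κ ℂ := C c * n with hG
  have hg : C c' + n = g := by rw [hn]; ring
  have hpg : ∀ a, pderiv a n = pderiv a g := by
    intro a
    rw [hn, map_sub, pderiv_C, sub_zero]
  have hpG : ∀ a, pderiv a G = C c * pderiv a g := by
    intro a
    rw [hG, pderiv_C_mul, hpg]
  have hpF : ∀ a, pderiv a F = pderiv a f := by
    intro a
    rw [hF, map_sub, pderiv_C, sub_zero]
  set y : ℕ → V' := fun b => c⁻¹ ^ b • v' b with hy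
  have hy0 : y 0 = v' 0 := by simp [hy]
  have hGy0 : w'.pX G (y 0) = 0 := by rw [hy0, hG, pX_mul, hf0', map_zero]
  have hdGy0 : ∀ a, w'.pX (pderiv a G) (y 0) = 0 := by
    intro a
    rw [hy0, hpG, ← hpg, pX_mul, hdf', map_zero]
  have hGy : ∀ b : ℕ, w'.pX G (y (b + 1)) = (β' - b) • y b := by
    intro b
    simp only [hy]
    rw [map_smul, hG, pX_mul, hf', map_smul, pX_C, smul_smul, smul_smul, smul_smul]
    congr 1
    rw [pow_succ]
    field_simp
  have hDy : ∀ b a, w'.D' a (y b) = w'.pX (pderiv a G) (y (b + 1)) := by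
    intro b a
    simp only [hy]
    rw [map_smul, hD', map_smul, hpG, ← hpg, pX_mul, pX_C, smul_smul]
    congr 1
    rw [pow_succ]
    field_simp
  have hTn : ∀ b, w'.pX (n ^ (b + 1)) (v' b) = 0 := by
    intro b
    induction b with
    | zero => rw [zero_add, pow_one, hf0']
    | succ b ih => rw [pow_succ, pX_mul, hf', map_smul, ih, smul_zero]
  have hT : ∀ b, Tor w' n (y b) := fun b => Tor.smul ⟨b + 1, hTn b⟩ _
  have hmul : ∀ (a : ℕ) (x : V'), Tor w' n x → w'.pX g (UA w' n c' (β - (a + 1 : ℕ)) x) =
      c' • UA w' n c' (β - a) x := by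
    intro a x hx
    have h := UA_mul hc' hx (β - a)
    rw [hg] at h
    rw [← h]
    congr 2
    push_cast
    ring
  have hexp : otimes f g - C (c * c') =
      rename Sum.inl F * rename Sum.inr g + rename Sum.inr G := by
    rw [otimes, hF, hG, hn]
    simp only [map_sub, map_mul, rename_C]
    ring
  have ydx : ∀ x : ι, pderiv (Sum.inl x) (otimes f g - C (c * c')) =
      rename Sum.inl (pderiv x F) * rename Sum.inr g := by
    intro x
    rw [hexp, map_add, pderiv_mul, pd_inl_inl, pd_inl_inr, pd_inl_inr]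
    ring
  have ydy : ∀ x : κ, pderiv (Sum.inr x) (otimes f g - C (c * c')) =
      rename Sum.inl F * rename Sum.inr (pderiv x g) + rename Sum.inr (pderiv x G) := by
    intro x
    rw [hexp, map_add, pderiv_mul, pd_inr_inl, pd_inr_inr, pd_inr_inr]
    ring
  -- the action on pure tensors
  have act : ∀ (p : MvPolynomial ι ℂ) (q : MvPolynomial κ ℂ) (x : V) (z : V'),
      (tens w w').pX (rename Sum.inl p * rename Sum.inr q) (x ⊗ₜ z) =
        (w.pX p x) ⊗ₜ (w'.pX q z) := by
    intro p q x z
    rw [pX_mul, pX_inr, pX_inl]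
  set m : ℕ → ℕ → V ⊗[ℂ] V' := fun a b => c'⁻¹ ^ a • (v a ⊗ₜ[ℂ] UA w' n c' (β - a) (y b))
    with hm
  refine ⟨V ⊗[ℂ] V', inferInstance, inferInstance, tens w w',
    fun i => ∑ a ∈ Finset.range (i + 1), m a (i - a), ?_, ?_, ?_, ?_, ?_⟩
  · simp only [zero_add, Finset.range_one, Finset.sum_singleton, Nat.sub_zero, hm, pow_zero,
      one_smul]
    refine tmul_ne hv0 (UA_ne ?_ (hT 0) _)
    rw [hy0]
    exact hv0'
  · simp only [zero_add, Finset.range_one, Finset.sum_singleton, Nat.sub_zero, hm, pow_zero,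
      one_smul]
    rw [hexp, pX_add, act, pX_inr, hf0, TensorProduct.zero_tmul, UA_pX (hT 0), hGy0, UA_zero,
      TensorProduct.tmul_zero, add_zero]
  · intro a
    simp only [zero_add, Finset.range_one, Finset.sum_singleton, Nat.sub_zero, hm, pow_zero,
      one_smul]
    rcases a with a | a
    · rw [ydx, act, hdf, TensorProduct.zero_tmul]
    · rw [ydy, pX_add, act, pX_inr, hf0, TensorProduct.zero_tmul, UA_pX (hT 0), hdGy0, UA_zero,
        TensorProduct.tmul_zero, add_zero]
  · intro i a
    rcases a with a | a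
    · rw [ydx, map_sum, map_sum, Finset.sum_range_succ' _ (i + 1)]
      simp only [hm, map_smul, act, D_inl, hdf, TensorProduct.zero_tmul, smul_zero, add_zero, hD]
      refine Finset.sum_congr rfl fun b hb => ?_
      rw [Nat.add_sub_add_right, hmul b _ (hT _), TensorProduct.tmul_smul, smul_smul]
      congr 1
      rw [pow_succ]
      field_simp
    · rw [ydy, pX_add, map_sum, map_sum, map_sum]
      rw [Finset.sum_range_succ' (fun b => (tens w w').pX (rename Sum.inl F * rename Sum.inr
        (pderiv a g)) (m b (i + 1 - b))) (i + 1), Finset.sum_range_succ (fun b =>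
        (tens w w').pX (rename Sum.inr (pderiv a G)) (m b (i + 1 - b))) (i + 1)]
      simp only [hm, map_smul, act, D_inr, pX_inr, hf0, TensorProduct.zero_tmul, smul_zero,
        add_zero, Nat.sub_self]
      rw [UA_pX (hT 0), hdGy0, UA_zero, TensorProduct.tmul_zero, smul_zero, add_zero,
        ← Finset.sum_add_distrib]
      refine Finset.sum_congr rfl fun b hb => ?_
      have hb' : b ≤ i := Nat.lt_succ_iff.1 (Finset.mem_range.1 hb)
      have h1 : β - ((b + 1 : ℕ) : ℂ) = β - b - 1 := by
        push_cast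
        ring
      rw [UA_D (hT _), hDy, hpg, Nat.add_sub_add_right, Nat.succ_sub hb', hf, h1,
        UA_pX (hT (i - b + 1)), TensorProduct.tmul_add, TensorProduct.tmul_smul, smul_add,
        ← TensorProduct.smul_tmul', smul_smul, smul_smul, add_comm]
      congr 2
      rw [pow_succ]
      ring
  · intro i
    rw [hexp, pX_add, map_sum, map_sum, Finset.smul_sum]
    rw [Finset.sum_range_succ' (fun b => (tens w w').pX (rename Sum.inl F * rename Sum.inr g)
      (m b (i + 1 - b))) (i + 1), Finset.sum_range_succ (fun b =>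
      (tens w w').pX (rename Sum.inr G) (m b (i + 1 - b))) (i + 1)]
    simp only [hm, map_smul, act, pX_inr, hf0, TensorProduct.zero_tmul, smul_zero,
      add_zero, Nat.sub_self]
    rw [UA_pX (hT 0), hGy0, UA_zero, TensorProduct.tmul_zero, smul_zero, add_zero,
      ← Finset.sum_add_distrib]
    refine Finset.sum_congr rfl fun b hb => ?_
    have hb' : b ≤ i := Nat.lt_succ_iff.1 (Finset.mem_range.1 hb)
    rw [Nat.add_sub_add_right, Nat.succ_sub hb', hmul b _ (hT _), hf, UA_pX (hT (i - b + 1)), hGy,
      UA_smul (hT (i - b)), TensorProduct.tmul_smul, TensorProduct.tmul_smul,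
      ← TensorProduct.smul_tmul', smul_smul, smul_smul, smul_smul, smul_smul, ← add_smul]
    congr 1
    rw [Nat.cast_sub hb', pow_succ]
    field_simp
    ring

end Pool.Agent.Mono.RO
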