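import Pool.Agent.Work.Monodromy.Interface5
import Pool.Agent.Work.Monodromy4.VS

/-!
# Block WS5 (helper98): weighted homogeneous polynomials over the value `0`
-/

set_option autoImplicit false
set_option linter.unusedSectionVars false

namespace Pool.Agent.Mono.RO

open MvPolynomial TS TS.VAAux TS.VPAux TS.VSAux

namespace WS5Aux

section

variable {E ι : Type} [Fintype ι]

/-- the sets are cylinders -/
theorem cyl_PD (f : MvPolynomial ι ℂ) {Q : Set (E ⊕ Bool → ℂ)} (hQ : Constructible Q)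
    (i e : ℕ) (A : ℕ → MvPolynomial (E ⊕ Bool) ℂ) (n : ℕ) (hn : i + e < n) :
    IsCyl (fun _ => n) (PD f Q i e A) := by
  have h0 : 0 < n := by omega
  have hi : i < n := by omega
  set ψ : E ⊕ Bool → MvPolynomial (E ⊕ Fin n) ℂ := Sum.elim (fun p => X (Sum.inl p))
    (fun b : Bool => if b then X (Sum.inr ⟨0, h0⟩) else X (Sum.inr ⟨i, hi⟩)) with hψ
  have hev : ∀ v : E ⊕ Fin n → ℂ, (fun s => eval v (ψ s)) =
      Sum.elim (fun p => v (Sum.inl p)) fun b : Bool => if b then v (Sum.inr ⟨0, h0⟩) else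
        v (Sum.inr ⟨i, hi⟩) := by
    intro v
    funext s
    rcases s with s | s
    · simp [hψ]
    · rcases s with _ | _ <;> simp [hψ]
  have hQ' : Constructible {v : E ⊕ Fin n → ℂ |
      (∀ l : Fin n, (1 ≤ (l : ℕ) ∧ (l : ℕ) < i) → eval v (X (Sum.inr l)) = 0) ∧
      (fun s => eval v (ψ s)) ∈ Q ∧
      ∀ l : Fin n, (i + 1 ≤ (l : ℕ) ∧ (l : ℕ) < i + 1 + e) →
        eval v (X (Sum.inr l)) = eval v (bind₁ ψ (A ((l : ℕ) - (i + 1))))} := by
    refine Constructible.and ?_ (Constructible.and (Constructible.preimage _ hQ) ?_)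
    · exact Constructible.all fun l => Constructible.imp (Constructible.const _)
        (Constructible.zero _)
    · exact Constructible.all fun l => Constructible.imp (Constructible.const _)
        (Constructible.eq _ _)
  have h := cyl_one (E := E) f n hQ'
  convert h using 1
  ext z
  set v : E ⊕ Fin n → ℂ := Sum.elim z.1 fun s : Fin n => PowerSeries.coeff (s : ℕ) (aeval z.2 f)
    with hv
  have h1 : (fun s => eval v (ψ s)) = Sum.elim z.1 (dat true i (aeval z.2 f)) := by
    rw [hev]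
    funext s
    rcases s with s | s
    · rfl
    · rcases s with _ | _ <;> rfl
  have h2 : ∀ B : MvPolynomial (E ⊕ Bool) ℂ, eval v (bind₁ ψ B) =
      eval (Sum.elim z.1 (dat true i (aeval z.2 f))) B := by
    intro B
    rw [← h1, ← coe_aeval_eq_eval, ← coe_aeval_eq_eval, RingHom.coe_coe, aeval_bind₁]
    rfl
  change (_ ∧ _) ↔ ((∀ l : Fin n, (1 ≤ (l : ℕ) ∧ (l : ℕ) < i) → eval v (X (Sum.inr l)) = 0) ∧
      (fun s => eval v (ψ s)) ∈ Q ∧
      ∀ l : Fin n, (i + 1 ≤ (l : ℕ) ∧ (l : ℕ) < i + 1 + e) →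
        eval v (X (Sum.inr l)) = eval v (bind₁ ψ (A ((l : ℕ) - (i + 1)))))
  rw [h1]
  simp only [SD, Set.mem_ofPred_eq, h2, eval_X, and_assoc]
  constructor
  · rintro ⟨h3, h4, h5⟩
    refine ⟨fun l hl => h3 l hl.1 hl.2, h4, fun l hl => ?_⟩
    have h6 := h5 ((l : ℕ) - (i + 1)) (by omega)
    have h7 : i + 1 + ((l : ℕ) - (i + 1)) = l := by omega
    rw [h7] at h6
    exact h6
  · rintro ⟨h3, h4, h5⟩
    refine ⟨fun l hl hl' => ?_, h4, fun l hl => ?_⟩
    · have hl'' : l < i := hl'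
      exact h3 ⟨l, by omega⟩ ⟨hl, hl''⟩
    · have h6 := h5 ⟨i + 1 + l, by omega⟩ ⟨by simp, by simpa using hl⟩
      simp only [add_tsub_cancel_left] at h6
      exact h6

/-! ## The action -/

/-- `x ↦ (1 + t T^r)^w x` -/
noncomputable def act (w : ι → ℕ) (r : ℕ) (t : ℂ) (z : ι → PowerSeries ℂ) : ι → PowerSeries ℂ :=
  fun a => (1 + PowerSeries.C t * PowerSeries.X ^ r) ^ w a * z a

/-- the inverse -/
noncomputable def actI (w : ι → ℕ) (r : ℕ) (t : ℂ) (z : ι → PowerSeries ℂ) : ι → PowerSeries ℂ :=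
  fun a => ((1 + PowerSeries.C t * PowerSeries.X ^ r) ^ w a)⁻¹ * z a

theorem act_actI (w : ι → ℕ) (r : ℕ) (hr : 1 ≤ r) (t : ℂ) (z : ι → PowerSeries ℂ) :
    act w r t (actI w r t z) = z := by
  funext a
  simp only [act, actI]
  rw [← mul_assoc, PowerSeries.mul_inv_cancel _ (unit_ne r hr t _), one_mul]

theorem actI_act (w : ι → ℕ) (r : ℕ) (hr : 1 ≤ r) (t : ℂ) (z : ι → PowerSeries ℂ) :
    actI w r t (act w r t z) = z := by
  funext a
  simp only [act, actI]
  rw [← mul_assoc, PowerSeries.inv_mul_cancel _ (unit_ne r hr t _), one_mul]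

theorem act_congr (w : ι → ℕ) (r : ℕ) (t : ℂ) (n : ℕ) (z z' : ι → PowerSeries ℂ)
    (h : ∀ i, ∀ l < n, PowerSeries.coeff l (z i) = PowerSeries.coeff l (z' i)) :
    ∀ i, ∀ l < n, PowerSeries.coeff l (act w r t z i) = PowerSeries.coeff l (act w r t z' i) :=
  fun a => coeff_mul_congr n _ _ _ (h a)

theorem actI_congr (w : ι → ℕ) (r : ℕ) (t : ℂ) (n : ℕ) (z z' : ι → PowerSeries ℂ)
    (h : ∀ i, ∀ l < n, PowerSeries.coeff l (z i) = PowerSeries.coeff l (z' i)) :
    ∀ i, ∀ l < n, PowerSeries.coeff l (actI w r t z i) = PowerSeries.coeff l (actI w r t z' i) :=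
  fun a => coeff_mul_congr n _ _ _ (h a)

variable {w : ι → ℕ} {d : ℕ} {f : MvPolynomial ι ℂ}

theorem f_act (hf : IsWeightedHomogeneous w f d) (r : ℕ) (t : ℂ) (z : ι → PowerSeries ℂ) :
    aeval (act w r t z) f = (1 + PowerSeries.C t * PowerSeries.X ^ r) ^ d * aeval z f :=
  whom hf _ _

/-- all coefficients below `i` vanish -/
theorem vanish {Q : Set (E ⊕ Bool → ℂ)} (hQ : QOk {0} true Q) {i e : ℕ}
    {A : ℕ → MvPolynomial (E ⊕ Bool) ℂ} {z : (E → ℂ) × (ι → PowerSeries ℂ)}
    (hz : z ∈ PD f Q i e A) : (∀ l < i, PowerSeries.coeff l (aeval z.2 f) = 0) ∧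
      PowerSeries.coeff i (aeval z.2 f) ≠ 0 := by
  obtain ⟨⟨h1, h2⟩, -⟩ := hz
  obtain ⟨h3, h4⟩ := hQ.2 _ h2
  refine ⟨fun l hl => ?_, h4 rfl⟩
  rcases Nat.eq_zero_or_pos l with h5 | h5
  · subst h5
    exact h3
  · exact h1 l h5 hl

/-- membership depends only on the coefficients of `f(x)` -/
theorem PD_congr {Q : Set (E ⊕ Bool → ℂ)} {i e : ℕ} {A : ℕ → MvPolynomial (E ⊕ Bool) ℂ}
    {p : E → ℂ} {x y : ι → PowerSeries ℂ} (hi : 1 ≤ i)
    (h : ∀ l < i + 1 + e, PowerSeries.coeff l (aeval x f) = PowerSeries.coeff l (aeval y f)) :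
    (p, x) ∈ PD f Q i e A ↔ (p, y) ∈ PD f Q i e A := by
  have h1 : dat true i (aeval x f) = dat true i (aeval y f) := by
    funext b
    rcases b with _ | _
    · exact h i (by omega)
    · exact h 0 (by omega)
  have h2 : cut true i (aeval x f) ↔ cut true i (aeval y f) := by
    unfold cut
    refine forall_congr' fun l => forall_congr' fun _ => forall_congr' fun hl => ?_
    have hl' : l < i := hl
    rw [h l (by omega)]
  simp only [PD, SD, Set.mem_ofPred_eq, h1, h2]
  refine and_congr Iff.rfl (forall_congr' fun l => forall_congr' fun hl => ?_)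
  rw [h (i + 1 + l) (by omega)]

/-- one more coefficient -/
theorem PD_succ {Q : Set (E ⊕ Bool → ℂ)} {i e : ℕ} {A : ℕ → MvPolynomial (E ⊕ Bool) ℂ}
    {p : E → ℂ} {x : ι → PowerSeries ℂ} :
    (p, x) ∈ PD f Q i (e + 1) A ↔ (p, x) ∈ PD f Q i e A ∧
      PowerSeries.coeff (i + 1 + e) (aeval x f) =
        eval (Sum.elim p (dat true i (aeval x f))) (A e) := by
  constructor
  · rintro ⟨h1, h2⟩
    exact ⟨⟨h1, fun l hl => h2 l (by omega)⟩, h2 e (by omega)⟩
  · rintro ⟨⟨h1, h2⟩, h3⟩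
    refine ⟨h1, fun l hl => ?_⟩
    rcases Nat.lt_succ_iff_lt_or_eq.1 hl with h4 | h4
    · exact h2 l h4
    · rw [h4]
      exact h3

/-- the effect of the action -/
theorem act_coeff (hf : IsWeightedHomogeneous w f d) (i e : ℕ) (t : ℂ) (z : ι → PowerSeries ℂ)
    (hz : ∀ l < i, PowerSeries.coeff l (aeval z f) = 0) :
    (∀ l < i + 1 + e, PowerSeries.coeff l (aeval (act w (e + 1) t z) f) =
      PowerSeries.coeff l (aeval z f)) ∧
    PowerSeries.coeff (i + 1 + e) (aeval (act w (e + 1) t z) f) =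
      PowerSeries.coeff (i + 1 + e) (aeval z f) + d * t * PowerSeries.coeff i (aeval z f) := by
  obtain ⟨h1, h2⟩ := coeff_unit_mul t i (e + 1) (by omega) d _ hz
  rw [← f_act hf] at h1 h2
  have e1 : i + (e + 1) = i + 1 + e := by omega
  rw [e1] at h1 h2
  exact ⟨h1, h2⟩

theorem vanish_actI (hf : IsWeightedHomogeneous w f d) (i e : ℕ) (t : ℂ) (z : ι → PowerSeries ℂ)
    (hz : ∀ l < i, PowerSeries.coeff l (aeval z f) = 0) :
    ∀ l < i, PowerSeries.coeff l (aeval (actI w (e + 1) t z) f) = 0 := by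
  set U := (1 + PowerSeries.C t * PowerSeries.X ^ (e + 1)) ^ d with hU
  have h1 : aeval z f = U * aeval (actI w (e + 1) t z) f := by
    rw [hU, ← f_act hf, act_actI w (e + 1) (by omega) t z]
  have h2 : aeval (actI w (e + 1) t z) f = U⁻¹ * aeval z f := by
    rw [h1, ← mul_assoc, PowerSeries.inv_mul_cancel _ (unit_ne (e + 1) (by omega) t d), one_mul]
  rw [h2]
  exact PowerSeries.X_pow_dvd_iff.1 ((PowerSeries.X_pow_dvd_iff.2 hz).mul_left _)

/-- the polynomial map -/
noncomputable def φA (E : Type) (w : ι → ℕ) (r : ℕ) (K : ι → ℕ) :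
    E ⊕ (Σ i, Fin (K i)) → MvPolynomial ((E ⊕ Unit) ⊕ (Σ i, Fin (K i))) ℂ
  | Sum.inl p => X (Sum.inl (Sum.inl p))
  | Sum.inr ⟨a, l⟩ => PowerSeries.coeff (l : ℕ)
      ((1 + PowerSeries.C (X (Sum.inl (Sum.inr ()))) * PowerSeries.X ^ r) ^ w a *
        garc (E ⊕ Unit) K a)

theorem φA_inr (w : ι → ℕ) (r : ℕ) (K : ι → ℕ) (v : (E ⊕ Unit) ⊕ (Σ i, Fin (K i)) → ℂ)
    (s : Σ i, Fin (K i)) : eval v (φA E w r K (Sum.inr s)) =
      PowerSeries.coeff (s.2 : ℕ) (act w r (v (Sum.inl (Sum.inr ())))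
        (toArc K fun s => v (Sum.inr s)) s.1) := by
  rcases s with ⟨a, l⟩
  have h1 : PowerSeries.map (eval v)
      ((1 + PowerSeries.C (X (Sum.inl (Sum.inr ()))) * PowerSeries.X ^ r) ^ w a *
        garc (E ⊕ Unit) K a) =
      (1 + PowerSeries.C (v (Sum.inl (Sum.inr ()))) * PowerSeries.X ^ r) ^ w a *
        toArc K (fun s => v (Sum.inr s)) a := by
    simp only [map_mul, map_pow, map_add, map_one, PowerSeries.map_C, PowerSeries.map_X,
      map_garc, eval_X]
  rw [φA, ← PowerSeries.coeff_map, h1]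
  rfl

theorem step (P : HodgeMeasure) [Finite E] (hd : 1 ≤ d) (hf : IsWeightedHomogeneous w f d)
    {Q : Set (E ⊕ Bool → ℂ)} (hQ : QOk {0} true Q) {i : ℕ} (hi : 1 ≤ i) (e : ℕ)
    (A : ℕ → MvPolynomial (E ⊕ Bool) ℂ) :
    vol P.rat xq (PD f Q i (e + 1) A) = xq * vol P.rat xq (PD f Q i e A) := by
  classical
  have hL := L_mul P
  set n := i + 1 + e + 1 with hn
  have hcD := cyl_PD f hQ.1 i (e + 1) A n (by omega)
  have hcB := cyl_PD f hQ.1 i e A n (by omega)
  suffices H : P.rat.L * vol P.rat xq (PD f Q i (e + 1) A) = vol P.rat xq (PD f Q i e A) by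
    rw [← H, ← mul_assoc, mul_comm xq, hL, one_mul]
  rw [vol_eq P.rat hL hcD, vol_eq P.rat hL hcB, ← mul_assoc]
  congr 1
  set K : ι → ℕ := fun _ => n with hK
  set S' : Set ((E ⊕ Unit) ⊕ (Σ i, Fin (K i)) → ℂ) := {v | ((fun p => v (Sum.inl (Sum.inl p))),
    toArc K fun s => v (Sum.inr s)) ∈ PD f Q i (e + 1) A} with hS'
  have hcS' : Constructible S' := by
    have h1 := Constructible.comap (fun a : E ⊕ (Σ i, Fin (K i)) =>
      ren1 E (Σ i, Fin (K i)) (Sum.inl a)) hcD.2
    exact h1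
  have e2 : P.rat.val S' = P.rat.L * P.rat.val (sec K (PD f Q i (e + 1) A)) := by
    have h1 := P.rat.val_prod_univ hcD.2 Unit
    rw [Fintype.card_unit, pow_one] at h1
    rw [mul_comm, ← h1]
    have h2 : Constructible {x : (E ⊕ (Σ i, Fin (K i))) ⊕ Unit → ℂ |
        (fun i => x (Sum.inl i)) ∈ sec K (PD f Q i (e + 1) A)} := Constructible.comap Sum.inl hcD.2
    rw [← P.rat.reindex (ren1 E (Σ i, Fin (K i))) h2]
    rfl
  rw [← e2]
  have hdc : (d : ℂ) ≠ 0 := by
    have : d ≠ 0 := by omega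
    exact_mod_cast this
  have harc : ∀ v : (E ⊕ Unit) ⊕ (Σ i, Fin (K i)) → ℂ, ∀ i, ∀ l < K i,
      PowerSeries.coeff l (toArc K (fun s => eval v (φA E w (e + 1) K (Sum.inr s))) i) =
        PowerSeries.coeff l (act w (e + 1) (v (Sum.inl (Sum.inr ())))
          (toArc K fun s => v (Sum.inr s)) i) := by
    intro v i l hl
    rw [coeff_toArc, dif_pos hl, φA_inr]
  have hmem : ∀ v : (E ⊕ Unit) ⊕ (Σ i, Fin (K i)) → ℂ,
      (fun a => eval v (φA E w (e + 1) K a)) ∈ sec K (PD f Q i e A) ↔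
        ((fun p => v (Sum.inl (Sum.inl p))), act w (e + 1)
          (v (Sum.inl (Sum.inr ()))) (toArc K fun s => v (Sum.inr s))) ∈ PD f Q i e A := by
    intro v
    have h1 := hcB.1 (fun p => eval v (φA E w (e + 1) K (Sum.inl p))) _ _ (harc v)
    have h2 : (fun p => eval v (φA E w (e + 1) K (Sum.inl p))) =
        fun p => v (Sum.inl (Sum.inl p)) := by
      funext p
      rw [φA, eval_X]
    change (((fun p => eval v (φA E w (e + 1) K (Sum.inl p))),
      toArc K (fun s => eval v (φA E w (e + 1) K (Sum.inr s)))) ∈ PD f Q i e A) ↔ _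
    rw [h1, h2]
  refine P.rat.map S' _ (φA E w (e + 1) K) hcS' hcB.2 ?_
  refine ⟨?_, ?_, ?_⟩
  · intro v hv
    rw [hmem]
    have hv' : ((fun p => v (Sum.inl (Sum.inl p))), toArc K fun s => v (Sum.inr s)) ∈
      PD f Q i (e + 1) A := hv
    have h1 := (vanish hQ hv').1
    rw [PD_succ] at hv'
    exact (PD_congr hi (act_coeff hf i e _ _ h1).1).2 hv'.1
  · intro v hv v' hv' hvv
    have hp : (fun p => v (Sum.inl (Sum.inl p))) = fun p => v' (Sum.inl (Sum.inl p)) := by
      funext p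
      have := congrFun hvv (Sum.inl p)
      simpa only [φA, eval_X] using this
    set z := toArc K fun s => v (Sum.inr s) with hz
    set z' := toArc K fun s => v' (Sum.inr s) with hz'
    set t := v (Sum.inl (Sum.inr ())) with ht
    set t' := v' (Sum.inl (Sum.inr ())) with ht'
    have hv1 : ((fun p => v (Sum.inl (Sum.inl p))), z) ∈ PD f Q i (e + 1) A := hv
    have hv1' : ((fun p => v' (Sum.inl (Sum.inl p))), z') ∈ PD f Q i (e + 1) A := hv'
    have hact : ∀ i, ∀ l < n, PowerSeries.coeff l (act w (e + 1) t z i) =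
        PowerSeries.coeff l (act w (e + 1) t' z' i) := by
      intro i l hl
      have h4 := congrFun hvv (Sum.inr ⟨i, (⟨l, hl⟩ : Fin (K i))⟩)
      simp only [φA_inr] at h4
      exact h4
    have hH : ∀ l < n, PowerSeries.coeff l (aeval (act w (e + 1) t z) f) =
        PowerSeries.coeff l (aeval (act w (e + 1) t' z') f) :=
      GJetAux.aeval_congr _ n _ _ hact
    have hz1 := (vanish hQ hv1).1
    have hz2 := (vanish hQ hv1').1
    obtain ⟨a1, a3⟩ := act_coeff hf i e t z hz1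
    obtain ⟨a1', a3'⟩ := act_coeff hf i e t' z' hz2
    have hF : ∀ l < i + 1 + e, PowerSeries.coeff l (aeval z f) =
        PowerSeries.coeff l (aeval z' f) := by
      intro l hl
      rw [← a1 l hl, ← a1' l hl]
      exact hH l (by omega)
    have hdat : dat true i (aeval z f) = dat true i (aeval z' f) := by
      funext b
      rcases b with _ | _
      · exact hF i (by omega)
      · exact hF 0 (by omega)
    have h5 := (PD_succ.1 hv1).2
    have h5' := (PD_succ.1 hv1').2
    have h7 := (vanish hQ hv1').2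
    have h6 : PowerSeries.coeff i (aeval z f) = PowerSeries.coeff i (aeval z' f) :=
      hF i (by omega)
    have htt : t = t' := by
      have h8 := hH (i + 1 + e) (by omega)
      rw [a3, a3', h5, h5', hp, hdat, h6] at h8
      have h9 := add_left_cancel h8
      exact mul_left_cancel₀ hdc (mul_right_cancel₀ h7 h9)
    rw [htt] at hact
    have hzz := actI_congr w (e + 1) t' n _ _ hact
    rw [actI_act w (e + 1) (by omega), actI_act w (e + 1) (by omega)] at hzz
    funext i
    rcases i with (p | ⟨⟩) | s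
    · exact congrFun hp p
    · exact htt
    · have h8 := hzz s.1 s.2 s.2.2
      rw [hz, hz', coeff_toArc_lt, coeff_toArc_lt] at h8
      exact h8
  · intro y hy
    have hy1 : ((fun p => y (Sum.inl p)), toArc K fun s => y (Sum.inr s)) ∈ PD f Q i e A := hy
    set z := toArc K fun s => y (Sum.inr s) with hz
    obtain ⟨h2, h3⟩ := vanish hQ hy1
    set t : ℂ := (PowerSeries.coeff (i + 1 + e) (aeval z f) -
      eval (Sum.elim (fun p => y (Sum.inl p)) (dat true i (aeval z f))) (A e)) /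
      (d * PowerSeries.coeff i (aeval z f)) with ht
    have h4 := vanish_actI hf i e t z h2
    obtain ⟨a1, a3⟩ := act_coeff hf i e t (actI w (e + 1) t z) h4
    rw [act_actI w (e + 1) (by omega) t z] at a1 a3
    have h6 : d * t * PowerSeries.coeff i (aeval z f) =
        PowerSeries.coeff (i + 1 + e) (aeval z f) -
          eval (Sum.elim (fun p => y (Sum.inl p)) (dat true i (aeval z f))) (A e) := by
      have h3' : PowerSeries.coeff i (aeval z f) ≠ 0 := h3
      rw [ht]
      field_simp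
    rw [← a1 i (by omega), h6] at a3
    have hdat : dat true i (aeval (actI w (e + 1) t z) f) = dat true i (aeval z f) := by
      funext b
      rcases b with _ | _
      · exact (a1 i (by omega)).symm
      · exact (a1 0 (by omega)).symm
    have h5 : ((fun p => y (Sum.inl p)), actI w (e + 1) t z) ∈ PD f Q i (e + 1) A := by
      rw [PD_succ]
      refine ⟨(PD_congr hi fun l hl => (a1 l hl).symm).2 hy1, ?_⟩
      rw [hdat]
      linear_combination -a3
    set v : (E ⊕ Unit) ⊕ (Σ i, Fin (K i)) → ℂ := Sum.elim (Sum.elim (fun p => y (Sum.inl p))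
      fun _ => t) fun s => PowerSeries.coeff (s.2 : ℕ) (actI w (e + 1) t z s.1) with hv
    have hva : ∀ i, ∀ l < K i, PowerSeries.coeff l (toArc K (fun s => v (Sum.inr s)) i) =
        PowerSeries.coeff l (actI w (e + 1) t z i) := by
      intro i l hl
      rw [coeff_toArc, dif_pos hl]
      rfl
    refine ⟨v, ?_, ?_⟩
    · have h7 := hcD.1 (fun p => y (Sum.inl p)) _ _ hva
      change ((fun p => y (Sum.inl p)), toArc K fun s => v (Sum.inr s)) ∈ PD f Q i (e + 1) A
      rw [h7]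
      exact h5
    · funext i
      rcases i with p | s
      · simp only [φA, eval_X]
        rfl
      · simp only [φA_inr]
        have h8 := act_congr w (e + 1) t n _ _ hva s.1 s.2 s.2.2
        rw [act_actI w (e + 1) (by omega)] at h8
        exact h8.trans (coeff_toArc_lt K (fun s => y (Sum.inr s)) s.1 s.2)

end

end WS5Aux

open WS5Aux

theorem stmt_WS5 : Stmt_WS5 := by
  intro P ι _ f hWH
  obtain ⟨w, d, -, hd, hf⟩ := hWH
  intro E _ Q hQ i e hi A
  induction e with
  | zero =>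
    rw [pow_zero, one_mul]
    congr 1
    ext z
    simp only [PD, Set.mem_ofPred_eq]
    exact ⟨fun h => h.1, fun h => ⟨h, fun l hl => absurd hl (Nat.not_lt_zero l)⟩⟩
  | succ e ih =>
    rw [step P hd hf hQ hi e A, ih, pow_succ']
    ring

end Pool.Agent.Mono.RO
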