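import Pool.Agent.Work.Monodromy5.WUA

/-!
# Block WU5 (helper98): multiplication by a unit
-/

set_option autoImplicit false
set_option linter.unusedSectionVars false

namespace Pool.Agent.Mono.RO

open MvPolynomial TS TS.WBAux WUAux

theorem stmt_WU5 : Stmt_WU5 := by
  rintro ι _ _ F U c β N hc hdvd ⟨V, i1, i2, w, v, hv0, hf0, hdf, hD, hf⟩
  set n : MvPolynomial ι ℂ := U - C c with hn
  have hU : C c + n = U := by rw [hn]; ring
  have hpU : ∀ a, pderiv a n = pderiv a U := by
    intro a
    rw [hn, map_sub, pderiv_C, sub_zero]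
  -- torsion
  have hF : ∀ i, w.pX (F ^ (i + 1)) (v i) = 0 := by
    intro i
    induction i with
    | zero => rw [zero_add, pow_one, hf0]
    | succ i ih => rw [pow_succ, pX_mul, hf, map_smul, ih, smul_zero]
  have hT : ∀ i, Tor w n (v i) := by
    intro i
    refine ⟨N * (i + 1), ?_⟩
    obtain ⟨r, hr⟩ := hdvd
    rw [pow_mul, hr, mul_pow, mul_comm, pX_mul, hF, map_zero]
  have hmul : ∀ i : ℕ, w.pX U (UA w n c (β - (i + 1 : ℕ)) (v (i + 1))) =
      c • UA w n c (β - i) (v (i + 1)) := by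
    intro i
    have h := UA_mul hc (hT (i + 1)) (β - i)
    rw [hU] at h
    rw [← h]
    congr 2
    push_cast
    ring
  refine ⟨V, i1, i2, w, fun i => c⁻¹ ^ i • UA w n c (β - i) (v i), ?_, ?_, ?_, ?_, ?_⟩
  · simp only [pow_zero, one_smul]
    exact UA_ne hv0 (hT 0) _
  · simp only [pow_zero, one_smul]
    rw [mul_comm, pX_mul, UA_pX (hT 0), hf0, UA_zero, map_zero]
  · intro a
    simp only [pow_zero, one_smul]
    rw [pderiv_mul, pX_add, mul_comm (pderiv a F), pX_mul, UA_pX (hT 0), hdf, UA_zero, map_zero,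
      mul_comm F, pX_mul, UA_pX (hT 0), hf0, UA_zero, map_zero, add_zero]
  · intro i a
    have h1 : β - ((i + 1 : ℕ) : ℂ) = β - i - 1 := by
      push_cast
      ring
    have h2 : w.pX (pderiv a F * U) (UA w n c (β - (i + 1 : ℕ)) (v (i + 1))) =
        c • UA w n c (β - i) (w.pX (pderiv a F) (v (i + 1))) := by
      rw [pX_mul, hmul i, map_smul, UA_pX (hT (i + 1))]
    have h3 : w.pX (F * pderiv a U) (UA w n c (β - (i + 1 : ℕ)) (v (i + 1))) =
        (β - i) • w.pX (pderiv a U) (UA w n c (β - i - 1) (v i)) := by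
      rw [mul_comm F, pX_mul, UA_pX (hT (i + 1)), hf, UA_smul (hT i), map_smul, h1]
    simp only [map_smul]
    rw [UA_D (hT i), hD, hpU, pderiv_mul, pX_add, h2, h3, smul_add, smul_add, smul_smul,
      smul_smul, smul_smul]
    congr 2
    · rw [pow_succ, mul_assoc, inv_mul_cancel₀ hc, mul_one]
    · rw [pow_succ]
      ring
  · intro i
    simp only [map_smul]
    rw [mul_comm F, pX_mul, UA_pX (hT (i + 1)), hf, UA_smul (hT i), map_smul]
    have h1 : β - ((i + 1 : ℕ) : ℂ) = β - i - 1 := by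
      push_cast
      ring
    have h2 := UA_mul hc (hT i) (β - i)
    rw [hU] at h2
    rw [h1, h2, smul_smul, smul_smul, smul_smul]
    congr 1
    rw [pow_succ]
    field_simp

end Pool.Agent.Mono.RO
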