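import Pool.Agent.Work.Monodromy4.All4
import Pool.Agent.Work.Monodromy5.Adm5
import Pool.Agent.Work.Monodromy5.TM5
import Pool.Agent.Work.Monodromy5.Final5
import Pool.Agent.Work.Monodromy5.TB5
import Pool.Agent.Work.Monodromy5.O5
import Pool.Agent.Work.Monodromy5.WS5
import Pool.Agent.Work.Monodromy5.G5
import Pool.Agent.Work.Monodromy5.M5
import Pool.Agent.Work.Monodromy5.TG5
import Pool.Agent.Work.Monodromy5.TZ5
import Pool.Agent.Work.Monodromy5.TC5
import Pool.Agent.Work.Monodromy5.P5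
import Pool.Agent.Work.Monodromy5.U5
import Pool.Agent.Work.Monodromy5.VGE
import Pool.Agent.Work.Monodromy5.VGT
import Pool.Agent.Work.Monodromy5.VZE
import Pool.Agent.Work.Monodromy5.VZT
import Pool.Agent.Work.Monodromy5.VCE
import Pool.Agent.Work.Monodromy5.VCT
import Pool.Agent.Work.Monodromy5.RN5
import Pool.Agent.Work.Monodromy5.WU5
import Pool.Agent.Work.Monodromy5.WP5

/-!
# Phase 5: the monodromy conjecture for read-once formulas
-/

namespace Pool.Agent.Mono.RO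

open TS

theorem all_TB5 : Stmt_TB5 := stmt_TB5 stmt_O5 stmt_WS5 stmt_G5 stmt_Q1 stmt_Q3 stmt_VA

theorem all_TZ5 : Stmt_TZ5 := stmt_TZ5 stmt_Q1 stmt_P5 (stmt_VZE stmt_U5) stmt_VZT

theorem all_TC5 : Stmt_TC5 := stmt_TC5 (stmt_VCE stmt_U5) stmt_VCT

theorem all_Adm5 : Stmt_Adm5 :=
  stmt_Adm5 all_TB5 stmt_O5 stmt_TG5 all_TZ5 all_TC5 stmt_G5 stmt_RN5 stmt_WU5 stmt_WP5 stmt_W3
    stmt_W4 stmt_W6 stmt_W7

theorem all_TM5 : Stmt_TM5 := stmt_TM5 stmt_VA stmt_Q1 stmt_Q5 stmt_W5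

/-- the monodromy conjecture for read-once formulas -/
theorem mc_readOnce {ι : Type} [Fintype ι] {f : MvPolynomial ι ℂ} (h : ReadOnce ι f)
    (P : HodgeMeasure) (R : RatFunc ℚ) (hR : IsTopologicalZeta P f R) : GoodPoles f R :=
  readOnce_top all_Adm all_Adm5 all_TM5 h P R hR

/-- the monodromy conjecture for read-once formulas, twisted -/
theorem mc_readOnce_tw {ι : Type} [Fintype ι] {f : MvPolynomial ι ℂ} (h : ReadOnce ι f)
    (P : HodgeMeasure) (e : ℕ) (he : 1 ≤ e) (R : RatFunc ℚ) (hR : IsTwTopZeta P f e R) :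
    GoodPoles f R :=
  readOnce_tw all_Adm all_Adm5 all_TM5 h P e he R hR

end Pool.Agent.Mono.RO
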