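import Pool.Agent.Work.Monodromy5.M5
import Pool.Agent.Work.Monodromy4.VF

/-!
# Block R5: relative version of the distribution
-/

set_option autoImplicit false
set_option linter.unusedSectionVars false

namespace Pool.Agent.Mono.RO

open MvPolynomial TS TS.VAAux

namespace R5Aux

section

variable {E ι κ : Type} [Fintype ι] [Fintype κ]

/-- the coordinates of `C`, with the jets among the parameters -/
def rj (n : ℕ) : (E ⊕ Bool) ⊕ (Σ _ : κ, Fin n) → (E ⊕ (Σ _ : κ, Fin n)) ⊕ Bool :=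
  Sum.elim (Sum.elim (fun p => Sum.inl (Sum.inl p)) fun b => Sum.inr b) fun s =>
    Sum.inl (Sum.inr s)

/-- the cylinder `C` with the jets as parameters -/
def Qj (n : ℕ) (C : Set ((E ⊕ Bool → ℂ) × (κ → PowerSeries ℂ))) :
    Set ((E ⊕ (Σ _ : κ, Fin n)) ⊕ Bool → ℂ) :=
  {b | (fun j => b (rj n j)) ∈ sec (fun _ : κ => n) C}

theorem con_Qj (n : ℕ) {C : Set ((E ⊕ Bool → ℂ) × (κ → PowerSeries ℂ))}
    (hC : IsCyl (fun _ => n) C) : Constructible (Qj n C) :=
  Constructible.comap (rj n) hC.2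

/-- the set of `Stmt_R5` -/
def RT (f : MvPolynomial ι ℂ) (w : Bool) (C : Set ((E ⊕ Bool → ℂ) × (κ → PowerSeries ℂ)))
    (i : ℕ) : Set ((E → ℂ) × (ι ⊕ κ → PowerSeries ℂ)) :=
  {z : (E → ℂ) × (ι ⊕ κ → PowerSeries ℂ) |
    cut w i (aeval (fun a => z.2 (Sum.inl a)) f) ∧
    ((Sum.elim z.1 (dat w i (aeval (fun a => z.2 (Sum.inl a)) f))),
      fun a => z.2 (Sum.inr a)) ∈ C}

/-- the level -/
def lv (ι κ : Type) (i n : ℕ) : ι ⊕ κ → ℕ := Sum.elim (fun _ => i + 1) fun _ => n

/-- the reindexing -/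
def re (E ι κ : Type) (i n : ℕ) : E ⊕ (Σ a : ι ⊕ κ, Fin (lv ι κ i n a)) ≃
    (E ⊕ (Σ _ : κ, Fin n)) ⊕ (Σ _ : ι, Fin (i + 1)) where
  toFun := Sum.elim (fun p => Sum.inl (Sum.inl p)) fun s => match s with
    | ⟨Sum.inl a, l⟩ => Sum.inr ⟨a, l⟩
    | ⟨Sum.inr a, l⟩ => Sum.inl (Sum.inr ⟨a, l⟩)
  invFun := Sum.elim (Sum.elim (fun p => Sum.inl p) fun s => Sum.inr ⟨Sum.inr s.1, s.2⟩)
    fun s => Sum.inr ⟨Sum.inl s.1, s.2⟩
  left_inv := by rintro (p | ⟨a | a, l⟩) <;> rfl
  right_inv := by rintro ((p | s) | s) <;> rfl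

theorem cut_congr {w : Bool} {i : ℕ} {s t : PowerSeries ℂ}
    (h : ∀ l < i + 1, PowerSeries.coeff l s = PowerSeries.coeff l t) : cut w i s ↔ cut w i t := by
  unfold cut
  refine forall_congr' fun l => forall_congr' fun h1 => forall_congr' fun hl => ?_
  have : l < i + 1 := by
    cases w
    · simpa using hl
    · have : l < i := by simpa using hl
      omega
  rw [h l this]

theorem dat_congr {w : Bool} {i : ℕ} {s t : PowerSeries ℂ}
    (h : ∀ l < i + 1, PowerSeries.coeff l s = PowerSeries.coeff l t) : dat w i s = dat w i t := by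
  funext b
  unfold dat ldc
  rw [h 0 (by omega), h i (by omega)]

theorem mem_secRT (f : MvPolynomial ι ℂ) (w : Bool)
    (C : Set ((E ⊕ Bool → ℂ) × (κ → PowerSeries ℂ))) (i n : ℕ)
    (v : E ⊕ (Σ a : ι ⊕ κ, Fin (lv ι κ i n a)) → ℂ) :
    v ∈ sec (lv ι κ i n) (RT f w C i) ↔
      (fun j => v ((re E ι κ i n).symm j)) ∈
        sec (fun _ : ι => i + 1) (SD f w (Qj n C) i) := by
  refine and_congr Iff.rfl ?_
  refine Eq.to_iff (congrArg (· ∈ C) (Prod.ext ?_ rfl))
  funext s
  rcases s with s | s <;> rfl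

theorem cyl_RT (f : MvPolynomial ι ℂ) (w : Bool)
    {C : Set ((E ⊕ Bool → ℂ) × (κ → PowerSeries ℂ))} {n : ℕ} (hC : IsCyl (fun _ => n) C)
    (i : ℕ) : IsCyl (lv ι κ i n) (RT f w C i) := by
  classical
  constructor
  · intro p x y hxy
    have h1 := GJetAux.aeval_congr f (i + 1) (fun a => x (Sum.inl a)) (fun a => y (Sum.inl a))
      fun a l hl => hxy (Sum.inl a) l hl
    have h2 : cut w i (aeval (fun a => x (Sum.inl a)) f) ↔
        cut w i (aeval (fun a => y (Sum.inl a)) f) := cut_congr h1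
    have h3 : dat w i (aeval (fun a => x (Sum.inl a)) f) =
        dat w i (aeval (fun a => y (Sum.inl a)) f) := dat_congr h1
    change (_ ∧ _) ↔ (_ ∧ _)
    rw [h2]
    refine and_congr Iff.rfl ?_
    rw [h3]
    exact hC.1 _ _ _ fun a l hl => hxy (Sum.inr a) l hl
  · have h := Constructible.comap (fun j => (re E ι κ i n).symm j)
      (M5Aux.cyl_SD f w (con_Qj n hC) i).2
    refine cast ?_ h
    congr 1
    ext v
    exact (mem_secRT f w C i n v).symm

end

end R5Aux

open R5Aux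

theorem stmt_R5 : Stmt_R5 := by
  intro P ι _ f X w Gs hf E κ _ _ C n hC hX i hi
  classical
  have hL := L_mul P
  have hQ : QOk X w (Qj n C) := by
    refine ⟨con_Qj n hC, fun b hb => ?_⟩
    exact hX _ hb
  have h1 := hf.2 _ (Qj n C) hQ i hi
  have hc1 := cyl_RT f w hC i
  have hc2 := M5Aux.cyl_SD f w (con_Qj n hC) i
  have h2 : vol P.rat xq (RT f w C i) =
      vol P.rat xq (SD f w (Qj n C) i) * xq ^ (Fintype.card κ * n) := by
    rw [vol_eq P.rat hL hc1, vol_eq P.rat hL hc2,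
      M5Aux.val_reindex' P (re E ι κ i n) hc1.2 hc2.2 (mem_secRT f w C i n),
      Fintype.sum_sum_type]
    simp only [lv, Sum.elim_inl, Sum.elim_inr, Finset.sum_const, Finset.card_univ, smul_eq_mul]
    rw [pow_add, mul_assoc]
  change vol P.rat xq (RT f w C i) = _
  rw [h2, h1, ← List.sum_map_mul_right]
  congr 1
  refine List.map_congr_left fun G hG => ?_
  have hok := hf.1 G hG
  haveI := G.fin
  have hcyl : IsCyl (fun _ => n) {z : (E ⊕ G.σ → ℂ) × (κ → PowerSeries ℂ) |
    (fun s => z.1 (Sum.inr s)) ∈ G.S ∧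
      ((Sum.elim (fun p => z.1 (Sum.inl p)) (G.pt fun s => z.1 (Sum.inr s))), z.2) ∈ C} := by
    constructor
    · intro p x y hxy
      exact and_congr Iff.rfl (hC.1 _ _ _ hxy)
    · have h := Constructible.and (Constructible.comap
        (fun s => Sum.inl (Sum.inr s) : G.σ → (E ⊕ G.σ) ⊕ (Σ _ : κ, Fin n)) hok.1)
        (Constructible.preimage (Sum.elim (Sum.elim (fun p => MvPolynomial.X (Sum.inl (Sum.inl p)))
          (fun b : Bool => if b then rename (fun s => Sum.inl (Sum.inr s)) G.v else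
            rename (fun s => Sum.inl (Sum.inr s)) G.u)) (fun s => MvPolynomial.X (Sum.inr s)) :
            (E ⊕ Bool) ⊕ (Σ _ : κ, Fin n) → MvPolynomial ((E ⊕ G.σ) ⊕ (Σ _ : κ, Fin n)) ℂ)
          hC.2)
      refine cast ?_ h
      congr 1
      ext v
      refine and_congr Iff.rfl ?_
      refine Eq.to_iff (congrArg (· ∈ C) (Prod.ext ?_ ?_))
      · funext s
        rcases s with s | s
        · simp
        · rcases s with _ | _ <;> simp [Fam2.pt, eval_rename, Function.comp_def]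
      · simp only [Sum.elim_inr, eval_X]
  unfold Fam2.volR
  rw [vol_eq P.rat hL hcyl]
  unfold Fam2.cl
  simp only [Finset.sum_const, Finset.card_univ, smul_eq_mul]
  rw [mul_assoc]
  congr 2
  refine M5Aux.val_reindex' P (Equiv.mk
    (Sum.elim (Sum.elim (fun p => Sum.inl (Sum.inl p)) fun s => Sum.inr s) fun s =>
      Sum.inl (Sum.inr s))
    (Sum.elim (Sum.elim (fun p => Sum.inl (Sum.inl p)) fun s => Sum.inr s) fun s =>
      Sum.inl (Sum.inr s))
    (by rintro ((p | s) | s) <;> rfl) (by rintro ((p | s) | s) <;> rfl)) ?_ hcyl.2 ?_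
  · refine Constructible.and (Constructible.comap _ hok.1) ?_
    have h := Constructible.preimage (Sum.elim (fun s => MvPolynomial.X (Sum.inl s))
          (fun b : Bool => if b then rename (fun s => Sum.inr s) G.v else
            rename (fun s => Sum.inr s) G.u) :
            (E ⊕ (Σ _ : κ, Fin n)) ⊕ Bool →
              MvPolynomial ((E ⊕ (Σ _ : κ, Fin n)) ⊕ G.σ) ℂ) (con_Qj n hC)
    refine cast ?_ h
    congr 1
    ext v
    simp only [Set.mem_ofPred_eq]
    refine Eq.to_iff (congrArg (· ∈ Qj n C) ?_)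
    funext s
    rcases s with s | s
    · simp
    · rcases s with _ | _ <;> simp [Fam2.pt, eval_rename, Function.comp_def]
  · intro x
    refine and_congr Iff.rfl ?_
    refine Eq.to_iff (congrArg (· ∈ C) (Prod.ext ?_ rfl))
    funext s
    rcases s with s | s <;> rfl

end Pool.Agent.Mono.RO
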