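import Pool.Agent.Work.Monodromy.Interface5

/-!
# Block TG5: definitions and the statements of the parts
-/

set_option autoImplicit false

namespace Pool.Agent.Mono.RO

open MvPolynomial TS

namespace TG5Aux

/-- `gv` for polynomials -/
noncomputable def gvP {σ : Type} (s : Bool) (a b : MvPolynomial σ ℂ) : MvPolynomial σ ℂ :=
  if s then a + b else a * b

/-- the new Haar part: pairs of parameters whose value lies in `Xs s` -/
noncomputable def mkHT (s : Bool) (G G' : Fam2) (a : K) : HT where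
  σ := G.σ ⊕ G'.σ
  fin := by
    have := G.fin
    have := G'.fin
    infer_instance
  H := {τ | (fun x => τ (Sum.inl x)) ∈ G.S ∧ (fun x => τ (Sum.inr x)) ∈ G'.S ∧
    gv s (eval (fun x => τ (Sum.inl x)) G.v) (eval (fun x => τ (Sum.inr x)) G'.v) ∈ Xs s}
  v := gvP s (rename Sum.inl G.v) (rename Sum.inr G'.v)
  lam := a

section

variable {E : Type}

/-- the class of `{(p, τ, τ') : τ ∈ S, τ' ∈ S', (p, gv (v τ) (v' τ')) ∈ B}` -/
noncomputable def BC (s : Bool) (P : HodgeMeasure) [Finite E] (G G' : Fam2)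
    (B : Set (E ⊕ Unit → ℂ)) : K :=
  haveI := G.fin
  haveI := G'.fin
  P.rat.val {z : E ⊕ (G.σ ⊕ G'.σ) → ℂ |
    (fun x => z (Sum.inr (Sum.inl x))) ∈ G.S ∧ (fun x => z (Sum.inr (Sum.inr x))) ∈ G'.S ∧
    Sum.elim (fun p => z (Sum.inl p)) (fun _ => gv s
      (eval (fun x => z (Sum.inr (Sum.inl x))) G.v)
      (eval (fun x => z (Sum.inr (Sum.inr x))) G'.v)) ∈ B}

/-- exact: `{((p, q), y) : (p, y, q) ∈ Q}` -/
def BQ (Q : Set (E ⊕ Bool → ℂ)) : Set ((E ⊕ Unit) ⊕ Unit → ℂ) :=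
  {w | Sum.elim (fun p => w (Sum.inl (Sum.inl p))) (fun b : Bool => if b then w (Sum.inr ()) else
    w (Sum.inl (Sum.inr ()))) ∈ Q}

/-- tail: `{(p, y) : (p, y, 0) ∈ Q}` -/
def BT (Q : Set (E ⊕ Bool → ℂ)) : Set (E ⊕ Unit → ℂ) :=
  {w | Sum.elim (fun p => w (Sum.inl p)) (fun b : Bool => if b then w (Sum.inr ()) else 0) ∈ Q}

/-- cancellation of the leading coefficients, `Q4 s Q = QC s (BQ Q)`, `Q6 s Q = QC s (BT Q)` -/
def QC (s : Bool) (B : Set (E ⊕ Unit → ℂ)) : Set (E ⊕ Fin 4 → ℂ) :=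
  {z | z (Sum.inr 1) ≠ 0 ∧ z (Sum.inr 3) ≠ 0 ∧
    al s (z (Sum.inr 0)) (z (Sum.inr 2)) * z (Sum.inr 1) +
      be s (z (Sum.inr 0)) (z (Sum.inr 2)) * z (Sum.inr 3) = 0 ∧
    Sum.elim (fun p => z (Sum.inl p)) (fun _ => gv s (z (Sum.inr 0)) (z (Sum.inr 2))) ∈ B}

end

/-- parameters which are admissible for exact sets -/
def ExOk (G : Fam2) : Prop := Constructible G.S ∧ ∀ τ ∈ G.S, eval τ G.u ≠ 0

/-- part C: classes of pairs with a Haar part (both orders) -/
def Stmt_TG5C : Prop :=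
  ∀ (s : Bool) (P : HodgeMeasure),
    -- the new Haar parts
    (∀ (G G' : Fam2) (a : K), Constructible G.S → Constructible G'.S →
      ∀ (E : Type) [Finite E] (Q : Set (E ⊕ Bool → ℂ)),
        (QOk (Xs s) true Q → (mkHT s G G' a).ex.cl P Q = BC s P G G' (BQ Q)) ∧
        (QOk (Xs s) false Q → (mkHT s G G' a).tl.cl P Q = BC s P G G' (BT Q))) ∧
    -- Haar part on the left
    (∀ (h : HT) (G' : Fam2), Constructible h.H → Constructible G'.S →
      ∀ (E : Type) [Finite E] (Q : Set (E ⊕ Bool → ℂ)), QOk (Xs s) true Q →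
        h.ex.cl2 G' P (Q1 s Q) = BC s P h.tl G' (BQ Q)) ∧
    (∀ (h : HT) (G' : Fam2), Constructible h.H → ExOk G' →
      ∀ (E : Type) [Finite E] (Q : Set (E ⊕ Bool → ℂ)), QOk (Xs s) true Q →
        h.tl.cl2 G' P (Q2 s Q) + h.ex.cl2 G' P (Q3 s Q) = BC s P h.tl G' (BQ Q)) ∧
    (∀ (h : HT) (G' : Fam2), Constructible h.H → ExOk G' →
      ∀ (E : Type) [Finite E] (B : Set (E ⊕ Unit → ℂ)), Constructible B →
        (∀ w ∈ B, w (Sum.inr ()) ∈ Xs s) →
        h.ex.cl2 G' P (QC s B) = BC s P h.tl G' B) ∧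
    -- Haar part on the right
    (∀ (G : Fam2) (h : HT), Constructible G.S → Constructible h.H →
      ∀ (E : Type) [Finite E] (Q : Set (E ⊕ Bool → ℂ)), QOk (Xs s) true Q →
        G.cl2 h.ex P (Q2 s Q) = BC s P G h.tl (BQ Q)) ∧
    (∀ (G : Fam2) (h : HT), ExOk G → Constructible h.H →
      ∀ (E : Type) [Finite E] (Q : Set (E ⊕ Bool → ℂ)), QOk (Xs s) true Q →
        G.cl2 h.tl P (Q1 s Q) + G.cl2 h.ex P (Q3 s Q) = BC s P G h.tl (BQ Q)) ∧
    (∀ (G : Fam2) (h : HT), ExOk G → Constructible h.H →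
      ∀ (E : Type) [Finite E] (B : Set (E ⊕ Unit → ℂ)), Constructible B →
        (∀ w ∈ B, w (Sum.inr ()) ∈ Xs s) →
        G.cl2 h.ex P (QC s B) = BC s P G h.tl B)

/-- the class of the pairs with `al u + be u' = 0` -/
noncomputable def NN (s : Bool) (P : HodgeMeasure) (c c' : ℂ) (t t' : Fam) : K :=
  haveI := t.fin
  haveI := t'.fin
  P.rat.val {z : t.σ ⊕ t'.σ → ℂ | (fun x => z (Sum.inl x)) ∈ t.S ∧
    (fun x => z (Sum.inr x)) ∈ t'.S ∧ al s c c' * eval (fun x => z (Sum.inl x)) t.u +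
      be s c c' * eval (fun x => z (Sum.inr x)) t'.u = 0}

/-- part D: product formulas and pairs of critical values -/
def Stmt_TG5D : Prop :=
  ∀ (s : Bool) (P : HodgeMeasure) (E : Type) [Finite E] (B : Set (E ⊕ Unit → ℂ)),
    Constructible B →
    (∀ (G : Fam2) (h : HT), Constructible G.S → Constructible h.H →
      BC s P G h.ex B = (P.rat.L - 1) * BC s P G h.tl B) ∧
    (∀ (h : HT) (G : Fam2), Constructible G.S → Constructible h.H →
      BC s P h.ex G B = (P.rat.L - 1) * BC s P h.tl G B) ∧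
    (∀ (G : Fam2) (t : Fam) (c : ℂ) (b : ℕ → K), Constructible G.S → Constructible t.S →
      BC s P G (atv t c) B = famV P t * BC s P G (ptv c b) B) ∧
    (∀ (t : Fam) (G : Fam2) (c : ℂ) (b : ℕ → K), Constructible G.S → Constructible t.S →
      BC s P (atv t c) G B = famV P t * BC s P (ptv c b) G B) ∧
    (∀ (t t' : Fam) (c c' : ℂ) (b b' : ℕ → K), Constructible t.S → Constructible t'.S →
      (∀ τ ∈ t.S, eval τ t.u ≠ 0) → (∀ τ ∈ t'.S, eval τ t'.u ≠ 0) →
      (atv t c).cl2 (atv t' c') P (QC s B) = NN s P c c' t t' * BC s P (ptv c b) (ptv c' b') B)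

end TG5Aux

end Pool.Agent.Mono.RO
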