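import Pool.Agent.Work.Monodromy5.TG5D

/-!
# Block TG5, part E: families of pairs of critical values
-/

set_option autoImplicit false
set_option linter.unusedSectionVars false

namespace Pool.Agent.Mono.RO

open MvPolynomial TS TS.VAAux M5Aux

namespace TG5Aux

/-- exact times tail -/
noncomputable def A1 (s : Bool) (c c' : ℂ) (t : Fam) (κ : ℕ → K) : Fam where
  σ := t.σ
  fin := t.fin
  S := t.S
  u := C (al s c c') * t.u
  κ := κ

/-- tail times exact -/
noncomputable def A2 (s : Bool) (c c' : ℂ) (t : Fam) (κ : ℕ → K) : Fam where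
  σ := t.σ
  fin := t.fin
  S := t.S
  u := C (be s c c') * t.u
  κ := κ

/-- exact times exact -/
noncomputable def A3 (s : Bool) (c c' : ℂ) (t t' : Fam) (κ : ℕ → K) : Fam where
  σ := t.σ ⊕ t'.σ
  fin := by
    have := t.fin
    have := t'.fin
    infer_instance
  S := {z | ((fun x => z (Sum.inl x)) ∈ t.S ∧ (fun x => z (Sum.inr x)) ∈ t'.S) ∧
    al s c c' * eval (fun x => z (Sum.inl x)) t.u +
      be s c c' * eval (fun x => z (Sum.inr x)) t'.u ≠ 0}
  u := C (al s c c') * rename Sum.inl t.u + C (be s c c') * rename Sum.inr t'.u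
  κ := κ

/-- the free parameter -/
noncomputable def A4 (κ : ℕ → K) : Fam where
  σ := Unit
  fin := inferInstance
  S := {τ | τ () ≠ 0}
  u := X ()
  κ := κ

section

variable {E : Type} [Finite E] {Q : Set (E ⊕ Bool → ℂ)}

/-- sets of the form `(p, g, g') ∈ Q` -/
theorem con_Q (hQ : Constructible Q) {α : Type} {g g' : (E ⊕ α → ℂ) → ℂ} (hg : IP g)
    (hg' : IP g') : Constructible {z : E ⊕ α → ℂ | Sum.elim (fun p => z (Sum.inl p))
      (fun b : Bool => if b then g z else g' z) ∈ Q} := by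
  refine con_pre ?_ hQ
  rintro (e | b)
  · exact IP.coord _
  · cases b
    · exact hg'
    · exact hg

theorem cl_A1 (s : Bool) (P : HodgeMeasure) (hQ : Constructible Q) (c c' : ℂ) (t : Fam)
    (κ b : ℕ → K) (ht : Constructible t.S) (hu : ∀ τ ∈ t.S, eval τ t.u ≠ 0) :
    (atv t c).cl2 (ptv c' b) P (Q1 s Q) = (atv (A1 s c c' t κ) (gv s c c')).cl P Q := by
  have := t.fin
  have c1 : Constructible {z : E ⊕ t.σ → ℂ | (fun x => z (Sum.inr x)) ∈ t.S ∧
      Sum.elim (fun p => z (Sum.inl p)) (fun b : Bool => if b then gv s c c' else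
        al s c c' * eval (fun x => z (Sum.inr x)) t.u) ∈ Q} :=
    (Constructible.comap _ ht).and (con_Q hQ (IP.const _)
      ((IP.const _).mul (IP.ev _ fun a => IP.coord _)))
  have h1 : (atv (A1 s c c' t κ) (gv s c c')).cl P Q = P.rat.val {z : E ⊕ t.σ → ℂ |
      (fun x => z (Sum.inr x)) ∈ t.S ∧
      Sum.elim (fun p => z (Sum.inl p)) (fun b : Bool => if b then gv s c c' else
        al s c c' * eval (fun x => z (Sum.inr x)) t.u) ∈ Q} := by
    have h4 : ∀ z : E ⊕ t.σ → ℂ, ((fun x => z (Sum.inr x)) ∈ t.S ∧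
        Sum.elim (fun p => z (Sum.inl p)) (fun b : Bool => if b then
          eval (fun x => z (Sum.inr x)) (C (gv s c c') : MvPolynomial t.σ ℂ) else
          eval (fun x => z (Sum.inr x)) (C (al s c c') * t.u)) ∈ Q) ↔
        ((fun x => z (Sum.inr x)) ∈ t.S ∧
        Sum.elim (fun p => z (Sum.inl p)) (fun b : Bool => if b then gv s c c' else
          al s c c' * eval (fun x => z (Sum.inr x)) t.u) ∈ Q) := by
      intro z
      simp only [map_mul, eval_C]
    unfold Fam2.cl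
    congr 1
    ext z
    exact h4 z
  have h3 : (atv t c).cl2 (ptv c' b) P (Q1 s Q) = P.rat.val {z : E ⊕ (t.σ ⊕ Empty) → ℂ |
      (fun x => z (Sum.inr (Sum.inl x))) ∈ t.S ∧
      Sum.elim (fun p => z (Sum.inl p)) (fun b : Bool => if b then gv s c c' else
        al s c c' * eval (fun x => z (Sum.inr (Sum.inl x))) t.u) ∈ Q} := by
    unfold Fam2.cl2
    congr 1
    ext z
    have h4 : ∀ z : E ⊕ (t.σ ⊕ Empty) → ℂ,
      ((fun x => z (Sum.inr (Sum.inl x))) ∈ t.S ∧
        (fun x => z (Sum.inr (Sum.inr x))) ∈ (Set.univ : Set (Empty → ℂ)) ∧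
        Sum.elim (fun p => z (Sum.inl p))
          ![eval (fun x => z (Sum.inr (Sum.inl x))) (C c),
            eval (fun x => z (Sum.inr (Sum.inl x))) t.u,
            eval (fun x => z (Sum.inr (Sum.inr x))) (C c'),
            eval (fun x => z (Sum.inr (Sum.inr x))) (0 : MvPolynomial Empty ℂ)] ∈ Q1 s Q) ↔
      ((fun x => z (Sum.inr (Sum.inl x))) ∈ t.S ∧
      Sum.elim (fun p => z (Sum.inl p)) (fun b : Bool => if b then gv s c c' else
        al s c c' * eval (fun x => z (Sum.inr (Sum.inl x))) t.u) ∈ Q) := by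
      intro z
      simp only [Q1, Set.mem_ofPred_eq, Sum.elim_inr, Sum.elim_inl, eval_C, Matrix.cons_val]
      constructor
      · rintro ⟨a1, -, -, a2⟩
        exact ⟨a1, a2⟩
      · rintro ⟨a1, a2⟩
        exact ⟨a1, Set.mem_univ _, hu _ a1, a2⟩
    exact h4 z
  rw [h1, h3]
  have c2 : Constructible {z : E ⊕ (t.σ ⊕ Empty) → ℂ |
      (fun x => z (Sum.inr (Sum.inl x))) ∈ t.S ∧
      Sum.elim (fun p => z (Sum.inl p)) (fun b : Bool => if b then gv s c c' else
        al s c c' * eval (fun x => z (Sum.inr (Sum.inl x))) t.u) ∈ Q} :=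
    (Constructible.comap _ ht).and (con_Q hQ (IP.const _)
      ((IP.const _).mul (IP.ev _ fun a => IP.coord _)))
  refine val_reindex' P (Equiv.sumCongr (Equiv.refl E) (Equiv.sumEmpty t.σ Empty)) c2 c1 ?_
  intro x
  exact Iff.rfl

theorem cl_A2 (s : Bool) (P : HodgeMeasure) (hQ : Constructible Q) (c c' : ℂ) (t : Fam)
    (κ b : ℕ → K) (ht : Constructible t.S) (hu : ∀ τ ∈ t.S, eval τ t.u ≠ 0) :
    (ptv c b).cl2 (atv t c') P (Q2 s Q) = (atv (A2 s c c' t κ) (gv s c c')).cl P Q := by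
  have := t.fin
  have c1 : Constructible {z : E ⊕ t.σ → ℂ | (fun x => z (Sum.inr x)) ∈ t.S ∧
      Sum.elim (fun p => z (Sum.inl p)) (fun b : Bool => if b then gv s c c' else
        be s c c' * eval (fun x => z (Sum.inr x)) t.u) ∈ Q} :=
    (Constructible.comap _ ht).and (con_Q hQ (IP.const _)
      ((IP.const _).mul (IP.ev _ fun a => IP.coord _)))
  have h1 : (atv (A2 s c c' t κ) (gv s c c')).cl P Q = P.rat.val {z : E ⊕ t.σ → ℂ |
      (fun x => z (Sum.inr x)) ∈ t.S ∧
      Sum.elim (fun p => z (Sum.inl p)) (fun b : Bool => if b then gv s c c' else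
        be s c c' * eval (fun x => z (Sum.inr x)) t.u) ∈ Q} := by
    have h4 : ∀ z : E ⊕ t.σ → ℂ, ((fun x => z (Sum.inr x)) ∈ t.S ∧
        Sum.elim (fun p => z (Sum.inl p)) (fun b : Bool => if b then
          eval (fun x => z (Sum.inr x)) (C (gv s c c') : MvPolynomial t.σ ℂ) else
          eval (fun x => z (Sum.inr x)) (C (be s c c') * t.u)) ∈ Q) ↔
        ((fun x => z (Sum.inr x)) ∈ t.S ∧
        Sum.elim (fun p => z (Sum.inl p)) (fun b : Bool => if b then gv s c c' else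
          be s c c' * eval (fun x => z (Sum.inr x)) t.u) ∈ Q) := by
      intro z
      simp only [map_mul, eval_C]
    unfold Fam2.cl
    congr 1
    ext z
    exact h4 z
  have h3 : (ptv c b).cl2 (atv t c') P (Q2 s Q) = P.rat.val {z : E ⊕ (Empty ⊕ t.σ) → ℂ |
      (fun x => z (Sum.inr (Sum.inr x))) ∈ t.S ∧
      Sum.elim (fun p => z (Sum.inl p)) (fun b : Bool => if b then gv s c c' else
        be s c c' * eval (fun x => z (Sum.inr (Sum.inr x))) t.u) ∈ Q} := by
    unfold Fam2.cl2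
    congr 1
    ext z
    have h4 : ∀ z : E ⊕ (Empty ⊕ t.σ) → ℂ,
      ((fun x => z (Sum.inr (Sum.inl x))) ∈ (Set.univ : Set (Empty → ℂ)) ∧
        (fun x => z (Sum.inr (Sum.inr x))) ∈ t.S ∧
        Sum.elim (fun p => z (Sum.inl p))
          ![eval (fun x => z (Sum.inr (Sum.inl x))) (C c),
            eval (fun x => z (Sum.inr (Sum.inl x))) (0 : MvPolynomial Empty ℂ),
            eval (fun x => z (Sum.inr (Sum.inr x))) (C c'),
            eval (fun x => z (Sum.inr (Sum.inr x))) t.u] ∈ Q2 s Q) ↔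
      ((fun x => z (Sum.inr (Sum.inr x))) ∈ t.S ∧
      Sum.elim (fun p => z (Sum.inl p)) (fun b : Bool => if b then gv s c c' else
        be s c c' * eval (fun x => z (Sum.inr (Sum.inr x))) t.u) ∈ Q) := by
      intro z
      simp only [Q2, Set.mem_ofPred_eq, Sum.elim_inr, Sum.elim_inl, eval_C, Matrix.cons_val]
      constructor
      · rintro ⟨-, a1, -, a2⟩
        exact ⟨a1, a2⟩
      · rintro ⟨a1, a2⟩
        exact ⟨Set.mem_univ _, a1, hu _ a1, a2⟩
    exact h4 z
  rw [h1, h3]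
  have c2 : Constructible {z : E ⊕ (Empty ⊕ t.σ) → ℂ |
      (fun x => z (Sum.inr (Sum.inr x))) ∈ t.S ∧
      Sum.elim (fun p => z (Sum.inl p)) (fun b : Bool => if b then gv s c c' else
        be s c c' * eval (fun x => z (Sum.inr (Sum.inr x))) t.u) ∈ Q} :=
    (Constructible.comap _ ht).and (con_Q hQ (IP.const _)
      ((IP.const _).mul (IP.ev _ fun a => IP.coord _)))
  refine val_reindex' P (Equiv.sumCongr (Equiv.refl E) (Equiv.emptySum Empty t.σ)) c2 c1 ?_
  intro x
  exact Iff.rfl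

theorem cl_A3 (s : Bool) (P : HodgeMeasure) {Y : Set ℂ} (hQ : QOk Y true Q) (c c' : ℂ)
    (t t' : Fam) (κ : ℕ → K) (hu : ∀ τ ∈ t.S, eval τ t.u ≠ 0)
    (hu' : ∀ τ ∈ t'.S, eval τ t'.u ≠ 0) :
    (atv t c).cl2 (atv t' c') P (Q3 s Q) = (atv (A3 s c c' t t' κ) (gv s c c')).cl P Q := by
  have := t.fin
  have := t'.fin
  have h4 : ∀ z : E ⊕ (t.σ ⊕ t'.σ) → ℂ,
      ((fun x => z (Sum.inr (Sum.inl x))) ∈ t.S ∧
        (fun x => z (Sum.inr (Sum.inr x))) ∈ t'.S ∧
        Sum.elim (fun p => z (Sum.inl p))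
          ![eval (fun x => z (Sum.inr (Sum.inl x))) (C c),
            eval (fun x => z (Sum.inr (Sum.inl x))) t.u,
            eval (fun x => z (Sum.inr (Sum.inr x))) (C c'),
            eval (fun x => z (Sum.inr (Sum.inr x))) t'.u] ∈ Q3 s Q) ↔
      ((((fun x => z (Sum.inr (Sum.inl x))) ∈ t.S ∧ (fun x => z (Sum.inr (Sum.inr x))) ∈ t'.S) ∧
        al s c c' * eval (fun x => z (Sum.inr (Sum.inl x))) t.u +
          be s c c' * eval (fun x => z (Sum.inr (Sum.inr x))) t'.u ≠ 0) ∧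
      Sum.elim (fun p => z (Sum.inl p)) (fun b : Bool => if b then
          eval (fun x => z (Sum.inr x)) (C (gv s c c') : MvPolynomial (t.σ ⊕ t'.σ) ℂ) else
        eval (fun x => z (Sum.inr x)) (C (al s c c') * rename Sum.inl t.u +
          C (be s c c') * rename Sum.inr t'.u)) ∈ Q) := by
    intro z
    simp only [Q3, Set.mem_ofPred_eq, Sum.elim_inr, Sum.elim_inl, eval_C, Matrix.cons_val,
      map_add, map_mul, eval_rename, Function.comp_def]
    constructor
    · rintro ⟨a1, a2, -, -, a3⟩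
      exact ⟨⟨⟨a1, a2⟩, (hQ.2 _ a3).2 rfl⟩, a3⟩
    · rintro ⟨⟨⟨a1, a2⟩, -⟩, a3⟩
      exact ⟨a1, a2, hu _ a1, hu' _ a2, a3⟩
  unfold Fam2.cl2 Fam2.cl
  congr 1
  ext z
  exact h4 z

theorem cl_A4 (s : Bool) (P : HodgeMeasure) {Y : Set ℂ} (hQ : QOk Y true Q) (c c' : ℂ)
    (κ b b' : ℕ → K) :
    BC s P (ptv c b) (ptv c' b') (BQ Q) = (atv (A4 κ) (gv s c c')).cl P Q := by
  have c1 : Constructible {z : E ⊕ Unit → ℂ |
      Sum.elim (fun p => z (Sum.inl p)) (fun b : Bool => if b then gv s c c' else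
        z (Sum.inr ())) ∈ Q} := con_Q hQ.1 (IP.const _) (IP.coord _)
  have h1 : (atv (A4 κ) (gv s c c')).cl P Q = P.rat.val {z : E ⊕ Unit → ℂ |
      Sum.elim (fun p => z (Sum.inl p)) (fun b : Bool => if b then gv s c c' else
        z (Sum.inr ())) ∈ Q} := by
    have h4 : ∀ z : E ⊕ Unit → ℂ, ((fun x => z (Sum.inr x)) ∈ {τ : Unit → ℂ | τ () ≠ 0} ∧
        Sum.elim (fun p => z (Sum.inl p)) (fun b : Bool => if b then
          eval (fun x => z (Sum.inr x)) (C (gv s c c') : MvPolynomial Unit ℂ) else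
          eval (fun x => z (Sum.inr x)) (X () : MvPolynomial Unit ℂ)) ∈ Q) ↔
        Sum.elim (fun p => z (Sum.inl p)) (fun b : Bool => if b then gv s c c' else
        z (Sum.inr ())) ∈ Q := by
      intro z
      simp only [Set.mem_ofPred_eq, eval_C, eval_X]
      constructor
      · rintro ⟨-, a⟩
        exact a
      · intro a
        exact ⟨(hQ.2 _ a).2 rfl, a⟩
    unfold Fam2.cl
    congr 1
    ext z
    exact h4 z
  have h3 : BC s P (ptv c b) (ptv c' b') (BQ Q) = P.rat.val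
      {z : (E ⊕ Unit) ⊕ (Empty ⊕ Empty) → ℂ |
      Sum.elim (fun p => z (Sum.inl (Sum.inl p))) (fun b : Bool => if b then gv s c c' else
        z (Sum.inl (Sum.inr ()))) ∈ Q} := by
    have h4 : ∀ z : (E ⊕ Unit) ⊕ (Empty ⊕ Empty) → ℂ,
      ((fun x => z (Sum.inr (Sum.inl x))) ∈ (Set.univ : Set (Empty → ℂ)) ∧
        (fun x => z (Sum.inr (Sum.inr x))) ∈ (Set.univ : Set (Empty → ℂ)) ∧
        Sum.elim (fun p => z (Sum.inl p)) (fun _ : Unit => gv s
          (eval (fun x => z (Sum.inr (Sum.inl x))) (C c : MvPolynomial Empty ℂ))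
          (eval (fun x => z (Sum.inr (Sum.inr x))) (C c' : MvPolynomial Empty ℂ))) ∈ BQ Q) ↔
      Sum.elim (fun p => z (Sum.inl (Sum.inl p))) (fun b : Bool => if b then gv s c c' else
        z (Sum.inl (Sum.inr ()))) ∈ Q := by
      intro z
      simp only [BQ, Set.mem_ofPred_eq, Sum.elim_inr, Sum.elim_inl, eval_C]
      exact ⟨fun h => h.2.2, fun h => ⟨Set.mem_univ _, Set.mem_univ _, h⟩⟩
    unfold BC
    congr 1
    ext z
    exact h4 z
  rw [h1, h3]
  refine val_reindex' P (Equiv.sumEmpty (E ⊕ Unit) (Empty ⊕ Empty)) (Constructible.comap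
    (fun x => Sum.inl x) c1) c1 ?_
  intro x
  exact Iff.rfl

theorem cl_A5 (s : Bool) (P : HodgeMeasure) (hQ : Constructible Q) (c c' : ℂ)
    (κ b b' : ℕ → K) :
    BC s P (ptv c b) (ptv c' b') (BT Q) = (ptv (gv s c c') κ).cl P Q := by
  have c1 : Constructible {z : E ⊕ Empty → ℂ |
      Sum.elim (fun p => z (Sum.inl p)) (fun b : Bool => if b then gv s c c' else 0) ∈ Q} :=
    con_Q hQ (IP.const _) (IP.const _)
  have c2 : Constructible {z : E ⊕ (Empty ⊕ Empty) → ℂ |
      Sum.elim (fun p => z (Sum.inl p)) (fun b : Bool => if b then gv s c c' else 0) ∈ Q} :=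
    con_Q hQ (IP.const _) (IP.const _)
  have h1 : (ptv (gv s c c') κ).cl P Q = P.rat.val {z : E ⊕ Empty → ℂ |
      Sum.elim (fun p => z (Sum.inl p)) (fun b : Bool => if b then gv s c c' else 0) ∈ Q} := by
    have h4 : ∀ z : E ⊕ Empty → ℂ, ((fun x => z (Sum.inr x)) ∈ (Set.univ : Set (Empty → ℂ)) ∧
        Sum.elim (fun p => z (Sum.inl p)) (fun b : Bool => if b then
          eval (fun x => z (Sum.inr x)) (C (gv s c c') : MvPolynomial Empty ℂ) else
          eval (fun x => z (Sum.inr x)) (0 : MvPolynomial Empty ℂ)) ∈ Q) ↔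
        Sum.elim (fun p => z (Sum.inl p)) (fun b : Bool => if b then gv s c c' else 0) ∈ Q := by
      intro z
      simp only [eval_C, map_zero]
      exact ⟨fun h => h.2, fun h => ⟨Set.mem_univ _, h⟩⟩
    unfold Fam2.cl
    congr 1
    ext z
    exact h4 z
  have h3 : BC s P (ptv c b) (ptv c' b') (BT Q) = P.rat.val
      {z : E ⊕ (Empty ⊕ Empty) → ℂ |
      Sum.elim (fun p => z (Sum.inl p)) (fun b : Bool => if b then gv s c c' else 0) ∈ Q} := by
    have h4 : ∀ z : E ⊕ (Empty ⊕ Empty) → ℂ,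
      ((fun x => z (Sum.inr (Sum.inl x))) ∈ (Set.univ : Set (Empty → ℂ)) ∧
        (fun x => z (Sum.inr (Sum.inr x))) ∈ (Set.univ : Set (Empty → ℂ)) ∧
        Sum.elim (fun p => z (Sum.inl p)) (fun _ : Unit => gv s
          (eval (fun x => z (Sum.inr (Sum.inl x))) (C c : MvPolynomial Empty ℂ))
          (eval (fun x => z (Sum.inr (Sum.inr x))) (C c' : MvPolynomial Empty ℂ))) ∈ BT Q) ↔
      Sum.elim (fun p => z (Sum.inl p)) (fun b : Bool => if b then gv s c c' else 0) ∈ Q := by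
      intro z
      simp only [BT, Set.mem_ofPred_eq, Sum.elim_inr, Sum.elim_inl, eval_C]
      exact ⟨fun h => h.2.2, fun h => ⟨Set.mem_univ _, Set.mem_univ _, h⟩⟩
    unfold BC
    congr 1
    ext z
    exact h4 z
  rw [h1, h3]
  refine val_reindex' P (Equiv.sumCongr (Equiv.refl E) (Equiv.sumEmpty Empty Empty)) c2 c1 ?_
  intro x
  exact Iff.rfl

/-- tail times tail -/
theorem cl2_Q5 (s : Bool) (P : HodgeMeasure) (G G' : Fam2) (Q : Set (E ⊕ Bool → ℂ)) :
    G.cl2 G' P (Q5 s Q) = BC s P G G' (BT Q) := rfl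

omit [Finite E] in
theorem Q4_eq (s : Bool) (Q : Set (E ⊕ Bool → ℂ)) : Q4 s Q = QC s (BQ Q) := rfl

omit [Finite E] in
theorem Q6_eq (s : Bool) (Q : Set (E ⊕ Bool → ℂ)) : Q6 s Q = QC s (BT Q) := rfl

end

end TG5Aux

end Pool.Agent.Mono.RO
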