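import Pool.Agent.Work.Monodromy5.TG5E
import Pool.Agent.Work.Monodromy4.Q1

/-!
# Block TG5, part F: lists, regrouping, the mass identity of an item
-/

set_option autoImplicit false
set_option linter.unusedSectionVars false

namespace Pool.Agent.Mono.RO

open MvPolynomial TS TS.VAAux M5Aux

namespace TG5Aux

/-! ## Double sums over lists -/

section

variable {α β γ δ : Type*}

/-- double sums -/
noncomputable def DS (l : List α) (l' : List β) (Φ : α → β → K) : K :=
  (l.map fun a => (l'.map fun b => Φ a b).sum).sum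

theorem lsum_add (l : List α) (f g : α → K) :
    (l.map fun a => f a + g a).sum = (l.map f).sum + (l.map g).sum := by
  induction l with
  | nil => simp
  | cons a l ih => simp only [List.map_cons, List.sum_cons, ih]; ring

theorem lsum_mul (l : List α) (c : K) (f : α → K) :
    (l.map fun a => c * f a).sum = c * (l.map f).sum := by
  induction l with
  | nil => simp
  | cons a l ih => simp only [List.map_cons, List.sum_cons, ih]; ring

theorem lsum_zero (l : List α) : (l.map fun _ => (0 : K)).sum = 0 := by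
  induction l with
  | nil => simp
  | cons a l ih => simp only [List.map_cons, List.sum_cons, ih, add_zero]

theorem lsum_comm (l : List α) (l' : List β) (Φ : α → β → K) :
    (l.map fun a => (l'.map fun b => Φ a b).sum).sum =
      (l'.map fun b => (l.map fun a => Φ a b).sum).sum := by
  induction l with
  | nil => simp
  | cons a l ih =>
    simp only [List.map_cons, List.sum_cons, ih]
    rw [lsum_add]

theorem lsum_finset (l : List α) (s : Finset ℕ) (Φ : ℕ → α → K) :
    ∑ j ∈ s, (l.map fun a => Φ j a).sum = (l.map fun a => ∑ j ∈ s, Φ j a).sum := by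
  induction l with
  | nil => simp
  | cons a l ih =>
    simp only [List.map_cons, List.sum_cons, ← ih, Finset.sum_add_distrib]

theorem lsum_congr {l : List α} {f g : α → K} (h : ∀ a ∈ l, f a = g a) :
    (l.map f).sum = (l.map g).sum := by rw [List.map_congr_left h]

theorem DS_congr {l : List α} {l' : List β} {Φ Ψ : α → β → K}
    (h : ∀ a ∈ l, ∀ b ∈ l', Φ a b = Ψ a b) : DS l l' Φ = DS l l' Ψ :=
  lsum_congr fun a ha => lsum_congr fun b hb => h a ha b hb

theorem DS_add (l : List α) (l' : List β) (Φ Ψ : α → β → K) :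
    DS l l' (fun a b => Φ a b + Ψ a b) = DS l l' Φ + DS l l' Ψ := by
  unfold DS
  rw [← lsum_add]
  exact lsum_congr fun a _ => lsum_add l' _ _

theorem DS_mul (l : List α) (l' : List β) (c : K) (Φ : α → β → K) :
    DS l l' (fun a b => c * Φ a b) = c * DS l l' Φ := by
  unfold DS
  rw [← lsum_mul]
  exact lsum_congr fun a _ => lsum_mul l' _ _

theorem DS_finset (l : List α) (l' : List β) (s : Finset ℕ) (Φ : ℕ → α → β → K) :
    ∑ j ∈ s, DS l l' (Φ j) = DS l l' fun a b => ∑ j ∈ s, Φ j a b := by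
  unfold DS
  rw [lsum_finset]
  exact lsum_congr fun a _ => lsum_finset l' s _

theorem DS_flat (l : List α) (l' : List β) (e : α → List γ) (e' : β → List δ) (Φ : γ → δ → K) :
    DS (l.flatMap e) (l'.flatMap e') Φ = DS l l' fun a b => DS (e a) (e' b) Φ := by
  unfold DS
  rw [sum_flatMap]
  refine lsum_congr fun a _ => ?_
  rw [lsum_comm, sum_flatMap]
  exact lsum_congr fun c _ => lsum_comm _ _ _

theorem DS_map_right (l : List α) (l' : List β) (e' : β → δ) (Φ : α → δ → K) :
    DS l (l'.map e') Φ = DS l l' fun a b => Φ a (e' b) := by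
  unfold DS
  refine lsum_congr fun a _ => ?_
  rw [List.map_map]
  rfl

theorem DS_map_left (l : List α) (l' : List β) (e : α → γ) (Φ : γ → β → K) :
    DS (l.map e) l' Φ = DS l l' fun a b => Φ (e a) b := by
  unfold DS
  rw [List.map_map]
  rfl

theorem DS_flat_left (l : List α) (l' : List β) (e : α → List γ) (Φ : γ → β → K) :
    DS (l.flatMap e) l' Φ = DS l l' fun a b => ((e a).map fun c => Φ c b).sum := by
  unfold DS
  rw [sum_flatMap]
  exact lsum_congr fun a _ => lsum_comm _ _ _

theorem DS_flat_right (l : List α) (l' : List β) (e' : β → List δ) (Φ : α → δ → K) :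
    DS l (l'.flatMap e') Φ = DS l l' fun a b => ((e' b).map fun c => Φ a c).sum := by
  unfold DS
  exact lsum_congr fun a _ => sum_flatMap _ _ _

/-- sums over the new lists -/
theorem sum_pairs (l : List α) (l' : List β) (e : α → β → γ) (F : γ → K) :
    ((l.flatMap fun a => l'.map fun b => e a b).map F).sum = DS l l' fun a b => F (e a b) := by
  unfold DS
  rw [sum_flatMap]
  refine lsum_congr fun a _ => ?_
  rw [List.map_map]
  rfl

theorem sum_pairs' (l : List α) (l' : List β) (e : α → β → List γ) (F : γ → K) :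
    ((l.flatMap fun a => l'.flatMap fun b => e a b).map F).sum =
      DS l l' fun a b => ((e a b).map F).sum := by
  unfold DS
  rw [sum_flatMap]
  refine lsum_congr fun a _ => ?_
  rw [sum_flatMap]

open Classical in
/-- grouping by a key -/
theorem sum_group (l : List α) (k : α → ℂ) (F : α → K) (s : Finset ℂ)
    (h : ∀ a ∈ l, k a ∉ s → F a = 0) :
    ∑ c ∈ s, ((l.filter fun a => k a = c).map F).sum = (l.map F).sum := by
  induction l with
  | nil => simp
  | cons a l ih =>
    have h1 : ∀ c : ℂ, (((a :: l).filter fun a => k a = c).map F).sum =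
        (if k a = c then F a else 0) + ((l.filter fun a => k a = c).map F).sum := by
      intro c
      by_cases hc : k a = c
      · simp [hc]
      · simp [hc]
    rw [Finset.sum_congr rfl fun c _ => h1 c, Finset.sum_add_distrib,
      ih fun b hb => h b (List.mem_cons_of_mem _ hb), Finset.sum_ite_eq, List.map_cons,
      List.sum_cons]
    congr 1
    split_ifs with h2
    · rfl
    · exact (h a List.mem_cons_self h2).symm

end

/-! ## Regrouping -/

/-- families outside of `X` do not meet `Q` -/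
theorem cl_zero {P : HodgeMeasure} {E : Type} [Finite E] {Y : Set ℂ} {w : Bool}
    {Q : Set (E ⊕ Bool → ℂ)} (hQ : QOk Y w Q) (G : Fam2) (d : ℂ) (hd : d ∉ Y)
    (hG : ∀ τ, eval τ G.v = d) : G.cl P Q = 0 := by
  have := G.fin
  unfold Fam2.cl
  rw [← P.rat.val_empty (ι := E ⊕ G.σ)]
  congr 1
  ext z
  refine ⟨fun hz => ?_, fun hz => absurd hz (Set.notMem_empty z)⟩
  exfalso
  apply hd
  have h1 := (hQ.2 _ hz.2).1
  have h2 : Sum.elim (fun p => z (Sum.inl p)) (G.pt fun s => z (Sum.inr s)) (Sum.inr true) =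
      eval (fun s => z (Sum.inr s)) G.v := rfl
  rw [h2, hG] at h1
  exact h1

theorem eseq_lsum {α : Type*} (Λ : Set ℚ) (f : α → ℕ → K) (l : List α)
    (h : ∀ a ∈ l, ESeq Λ (f a)) : ESeq Λ fun m => (l.map fun a => f a m).sum := by
  obtain ⟨-, q2, -, q4, -, -, -⟩ := stmt_Q1
  induction l with
  | nil => exact q4 Λ _ 0 fun m _ => by simp
  | cons a l ih =>
    have h1 := q2 Λ _ _ (h a List.mem_cons_self) (ih fun b hb => h b (List.mem_cons_of_mem _ hb))
    simpa only [List.map_cons, List.sum_cons] using h1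

theorem reg_of_lists {P : HodgeMeasure} {ι : Type} [Fintype ι] {f : MvPolynomial ι ℂ} {Y : Set ℂ}
    {Λ : ℂ → Set ℚ} (hs : List HT) (L : List (ℂ × Fam)) (L' : List (ℂ × (ℕ → K)))
    (hhs : ∀ h ∈ hs, Constructible h.H ∧ ∀ τ ∈ h.H, eval τ h.v ∈ Y)
    (hL : ∀ x ∈ L, x.1 ∈ Y → ESeq (Λ x.1) x.2.κ ∧ Constructible x.2.S ∧
      ∀ τ ∈ x.2.S, eval τ x.2.u ≠ 0)
    (hL' : ∀ x ∈ L', x.1 ∈ Y → ESeq (Λ x.1) x.2)
    (hE : ∀ (E : Type) [Finite E] (Q : Set (E ⊕ Bool → ℂ)), QOk Y true Q → ∀ i, 1 ≤ i →
      vol P.rat xq (SD f true Q i) = (hs.map fun h => h.ex.κ i * h.ex.cl P Q).sum +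
        (L.map fun x => x.2.κ i * (atv x.2 x.1).cl P Q).sum)
    (hT : ∀ (E : Type) [Finite E] (Q : Set (E ⊕ Bool → ℂ)), QOk Y false Q → ∀ i,
      vol P.rat xq (SD f false Q i) = (hs.map fun h => h.tl.κ i * h.tl.cl P Q).sum +
        (L'.map fun x => x.2 i * (ptv x.1 x.2).cl P Q).sum)
    (hU : Unif P f Y) : Reg P f Y Λ := by
  classical
  set crit : Finset ℂ := ((L.map Prod.fst ++ L'.map Prod.fst).toFinset).filter (· ∈ Y) with hcrit
  set ts : ℂ → List Fam := fun c => (L.filter fun x => x.1 = c).map Prod.snd with hts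
  set b : ℂ → ℕ → K := fun c i => ((L'.filter fun x => x.1 = c).map fun x => x.2 i).sum with hb
  have hcY : ∀ c ∈ crit, c ∈ Y := fun c hc => (Finset.mem_filter.1 hc).2
  have hc1 : ∀ x ∈ L, x.1 ∉ crit → x.1 ∉ Y := by
    intro x hx h1 h2
    apply h1
    rw [hcrit, Finset.mem_filter, List.mem_toFinset]
    exact ⟨List.mem_append_left _ (List.mem_map_of_mem hx), h2⟩
  have hc2 : ∀ x ∈ L', x.1 ∉ crit → x.1 ∉ Y := by
    intro x hx h1 h2
    apply h1
    rw [hcrit, Finset.mem_filter, List.mem_toFinset]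
    exact ⟨List.mem_append_right _ (List.mem_map_of_mem hx), h2⟩
  refine ⟨hs, crit, ts, b, ?_, ⟨?_, ?_⟩, ⟨?_, ?_⟩, hU⟩
  · intro c hc
    refine ⟨?_, ?_⟩
    · intro t ht
      obtain ⟨x, hx, rfl⟩ := List.mem_map.1 ht
      obtain ⟨hx1, hx2⟩ := List.mem_filter.1 hx
      have hx3 : x.1 = c := by simpa using hx2
      subst hx3
      exact (hL x hx1 (hcY _ hc)).1
    · refine eseq_lsum (Λ c) (fun x : ℂ × (ℕ → K) => x.2) _ ?_
      intro x hx
      obtain ⟨hx1, hx2⟩ := List.mem_filter.1 hx
      have hx3 : x.1 = c := by simpa using hx2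
      subst hx3
      exact hL' x hx1 (hcY _ hc)
  · intro G hG
    rcases List.mem_append.1 hG with hG | hG
    · obtain ⟨h, hh, rfl⟩ := List.mem_map.1 hG
      obtain ⟨h1, h2⟩ := hhs h hh
      refine ⟨(Constructible.comap _ h1).and (Constructible.comap _ con_ne0), ?_⟩
      intro τ hτ
      refine ⟨?_, fun _ => ?_⟩
      · have h3 := h2 _ hτ.1
        have h4 : eval τ h.ex.v = eval (fun s => τ (Sum.inl s)) h.v := by
          change eval (τ : h.σ ⊕ Unit → ℂ) (rename Sum.inl h.v) = _
          exact eval_rename _ _ _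
        rw [h4]
        exact h3
      · have h4 : eval τ h.ex.u = τ (Sum.inr ()) := by
          change eval (τ : h.σ ⊕ Unit → ℂ) (X (Sum.inr ())) = _
          exact eval_X _
        rw [h4]
        exact hτ.2
    · obtain ⟨c, hc, hG⟩ := List.mem_flatMap.1 hG
      obtain ⟨t, ht, rfl⟩ := List.mem_map.1 hG
      obtain ⟨x, hx, rfl⟩ := List.mem_map.1 ht
      obtain ⟨hx1, hx2⟩ := List.mem_filter.1 hx
      have hx3 : x.1 = c := by simpa using hx2
      subst hx3
      have hcx := hcY _ (Finset.mem_toList.1 hc)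
      obtain ⟨-, h1, h2⟩ := hL x hx1 hcx
      refine ⟨h1, fun τ hτ => ⟨?_, fun _ => h2 τ hτ⟩⟩
      have h4 : eval τ (atv x.2 x.1).v = x.1 := by
        change eval (τ : x.2.σ → ℂ) (C x.1) = _
        exact eval_C _
      rw [h4]
      exact hcx
  · intro E _ Q hQ i hi
    rw [hE E Q hQ i (hi rfl), sum_exF]
    congr 1
    have h1 : ∀ c ∈ crit, ((ts c).map fun t => (atv t c).κ i * (atv t c).cl P Q).sum =
        ((L.filter fun x => x.1 = c).map fun x => x.2.κ i * (atv x.2 x.1).cl P Q).sum := by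
      intro c _
      rw [hts]
      simp only [List.map_map]
      apply lsum_congr
      intro x hx
      obtain ⟨_, hx2⟩ := List.mem_filter.1 hx
      have hx3 : x.1 = c := by simpa using hx2
      subst hx3
      rfl
    rw [Finset.sum_congr rfl h1]
    symm
    apply sum_group
    intro x hx hxc
    rw [cl_zero hQ (atv x.2 x.1) x.1 (hc1 x hx hxc) (fun τ => eval_C _), mul_zero]
  · intro G hG
    rcases List.mem_append.1 hG with hG | hG
    · obtain ⟨h, hh, rfl⟩ := List.mem_map.1 hG
      obtain ⟨h1, h2⟩ := hhs h hh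
      exact ⟨h1, fun τ hτ => ⟨h2 τ hτ, by simp⟩⟩
    · obtain ⟨c, hc, rfl⟩ := List.mem_map.1 hG
      refine ⟨Constructible.univ, fun τ _ => ⟨?_, by simp⟩⟩
      have h4 : eval τ (ptv c (b c)).v = c := by
        change eval (τ : Empty → ℂ) (C c) = _
        exact eval_C _
      rw [h4]
      exact hcY _ (Finset.mem_toList.1 hc)
  · intro E _ Q hQ i _
    rw [hT E Q hQ i, sum_tlF]
    congr 1
    have h1 : ∀ c ∈ crit, (ptv c (b c)).κ i * (ptv c (b c)).cl P Q =
        ((L'.filter fun x => x.1 = c).map fun x => x.2 i * (ptv x.1 x.2).cl P Q).sum := by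
      intro c _
      have h2 : (ptv c (b c)).κ i = ((L'.filter fun x => x.1 = c).map fun x => x.2 i).sum := rfl
      rw [h2, mul_comm, ← lsum_mul]
      apply lsum_congr
      intro x hx
      obtain ⟨_, hx2⟩ := List.mem_filter.1 hx
      have hx3 : x.1 = c := by simpa using hx2
      subst hx3
      rw [mul_comm]
      rfl
    rw [Finset.sum_congr rfl h1]
    symm
    apply sum_group
    intro x hx hxc
    rw [cl_zero hQ (ptv x.1 x.2) x.1 (hc2 x hx hxc) (fun τ => eval_C _), mul_zero]

/-! ## Items -/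

section

variable (hs : List HT) (crit : Finset ℂ) (ts : ℂ → List Fam) (b : ℂ → ℕ → K)

/-- the items: Haar parts and critical values -/
noncomputable def Itm : List (HT ⊕ ℂ) := hs.map Sum.inl ++ crit.toList.map Sum.inr

noncomputable def exI (ts : ℂ → List Fam) : HT ⊕ ℂ → List Fam2
  | Sum.inl h => [h.ex]
  | Sum.inr c => (ts c).map fun t => atv t c

noncomputable def tlI (b : ℂ → ℕ → K) : HT ⊕ ℂ → Fam2
  | Sum.inl h => h.tl
  | Sum.inr c => ptv c (b c)

theorem exF_eq : exF hs crit ts = (Itm hs crit).flatMap (exI ts) := by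
  unfold exF Itm
  rw [List.flatMap_append]
  congr 1
  · induction hs with
    | nil => rfl
    | cons h l ih =>
      rw [List.map_cons, List.map_cons, List.flatMap_cons, ← ih]
      rfl
  · induction crit.toList with
    | nil => rfl
    | cons h l ih =>
      rw [List.map_cons, List.flatMap_cons, List.flatMap_cons, ← ih]
      rfl

theorem tlF_eq : tlF hs crit b = (Itm hs crit).map (tlI b) := by
  unfold tlF Itm
  rw [List.map_append, List.map_map, List.map_map]
  rfl

end

/-- `λ x^m + ∑_{j ≤ m} λ x^j (L - 1) = λ` -/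
theorem haar_mass (P : HodgeMeasure) (m : ℕ) :
    (xq : K) ^ m + ∑ j ∈ Finset.Icc 1 m, xq ^ j * (P.rat.L - 1) = 1 := by
  have hL := L_mul P
  induction m with
  | zero => simp
  | succ m ih =>
    rw [Finset.sum_Icc_succ_top (by omega)]
    have h5 : (xq ^ (m + 1) * P.rat.L : K) = xq ^ m := by
      rw [pow_succ, mul_assoc, mul_comm xq, hL, mul_one]
    linear_combination ih + h5

/-- the mass identity of an item -/
theorem item_mass (hM5 : Stmt_M5) {P : HodgeMeasure} {ι : Type} [Fintype ι]
    {f : MvPolynomial ι ℂ} {Y : Set ℂ} {hs : List HT} {crit : Finset ℂ} {ts : ℂ → List Fam}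
    {b : ℂ → ℕ → K} (hE : HasD P f Y true (exF hs crit ts)) (hT : HasD P f Y false (tlF hs crit b))
    (i : HT ⊕ ℂ) (hi : i ∈ Itm hs crit) (Z : Fam2 → K)
    (h1 : ∀ h ∈ hs, Z h.ex = (P.rat.L - 1) * Z h.tl)
    (h2 : ∀ c ∈ crit, ∀ t ∈ ts c, Z (atv t c) = famV P t * Z (ptv c (b c))) (m : ℕ) :
    (tlI b i).κ m * Z (tlI b i) + ∑ j ∈ Finset.Icc 1 m,
      ((exI ts i).map fun G => G.κ j * Z G).sum = (tlI b i).κ 0 * Z (tlI b i) := by
  unfold Itm at hi
  rcases List.mem_append.1 hi with hi | hi
  · obtain ⟨h, hh, rfl⟩ := List.mem_map.1 hi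
    have h3 : ∀ j, ((exI ts (Sum.inl h)).map fun G => G.κ j * Z G).sum =
        h.lam * Z h.tl * (xq ^ j * (P.rat.L - 1)) := by
      intro j
      simp only [exI, List.map_cons, List.map_nil, List.sum_cons, List.sum_nil, add_zero]
      rw [h1 h hh]
      change h.lam * xq ^ j * _ = _
      ring
    rw [Finset.sum_congr rfl fun j _ => h3 j, ← Finset.mul_sum]
    have h4 := haar_mass P m
    change h.lam * xq ^ m * Z h.tl + _ = h.lam * xq ^ 0 * Z h.tl
    linear_combination (h.lam * Z h.tl) * h4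
  · obtain ⟨c, hc, rfl⟩ := List.mem_map.1 hi
    have hc' := Finset.mem_toList.1 hc
    have h3 : ∀ j, ((exI ts (Sum.inr c)).map fun G => G.κ j * Z G).sum =
        Z (ptv c (b c)) * ((ts c).map fun t => t.κ j * famV P t).sum := by
      intro j
      simp only [exI, List.map_map]
      rw [← lsum_mul]
      apply lsum_congr
      intro t ht
      simp only [Function.comp_def]
      rw [h2 c hc' t ht]
      change t.κ j * _ = _
      ring
    rw [Finset.sum_congr rfl fun j _ => h3 j, ← Finset.mul_sum]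
    have h4 := hM5 P ι f Y hs crit ts b hE hT c hc' m
    change b c m * Z (ptv c (b c)) + _ = b c 0 * Z (ptv c (b c))
    linear_combination (Z (ptv c (b c))) * h4

end TG5Aux

end Pool.Agent.Mono.RO
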