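import Pool.Agent.Work.Monodromy5.TG5F

/-!
# Block TG5, part G: the contribution of a pair of items
-/

set_option autoImplicit false
set_option linter.unusedSectionVars false

namespace Pool.Agent.Mono.RO

open MvPolynomial TS TS.VAAux M5Aux

namespace TG5Aux

/-! ## The new data -/

section

variable (s : Bool) (P : HodgeMeasure) (ts ts' : ℂ → List Fam) (b b' : ℂ → ℕ → K)
  (a : ℂ → ℂ → K)

/-- `∑ N κ κ'` -/
noncomputable def KK (c c' : ℂ) (j : ℕ) : K := if j = 0 then 0 else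
  DS (ts c) (ts' c') fun t t' => NN s P c c' t t' * (t.κ j * t'.κ j)

noncomputable def seqN (c c' : ℂ) (m : ℕ) : K :=
  (∑ j ∈ Finset.range m, KK s P ts ts' c c' j * xq ^ (m - j)) - a c c' * xq ^ m

noncomputable def lamN : HT ⊕ ℂ → HT ⊕ ℂ → K
  | Sum.inl h, i' => (tlI b (Sum.inl h)).κ 0 * (tlI b' i').κ 0
  | Sum.inr c, Sum.inl h' => (tlI b (Sum.inr c)).κ 0 * (tlI b' (Sum.inl h')).κ 0
  | Sum.inr c, Sum.inr c' => a c c'

noncomputable def LLc (c c' : ℂ) : List (ℂ × Fam) :=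
  ((ts c).map fun t => (gv s c c', A1 s c c' t fun m => t.κ m * b' c' m)) ++
  (((ts' c').map fun t' => (gv s c c', A2 s c c' t' fun m => b c m * t'.κ m)) ++
  (((ts c).flatMap fun t => (ts' c').map fun t' =>
    (gv s c c', A3 s c c' t t' fun m => t.κ m * t'.κ m)) ++
  [(gv s c c', A4 (seqN s P ts ts' a c c'))]))

noncomputable def LL : HT ⊕ ℂ → HT ⊕ ℂ → List (ℂ × Fam)
  | Sum.inl _, _ => []
  | Sum.inr _, Sum.inl _ => []
  | Sum.inr c, Sum.inr c' => LLc s P ts ts' b b' a c c'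

noncomputable def LL' : HT ⊕ ℂ → HT ⊕ ℂ → List (ℂ × (ℕ → K))
  | Sum.inl _, _ => []
  | Sum.inr _, Sum.inl _ => []
  | Sum.inr c, Sum.inr c' => [(gv s c c', fun m => b c m * b' c' m +
      (KK s P ts ts' c c' m + seqN s P ts ts' a c c' m))]

end

/-! ## Constructibility -/

section

variable {E : Type} {Q : Set (E ⊕ Bool → ℂ)} {s : Bool}

theorem con_BQ (hQ : Constructible Q) : Constructible (BQ Q) := by
  refine con_pre ?_ hQ
  rintro (e | b)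
  · exact IP.coord _
  · cases b
    · exact IP.coord (Sum.inl (Sum.inr ()))
    · exact IP.coord (Sum.inr ())

theorem con_BT (hQ : Constructible Q) : Constructible (BT Q) := by
  refine con_pre ?_ hQ
  rintro (e | b)
  · exact IP.coord _
  · cases b
    · exact IP.const 0
    · exact IP.coord (Sum.inr ())

theorem BQ_Xs {w : Bool} (hQ : QOk (Xs s) w Q) : ∀ x ∈ BQ Q, x (Sum.inr ()) ∈ Xs s :=
  fun _ hx => (hQ.2 _ hx).1

theorem BT_Xs {w : Bool} (hQ : QOk (Xs s) w Q) : ∀ x ∈ BT Q, x (Sum.inr ()) ∈ Xs s :=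
  fun _ hx => (hQ.2 _ hx).1

theorem con_QC {B : Set (E ⊕ Unit → ℂ)} (hB : Constructible B) : Constructible (QC s B) := by
  have i0 : IP fun z : E ⊕ Fin 4 → ℂ => z (Sum.inr 0) := IP.coord _
  have i2 : IP fun z : E ⊕ Fin 4 → ℂ => z (Sum.inr 2) := IP.coord _
  refine (con_ne (IP.coord (Sum.inr 1))).and ((con_ne (IP.coord (Sum.inr 3))).and
    ((con_zero (((IP.al s i0 i2).mul (IP.coord (Sum.inr 1))).add
      ((IP.be s i0 i2).mul (IP.coord (Sum.inr 3))))).and (con_pre ?_ hB)))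
  rintro (e | u)
  · exact IP.coord _
  · exact IP.gv s i0 i2

theorem con_Qgen (hQ : Constructible Q) {g g' : (E ⊕ Fin 4 → ℂ) → ℂ} (hg : IP g) (hg' : IP g') :
    Constructible {z : E ⊕ Fin 4 → ℂ | Sum.elim (fun p => z (Sum.inl p))
      (fun b : Bool => if b then g z else g' z) ∈ Q} := by
  refine con_pre ?_ hQ
  rintro (e | b)
  · exact IP.coord _
  · cases b
    · exact hg'
    · exact hg

theorem con_Q1 (hQ : Constructible Q) : Constructible (Q1 s Q) := by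
  have i0 : IP fun z : E ⊕ Fin 4 → ℂ => z (Sum.inr 0) := IP.coord _
  have i2 : IP fun z : E ⊕ Fin 4 → ℂ => z (Sum.inr 2) := IP.coord _
  exact (con_ne (IP.coord (Sum.inr 1))).and (con_Qgen hQ (IP.gv s i0 i2)
    ((IP.al s i0 i2).mul (IP.coord (Sum.inr 1))))

theorem con_Q2 (hQ : Constructible Q) : Constructible (Q2 s Q) := by
  have i0 : IP fun z : E ⊕ Fin 4 → ℂ => z (Sum.inr 0) := IP.coord _
  have i2 : IP fun z : E ⊕ Fin 4 → ℂ => z (Sum.inr 2) := IP.coord _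
  exact (con_ne (IP.coord (Sum.inr 3))).and (con_Qgen hQ (IP.gv s i0 i2)
    ((IP.be s i0 i2).mul (IP.coord (Sum.inr 3))))

theorem con_Q3 (hQ : Constructible Q) : Constructible (Q3 s Q) := by
  have i0 : IP fun z : E ⊕ Fin 4 → ℂ => z (Sum.inr 0) := IP.coord _
  have i2 : IP fun z : E ⊕ Fin 4 → ℂ => z (Sum.inr 2) := IP.coord _
  exact (con_ne (IP.coord (Sum.inr 1))).and ((con_ne (IP.coord (Sum.inr 3))).and
    (con_Qgen hQ (IP.gv s i0 i2) (((IP.al s i0 i2).mul (IP.coord (Sum.inr 1))).add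
      ((IP.be s i0 i2).mul (IP.coord (Sum.inr 3))))))

theorem con_Q5 (hQ : Constructible Q) : Constructible (Q5 s Q) := by
  have i0 : IP fun z : E ⊕ Fin 4 → ℂ => z (Sum.inr 0) := IP.coord _
  have i2 : IP fun z : E ⊕ Fin 4 → ℂ => z (Sum.inr 2) := IP.coord _
  exact con_Qgen hQ (IP.gv s i0 i2) (IP.const 0)

end

theorem sum_Icc_last (m : ℕ) (hm : 1 ≤ m) (F : ℕ → K) :
    ∑ j ∈ Finset.Icc 1 m, F j = ∑ j ∈ Finset.Ico 1 m, F j + F m := by
  obtain ⟨k, rfl⟩ : ∃ k, m = k + 1 := ⟨m - 1, by omega⟩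
  rw [Finset.sum_Icc_succ_top (by omega)]
  congr 1

theorem sum_range_Ico (m : ℕ) (F : ℕ → K) (h0 : F 0 = 0) :
    ∑ j ∈ Finset.range m, F j = ∑ j ∈ Finset.Ico 1 m, F j := by
  rcases Nat.eq_zero_or_pos m with hm | hm
  · subst hm
    simp
  · rw [Finset.range_eq_Ico, Finset.sum_eq_sum_Ico_succ_bot hm, h0, zero_add]

theorem xq_split {m j : ℕ} (h : j ≤ m) : (xq : K) ^ (m - j) * xq ^ j = xq ^ m := by
  rw [← pow_add]
  congr 1
  omega

/-! ## Pairs of items -/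

section

variable {s : Bool} {P : HodgeMeasure} {ι κ : Type} [Fintype ι] [Fintype κ]
  {f : MvPolynomial ι ℂ} {g : MvPolynomial κ ℂ} {Y Y' : Set ℂ}
  {hs hs' : List HT} {crit crit' : Finset ℂ} {ts ts' : ℂ → List Fam} {b b' : ℂ → ℕ → K}

theorem tl_con (hT : HasD P f Y false (tlF hs crit b)) {i : HT ⊕ ℂ} (hi : i ∈ Itm hs crit) :
    Constructible (tlI b i).S := by
  have h : tlI b i ∈ tlF hs crit b := by
    rw [tlF_eq]
    exact List.mem_map_of_mem hi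
  exact (hT.1 _ h).1

theorem ex_ok (hE : HasD P f Y true (exF hs crit ts)) {i : HT ⊕ ℂ} (hi : i ∈ Itm hs crit)
    {G : Fam2} (hG : G ∈ exI ts i) : ExOk G := by
  have h : G ∈ exF hs crit ts := by
    rw [exF_eq]
    exact List.mem_flatMap.2 ⟨i, hi, hG⟩
  obtain ⟨h1, h2⟩ := hE.1 _ h
  exact ⟨h1, fun τ hτ => (h2 τ hτ).2 rfl⟩

theorem mem_hs {h : HT} (hi : Sum.inl h ∈ Itm hs crit) : h ∈ hs := by
  unfold Itm at hi
  simpa using hi

theorem mem_crit {c : ℂ} (hi : Sum.inr c ∈ Itm hs crit) : c ∈ crit := by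
  unfold Itm at hi
  simpa using hi

theorem hs_con (hT : HasD P f Y false (tlF hs crit b)) {h : HT} (hh : h ∈ hs) :
    Constructible h.H := (hT.1 _ (mem_tlF_h hh)).1

/-- a Haar part on the left, exact -/
theorem pair_left (hC : Stmt_TG5C) (hM5 : Stmt_M5) (hD : Stmt_TG5D)
    (hTf : HasD P f Y false (tlF hs crit b))
    (hEg : HasD P g Y' true (exF hs' crit' ts')) (hTg : HasD P g Y' false (tlF hs' crit' b'))
    {h : HT} (hh : h ∈ hs) {i' : HT ⊕ ℂ} (hi' : i' ∈ Itm hs' crit')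
    {E : Type} [Finite E] {Q : Set (E ⊕ Bool → ℂ)} (hQ : QOk (Xs s) true Q) (m : ℕ) (hm : 1 ≤ m) :
    h.ex.κ m * (tlI b' i').κ m * h.ex.cl2 (tlI b' i') P (Q1 s Q) +
      ((exI ts' i').map fun G' => h.tl.κ m * G'.κ m * h.tl.cl2 G' P (Q2 s Q)).sum +
      ((exI ts' i').map fun G' => h.ex.κ m * G'.κ m * h.ex.cl2 G' P (Q3 s Q)).sum +
      ∑ j ∈ Finset.Ico 1 m, xq ^ (m - j) *
        ((exI ts' i').map fun G' => h.ex.κ j * G'.κ j * h.ex.cl2 G' P (QC s (BQ Q))).sum =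
      (h.tl.κ 0 * (tlI b' i').κ 0) * xq ^ m * BC s P h.tl (tlI b' i') (BQ Q) := by
  obtain ⟨-, l1, l2, l3, -⟩ := hC s P
  have hH := hs_con hTf hh
  have hB := con_BQ hQ.1
  obtain ⟨d1, -, d3, -⟩ := hD s P (E ⊕ Unit) (BQ Q) hB
  set Z : Fam2 → K := fun G' => BC s P h.tl G' (BQ Q) with hZ
  have e1 : h.ex.cl2 (tlI b' i') P (Q1 s Q) = Z (tlI b' i') :=
    l1 h _ hH (tl_con hTg hi') E Q hQ
  have e2 : ((exI ts' i').map fun G' => h.tl.κ m * G'.κ m * h.tl.cl2 G' P (Q2 s Q)).sum +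
      ((exI ts' i').map fun G' => h.ex.κ m * G'.κ m * h.ex.cl2 G' P (Q3 s Q)).sum =
      h.lam * xq ^ m * ((exI ts' i').map fun G' => G'.κ m * Z G').sum := by
    rw [← lsum_add, ← lsum_mul]
    apply lsum_congr
    intro G' hG'
    have h1 : h.tl.cl2 G' P (Q2 s Q) + h.ex.cl2 G' P (Q3 s Q) = Z G' :=
      l2 h G' hH (ex_ok hEg hi' hG') E Q hQ
    have h2 : h.tl.κ m = h.lam * xq ^ m := rfl
    have h3 : h.ex.κ m = h.lam * xq ^ m := rfl
    rw [h2, h3, ← h1]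
    ring
  have e3 : ∑ j ∈ Finset.Ico 1 m, xq ^ (m - j) *
        ((exI ts' i').map fun G' => h.ex.κ j * G'.κ j * h.ex.cl2 G' P (QC s (BQ Q))).sum =
      h.lam * xq ^ m * ∑ j ∈ Finset.Ico 1 m, ((exI ts' i').map fun G' => G'.κ j * Z G').sum := by
    rw [Finset.mul_sum]
    refine Finset.sum_congr rfl fun j hj => ?_
    rw [Finset.mem_Ico] at hj
    rw [← lsum_mul, ← lsum_mul]
    apply lsum_congr
    intro G' hG'
    have h1 : h.ex.cl2 G' P (QC s (BQ Q)) = Z G' :=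
      l3 h G' hH (ex_ok hEg hi' hG') (E ⊕ Unit) (BQ Q) hB (BQ_Xs hQ)
    have h3 : h.ex.κ j = h.lam * xq ^ j := rfl
    rw [h3, h1, ← xq_split (show j ≤ m by omega)]
    ring
  have e4 := item_mass hM5 hEg hTg i' hi' Z (fun h' hh' => d1 h.tl h' hH (hs_con hTg hh'))
    (fun c' hc' t' ht' => d3 h.tl t' c' (b' c') hH (hEg.1 _ (mem_exF_c hc' ht')).1) m
  rw [sum_Icc_last m hm] at e4
  rw [add_assoc (h.ex.κ m * (tlI b' i').κ m * h.ex.cl2 (tlI b' i') P (Q1 s Q)), e1, e2, e3]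
  have h3 : h.ex.κ m = h.lam * xq ^ m := rfl
  have h4 : h.tl.κ 0 = h.lam * xq ^ 0 := rfl
  rw [h3, h4, pow_zero, mul_one]
  linear_combination (h.lam * xq ^ m) * e4

/-- a Haar part on the right, exact -/
theorem pair_right (hC : Stmt_TG5C) (hM5 : Stmt_M5) (hD : Stmt_TG5D)
    (hTg : HasD P g Y' false (tlF hs' crit' b'))
    (hEf : HasD P f Y true (exF hs crit ts)) (hTf : HasD P f Y false (tlF hs crit b))
    {h : HT} (hh : h ∈ hs') {i : HT ⊕ ℂ} (hi : i ∈ Itm hs crit)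
    {E : Type} [Finite E] {Q : Set (E ⊕ Bool → ℂ)} (hQ : QOk (Xs s) true Q) (m : ℕ) (hm : 1 ≤ m) :
    ((exI ts i).map fun G => G.κ m * h.tl.κ m * G.cl2 h.tl P (Q1 s Q)).sum +
      (tlI b i).κ m * h.ex.κ m * (tlI b i).cl2 h.ex P (Q2 s Q) +
      ((exI ts i).map fun G => G.κ m * h.ex.κ m * G.cl2 h.ex P (Q3 s Q)).sum +
      ∑ j ∈ Finset.Ico 1 m, xq ^ (m - j) *
        ((exI ts i).map fun G => G.κ j * h.ex.κ j * G.cl2 h.ex P (QC s (BQ Q))).sum =
      ((tlI b i).κ 0 * h.tl.κ 0) * xq ^ m * BC s P (tlI b i) h.tl (BQ Q) := by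
  obtain ⟨-, -, -, -, l1, l2, l3⟩ := hC s P
  have hH := hs_con hTg hh
  have hB := con_BQ hQ.1
  obtain ⟨-, d1, -, d3, -⟩ := hD s P (E ⊕ Unit) (BQ Q) hB
  set Z : Fam2 → K := fun G => BC s P G h.tl (BQ Q) with hZ
  have e1 : (tlI b i).cl2 h.ex P (Q2 s Q) = Z (tlI b i) :=
    l1 _ h (tl_con hTf hi) hH E Q hQ
  have e2 : ((exI ts i).map fun G => G.κ m * h.tl.κ m * G.cl2 h.tl P (Q1 s Q)).sum +
      ((exI ts i).map fun G => G.κ m * h.ex.κ m * G.cl2 h.ex P (Q3 s Q)).sum =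
      h.lam * xq ^ m * ((exI ts i).map fun G => G.κ m * Z G).sum := by
    rw [← lsum_add, ← lsum_mul]
    apply lsum_congr
    intro G hG
    have h1 : G.cl2 h.tl P (Q1 s Q) + G.cl2 h.ex P (Q3 s Q) = Z G :=
      l2 G h (ex_ok hEf hi hG) hH E Q hQ
    have h2 : h.tl.κ m = h.lam * xq ^ m := rfl
    have h3 : h.ex.κ m = h.lam * xq ^ m := rfl
    rw [h2, h3, ← h1]
    ring
  have e3 : ∑ j ∈ Finset.Ico 1 m, xq ^ (m - j) *
        ((exI ts i).map fun G => G.κ j * h.ex.κ j * G.cl2 h.ex P (QC s (BQ Q))).sum =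
      h.lam * xq ^ m * ∑ j ∈ Finset.Ico 1 m, ((exI ts i).map fun G => G.κ j * Z G).sum := by
    rw [Finset.mul_sum]
    refine Finset.sum_congr rfl fun j hj => ?_
    rw [Finset.mem_Ico] at hj
    rw [← lsum_mul, ← lsum_mul]
    apply lsum_congr
    intro G hG
    have h1 : G.cl2 h.ex P (QC s (BQ Q)) = Z G :=
      l3 G h (ex_ok hEf hi hG) hH (E ⊕ Unit) (BQ Q) hB (BQ_Xs hQ)
    have h3 : h.ex.κ j = h.lam * xq ^ j := rfl
    rw [h3, h1, ← xq_split (show j ≤ m by omega)]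
    ring
  have e4 := item_mass hM5 hEf hTf i hi Z (fun h' hh' => d1 h' h.tl hH (hs_con hTf hh'))
    (fun c hc t ht => d3 t h.tl c (b c) hH (hEf.1 _ (mem_exF_c hc ht)).1) m
  rw [sum_Icc_last m hm] at e4
  have h3 : h.ex.κ m = h.lam * xq ^ m := rfl
  have h4 : h.tl.κ 0 = h.lam * xq ^ 0 := rfl
  rw [e3, e1, h4, pow_zero, mul_one, h3]
  rw [h3] at e2
  linear_combination e2 + (h.lam * xq ^ m) * e4

/-- a Haar part on the left, tail -/
theorem tail_left (hC : Stmt_TG5C) (hM5 : Stmt_M5) (hD : Stmt_TG5D)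
    (hTf : HasD P f Y false (tlF hs crit b))
    (hEg : HasD P g Y' true (exF hs' crit' ts')) (hTg : HasD P g Y' false (tlF hs' crit' b'))
    {h : HT} (hh : h ∈ hs) {i' : HT ⊕ ℂ} (hi' : i' ∈ Itm hs' crit')
    {E : Type} [Finite E] {Q : Set (E ⊕ Bool → ℂ)} (hQ : QOk (Xs s) false Q) (m : ℕ) :
    h.tl.κ m * (tlI b' i').κ m * BC s P h.tl (tlI b' i') (BT Q) +
      ∑ j ∈ Finset.Icc 1 m, xq ^ (m - j) *
        ((exI ts' i').map fun G' => h.ex.κ j * G'.κ j * h.ex.cl2 G' P (QC s (BT Q))).sum =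
      (h.tl.κ 0 * (tlI b' i').κ 0) * xq ^ m * BC s P h.tl (tlI b' i') (BT Q) := by
  obtain ⟨-, l1, l2, l3, -⟩ := hC s P
  have hH := hs_con hTf hh
  have hB := con_BT hQ.1
  obtain ⟨d1, -, d3, -⟩ := hD s P E (BT Q) hB
  set Z : Fam2 → K := fun G' => BC s P h.tl G' (BT Q) with hZ
  have e3 : ∑ j ∈ Finset.Icc 1 m, xq ^ (m - j) *
        ((exI ts' i').map fun G' => h.ex.κ j * G'.κ j * h.ex.cl2 G' P (QC s (BT Q))).sum =
      h.lam * xq ^ m * ∑ j ∈ Finset.Icc 1 m, ((exI ts' i').map fun G' => G'.κ j * Z G').sum := by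
    rw [Finset.mul_sum]
    refine Finset.sum_congr rfl fun j hj => ?_
    rw [Finset.mem_Icc] at hj
    rw [← lsum_mul, ← lsum_mul]
    apply lsum_congr
    intro G' hG'
    have h1 : h.ex.cl2 G' P (QC s (BT Q)) = Z G' :=
      l3 h G' hH (ex_ok hEg hi' hG') E (BT Q) hB (BT_Xs hQ)
    have h3 : h.ex.κ j = h.lam * xq ^ j := rfl
    rw [h3, h1, ← xq_split hj.2]
    ring
  have e4 := item_mass hM5 hEg hTg i' hi' Z (fun h' hh' => d1 h.tl h' hH (hs_con hTg hh'))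
    (fun c' hc' t' ht' => d3 h.tl t' c' (b' c') hH (hEg.1 _ (mem_exF_c hc' ht')).1) m
  rw [e3]
  have h3 : h.tl.κ m = h.lam * xq ^ m := rfl
  have h4 : h.tl.κ 0 = h.lam * xq ^ 0 := rfl
  rw [h3, h4, pow_zero, mul_one]
  linear_combination (h.lam * xq ^ m) * e4

/-- a Haar part on the right, tail -/
theorem tail_right (hC : Stmt_TG5C) (hM5 : Stmt_M5) (hD : Stmt_TG5D)
    (hTg : HasD P g Y' false (tlF hs' crit' b'))
    (hEf : HasD P f Y true (exF hs crit ts)) (hTf : HasD P f Y false (tlF hs crit b))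
    {h : HT} (hh : h ∈ hs') {i : HT ⊕ ℂ} (hi : i ∈ Itm hs crit)
    {E : Type} [Finite E] {Q : Set (E ⊕ Bool → ℂ)} (hQ : QOk (Xs s) false Q) (m : ℕ) :
    (tlI b i).κ m * h.tl.κ m * BC s P (tlI b i) h.tl (BT Q) +
      ∑ j ∈ Finset.Icc 1 m, xq ^ (m - j) *
        ((exI ts i).map fun G => G.κ j * h.ex.κ j * G.cl2 h.ex P (QC s (BT Q))).sum =
      ((tlI b i).κ 0 * h.tl.κ 0) * xq ^ m * BC s P (tlI b i) h.tl (BT Q) := by
  obtain ⟨-, -, -, -, l1, l2, l3⟩ := hC s P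
  have hH := hs_con hTg hh
  have hB := con_BT hQ.1
  obtain ⟨-, d1, -, d3, -⟩ := hD s P E (BT Q) hB
  set Z : Fam2 → K := fun G => BC s P G h.tl (BT Q) with hZ
  have e3 : ∑ j ∈ Finset.Icc 1 m, xq ^ (m - j) *
        ((exI ts i).map fun G => G.κ j * h.ex.κ j * G.cl2 h.ex P (QC s (BT Q))).sum =
      h.lam * xq ^ m * ∑ j ∈ Finset.Icc 1 m, ((exI ts i).map fun G => G.κ j * Z G).sum := by
    rw [Finset.mul_sum]
    refine Finset.sum_congr rfl fun j hj => ?_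
    rw [Finset.mem_Icc] at hj
    rw [← lsum_mul, ← lsum_mul]
    apply lsum_congr
    intro G hG
    have h1 : G.cl2 h.ex P (QC s (BT Q)) = Z G :=
      l3 G h (ex_ok hEf hi hG) hH E (BT Q) hB (BT_Xs hQ)
    have h3 : h.ex.κ j = h.lam * xq ^ j := rfl
    rw [h3, h1, ← xq_split hj.2]
    ring
  have e4 := item_mass hM5 hEf hTf i hi Z (fun h' hh' => d1 h' h.tl hH (hs_con hTf hh'))
    (fun c hc t ht => d3 t h.tl c (b c) hH (hEf.1 _ (mem_exF_c hc ht)).1) m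
  rw [e3]
  have h3 : h.tl.κ m = h.lam * xq ^ m := rfl
  have h4 : h.tl.κ 0 = h.lam * xq ^ 0 := rfl
  rw [h3, h4, pow_zero, mul_one]
  linear_combination (h.lam * xq ^ m) * e4

end

end TG5Aux

end Pool.Agent.Mono.RO
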