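import Pool.Agent.Work.Monodromy5.TG5G

/-!
# Block TG5, part H: pairs of critical values, all pairs
-/

set_option autoImplicit false
set_option linter.unusedSectionVars false

namespace Pool.Agent.Mono.RO

open MvPolynomial TS TS.VAAux M5Aux

namespace TG5Aux

section

variable {s : Bool} {P : HodgeMeasure} {ι κ : Type} [Fintype ι] [Fintype κ]
  {f : MvPolynomial ι ℂ} {g : MvPolynomial κ ℂ} {Y Y' : Set ℂ}
  {hs hs' : List HT} {crit crit' : Finset ℂ} {ts ts' : ℂ → List Fam} {b b' : ℂ → ℕ → K}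
  (a : ℂ → ℂ → K)

theorem atv_ok (hE : HasD P f Y true (exF hs crit ts)) {c : ℂ} (hc : c ∈ crit) {t : Fam}
    (ht : t ∈ ts c) : Constructible t.S ∧ ∀ τ ∈ t.S, eval τ t.u ≠ 0 := by
  obtain ⟨h1, h2⟩ := hE.1 _ (mem_exF_c hc ht)
  exact ⟨h1, fun τ hτ => (h2 τ hτ).2 rfl⟩

theorem sum_QC (hD : Stmt_TG5D) (hEf : HasD P f Y true (exF hs crit ts))
    (hEg : HasD P g Y' true (exF hs' crit' ts')) {c c' : ℂ} (hc : c ∈ crit) (hc' : c' ∈ crit')
    {E : Type} [Finite E] {B : Set (E ⊕ Unit → ℂ)} (hB : Constructible B) (j : ℕ) (hj : 1 ≤ j) :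
    DS (exI ts (Sum.inr c)) (exI ts' (Sum.inr c'))
      (fun G G' => G.κ j * G'.κ j * G.cl2 G' P (QC s B)) =
      KK s P ts ts' c c' j * BC s P (ptv c (b c)) (ptv c' (b' c')) B := by
  obtain ⟨-, -, -, -, d5⟩ := hD s P E B hB
  unfold KK exI
  rw [if_neg (by omega), DS_map_left, DS_map_right, mul_comm, ← DS_mul]
  apply DS_congr
  intro t ht t' ht'
  obtain ⟨h1, h2⟩ := atv_ok hEf hc ht
  obtain ⟨h1', h2'⟩ := atv_ok hEg hc' ht'
  rw [d5 t t' c c' (b c) (b' c') h1 h1' h2 h2']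
  change t.κ j * t'.κ j * _ = _
  ring

/-- two critical values, exact -/
theorem pair_cc (hD : Stmt_TG5D) (hEf : HasD P f Y true (exF hs crit ts))
    (hEg : HasD P g Y' true (exF hs' crit' ts')) {c c' : ℂ} (hc : c ∈ crit) (hc' : c' ∈ crit')
    {E : Type} [Finite E] {Q : Set (E ⊕ Bool → ℂ)} (hQ : QOk (Xs s) true Q) (m : ℕ) :
    ((exI ts (Sum.inr c)).map fun G => G.κ m * (ptv c' (b' c')).κ m *
        G.cl2 (ptv c' (b' c')) P (Q1 s Q)).sum +
      ((exI ts' (Sum.inr c')).map fun G' => (ptv c (b c)).κ m * G'.κ m *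
        (ptv c (b c)).cl2 G' P (Q2 s Q)).sum +
      DS (exI ts (Sum.inr c)) (exI ts' (Sum.inr c'))
        (fun G G' => G.κ m * G'.κ m * G.cl2 G' P (Q3 s Q)) +
      ∑ j ∈ Finset.Ico 1 m, xq ^ (m - j) * DS (exI ts (Sum.inr c)) (exI ts' (Sum.inr c'))
        (fun G G' => G.κ j * G'.κ j * G.cl2 G' P (QC s (BQ Q))) =
      a c c' * xq ^ m * BC s P (ptv c (b c)) (ptv c' (b' c')) (BQ Q) +
        ((LLc s P ts ts' b b' a c c').map fun x => x.2.κ m * (atv x.2 x.1).cl P Q).sum := by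
  have hB := con_BQ hQ.1
  set Z : K := BC s P (ptv c (b c)) (ptv c' (b' c')) (BQ Q) with hZ
  have e1 : ((exI ts (Sum.inr c)).map fun G => G.κ m * (ptv c' (b' c')).κ m *
        G.cl2 (ptv c' (b' c')) P (Q1 s Q)).sum =
      (((ts c).map fun t => ((gv s c c', A1 s c c' t fun m => t.κ m * b' c' m) : ℂ × Fam)).map
        fun x => x.2.κ m * (atv x.2 x.1).cl P Q).sum := by
    unfold exI
    rw [List.map_map, List.map_map]
    apply lsum_congr
    intro t ht
    obtain ⟨h1, h2⟩ := atv_ok hEf hc ht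
    simp only [Function.comp_def]
    rw [cl_A1 s P hQ.1 c c' t (fun m => t.κ m * b' c' m) (b' c') h1 h2]
    rfl
  have e2 : ((exI ts' (Sum.inr c')).map fun G' => (ptv c (b c)).κ m * G'.κ m *
        (ptv c (b c)).cl2 G' P (Q2 s Q)).sum =
      (((ts' c').map fun t' => ((gv s c c', A2 s c c' t' fun m => b c m * t'.κ m) :
        ℂ × Fam)).map fun x => x.2.κ m * (atv x.2 x.1).cl P Q).sum := by
    unfold exI
    rw [List.map_map, List.map_map]
    apply lsum_congr
    intro t' ht'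
    obtain ⟨h1, h2⟩ := atv_ok hEg hc' ht'
    simp only [Function.comp_def]
    rw [cl_A2 s P hQ.1 c c' t' (fun m => b c m * t'.κ m) (b c) h1 h2]
    rfl
  have e3 : DS (exI ts (Sum.inr c)) (exI ts' (Sum.inr c'))
        (fun G G' => G.κ m * G'.κ m * G.cl2 G' P (Q3 s Q)) =
      (((ts c).flatMap fun t => (ts' c').map fun t' =>
        ((gv s c c', A3 s c c' t t' fun m => t.κ m * t'.κ m) : ℂ × Fam)).map
          fun x => x.2.κ m * (atv x.2 x.1).cl P Q).sum := by
    rw [sum_pairs]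
    unfold exI
    rw [DS_map_left, DS_map_right]
    apply DS_congr
    intro t ht t' ht'
    obtain ⟨h1, h2⟩ := atv_ok hEf hc ht
    obtain ⟨h1', h2'⟩ := atv_ok hEg hc' ht'
    rw [cl_A3 s P hQ c c' t t' (fun m => t.κ m * t'.κ m) h2 h2']
    rfl
  have e4 : ∑ j ∈ Finset.Ico 1 m, xq ^ (m - j) * DS (exI ts (Sum.inr c)) (exI ts' (Sum.inr c'))
        (fun G G' => G.κ j * G'.κ j * G.cl2 G' P (QC s (BQ Q))) =
      a c c' * xq ^ m * Z + ((([(gv s c c', A4 (seqN s P ts ts' a c c'))] : List (ℂ × Fam))).map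
        fun x => x.2.κ m * (atv x.2 x.1).cl P Q).sum := by
    have h1 : ∑ j ∈ Finset.Ico 1 m, xq ^ (m - j) *
        DS (exI ts (Sum.inr c)) (exI ts' (Sum.inr c'))
        (fun G G' => G.κ j * G'.κ j * G.cl2 G' P (QC s (BQ Q))) =
        (∑ j ∈ Finset.Ico 1 m, KK s P ts ts' c c' j * xq ^ (m - j)) * Z := by
      rw [Finset.sum_mul]
      refine Finset.sum_congr rfl fun j hj => ?_
      rw [Finset.mem_Ico] at hj
      rw [sum_QC (b := b) (b' := b') hD hEf hEg hc hc' hB j hj.1]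
      ring
    rw [h1]
    simp only [List.map_cons, List.map_nil, List.sum_cons, List.sum_nil, add_zero]
    rw [← cl_A4 s P hQ c c' (seqN s P ts ts' a c c') (b c) (b' c')]
    change _ = a c c' * xq ^ m * Z + seqN s P ts ts' a c c' m * Z
    unfold seqN
    rw [sum_range_Ico m _ (by unfold KK; rw [if_pos rfl, zero_mul])]
    ring
  rw [e1, e2, e3, e4]
  unfold LLc
  rw [List.map_append, List.map_append, List.map_append, List.sum_append, List.sum_append,
    List.sum_append]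
  ring

/-- two critical values, tail -/
theorem tail_cc (hD : Stmt_TG5D) (hEf : HasD P f Y true (exF hs crit ts))
    (hEg : HasD P g Y' true (exF hs' crit' ts')) {c c' : ℂ} (hc : c ∈ crit) (hc' : c' ∈ crit')
    {E : Type} [Finite E] {Q : Set (E ⊕ Bool → ℂ)} (hQ : QOk (Xs s) false Q) (m : ℕ) :
    (ptv c (b c)).κ m * (ptv c' (b' c')).κ m *
        BC s P (ptv c (b c)) (ptv c' (b' c')) (BT Q) +
      ∑ j ∈ Finset.Icc 1 m, xq ^ (m - j) * DS (exI ts (Sum.inr c)) (exI ts' (Sum.inr c'))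
        (fun G G' => G.κ j * G'.κ j * G.cl2 G' P (QC s (BT Q))) =
      a c c' * xq ^ m * BC s P (ptv c (b c)) (ptv c' (b' c')) (BT Q) +
        (([(gv s c c', fun m => b c m * b' c' m + (KK s P ts ts' c c' m +
          seqN s P ts ts' a c c' m))] : List (ℂ × (ℕ → K))).map
            fun x => x.2 m * (ptv x.1 x.2).cl P Q).sum := by
  have hB := con_BT hQ.1
  set Z : K := BC s P (ptv c (b c)) (ptv c' (b' c')) (BT Q) with hZ
  have h1 : ∑ j ∈ Finset.Icc 1 m, xq ^ (m - j) *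
      DS (exI ts (Sum.inr c)) (exI ts' (Sum.inr c'))
      (fun G G' => G.κ j * G'.κ j * G.cl2 G' P (QC s (BT Q))) =
      (∑ j ∈ Finset.Icc 1 m, KK s P ts ts' c c' j * xq ^ (m - j)) * Z := by
    rw [Finset.sum_mul]
    refine Finset.sum_congr rfl fun j hj => ?_
    rw [Finset.mem_Icc] at hj
    rw [sum_QC (b := b) (b' := b') hD hEf hEg hc hc' hB j hj.1]
    ring
  have hK0 : KK s P ts ts' c c' 0 = 0 := if_pos rfl
  have h2 : ∑ j ∈ Finset.Icc 1 m, KK s P ts ts' c c' j * xq ^ (m - j) =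
      ∑ j ∈ Finset.range m, KK s P ts ts' c c' j * xq ^ (m - j) + KK s P ts ts' c c' m := by
    rcases Nat.eq_zero_or_pos m with hm | hm
    · subst hm
      simp [hK0]
    · rw [sum_Icc_last m hm, sum_range_Ico m _ (by rw [hK0, zero_mul]), Nat.sub_self, pow_zero,
        mul_one]
  rw [h1, h2]
  simp only [List.map_cons, List.map_nil, List.sum_cons, List.sum_nil, add_zero]
  rw [← cl_A5 s P hQ.1 c c' _ (b c) (b' c')]
  change b c m * b' c' m * Z + _ = a c c' * xq ^ m * Z + _ * Z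
  unfold seqN
  ring

/-- all pairs, exact -/
theorem pair_all (hC : Stmt_TG5C) (hM5 : Stmt_M5) (hD : Stmt_TG5D)
    (hEf : HasD P f Y true (exF hs crit ts)) (hTf : HasD P f Y false (tlF hs crit b))
    (hEg : HasD P g Y' true (exF hs' crit' ts')) (hTg : HasD P g Y' false (tlF hs' crit' b'))
    {i : HT ⊕ ℂ} (hi : i ∈ Itm hs crit) {i' : HT ⊕ ℂ} (hi' : i' ∈ Itm hs' crit')
    {E : Type} [Finite E] {Q : Set (E ⊕ Bool → ℂ)} (hQ : QOk (Xs s) true Q) (m : ℕ) (hm : 1 ≤ m) :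
    ((exI ts i).map fun G => G.κ m * (tlI b' i').κ m * G.cl2 (tlI b' i') P (Q1 s Q)).sum +
      ((exI ts' i').map fun G' => (tlI b i).κ m * G'.κ m * (tlI b i).cl2 G' P (Q2 s Q)).sum +
      DS (exI ts i) (exI ts' i') (fun G G' => G.κ m * G'.κ m * G.cl2 G' P (Q3 s Q)) +
      ∑ j ∈ Finset.Ico 1 m, xq ^ (m - j) * DS (exI ts i) (exI ts' i')
        (fun G G' => G.κ j * G'.κ j * G.cl2 G' P (QC s (BQ Q))) =
      lamN b b' a i i' * xq ^ m * BC s P (tlI b i) (tlI b' i') (BQ Q) +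
        ((LL s P ts ts' b b' a i i').map fun x => x.2.κ m * (atv x.2 x.1).cl P Q).sum := by
  rcases i with h | c
  · have h1 := pair_left (s := s) hC hM5 hD hTf hEg hTg (mem_hs hi) hi' hQ m hm
    have h2 : LL s P ts ts' b b' a (Sum.inl h) i' = [] := rfl
    rw [h2, List.map_nil, List.sum_nil, add_zero]
    have h3 : lamN b b' a (Sum.inl h) i' = h.tl.κ 0 * (tlI b' i').κ 0 := rfl
    rw [h3]
    refine Eq.trans ?_ h1
    simp only [exI, tlI, DS, List.map_cons, List.map_nil, List.sum_cons, List.sum_nil, add_zero]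
  · rcases i' with h' | c'
    · have h1 := pair_right (s := s) hC hM5 hD hTg hEf hTf (mem_hs hi') hi hQ m hm
      have h2 : LL s P ts ts' b b' a (Sum.inr c) (Sum.inl h') = [] := rfl
      rw [h2, List.map_nil, List.sum_nil, add_zero]
      have h3 : lamN b b' a (Sum.inr c) (Sum.inl h') = (tlI b (Sum.inr c)).κ 0 * h'.tl.κ 0 := rfl
      rw [h3]
      refine Eq.trans ?_ h1
      simp only [exI, tlI, DS, List.map_cons, List.map_nil, List.sum_cons, List.sum_nil, add_zero]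
    · exact pair_cc a hD hEf hEg (mem_crit hi) (mem_crit hi') hQ m

/-- all pairs, tail -/
theorem tail_all (hC : Stmt_TG5C) (hM5 : Stmt_M5) (hD : Stmt_TG5D)
    (hEf : HasD P f Y true (exF hs crit ts)) (hTf : HasD P f Y false (tlF hs crit b))
    (hEg : HasD P g Y' true (exF hs' crit' ts')) (hTg : HasD P g Y' false (tlF hs' crit' b'))
    {i : HT ⊕ ℂ} (hi : i ∈ Itm hs crit) {i' : HT ⊕ ℂ} (hi' : i' ∈ Itm hs' crit')
    {E : Type} [Finite E] {Q : Set (E ⊕ Bool → ℂ)} (hQ : QOk (Xs s) false Q) (m : ℕ) :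
    (tlI b i).κ m * (tlI b' i').κ m * BC s P (tlI b i) (tlI b' i') (BT Q) +
      ∑ j ∈ Finset.Icc 1 m, xq ^ (m - j) * DS (exI ts i) (exI ts' i')
        (fun G G' => G.κ j * G'.κ j * G.cl2 G' P (QC s (BT Q))) =
      lamN b b' a i i' * xq ^ m * BC s P (tlI b i) (tlI b' i') (BT Q) +
        ((LL' s P ts ts' b b' a i i').map fun x => x.2 m * (ptv x.1 x.2).cl P Q).sum := by
  rcases i with h | c
  · have h1 := tail_left (s := s) hC hM5 hD hTf hEg hTg (mem_hs hi) hi' hQ m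
    have h2 : LL' s P ts ts' b b' a (Sum.inl h) i' = [] := rfl
    rw [h2, List.map_nil, List.sum_nil, add_zero]
    have h3 : lamN b b' a (Sum.inl h) i' = h.tl.κ 0 * (tlI b' i').κ 0 := rfl
    rw [h3]
    refine Eq.trans ?_ h1
    simp only [exI, tlI, DS, List.map_cons, List.map_nil, List.sum_cons, List.sum_nil, add_zero]
  · rcases i' with h' | c'
    · have h1 := tail_right (s := s) hC hM5 hD hTg hEf hTf (mem_hs hi') hi hQ m
      have h2 : LL' s P ts ts' b b' a (Sum.inr c) (Sum.inl h') = [] := rfl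
      rw [h2, List.map_nil, List.sum_nil, add_zero]
      have h3 : lamN b b' a (Sum.inr c) (Sum.inl h') = (tlI b (Sum.inr c)).κ 0 * h'.tl.κ 0 := rfl
      rw [h3]
      refine Eq.trans ?_ h1
      simp only [exI, tlI, DS, List.map_cons, List.map_nil, List.sum_cons, List.sum_nil, add_zero]
    · exact tail_cc a hD hEf hEg (mem_crit hi) (mem_crit hi') hQ m

end

end TG5Aux

end Pool.Agent.Mono.RO
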