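import Pool.Agent.Work.Monodromy5.VGB

/-!
# The parameter sets of the blocks VGE and VGT
-/

set_option autoImplicit false
set_option linter.unusedSectionVars false

namespace Pool.Agent.Mono.RO

open MvPolynomial TS

namespace VGAux

section

variable {E ι κ : Type}

/-! ## Constructible sets -/

theorem con_Q {σ : Type} {Q : Set (E ⊕ Bool → ℂ)} (hQ : Constructible Q) (r : E → σ)
    (A B : MvPolynomial σ ℂ) :
    Constructible {z : σ → ℂ | Sum.elim (fun p => z (r p))
      (fun b : Bool => if b then eval z A else eval z B) ∈ Q} := by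
  have h := Constructible.preimage (Sum.elim (fun p => X (r p))
    (fun b : Bool => if b then A else B)) hQ
  convert h using 2
  ext z
  have e : (fun j => eval z (Sum.elim (fun p => X (r p))
    (fun b : Bool => if b then A else B) j)) = Sum.elim (fun p => z (r p))
      (fun b : Bool => if b then eval z A else eval z B) := by
    funext j
    rcases j with j | _ | _ <;> simp
  rw [e]

noncomputable def gvP (E : Type) (s : Bool) : MvPolynomial (E ⊕ Fin 4) ℂ :=
  if s then X (Sum.inr 0) + X (Sum.inr 2) else X (Sum.inr 0) * X (Sum.inr 2)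

noncomputable def alP (E : Type) (s : Bool) : MvPolynomial (E ⊕ Fin 4) ℂ :=
  if s then 1 else X (Sum.inr 2)

noncomputable def beP (E : Type) (s : Bool) : MvPolynomial (E ⊕ Fin 4) ℂ :=
  if s then 1 else X (Sum.inr 0)

theorem eval_gvP (s : Bool) (z : E ⊕ Fin 4 → ℂ) :
    gv s (z (Sum.inr 0)) (z (Sum.inr 2)) = eval z (gvP E s) := by
  rcases s with _ | _ <;> simp [gvP, gv]

theorem eval_alP (s : Bool) (z : E ⊕ Fin 4 → ℂ) :
    al s (z (Sum.inr 0)) (z (Sum.inr 2)) = eval z (alP E s) := by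
  rcases s with _ | _ <;> simp [alP, al]

theorem eval_beP (s : Bool) (z : E ⊕ Fin 4 → ℂ) :
    be s (z (Sum.inr 0)) (z (Sum.inr 2)) = eval z (beP E s) := by
  rcases s with _ | _ <;> simp [beP, be]

theorem con_Q1 (s : Bool) {Q : Set (E ⊕ Bool → ℂ)} (hQ : Constructible Q) :
    Constructible (Q1 s Q) := by
  have h := Constructible.and (Constructible.ne (X (Sum.inr 1) : MvPolynomial (E ⊕ Fin 4) ℂ))
    (con_Q hQ Sum.inl (gvP E s) (alP E s * X (Sum.inr 1)))
  simp only [eval_X, map_mul, ← eval_gvP, ← eval_alP] at h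
  exact h

theorem con_Q2 (s : Bool) {Q : Set (E ⊕ Bool → ℂ)} (hQ : Constructible Q) :
    Constructible (Q2 s Q) := by
  have h := Constructible.and (Constructible.ne (X (Sum.inr 3) : MvPolynomial (E ⊕ Fin 4) ℂ))
    (con_Q hQ Sum.inl (gvP E s) (beP E s * X (Sum.inr 3)))
  simp only [eval_X, map_mul, ← eval_gvP, ← eval_beP] at h
  exact h

theorem con_Q3 (s : Bool) {Q : Set (E ⊕ Bool → ℂ)} (hQ : Constructible Q) :
    Constructible (Q3 s Q) := by
  have h := Constructible.and (Constructible.ne (X (Sum.inr 1) : MvPolynomial (E ⊕ Fin 4) ℂ))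
    (Constructible.and (Constructible.ne (X (Sum.inr 3) : MvPolynomial (E ⊕ Fin 4) ℂ))
    (con_Q hQ Sum.inl (gvP E s) (alP E s * X (Sum.inr 1) + beP E s * X (Sum.inr 3))))
  simp only [eval_X, map_mul, map_add, ← eval_gvP, ← eval_alP, ← eval_beP] at h
  exact h

theorem con_Q4 (s : Bool) {Q : Set (E ⊕ Bool → ℂ)} (hQ : Constructible Q) :
    Constructible (Q4 s Q) := by
  have h := Constructible.and
    (Constructible.ne (X (Sum.inr 1) : MvPolynomial ((E ⊕ Unit) ⊕ Fin 4) ℂ))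
    (Constructible.and (Constructible.ne (X (Sum.inr 3) : MvPolynomial ((E ⊕ Unit) ⊕ Fin 4) ℂ))
    (Constructible.and (Constructible.zero (alP (E ⊕ Unit) s * X (Sum.inr 1) +
      beP (E ⊕ Unit) s * X (Sum.inr 3)))
    (con_Q hQ (fun p => Sum.inl (Sum.inl p)) (gvP (E ⊕ Unit) s) (X (Sum.inl (Sum.inr ()))))))
  simp only [eval_X, map_mul, map_add, ← eval_gvP, ← eval_alP, ← eval_beP] at h
  exact h

theorem con_Q5 (s : Bool) {Q : Set (E ⊕ Bool → ℂ)} (hQ : Constructible Q) :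
    Constructible (Q5 s Q) := by
  have h := con_Q hQ Sum.inl (gvP E s) 0
  simp only [map_zero, ← eval_gvP] at h
  exact h

theorem con_Q6 (s : Bool) {Q : Set (E ⊕ Bool → ℂ)} (hQ : Constructible Q) :
    Constructible (Q6 s Q) := by
  have h := Constructible.and
    (Constructible.ne (X (Sum.inr 1) : MvPolynomial (E ⊕ Fin 4) ℂ))
    (Constructible.and (Constructible.ne (X (Sum.inr 3) : MvPolynomial (E ⊕ Fin 4) ℂ))
    (Constructible.and (Constructible.zero (alP E s * X (Sum.inr 1) + beP E s * X (Sum.inr 3)))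
    (con_Q hQ Sum.inl (gvP E s) 0)))
  simp only [eval_X, map_mul, map_add, map_zero, ← eval_gvP, ← eval_alP, ← eval_beP] at h
  exact h

/-! ## Cylinders -/

variable [Fintype ι] [Fintype κ]

/-- the conditions on `g(y)` -/
def CC (g : MvPolynomial κ ℂ) (w : Bool) (Q : Set (E ⊕ Fin 4 → ℂ)) (j : ℕ) :
    Set ((E ⊕ Bool → ℂ) × (κ → PowerSeries ℂ)) :=
  {u | cut w j (aeval u.2 g) ∧ Sum.elim (fun e => u.1 (Sum.inl e))
    ![u.1 (Sum.inr true), u.1 (Sum.inr false), PowerSeries.coeff 0 (aeval u.2 g),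
      ldc w j (aeval u.2 g)] ∈ Q}

theorem Sx_CC (f : MvPolynomial ι ℂ) (g : MvPolynomial κ ℂ) (w : Bool)
    (Q : Set (E ⊕ Fin 4 → ℂ)) (i j : ℕ) : VGAux.Sx f (CC g w Q j) i = DD f g true w Q i j := rfl

theorem RF.ldc {φ : (E → ℂ) × (ι → PowerSeries ℂ) → PowerSeries ℂ}
    (h : ∀ l, RF fun z => PowerSeries.coeff l (φ z)) (w : Bool) (i : ℕ) :
    RF fun z => ldc w i (φ z) := RF.ite (w = true) (h i) (RF.const 0)

theorem Cy.CC [Finite E] (g : MvPolynomial κ ℂ) (w : Bool) {Q : Set (E ⊕ Fin 4 → ℂ)}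
    (hQ : Constructible Q) (j : ℕ) : Cy (CC g w Q j) := by
  refine Cy.and (Cy.cutH g w j) (Cy.mem hQ (φ := fun a u => Sum.elim (fun e => u.1 (Sum.inl e))
    ![u.1 (Sum.inr true), u.1 (Sum.inr false), PowerSeries.coeff 0 (aeval u.2 g),
      RO.ldc w j (aeval u.2 g)] a) ?_)
  rintro (e | a)
  · exact RF.par _
  · fin_cases a
    · exact RF.par _
    · exact RF.par _
    · exact RF.coef g 0
    · exact RF.ldc (RF.coef g) w j

theorem Cy.DD [Finite E] (f : MvPolynomial ι ℂ) (g : MvPolynomial κ ℂ) (w w' : Bool)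
    {Q : Set (E ⊕ Fin 4 → ℂ)} (hQ : Constructible Q) (i j : ℕ) : Cy (DD f g w w' Q i j) := by
  refine Cy.and (Cy.cutL f w i) (Cy.and (Cy.cutR g w' j) (Cy.mem hQ (φ := fun a z =>
    Sum.elim z.1 ![PowerSeries.coeff 0 (aeval (fun a => z.2 (Sum.inl a)) f),
      RO.ldc w i (aeval (fun a => z.2 (Sum.inl a)) f),
      PowerSeries.coeff 0 (aeval (fun a => z.2 (Sum.inr a)) g),
      RO.ldc w' j (aeval (fun a => z.2 (Sum.inr a)) g)] a) ?_))
  rintro (e | a)
  · exact RF.par _
  · fin_cases a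
    · exact RF.coefL f 0
    · exact RF.ldc (RF.coefL f) w i
    · exact RF.coefR g 0
    · exact RF.ldc (RF.coefR g) w' j

theorem Cy.SD [Finite E] (H : MvPolynomial ι ℂ) (w : Bool) {Q : Set (E ⊕ Bool → ℂ)}
    (hQ : Constructible Q) (m : ℕ) : Cy (SD H w Q m) := by
  refine Cy.and (Cy.cutH H w m) (Cy.mem hQ (φ := fun a z =>
    Sum.elim z.1 (dat w m (aeval z.2 H)) a) ?_)
  rintro (e | a)
  · exact RF.par _
  · exact RF.ite (a = true) (RF.coef H 0) (RF.ldc (RF.coef H) w m)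

theorem Cy.PD [Finite E] (H : MvPolynomial ι ℂ) {Q : Set (E ⊕ Bool → ℂ)}
    (hQ : Constructible Q) (m e : ℕ) (A : ℕ → MvPolynomial (E ⊕ Bool) ℂ) : Cy (PD H Q m e A) := by
  refine Cy.and (Cy.SD H true hQ m) (Cy.all_lt e fun l _ => Cy.eq (RF.coef H _)
    (RF.eval (φ := fun a z => Sum.elim z.1 (dat true m (aeval z.2 H)) a) ?_ (A l)))
  rintro (e | a)
  · exact RF.par _
  · exact RF.ite (a = true) (RF.coef H 0) (RF.ldc (RF.coef H) true m)

/-! ## The first coefficients -/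

/-- all coefficients of index `1, …, i-1` vanish -/
theorem low (s : Bool) (f : MvPolynomial ι ℂ) (g : MvPolynomial κ ℂ)
    (z : ι ⊕ κ → PowerSeries ℂ) (i : ℕ)
    (hF : ∀ l, 1 ≤ l → l < i → PowerSeries.coeff l (aeval (fun a => z (Sum.inl a)) f) = 0)
    (n : ℕ) (hn : 1 ≤ n) (hni : n ≤ i) :
    PowerSeries.coeff n (aeval z (gp s f g)) =
      al s (PowerSeries.coeff 0 (aeval (fun a => z (Sum.inl a)) f))
        (PowerSeries.coeff 0 (aeval (fun a => z (Sum.inr a)) g)) *
          PowerSeries.coeff n (aeval (fun a => z (Sum.inl a)) f) +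
      be s (PowerSeries.coeff 0 (aeval (fun a => z (Sum.inl a)) f))
        (PowerSeries.coeff 0 (aeval (fun a => z (Sum.inr a)) g)) *
          PowerSeries.coeff n (aeval (fun a => z (Sum.inr a)) g) := by
  rw [coeff_gp s f g z n hn, Finset.sum_eq_zero, mul_zero, add_zero]
  intro a ha
  obtain ⟨h1, h2⟩ := Finset.mem_Ico.1 ha
  rw [hF a h1 (by omega), zero_mul]

theorem ne_of_Xs (s : Bool) (c c' : ℂ) (h : gv s c c' ∈ Xs s) :
    al s c c' ≠ 0 ∧ be s c c' ≠ 0 := by
  rcases s with _ | _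
  · simp only [Xs, gv, Bool.false_eq_true, if_false, Set.mem_ofPred_eq, false_or] at h
    exact ⟨by simpa [al] using right_ne_zero_of_mul h, by simpa [be] using left_ne_zero_of_mul h⟩
  · simp [al, be]

theorem order_eq {F : PowerSeries ℂ} {j j' : ℕ} (hj : 1 ≤ j) (hj' : 1 ≤ j')
    (h1 : cut true j F) (h2 : PowerSeries.coeff j F ≠ 0) (h3 : cut true j' F)
    (h4 : PowerSeries.coeff j' F ≠ 0) : j = j' := by
  rcases lt_trichotomy j j' with h | h | h
  · exact absurd (h3 j hj h) h2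
  · exact h
  · exact absurd (h1 j' hj' h) h4

end

end VGAux

end Pool.Agent.Mono.RO
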