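import Pool.Agent.Work.Monodromy5.VGA
import Pool.Agent.Work.Monodromy4.VP

/-!
# Tools for the blocks VZT and VZE (helper98)
-/

set_option autoImplicit false
set_option linter.unusedSectionVars false

namespace Pool.Agent.Mono.RO

open MvPolynomial TS

namespace VZAux

open VGAux TS.VPAux

section

variable {E ι κ : Type}

/-- power series with regular coefficients -/
def RS (s : (E → ℂ) × (ι → PowerSeries ℂ) → PowerSeries ℂ) : Prop :=
  ∀ l, RF fun z => PowerSeries.coeff l (s z)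

theorem RS.one [Fintype ι] (f : MvPolynomial ι ℂ) :
    RS fun z : (E → ℂ) × (ι → PowerSeries ℂ) => aeval z.2 f := fun l => RF.coef f l

theorem RS.left [Fintype ι] [Fintype κ] (f : MvPolynomial ι ℂ) :
    RS fun z : (E → ℂ) × (ι ⊕ κ → PowerSeries ℂ) => aeval (fun a => z.2 (Sum.inl a)) f := by
  intro l
  have h := RF.coef (E := E) (rename Sum.inl f : MvPolynomial (ι ⊕ κ) ℂ) l
  simp only [aeval_rename] at h
  exact h

theorem RS.right [Fintype ι] [Fintype κ] (g : MvPolynomial κ ℂ) :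
    RS fun z : (E → ℂ) × (ι ⊕ κ → PowerSeries ℂ) => aeval (fun a => z.2 (Sum.inr a)) g := by
  intro l
  have h := RF.coef (E := E) (rename Sum.inr g : MvPolynomial (ι ⊕ κ) ℂ) l
  simp only [aeval_rename] at h
  exact h

theorem RS.cut {s : (E → ℂ) × (ι → PowerSeries ℂ) → PowerSeries ℂ} (h : RS s) (w : Bool)
    (i : ℕ) : Cy {z | cut w i (s z)} := by
  have h1 := Cy.all_lt (if w then i else i + 1)
    (S := fun l z => 1 ≤ l → PowerSeries.coeff l (s z) = 0)
    fun l _ => Cy.imp fun _ => Cy.zero (h l)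
  convert h1 using 2
  ext z
  exact ⟨fun h l hl hl' => h l hl' hl, fun h l hl hl' => h l hl' hl⟩

theorem RS.ldc {s : (E → ℂ) × (ι → PowerSeries ℂ) → PowerSeries ℂ} (h : RS s) (w : Bool)
    (i : ℕ) : RF fun z => ldc w i (s z) := by
  rcases w with _ | _
  · exact RF.const 0
  · exact h i

theorem RF.fin4 {a b c d : (E → ℂ) × (ι → PowerSeries ℂ) → ℂ} (ha : RF a) (hb : RF b)
    (hc : RF c) (hd : RF d) (k : Fin 4) : RF fun z => (![a z, b z, c z, d z] : Fin 4 → ℂ) k := by
  fin_cases k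
  · exact ha
  · exact hb
  · exact hc
  · exact hd

/-- the sets of pairs are cylinders -/
theorem cy_DD [Finite E] [Fintype ι] [Fintype κ] (f : MvPolynomial ι ℂ) (g : MvPolynomial κ ℂ)
    (w w' : Bool) {Q : Set (E ⊕ Fin 4 → ℂ)} (hQ : Constructible Q) (i j : ℕ) :
    Cy (DD f g w w' Q i j) := by
  refine Cy.and ((RS.left f).cut w i) (Cy.and ((RS.right g).cut w' j) ?_)
  have h := Cy.mem (E' := E) (ι := ι ⊕ κ) hQ (φ := Sum.elim (fun e z => z.1 e) fun k z =>
    (![PowerSeries.coeff 0 (aeval (fun a => z.2 (Sum.inl a)) f),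
      ldc w i (aeval (fun a => z.2 (Sum.inl a)) f),
      PowerSeries.coeff 0 (aeval (fun a => z.2 (Sum.inr a)) g),
      ldc w' j (aeval (fun a => z.2 (Sum.inr a)) g)] : Fin 4 → ℂ) k) (by
    rintro (e | k)
    · exact RF.par e
    · exact RF.fin4 ((RS.left f) 0) ((RS.left f).ldc w i) ((RS.right g) 0)
        ((RS.right g).ldc w' j) k)
  convert h using 2
  ext z
  apply Eq.to_iff
  congr 1
  funext s
  rcases s with e | k <;> rfl

theorem cy_union {S T : Set ((E → ℂ) × (ι → PowerSeries ℂ))} (hS : Cy S) (hT : Cy T) :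
    Cy (S ∪ T) := by
  obtain ⟨N, hN⟩ := hS
  obtain ⟨N', hN'⟩ := hT
  exact ⟨max N N', fun M hM => (hN M (by omega)).union (hN' M (by omega))⟩

end

end VZAux

end Pool.Agent.Mono.RO
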