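import Pool.Agent.Work.Monodromy5.VZE
import Pool.Agent.Work.Monodromy5.VZA
import Pool.Agent.Work.Monodromy5.VGC
import Pool.Agent.Work.Monodromy5.TC5

/-!
# Tools for the blocks VCE and VCT (helper61): the coefficients of `p(f(x))`
-/

set_option autoImplicit false
set_option linter.unusedSectionVars false

namespace Pool.Agent.Mono.RO

open MvPolynomial TS VGAux

namespace VCAux

/-! ## Power series -/

theorem coeff_pow_congr {U V : PowerSeries ℂ} {n : ℕ}
    (h : ∀ l < n, PowerSeries.coeff l U = PowerSeries.coeff l V) (k : ℕ) :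
    ∀ l < n, PowerSeries.coeff l (U ^ k) = PowerSeries.coeff l (V ^ k) := by
  induction k with
  | zero => intro l _; simp
  | succ k ih =>
    intro l hl
    rw [pow_succ, pow_succ, PowerSeries.coeff_mul, PowerSeries.coeff_mul]
    refine Finset.sum_congr rfl fun q hq => ?_
    have hq' := Finset.HasAntidiagonal.mem_antidiagonal.1 hq
    rw [ih q.1 (by omega), h q.2 (by omega)]

theorem coeff_pow_lead {U V : PowerSeries ℂ} {n : ℕ} (hn : 1 ≤ n)
    (h : ∀ l < n, PowerSeries.coeff l U = PowerSeries.coeff l V) (k : ℕ) :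
    PowerSeries.coeff n (U ^ k) = PowerSeries.coeff n (V ^ k) +
      (k : ℂ) * PowerSeries.coeff 0 U ^ (k - 1) *
        (PowerSeries.coeff n U - PowerSeries.coeff n V) := by
  have hdvd : (PowerSeries.X : PowerSeries ℂ) ^ n ∣ U - V := by
    rw [PowerSeries.X_pow_dvd_iff]
    intro m hm
    rw [map_sub, h m hm, sub_self]
  obtain ⟨W, hW⟩ := hdvd
  have hU : U = V + PowerSeries.X ^ n * W := by rw [← hW]; ring
  have h0 : PowerSeries.coeff 0 U = PowerSeries.coeff 0 V := h 0 hn
  have hWn : PowerSeries.coeff n U - PowerSeries.coeff n V = PowerSeries.coeff 0 W := by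
    rw [← map_sub, hW, PowerSeries.coeff_X_pow_mul']
    simp
  obtain ⟨R, hR⟩ := Polynomial.powAddExpansion V (PowerSeries.X ^ n * W) k
  rw [hWn, h0, hU, hR, map_add, map_add]
  have e1 : PowerSeries.coeff n ((k : PowerSeries ℂ) * V ^ (k - 1) * (PowerSeries.X ^ n * W)) =
      (k : ℂ) * PowerSeries.coeff 0 V ^ (k - 1) * PowerSeries.coeff 0 W := by
    have : (k : PowerSeries ℂ) * V ^ (k - 1) * (PowerSeries.X ^ n * W) =
        PowerSeries.X ^ n * ((k : PowerSeries ℂ) * V ^ (k - 1) * W) := by ring
    rw [this, PowerSeries.coeff_X_pow_mul', if_pos le_rfl, Nat.sub_self]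
    simp
  have e2 : PowerSeries.coeff n (R * (PowerSeries.X ^ n * W) ^ 2) = 0 := by
    have : R * (PowerSeries.X ^ n * W) ^ 2 = PowerSeries.X ^ (n + n) * (R * W ^ 2) := by
      rw [pow_add]; ring
    rw [this, PowerSeries.coeff_X_pow_mul', if_neg (by omega)]
  rw [e1, e2, add_zero]

/-- the coefficients of `p(c + t^i U)` -/
theorem coeff_comp (p : Polynomial ℂ) (c : ℂ) (i : ℕ) (U : PowerSeries ℂ) (l : ℕ) :
    PowerSeries.coeff l (Polynomial.aeval (PowerSeries.C c + PowerSeries.X ^ i * U) p) =
      ∑ j ∈ Finset.range (p.natDegree + 1), (Polynomial.taylor c p).coeff j *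
        (if i * j ≤ l then PowerSeries.coeff (l - i * j) (U ^ j) else 0) := by
  have h1 : Polynomial.aeval (PowerSeries.C c + PowerSeries.X ^ i * U) p =
      Polynomial.aeval (PowerSeries.X ^ i * U) (Polynomial.taylor c p) := by
    rw [Polynomial.taylor_apply, Polynomial.aeval_comp]
    congr 1
    simp [add_comm]
  rw [h1, Polynomial.aeval_eq_sum_range, Polynomial.natDegree_taylor, map_sum]
  refine Finset.sum_congr rfl fun j _ => ?_
  rw [PowerSeries.coeff_smul, smul_eq_mul, mul_pow, ← pow_mul, PowerSeries.coeff_X_pow_mul']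

/-- the tail of `F` after the constant term -/
noncomputable def tl (i : ℕ) (F : PowerSeries ℂ) : PowerSeries ℂ :=
  PowerSeries.mk fun r => PowerSeries.coeff (i + r) F

theorem coeff_tl (i : ℕ) (F : PowerSeries ℂ) (r : ℕ) :
    PowerSeries.coeff r (tl i F) = PowerSeries.coeff (i + r) F := by
  rw [tl, PowerSeries.coeff_mk]

theorem eq_tl {F : PowerSeries ℂ} {i : ℕ} (hi : 1 ≤ i) (h : cut true i F) :
    F = PowerSeries.C (PowerSeries.coeff 0 F) + PowerSeries.X ^ i * tl i F := by
  ext l
  rw [map_add, PowerSeries.coeff_X_pow_mul', PowerSeries.coeff_C]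
  by_cases h1 : i ≤ l
  · rw [if_pos h1, coeff_tl, Nat.add_sub_cancel' h1, if_neg (by omega), zero_add]
  · rw [if_neg h1, add_zero]
    by_cases h2 : l = 0
    · rw [if_pos h2, h2]
    · rw [if_neg h2]
      exact h l (by omega) (by simpa using h1)

variable (p : Polynomial ℂ)

/-- coefficients of `p(F)` of small index -/
theorem low_comp {F : PowerSeries ℂ} {i k : ℕ} (hi : 1 ≤ i) (h : cut true i F)
    (hj : ∀ j, 1 ≤ j → j < k →
      (Polynomial.taylor (PowerSeries.coeff 0 F) p).coeff j = 0) (l : ℕ) (hl : 1 ≤ l)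
    (hl' : l < k * i) : PowerSeries.coeff l (Polynomial.aeval F p) = 0 := by
  conv_lhs => rw [eq_tl hi h]
  rw [coeff_comp]
  refine Finset.sum_eq_zero fun j _ => ?_
  rcases Nat.eq_zero_or_pos j with h1 | h1
  · subst h1
    rw [mul_zero, if_pos (Nat.zero_le _), pow_zero, Nat.sub_zero, PowerSeries.coeff_one,
      if_neg (by omega), mul_zero]
  · by_cases h2 : j < k
    · rw [hj j h1 h2, zero_mul]
    · rw [if_neg, mul_zero]
      have : k * i ≤ j * i := Nat.mul_le_mul_right i (by omega)
      rw [mul_comm i j]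
      omega

theorem lead_comp {F : PowerSeries ℂ} {i k : ℕ} (hi : 1 ≤ i) (hk : 1 ≤ k) (h : cut true i F)
    (hj : ∀ j, 1 ≤ j → j < k →
      (Polynomial.taylor (PowerSeries.coeff 0 F) p).coeff j = 0) :
    PowerSeries.coeff (k * i) (Polynomial.aeval F p) =
      (Polynomial.taylor (PowerSeries.coeff 0 F) p).coeff k * PowerSeries.coeff i F ^ k := by
  conv_lhs => rw [eq_tl hi h]
  rw [coeff_comp, Finset.sum_eq_single k]
  · rw [mul_comm i k, if_pos le_rfl, Nat.sub_self]
    congr 1
    have : PowerSeries.coeff 0 (tl i F ^ k) = (PowerSeries.coeff 0 (tl i F)) ^ k := by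
      simp [PowerSeries.coeff_zero_eq_constantCoeff]
    rw [this, coeff_tl, add_zero]
  · intro j _ hjk
    rcases Nat.eq_zero_or_pos j with h1 | h1
    · subst h1
      have : 1 ≤ k * i := Nat.mul_pos hk hi
      rw [mul_zero, if_pos (Nat.zero_le _), pow_zero, Nat.sub_zero, PowerSeries.coeff_one,
        if_neg (by omega), mul_zero]
    · by_cases h2 : j < k
      · rw [hj j h1 h2, zero_mul]
      · rw [if_neg, mul_zero]
        have h3 : (k + 1) * i ≤ j * i := Nat.mul_le_mul_right i (by omega)
        rw [mul_comm i j]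
        have h4 : (k + 1) * i = k * i + i := by ring
        omega
  · intro hk'
    rw [Polynomial.coeff_eq_zero_of_natDegree_lt, zero_mul]
    rw [Polynomial.natDegree_taylor]
    simp only [Finset.mem_range, not_lt] at hk'
    omega

theorem zero_comp (F : PowerSeries ℂ) : PowerSeries.coeff 0 (Polynomial.aeval F p) =
    p.eval (PowerSeries.coeff 0 F) := by
  rw [PowerSeries.coeff_zero_eq_constantCoeff]
  induction p using Polynomial.induction_on' with
  | add p q hp hq => rw [map_add, map_add, hp, hq, Polynomial.eval_add]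
  | monomial n a =>
    rw [Polynomial.aeval_monomial, map_mul, map_pow, Polynomial.eval_monomial]
    simp

/-- the dependence of a coefficient of `p(F)` on the last coefficient of `F` -/
theorem next_comp {F : PowerSeries ℂ} {i k n : ℕ} (hi : 1 ≤ i) (hn : 1 ≤ n)
    (h : cut true i F) (hj : ∀ j, 1 ≤ j → j < k →
      (Polynomial.taylor (PowerSeries.coeff 0 F) p).coeff j = 0) (V : PowerSeries ℂ)
    (hV : ∀ r < n, PowerSeries.coeff r V = PowerSeries.coeff (i + r) F)
    (hVn : PowerSeries.coeff n V = 0) :
    PowerSeries.coeff (k * i + n) (Polynomial.aeval F p) =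
      PowerSeries.coeff (k * i + n) (Polynomial.aeval
        (PowerSeries.C (PowerSeries.coeff 0 F) + PowerSeries.X ^ i * V) p) +
      ((k : ℂ) * (Polynomial.taylor (PowerSeries.coeff 0 F) p).coeff k *
        PowerSeries.coeff i F ^ (k - 1)) * PowerSeries.coeff (i + n) F := by
  set c := PowerSeries.coeff 0 F with hc
  have hag : ∀ r < n, PowerSeries.coeff r (tl i F) = PowerSeries.coeff r V := by
    intro r hr
    rw [coeff_tl, hV r hr]
  have key : ∀ j ∈ Finset.range (p.natDegree + 1), (Polynomial.taylor c p).coeff j *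
        (if i * j ≤ k * i + n then PowerSeries.coeff (k * i + n - i * j) (tl i F ^ j) else 0) =
      (Polynomial.taylor c p).coeff j *
        (if i * j ≤ k * i + n then PowerSeries.coeff (k * i + n - i * j) (V ^ j) else 0) +
      (if j = k then ((k : ℂ) * (Polynomial.taylor c p).coeff k *
        PowerSeries.coeff i F ^ (k - 1)) * PowerSeries.coeff (i + n) F else 0) := by
    intro j _
    by_cases hjk : j = k
    · subst hjk
      have h1 : i * j ≤ j * i + n := by rw [mul_comm i j]; omega
      have h2 : j * i + n - i * j = n := by rw [mul_comm i j]; omega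
      rw [if_pos h1, if_pos rfl, if_pos h1, h2, coeff_pow_lead hn hag, coeff_tl, coeff_tl, hVn,
        add_zero, sub_zero]
      ring
    · rw [if_neg hjk, add_zero]
      rcases Nat.lt_or_gt_of_ne hjk with h1 | h1
      · rcases Nat.eq_zero_or_pos j with h2 | h2
        · subst h2
          simp
        · rw [hj j h2 h1, zero_mul, zero_mul]
      · by_cases h2 : i * j ≤ k * i + n
        · rw [if_pos h2, if_pos h2]
          congr 1
          refine coeff_pow_congr hag j _ ?_
          have h3 : (k + 1) * i ≤ j * i := Nat.mul_le_mul_right i (by omega)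
          rw [mul_comm i j] at h2 ⊢
          have h4 : (k + 1) * i = k * i + i := by ring
          omega
        · rw [if_neg h2, if_neg h2]
  conv_lhs => rw [eq_tl hi h, ← hc]
  rw [coeff_comp, coeff_comp, Finset.sum_congr rfl key, Finset.sum_add_distrib]
  congr 1
  rw [Finset.sum_ite_eq']
  by_cases hk : k ∈ Finset.range (p.natDegree + 1)
  · rw [if_pos hk]
  · rw [if_neg hk, Polynomial.coeff_eq_zero_of_natDegree_lt]
    · ring
    · rw [Polynomial.natDegree_taylor]
      simp only [Finset.mem_range, not_lt] at hk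
      omega

/-! ## The multiplicity -/

theorem taylor_zero (c : ℂ) (j : ℕ) (h1 : 1 ≤ j) (h2 : j < mul p c) :
    (Polynomial.taylor c p).coeff j = 0 := by
  have h3 := Polynomial.pow_mul_divByMonic_rootMultiplicity_eq (p - Polynomial.C (p.eval c)) c
  set k := (p - Polynomial.C (p.eval c)).rootMultiplicity c with hk
  set q := (p - Polynomial.C (p.eval c)) /ₘ (Polynomial.X - Polynomial.C c) ^ k with hq
  have hkm : mul p c = k := rfl
  have h4 : Polynomial.taylor c p = Polynomial.X ^ k * Polynomial.taylor c q +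
      Polynomial.C (p.eval c) := by
    have h5 : p = (Polynomial.X - Polynomial.C c) ^ k * q + Polynomial.C (p.eval c) := by
      rw [h3]; ring
    conv_lhs => rw [h5]
    rw [map_add, Polynomial.taylor_mul, Polynomial.taylor_pow]
    simp
  rw [h4, Polynomial.coeff_add, Polynomial.coeff_X_pow_mul', Polynomial.coeff_C,
    if_neg (by omega), if_neg (by omega), add_zero]

theorem taylor_one (c : ℂ) : (Polynomial.taylor c p).coeff 1 = p.derivative.eval c := by
  rw [Polynomial.taylor_coeff_one]

theorem aeval_comp' {ι : Type} (f : MvPolynomial ι ℂ) (z : ι → PowerSeries ℂ) :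
    aeval z (Polynomial.aeval f p) = Polynomial.aeval (aeval z f) p := by
  rw [Polynomial.aeval_algHom_apply]

end VCAux

end Pool.Agent.Mono.RO
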