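import Pool.Agent.Work.Monodromy.Interface5
import Pool.Agent.Work.Monodromy4.VF
import Pool.Agent.Work.Monodromy4.T0

/-!
# Tools for the blocks VGE and VGT: cylinders and regular functions without explicit levels
-/

set_option autoImplicit false
set_option linter.unusedSectionVars false

namespace Pool.Agent.Mono.RO

open MvPolynomial TS

namespace VGAux

section lib

variable {E E' ι κ : Type}

/-- functions given by polynomials in the parameters and finitely many coefficients -/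
def RF (φ : (E → ℂ) × (ι → PowerSeries ℂ) → ℂ) : Prop :=
  ∃ N0 : ℕ, ∀ N, N0 ≤ N →
    (∀ p x y, (∀ i, ∀ l < N, PowerSeries.coeff l (x i) = PowerSeries.coeff l (y i)) →
      φ (p, x) = φ (p, y)) ∧
    ∃ A : MvPolynomial (E ⊕ (Σ _ : ι, Fin N)) ℂ, ∀ v : E ⊕ (Σ _ : ι, Fin N) → ℂ,
      φ ((fun p => v (Sum.inl p)), toArc (fun _ => N) fun s => v (Sum.inr s)) = eval v A

/-- cylinders of some level -/
def Cy (S : Set ((E → ℂ) × (ι → PowerSeries ℂ))) : Prop :=
  ∃ N0 : ℕ, ∀ N, N0 ≤ N → IsCyl (fun _ => N) S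

theorem RF.const (c : ℂ) : RF fun _ : (E → ℂ) × (ι → PowerSeries ℂ) => c :=
  ⟨0, fun _ _ => ⟨fun _ _ _ _ => rfl, C c, fun v => by simp⟩⟩

theorem RF.par (e : E) : RF fun z : (E → ℂ) × (ι → PowerSeries ℂ) => z.1 e :=
  ⟨0, fun _ _ => ⟨fun _ _ _ _ => rfl, X (Sum.inl e), fun v => by simp⟩⟩

theorem RF.coef [Fintype ι] (f : MvPolynomial ι ℂ) (l : ℕ) :
    RF fun z : (E → ℂ) × (ι → PowerSeries ℂ) => PowerSeries.coeff l (aeval z.2 f) := by
  classical
  refine ⟨l + 1, fun N hN => ⟨fun p x y h => ?_, GJetAux.cA E (fun _ => N) f l, fun v => ?_⟩⟩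
  · exact GJetAux.aeval_congr f N x y h l (by omega)
  · rw [GJetAux.eval_cA]

theorem RF.arc (i : ι) (l : ℕ) :
    RF fun z : (E → ℂ) × (ι → PowerSeries ℂ) => PowerSeries.coeff l (z.2 i) := by
  refine ⟨l + 1, fun N hN => ⟨fun p x y h => ?_, X (Sum.inr ⟨i, ⟨l, by omega⟩⟩), fun v => ?_⟩⟩
  · exact h i l (by omega)
  · simp only [eval_X]
    rw [toArc, PowerSeries.coeff_mk, dif_pos (by omega)]

theorem RF.add {φ ψ : (E → ℂ) × (ι → PowerSeries ℂ) → ℂ} (h : RF φ) (h' : RF ψ) :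
    RF fun z => φ z + ψ z := by
  obtain ⟨N, hN⟩ := h
  obtain ⟨N', hN'⟩ := h'
  refine ⟨max N N', fun M hM => ?_⟩
  obtain ⟨h1, A, hA⟩ := hN M (by omega)
  obtain ⟨h2, B, hB⟩ := hN' M (by omega)
  exact ⟨fun p x y h => by dsimp only; rw [h1 p x y h, h2 p x y h], A + B, fun v => by
    dsimp only
    rw [map_add, hA, hB]⟩

theorem RF.mul {φ ψ : (E → ℂ) × (ι → PowerSeries ℂ) → ℂ} (h : RF φ) (h' : RF ψ) :
    RF fun z => φ z * ψ z := by
  obtain ⟨N, hN⟩ := h
  obtain ⟨N', hN'⟩ := h'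
  refine ⟨max N N', fun M hM => ?_⟩
  obtain ⟨h1, A, hA⟩ := hN M (by omega)
  obtain ⟨h2, B, hB⟩ := hN' M (by omega)
  exact ⟨fun p x y h => by dsimp only; rw [h1 p x y h, h2 p x y h], A * B, fun v => by
    dsimp only
    rw [map_mul, hA, hB]⟩

theorem RF.eval {σ : Type} {φ : σ → (E → ℂ) × (ι → PowerSeries ℂ) → ℂ} (h : ∀ s, RF (φ s))
    (A : MvPolynomial σ ℂ) : RF fun z => MvPolynomial.eval (fun s => φ s z) A := by
  induction A using MvPolynomial.induction_on with
  | C a => simpa using RF.const a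
  | add p q hp hq => simpa using hp.add hq
  | mul_X p i hp => simpa using hp.mul (h i)

theorem RF.ite {φ ψ : (E → ℂ) × (ι → PowerSeries ℂ) → ℂ} (p : Prop) [Decidable p] (h : RF φ)
    (h' : RF ψ) : RF fun z => if p then φ z else ψ z := by
  by_cases hp : p
  · simpa [hp] using h
  · simpa [hp] using h'

/-- substitution of regular functions -/
theorem Cy.pull [Finite E] {C : Set ((E → ℂ) × (κ → PowerSeries ℂ))} (hC : Cy C)
    {φ : E → (E' → ℂ) × (ι → PowerSeries ℂ) → ℂ} (h : ∀ s, RF (φ s)) (τ : κ → ι) :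
    Cy {z : (E' → ℂ) × (ι → PowerSeries ℂ) | ((fun s => φ s z), fun a => z.2 (τ a)) ∈ C} := by
  classical
  have := Fintype.ofFinite E
  obtain ⟨N, hN⟩ := hC
  choose M hM using h
  refine ⟨max N (Finset.univ.sup M), fun R hR => ?_⟩
  have hR1 : N ≤ R := le_trans (le_max_left _ _) hR
  have hR2 : ∀ s, M s ≤ R := fun s =>
    le_trans (Finset.le_sup (f := M) (Finset.mem_univ s)) (le_trans (le_max_right _ _) hR)
  obtain ⟨hC1, hC2⟩ := hN R hR1
  have h1 : ∀ s p x y, (∀ i, ∀ l < R, PowerSeries.coeff l (x i) = PowerSeries.coeff l (y i)) →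
      φ s (p, x) = φ s (p, y) := fun s => (hM s R (hR2 s)).1
  have h2 : ∀ s, ∃ A : MvPolynomial (E' ⊕ (Σ _ : ι, Fin R)) ℂ,
      ∀ v : E' ⊕ (Σ _ : ι, Fin R) → ℂ, φ s ((fun p => v (Sum.inl p)),
        toArc (fun _ => R) fun s => v (Sum.inr s)) = MvPolynomial.eval v A :=
    fun s => (hM s R (hR2 s)).2
  choose A hA using h2
  constructor
  · intro p x y hxy
    have e : (fun s => φ s (p, x)) = fun s => φ s (p, y) := funext fun s => h1 s p x y hxy
    change (((fun s => φ s (p, x)), fun a => x (τ a)) ∈ C) ↔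
      (((fun s => φ s (p, y)), fun a => y (τ a)) ∈ C)
    rw [e]
    exact hC1 _ _ _ fun i l hl => hxy (τ i) l hl
  · have h3 : sec (fun _ => R) {z : (E' → ℂ) × (ι → PowerSeries ℂ) |
        ((fun s => φ s z), fun a => z.2 (τ a)) ∈ C} =
        {v | (fun j => MvPolynomial.eval v (Sum.elim A
          (fun s : Σ _ : κ, Fin R => X (Sum.inr ⟨τ s.1, s.2⟩)) j)) ∈ sec (fun _ => R) C} := by
      ext v
      have e1 : (fun s => φ s ((fun p => v (Sum.inl p)),
          toArc (fun _ => R) fun s => v (Sum.inr s))) = fun s => MvPolynomial.eval v (A s) :=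
        funext fun s => hA s v
      have e2 : (fun a => toArc (fun _ : ι => R) (fun s => v (Sum.inr s)) (τ a)) =
          toArc (fun _ : κ => R) fun s => MvPolynomial.eval v (X (Sum.inr ⟨τ s.1, s.2⟩)) := by
        funext a
        simp only [toArc, eval_X]
      change ((fun s => φ s ((fun p => v (Sum.inl p)),
          toArc (fun _ => R) fun s => v (Sum.inr s))),
          fun a => toArc (fun _ : ι => R) (fun s => v (Sum.inr s)) (τ a)) ∈ C ↔ _
      rw [e1, e2]
      exact Iff.rfl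
    rw [h3]
    exact Constructible.preimage _ hC2

theorem Cy.param {B : Set (E → ℂ)} (hB : Constructible B) :
    Cy {z : (E → ℂ) × (ι → PowerSeries ℂ) | z.1 ∈ B} :=
  ⟨0, fun _ _ => IsCyl.param hB⟩

theorem Cy.mem [Finite E] {B : Set (E → ℂ)} (hB : Constructible B)
    {φ : E → (E' → ℂ) × (ι → PowerSeries ℂ) → ℂ} (h : ∀ s, RF (φ s)) :
    Cy {z : (E' → ℂ) × (ι → PowerSeries ℂ) | (fun s => φ s z) ∈ B} :=
  (Cy.param (ι := Empty) hB).pull h Empty.elim

theorem Cy.zero {φ : (E → ℂ) × (ι → PowerSeries ℂ) → ℂ} (h : RF φ) : Cy {z | φ z = 0} := by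
  have := Cy.mem (Constructible.zero (X () : MvPolynomial Unit ℂ)) (φ := fun _ => φ)
    (fun _ => h)
  simpa using this

theorem Cy.and {S T : (E → ℂ) × (ι → PowerSeries ℂ) → Prop} (hS : Cy {z | S z})
    (hT : Cy {z | T z}) : Cy {z | S z ∧ T z} := by
  obtain ⟨N, hN⟩ := hS
  obtain ⟨N', hN'⟩ := hT
  exact ⟨max N N', fun M hM => (hN M (by omega)).inter (hN' M (by omega))⟩

theorem Cy.inter {S T : Set ((E → ℂ) × (ι → PowerSeries ℂ))} (hS : Cy S)
    (hT : Cy T) : Cy (S ∩ T) := Cy.and hS hT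

theorem Cy.not {S : (E → ℂ) × (ι → PowerSeries ℂ) → Prop} (hS : Cy {z | S z}) :
    Cy {z | ¬ S z} := by
  obtain ⟨N, hN⟩ := hS
  exact ⟨N, fun M hM => (hN M hM).compl⟩

theorem Cy.univ : Cy (Set.univ : Set ((E → ℂ) × (ι → PowerSeries ℂ))) :=
  ⟨0, fun _ _ => IsCyl.univ⟩

theorem Cy.of_prop (p : Prop) : Cy {_z : (E → ℂ) × (ι → PowerSeries ℂ) | p} := by
  by_cases h : p
  · simpa [h] using Cy.univ (E := E) (ι := ι)
  · have h1 : Cy (∅ : Set ((E → ℂ) × (ι → PowerSeries ℂ))) := ⟨0, fun _ _ => IsCyl.empty⟩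
    simpa only [h, Set.setOf_false] using h1

theorem Cy.imp {p : Prop} {S : (E → ℂ) × (ι → PowerSeries ℂ) → Prop} (hS : p → Cy {z | S z}) :
    Cy {z | p → S z} := by
  by_cases h : p
  · simpa [h] using hS h
  · simpa [h] using Cy.univ (E := E) (ι := ι)

theorem Cy.all_lt {S : ℕ → (E → ℂ) × (ι → PowerSeries ℂ) → Prop} (n : ℕ)
    (hS : ∀ l < n, Cy {z | S l z}) : Cy {z | ∀ l < n, S l z} := by
  induction n with
  | zero => simpa using Cy.univ (E := E) (ι := ι)
  | succ n ih =>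
    have h1 := Cy.and (ih fun l hl => hS l (by omega)) (hS n (Nat.lt_succ_self n))
    convert h1 using 2
    ext z
    constructor
    · exact fun h => ⟨fun l hl => h l (by omega), h n (Nat.lt_succ_self n)⟩
    · rintro ⟨h2, h3⟩ l hl
      rcases Nat.lt_succ_iff_lt_or_eq.1 hl with h | rfl
      · exact h2 l h
      · exact h3

theorem Cy.eq {φ ψ : (E → ℂ) × (ι → PowerSeries ℂ) → ℂ} (h : RF φ) (h' : RF ψ) :
    Cy {z | φ z = ψ z} := by
  have h1 := Cy.zero (h.add ((RF.const (-1)).mul h'))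
  convert h1 using 2
  ext z
  constructor
  · intro h2
    change φ z + (-1) * ψ z = 0
    rw [h2]
    ring
  · intro h2
    change φ z + (-1) * ψ z = 0 at h2
    change φ z = ψ z
    linear_combination h2

end lib

section vol

variable {E E' ι κ : Type} [Finite E] [Finite E'] [Fintype ι] [Fintype κ] (P : HodgeMeasure)

theorem vol_uni {S T : Set ((E → ℂ) × (ι → PowerSeries ℂ))} (hS : Cy S) (hT : Cy T)
    (h : Disjoint S T) : vol P.rat xq (S ∪ T) = vol P.rat xq S + vol P.rat xq T := by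
  obtain ⟨N, hN⟩ := hS
  obtain ⟨N', hN'⟩ := hT
  exact vol_union P.rat (VAAux.L_mul P) (hN (max N N') (le_max_left _ _))
    (hN' (max N N') (le_max_right _ _)) h

theorem Cy.biUnion {α : Type} (F : Finset α) {s : α → Set ((E → ℂ) × (ι → PowerSeries ℂ))}
    (h : ∀ a ∈ F, Cy (s a)) : Cy (⋃ a ∈ F, s a) := by
  classical
  choose! N hN using h
  refine ⟨F.sup N, fun M hM => IsCyl.biUnion F fun a ha => hN a ha M ?_⟩
  exact le_trans (Finset.le_sup (f := N) ha) hM

theorem vol_biU {α : Type} (F : Finset α) {s : α → Set ((E → ℂ) × (ι → PowerSeries ℂ))}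
    (h : ∀ a ∈ F, Cy (s a)) (hd : ∀ a ∈ F, ∀ b ∈ F, a ≠ b → Disjoint (s a) (s b)) :
    vol P.rat xq (⋃ a ∈ F, s a) = ∑ a ∈ F, vol P.rat xq (s a) := by
  classical
  choose! N hN using h
  refine vol_biUnion P.rat (VAAux.L_mul P) F (K := fun _ => F.sup N) (fun a ha => hN a ha _ ?_) hd
  exact Finset.le_sup (f := N) ha

/-- more parameters, determined by the others -/
theorem vol_base {D : Set ((E' → ℂ) × (ι → PowerSeries ℂ))}
    {D0 : Set ((E → ℂ) × (ι → PowerSeries ℂ))} (hD : Cy D) (hD0 : Cy D0) (r : E → E')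
    (h1 : ∀ z ∈ D, ((fun e => z.1 (r e)), z.2) ∈ D0)
    (h2 : ∀ z ∈ D, ∀ z' ∈ D, (fun e => z.1 (r e)) = (fun e => z'.1 (r e)) → z.2 = z'.2 →
      z.1 = z'.1)
    (h3 : ∀ z ∈ D0, ∃ p : E' → ℂ, (fun e => p (r e)) = z.1 ∧ (p, z.2) ∈ D) :
    vol P.rat xq D = vol P.rat xq D0 := by
  obtain ⟨N, hN⟩ := hD
  obtain ⟨N', hN'⟩ := hD0
  have hc := hN (max N N') (le_max_left _ _)
  have hc' := hN' (max N N') (le_max_right _ _)
  have hL := VAAux.L_mul P
  rw [vol_eq P.rat hL hc, vol_eq P.rat hL hc']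
  congr 1
  set M := max N N'
  refine P.rat.map _ _ (Sum.elim (fun e => X (Sum.inl (r e))) fun s => X (Sum.inr s)) hc.2 hc'.2
    ⟨?_, ?_, ?_⟩
  · intro v hv
    have := h1 _ hv
    change ((fun e => eval v (X (Sum.inl (r e)))), toArc _ fun s => eval v (X (Sum.inr s))) ∈ D0
    simpa only [eval_X] using this
  · intro v hv v' hv' hvv
    have e1 : (fun e => v (Sum.inl (r e))) = fun e => v' (Sum.inl (r e)) := by
      funext e
      have := congrFun hvv (Sum.inl e)
      simpa using this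
    have e2 : (fun s : (Σ _ : ι, Fin M) => v (Sum.inr s)) = fun s => v' (Sum.inr s) := by
      funext s
      have := congrFun hvv (Sum.inr s)
      simpa using this
    have e3 := h2 _ hv _ hv' e1 (by rw [e2])
    funext s
    rcases s with e | s
    · exact congrFun e3 e
    · exact congrFun e2 s
  · intro w hw
    obtain ⟨p, hp, hpD⟩ := h3 _ hw
    refine ⟨Sum.elim p fun s => w (Sum.inr s), hpD, ?_⟩
    funext s
    rcases s with e | s
    · simpa using congrFun hp e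
    · simp

/-- exchange of the two groups of arcs -/
theorem vol_swap {S : Set ((E → ℂ) × (ι ⊕ κ → PowerSeries ℂ))} (hS : Cy S) :
    vol P.rat xq {z : (E → ℂ) × (κ ⊕ ι → PowerSeries ℂ) | (z.1, fun i => z.2 (Sum.swap i)) ∈ S} =
      vol P.rat xq S := by
  obtain ⟨N, hN⟩ := hS
  exact T0Aux.vol_comp P (φ := Sum.swap) (fun a b h => by
    have := congrArg Sum.swap h
    simpa using this) (hN N le_rfl)

end vol

end VGAux

end Pool.Agent.Mono.RO
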