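import Pool.Agent.Work.Monodromy.Interface5
import Pool.Agent.Work.Monodromy4.W4

/-!
# Powers of units acting on torsion vectors (helper98)
-/

set_option autoImplicit false
set_option linter.unusedSectionVars false

namespace Pool.Agent.Mono.RO

open MvPolynomial TS TS.WBAux

namespace WUAux

/-- binomial coefficients -/
noncomputable def bn (g : ℂ) : ℕ → ℂ
  | 0 => 1
  | k + 1 => bn g k * (g - k) / (k + 1)

theorem bn_succ (g : ℂ) (k : ℕ) : ((k : ℂ) + 1) * bn g (k + 1) = bn g k * (g - k) := by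
  have h : (k : ℂ) + 1 ≠ 0 := Nat.cast_add_one_ne_zero k
  rw [bn]
  field_simp

theorem bn_mul (g : ℂ) (k : ℕ) : ((k : ℂ) + 1) * bn g (k + 1) = g * bn (g - 1) k := by
  induction k with
  | zero =>
    rw [bn_succ]
    simp [bn]
  | succ k ih =>
    have h : (k : ℂ) + 1 ≠ 0 := Nat.cast_add_one_ne_zero k
    have h1 := bn_succ g (k + 1)
    have h2 := bn_succ (g - 1) k
    rw [h1]
    apply mul_left_cancel₀ h
    push_cast
    linear_combination (g - (k + 1)) * ih - g * h2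

theorem bn_pascal (g : ℂ) (k : ℕ) : bn g (k + 1) = bn (g - 1) k + bn (g - 1) (k + 1) := by
  have h : (k : ℂ) + 1 ≠ 0 := Nat.cast_add_one_ne_zero k
  have h1 := bn_mul g k
  have h2 := bn_succ (g - 1) k
  apply mul_left_cancel₀ h
  linear_combination h1 - h2

section

variable {V ι : Type} [AddCommGroup V] [Module ℂ V] [DecidableEq ι]

/-- the truncated power -/
noncomputable def BB (n : MvPolynomial ι ℂ) (c g : ℂ) (M : ℕ) : MvPolynomial ι ℂ :=
  ∑ k ∈ Finset.range M, C (bn g k * c⁻¹ ^ k) * n ^ k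

theorem BB_succ (n : MvPolynomial ι ℂ) (c g : ℂ) (M : ℕ) :
    BB n c g (M + 1) = BB n c g M + C (bn g M * c⁻¹ ^ M) * n ^ M := by
  rw [BB, Finset.sum_range_succ]
  rfl

theorem BB_one (n : MvPolynomial ι ℂ) (c g : ℂ) : BB n c g 1 = 1 := by
  simp [BB, bn]

theorem BB_mul (n : MvPolynomial ι ℂ) {c : ℂ} (hc : c ≠ 0) (g : ℂ) (M : ℕ) :
    (C c + n) * BB n c (g - 1) (M + 1) =
      C c * BB n c g (M + 1) + C (bn (g - 1) M * c⁻¹ ^ M) * n ^ (M + 1) := by
  induction M with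
  | zero =>
    simp [BB, bn]
  | succ M ih =>
    rw [BB_succ n c (g - 1) (M + 1), BB_succ n c g (M + 1), mul_add, ih, bn_pascal g M]
    have h1 : c * c⁻¹ ^ (M + 1) = c⁻¹ ^ M := by
      rw [pow_succ', ← mul_assoc, mul_inv_cancel₀ hc, one_mul]
    have h2 : (C c : MvPolynomial ι ℂ) * C (c⁻¹ ^ (M + 1)) = C (c⁻¹ ^ M) := by
      rw [← C_mul, h1]
    simp only [C_mul, C_add]
    linear_combination (-(C (bn (g - 1) M) * n ^ (M + 1))) * h2

theorem BB_pderiv (n : MvPolynomial ι ℂ) (c g : ℂ) (M : ℕ) (a : ι) :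
    pderiv a (BB n c g (M + 1)) = C (g * c⁻¹) * pderiv a n * BB n c (g - 1) M := by
  induction M with
  | zero =>
    rw [BB_one, pderiv_one]
    simp [BB]
  | succ M ih =>
    rw [BB_succ n c g (M + 1), BB_succ n c (g - 1) M, map_add, ih, mul_add, pderiv_C_mul,
      pderiv_pow, Nat.add_sub_cancel]
    congr 1
    have h1 := bn_mul g M
    have h2 : (C ((M : ℂ) + 1) : MvPolynomial ι ℂ) * C (bn g (M + 1)) = C g * C (bn (g - 1) M) := by
      rw [← C_mul, h1, C_mul]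
    have h3 : (((M + 1 : ℕ) : ℕ) : MvPolynomial ι ℂ) = C ((M : ℂ) + 1) := by
      rw [C_add, C_1, map_natCast C M]
      push_cast
      rfl
    rw [h3]
    simp only [C_mul, pow_succ]
    linear_combination (C (c⁻¹ ^ M) * C c⁻¹ * n ^ M * pderiv a n) * h2

variable (w : BP.WMod ℂ V ι) (n : MvPolynomial ι ℂ) (c : ℂ)

/-- torsion vectors -/
def Tor (x : V) : Prop := ∃ M : ℕ, w.pX (n ^ M) x = 0

open Classical in
/-- the power `(c + n)^g`, divided by `c^g`, on torsion vectors -/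
noncomputable def UA (g : ℂ) (x : V) : V :=
  if h : Tor w n x then w.pX (BB n c g h.choose) x else 0

variable {w n c}

theorem tor_mono {x : V} {M M' : ℕ} (h : w.pX (n ^ M) x = 0) (hM : M ≤ M') :
    w.pX (n ^ M') x = 0 := by
  obtain ⟨k, rfl⟩ := Nat.exists_eq_add_of_le hM
  rw [add_comm M k, pow_add, pX_mul, h, map_zero]

theorem BB_indep {x : V} {g : ℂ} {M M' : ℕ} (h : w.pX (n ^ M) x = 0) (hM : M ≤ M') :
    w.pX (BB n c g M') x = w.pX (BB n c g M) x := by
  obtain ⟨k, rfl⟩ := Nat.exists_eq_add_of_le hM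
  induction k with
  | zero => rfl
  | succ k ih =>
    rw [← add_assoc, BB_succ, pX_add, ih (Nat.le_add_right _ _), pX_mul,
      tor_mono h (Nat.le_add_right M k), map_zero, add_zero]

theorem UA_eq {x : V} (g : ℂ) {M : ℕ} (h : w.pX (n ^ M) x = 0) :
    UA w n c g x = w.pX (BB n c g M) x := by
  have hT : Tor w n x := ⟨M, h⟩
  rw [UA, dif_pos hT]
  rcases le_total M hT.choose with h1 | h1
  · exact BB_indep h h1
  · exact (BB_indep hT.choose_spec h1).symm

theorem Tor.pX {x : V} (h : Tor w n x) (p : MvPolynomial ι ℂ) : Tor w n (w.pX p x) := by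
  obtain ⟨M, hM⟩ := h
  exact ⟨M, by rw [pX_comm, hM, map_zero]⟩

theorem Tor.smul {x : V} (h : Tor w n x) (a : ℂ) : Tor w n (a • x) := by
  obtain ⟨M, hM⟩ := h
  exact ⟨M, by rw [map_smul, hM, smul_zero]⟩

theorem D_pX_apply (a : ι) (p : MvPolynomial ι ℂ) (x : V) :
    w.D' a (w.pX p x) = w.pX p (w.D' a x) + w.pX (pderiv a p) x := by
  have h := congrArg (fun T : Module.End ℂ V => T x) (w.D_pX a p)
  simpa only [Module.End.mul_apply, LinearMap.add_apply] using h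

theorem tor_D {x : V} {M : ℕ} (h : w.pX (n ^ M) x = 0) (a : ι) :
    w.pX (n ^ (M + 1)) (w.D' a x) = 0 := by
  have h1 := D_pX_apply (w := w) a (n ^ (M + 1)) x
  rw [tor_mono h (Nat.le_succ M), map_zero, pderiv_pow, Nat.add_sub_cancel,
    mul_comm, pX_mul, pX_mul, h, map_zero, map_zero, add_zero] at h1
  exact h1.symm

theorem Tor.D {x : V} (h : Tor w n x) (a : ι) : Tor w n (w.D' a x) := by
  obtain ⟨M, hM⟩ := h
  exact ⟨M + 1, tor_D hM a⟩

theorem UA_pX {x : V} (h : Tor w n x) (g : ℂ) (p : MvPolynomial ι ℂ) :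
    w.pX p (UA w n c g x) = UA w n c g (w.pX p x) := by
  obtain ⟨M, hM⟩ := h
  have h1 : w.pX (n ^ M) (w.pX p x) = 0 := by rw [pX_comm, hM, map_zero]
  rw [UA_eq g hM, UA_eq g h1, pX_comm]

theorem UA_smul {x : V} (h : Tor w n x) (g a : ℂ) :
    UA w n c g (a • x) = a • UA w n c g x := by
  obtain ⟨M, hM⟩ := h
  have h1 : w.pX (n ^ M) (a • x) = 0 := by rw [map_smul, hM, smul_zero]
  rw [UA_eq g hM, UA_eq g h1, map_smul]

theorem UA_zero (g : ℂ) : UA w n c g (0 : V) = 0 := by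
  have h : w.pX (n ^ 0) (0 : V) = 0 := map_zero _
  rw [UA_eq g h, map_zero]

theorem UA_mul {x : V} (hc : c ≠ 0) (h : Tor w n x) (g : ℂ) :
    w.pX (C c + n) (UA w n c (g - 1) x) = c • UA w n c g x := by
  obtain ⟨M, hM⟩ := h
  have h1 := tor_mono hM (Nat.le_succ M)
  rw [UA_eq (g - 1) h1, UA_eq g h1, ← pX_mul, BB_mul n hc g M, pX_add, pX_mul, pX_C, pX_mul, h1,
    map_zero, add_zero]

theorem UA_D {x : V} (h : Tor w n x) (g : ℂ) (a : ι) :
    w.D' a (UA w n c g x) = UA w n c g (w.D' a x) +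
      (g * c⁻¹) • w.pX (pderiv a n) (UA w n c (g - 1) x) := by
  obtain ⟨M, hM⟩ := h
  have h1 := tor_mono hM (Nat.le_succ M)
  rw [UA_eq g h1, UA_eq (g - 1) hM, UA_eq g (tor_D hM a), D_pX_apply, BB_pderiv, pX_mul, pX_mul,
    pX_C]

theorem UA_ne {x : V} (hx : x ≠ 0) (h : Tor w n x) (g : ℂ) : UA w n c g x ≠ 0 := by
  classical
  intro h0
  have h' : ∃ M : ℕ, w.pX (n ^ M) x = 0 := h
  rcases Nat.eq_zero_or_pos (Nat.find h') with h1 | h1
  · have h2 := Nat.find_spec h'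
    rw [h1, pow_zero, map_one] at h2
    exact hx h2
  · obtain ⟨k, hk⟩ : ∃ k, Nat.find h' = k + 1 := ⟨Nat.find h' - 1, by omega⟩
    have h2 := Nat.find_spec h'
    have h3 : w.pX (n ^ k) x ≠ 0 := Nat.find_min h' (by omega)
    rw [hk, pow_succ', pX_mul] at h2
    have h4 : w.pX (n ^ 1) (w.pX (n ^ k) x) = 0 := by rwa [pow_one]
    have h5 := UA_pX (c := c) h g (n ^ k)
    rw [h0, map_zero, UA_eq g h4, BB_one, map_one] at h5
    exact h3 h5.symm

end

end WUAux

end Pool.Agent.Mono.RO
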